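import Pool.Agent.H20.Fib.GAt
import Pool.Agent.H98.Fib.MkJ

/-!
# Soundness of the checks of the edge constants

`alLow`, `alHigh`, `alFix` of EdgeC.lean.  For a word `w` with orientation `o` the low edge is `hl w` if
`o = false` and `hr w` if `o = true`, with the constants `A w`, `B w`; the high edge is the other one
(`sel`).  `exists_consts`: there are constants `A, B > 0` with `A (0 :: w) = A w / μ`,
`B (2 :: w) = B w / μ` such that at the low / high edge of every word the product of the constant with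
the derivative of `Z w` is given by the quadratic polynomial `aL` / `aH` of its class.
-/

namespace Pool.Agent.H20.Fib

open TM
open Pool.Agent.H98.Fib (xs Sig FixPt Tube TubeJ mkTubeJ)
open Pool.Agent.H98.Fib.Tube (rep rep_cons)

/-! ### Models -/

section models

attribute [local irreducible] TM.Rep TM.mul TM.add TM.sub TM.neg TM.inv TM.sqrt TM.one TM.nsm TM.sc

variable {ρ : Env}

theorem rep_updU (up : Upd) {Ut : TM} {u : ℝ} (h : Rep ρ Ut u) : Rep ρ (updU up Ut) (up.uR u) :=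
  rep_quadAt h

theorem rep_upd (up : Upd) : Rep ρ (quadU up.a0 up.a1 up.a2) (up.uR ρ.u) := rep_quadU _ _ _

theorem al_abs (z q : ℝ) : |z - q / 2 ^ 40| * 2 ^ 40 = |z * 2 ^ 40 - q| := by
  rw [← abs_of_pos (show (0 : ℝ) < 2 ^ 40 by positivity), ← abs_mul, abs_of_pos
    (show (0 : ℝ) < 2 ^ 40 by positivity)]
  congr 1
  field_simp

theorem rep_edgeTm {e : EdgeL} {Ut : TM} {u z : ℝ} (hU : Rep ρ Ut u)
    (h : |z * 2 ^ 40 - (e.b0 + e.b1 * u + e.b2 * u ^ 2)| ≤ (e.r : ℝ)) : Rep ρ (e.tm Ut) z := by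
  refine rep_blow (rep_quadAt hU) ?_
  rw [al_abs]
  exact h

theorem rep_q3Tm {q : Q3} {Ut : TM} {u z : ℝ} (hU : Rep ρ Ut u)
    (h : |z * 2 ^ 40 - (q.a0 + q.a1 * u + q.a2 * u ^ 2)| ≤ (q.r : ℝ)) : Rep ρ (q.tm Ut) z := by
  refine rep_blow (rep_quadAt hU) ?_
  rw [al_abs]
  exact h

/-- `X` and `sig` at a point of the tube. -/
theorem rep_xAt {lam : ℝ} {c : Cls} {u eta : ℝ} {f : Fr} {E : ℝ} (hT : PT lam c u eta f E) {k : ℕ}
    {Z Ut : TM} (hU : Rep ρ Ut u) (hZ : Rep ρ Z (f.Z lam E)) (hc : inCell c k Z = true) :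
    Rep ρ (xAt c k Z Ut) (f.X lam E) ∧ Rep ρ (sAt c k Z Ut) (f.sig lam E) := by
  unfold inCell at hc
  rw [Bool.and_eq_true] at hc
  obtain ⟨h1, h2⟩ := hc
  have hk : k < c.len := by
    simpa [Nat.blt_eq] using h1
  have hτ := LineS_tau hZ h2
  have hI := hT k hk _ hτ (by ring)
  have g1 := rep_tauOf (mid := c.mid k) hZ
  have g3 := ImgRep_cast (rep_mul g1 g1) (sq _).symm
  have g5 := ImgRep_cast (rep_mul hU hU) (sq _).symm
  exact ⟨rep_blow (rep_ev6 g1 hU g3 (rep_mul g1 hU) g5) hI.X,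
    rep_blow (rep_ev6 g1 hU g3 (rep_mul g1 hU) g5) hI.S⟩

end models

/-! ### The growth factor -/

/-- growth of the derivative of `Z` under the letter `i` -/
noncomputable def grR (lam : ℝ) (i : ℕ) (f : Fr) (E : ℝ) : ℝ :=
  (imgR i (1 + lam ^ 2 / 4) (f.Z lam E) (f.X lam E) (f.sig lam E) 0).g

theorem al_g (i : ℕ) (k1 Z X S T T' : ℝ) : (imgR i k1 Z X S T).g = (imgR i k1 Z X S T').g := by
  match i with
  | 0 => rfl
  | 1 => rfl
  | (n + 2) => rfl

/-- The derivative of the child's `Z`. -/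
theorem al_Z1 {f : Fr} {lam E : ℝ} (hf : f.ok) (hD : 0 < f.Y lam E - f.X lam E * f.Z lam E)
    (hs : f.Z1 lam E ≠ 0) (i : ℕ) : (f.ch i).Z1 lam E = f.Z1 lam E * grR lam i f E := by
  obtain ⟨hW, hV⟩ := Fr.next_eq hf hD
  obtain ⟨hW1, hW2⟩ := Fr.Step_w hf hD hs
  obtain ⟨hV1, hV2⟩ := Fr.Step_v hf hD hs
  unfold grR
  rw [al_g i _ _ _ _ 0 (f.tau lam E)]
  match i with
  | 0 =>
    show -f.e2 * xs1 lam E (f.m + 4) = f.Z1 lam E *
      -(v1R (1 + lam ^ 2 / 4) (f.Z lam E) (f.X lam E) (f.sig lam E))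
    linear_combination -hV1
  | 1 =>
    obtain ⟨u0, u1, u2⟩ := Fr.Step_u hf hD hs hW hV hW1 hW2 hV1 hV2
    exact u1
  | (n + 2) => exact hV1

/-- The derivative of `Z` of the child of a state. -/
theorem al_dZ {lam : ℝ} {N : ℕ} {cls : ℕ → Cls} {dat : ℕ → ClsD} {s : WSt} (hs : s.Good N)
    (j : Fin 3) {E : ℝ} (hP : s.Pt lam cls E) :
    sgF (s.ch dat j).o * (s.ch dat j).f.Z1 lam E =
      sgF s.o * s.f.Z1 lam E * grR lam (WSt.cl s.o j) s.f E := by
  show sgF (s.o ^^ ((dat s.ci).arc (WSt.cl s.o j)).fl) *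
      (s.f.chF (WSt.cl s.o j) ((dat s.ci).arc (WSt.cl s.o j)).fl).Z1 lam E = _
  rw [Fr.chF_Z1, al_Z1 hs.f hP.pos (mono_ne hP), sgF_xor]
  have := sgF_mul_self ((dat s.ci).arc (WSt.cl s.o j)).fl
  linear_combination (sgF s.o * s.f.Z1 lam E * grR lam (WSt.cl s.o j) s.f E) * this

section models2

attribute [local irreducible] TM.Rep TM.mul TM.add TM.sub TM.neg TM.inv TM.sqrt TM.one TM.nsm TM.sc

variable {ρ : Env}

/-- The growth factor at an edge. -/
theorem rep_gAt {lam : ℝ} {kap : TM} (hk : KapOK lam kap) (i : ℕ) {c : Cls} {u eta : ℝ} {f : Fr}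
    {E : ℝ} (hT : PT lam c u eta f E) {e : EdgeL} {Ut : TM}
    (hU : ∀ ρ' : Env, ρ'.u = ρ.u → Rep ρ' Ut u)
    (he : |f.Z lam E * 2 ^ 40 - (e.b0 + e.b1 * u + e.b2 * u ^ 2)| ≤ (e.r : ℝ))
    (hc : inCell c e.k (e.tm Ut) = true) : Rep ρ (gAt kap i c e Ut) (grR lam i f E) :=
  gAt_rep hk i (fun _ _ _ _ _ _ => hU _ rfl) hT hc he 0

end models2

/-! ### Orientation -/

/-- selection by the orientation -/
def sel {α : Type} (o : Bool) (a b : α) : α :=
  match o with
  | false => a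
  | true => b

/-- energy letter of the canonical child `0` / `2` -/
def jL (o : Bool) : Fin 3 := sel o 0 2
def jH (o : Bool) : Fin 3 := sel o 2 0

theorem cl_jL (o : Bool) : WSt.cl o (jL o) = 0 := by cases o <;> rfl

theorem cl_jH (o : Bool) : WSt.cl o (jH o) = 2 := by cases o <;> rfl

section states

variable {lam : ℝ} {kap : TM} {N : ℕ} {cls : ℕ → Cls} {dat : ℕ → ClsD}

theorem ch_jL_ci (s : WSt) : (s.ch dat (jL s.o)).ci = (dat s.ci).a0.nx := by
  show ((dat s.ci).arc (WSt.cl s.o (jL s.o))).nx = _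
  rw [cl_jL]
  rfl

theorem ch_jL_u (s : WSt) : (s.ch dat (jL s.o)).u = (dat s.ci).a0.up.uR s.u := by
  show ((dat s.ci).arc (WSt.cl s.o (jL s.o))).up.uR s.u = _
  rw [cl_jL]
  rfl

theorem ch_jH_ci (s : WSt) : (s.ch dat (jH s.o)).ci = (dat s.ci).a2.nx := by
  show ((dat s.ci).arc (WSt.cl s.o (jH s.o))).nx = _
  rw [cl_jH]
  rfl

theorem ch_jH_u (s : WSt) : (s.ch dat (jH s.o)).u = (dat s.ci).a2.up.uR s.u := by
  show ((dat s.ci).arc (WSt.cl s.o (jH s.o))).up.uR s.u = _
  rw [cl_jH]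
  rfl

/-- The orientation of the word `jL b :: w` is `b`. -/
theorem wst_jL (hT : TabOK kap N cls dat) {s0 : WSt} (h0 : s0.Good N) (b : Bool)
    (w : List (Fin 3)) : (wst dat s0 (jL b :: w)).o = b := by
  have hs := wst_good hT h0 w
  cases b with
  | false => exact (Pool.Agent.H98.Fib.ch_zero (hT.fl0 _ hs.ci) (hT.fl2 _ hs.ci)).2
  | true => exact (Pool.Agent.H98.Fib.ch_two (hT.fl0 _ hs.ci) (hT.fl2 _ hs.ci)).2

theorem jH_eq (o : Bool) : jH o = jL (!o) := by cases o <;> rfl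

theorem rep_o (hT : TabOK kap N cls dat) {s0 : WSt} (h0 : s0.Good N) {b : Bool}
    {w : List (Fin 3)} (hw : (wst dat s0 w).o = b) (n : ℕ) :
    (wst dat s0 (rep (jL b) n w)).o = b := by
  cases n with
  | zero => exact hw
  | succ n => exact wst_jL hT h0 b _

theorem rep_ci (hT : TabOK kap N cls dat) {s0 : WSt} (h0 : s0.Good N) {b : Bool}
    {w : List (Fin 3)} (hw : (wst dat s0 w).o = b) (n : ℕ) :
    (wst dat s0 (rep (jL b) n w)).ci = (fun m => (dat m).a0.nx)^[n] (wst dat s0 w).ci := by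
  induction n with
  | zero => rfl
  | succ n ih =>
    have h1 := rep_o hT h0 hw n
    rw [Function.iterate_succ_apply', ← ih]
    have h2 := ch_jL_ci (dat := dat) (wst dat s0 (rep (jL b) n w))
    rw [h1] at h2
    exact h2

end states

/-! ### The constants -/

section consts

variable {lam : ℝ} {S : Tube lam} (J : TubeJ S)

/-- the end of the hull of `w` on the side of the letter `jL b` -/
noncomputable def enE (S : Tube lam) (b : Bool) (w : List (Fin 3)) : ℝ := sel b (S.hl w) (S.hr w)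

theorem enE_cons (b : Bool) (w : List (Fin 3)) : enE S b (jL b :: w) = enE S b w := by
  cases b with
  | false => exact S.hl_cons w
  | true => exact S.hr_cons w

theorem enE_rep (b : Bool) (w : List (Fin 3)) (n : ℕ) : enE S b (rep (jL b) n w) = enE S b w := by
  induction n with
  | zero => rfl
  | succ n ih => exact (enE_cons b _).trans ih

theorem enE_mem (b : Bool) (w : List (Fin 3)) (n : ℕ) :
    S.l (rep (jL b) n w) ≤ enE S b w ∧ enE S b w ≤ S.r (rep (jL b) n w) := by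
  cases b with
  | false => exact S.hl_mem w n
  | true => exact S.hr_mem w n

theorem enE_P (b : Bool) (w : List (Fin 3)) (n : ℕ) : S.P (rep (jL b) n w) (enE S b w) :=
  S.P_of_mem _ (enE_mem b w n).1 (enE_mem b w n).2

/-- `X` with the sign of the side -/
noncomputable def xx (b : Bool) (w : List (Fin 3)) (E : ℝ) : ℝ := sel b (J.X w E) (-J.X w E)

/-- The constant of one word. -/
theorem exists_one {x y μ : ℝ} (F : FixPt lam x y μ) (b : Bool) (w : List (Fin 3))
    (hX : ∀ n, |xx J b (rep (jL b) n w) (enE S b w) - x| ≤ 1 / 100)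
    (hs : |J.sg w (enE S b w) - μ⁻¹| ≤ 1 / 100) :
    ∃ a : ℝ, 0 < a ∧ Filter.Tendsto (fun n => μ ^ n / S.dZ (rep (jL b) n w) (enE S b w))
      Filter.atTop (nhds a) ∧
      |Real.log (a * S.dZ w (enE S b w))| ≤ 122 / 100 * |xx J b w (enE S b w) - x| +
        16 / 100 * |J.sg w (enE S b w) - μ⁻¹| := by
  cases b with
  | false => exact (J.exists_left F w (S.hl_mem w) hX hs).2
  | true => exact (J.exists_right F w (S.hr_mem w) hX hs).2

/-- The constants of all words. -/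
theorem exists_all {x y μ : ℝ} (F : FixPt lam x y μ) (b : Bool) (K : ℕ)
    (hX : ∀ w, |xx J b (rep (jL b) K w) (enE S b w) - x| ≤ 1 / 100)
    (hs : ∀ w, |J.sg (rep (jL b) K w) (enE S b w) - μ⁻¹| ≤ 1 / 100) :
    ∃ A : List (Fin 3) → ℝ, (∀ w, 0 < A w) ∧ (∀ w, A (jL b :: w) = A w / μ) ∧
      ∀ w, Filter.Tendsto (fun n => μ ^ n / S.dZ (rep (jL b) n w) (enE S b w)) Filter.atTop
        (nhds (A w)) := by
  have hμ : 0 < μ := by linarith [F.hμ1]
  have key : ∀ w, ∃ a : ℝ, 0 < a ∧ Filter.Tendsto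
      (fun n => μ ^ n / S.dZ (rep (jL b) n (rep (jL b) K w)) (enE S b w)) Filter.atTop
        (nhds a) := by
    intro w
    have h := exists_one J F b (rep (jL b) K w)
    rw [enE_rep] at h
    obtain ⟨a, ha, ht, -⟩ := h (by
      intro n
      have := hX (rep (jL b) n w)
      rw [TubeJ.rep_add', enE_rep] at this
      rw [TubeJ.rep_add', add_comm]
      exact this) (hs w)
    exact ⟨a, ha, ht⟩
  choose a ha0 ha1 using key
  have hlim : ∀ w, Filter.Tendsto (fun n => μ ^ n / S.dZ (rep (jL b) n w) (enE S b w))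
      Filter.atTop (nhds (μ ^ K * a w)) := fun w =>
    TubeJ.tendsto_shift hμ (jL b) K w (enE S b w) (ha1 w)
  refine ⟨fun w => μ ^ K * a w, fun w => mul_pos (pow_pos hμ K) (ha0 w), ?_, hlim⟩
  intro w
  have h2 := hlim (jL b :: w)
  rw [enE_cons] at h2
  have h3 : Filter.Tendsto (fun n => μ ^ n / S.dZ (rep (jL b) n (jL b :: w)) (enE S b w))
      Filter.atTop (nhds (μ ^ K * a w / μ)) := by
    have h4 := ((Filter.tendsto_add_atTop_iff_nat 1).2 (hlim w)).div_const μ
    refine h4.congr fun n => ?_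
    rw [rep_cons, pow_succ]
    field_simp
  exact tendsto_nhds_unique h2 h3

theorem al_exp {v δ : ℝ} (hv : 0 < v) (hδ : δ ≤ 1 / 1000) (h : |Real.log v| ≤ 99 / 100 * δ) :
    |v - 1| ≤ δ := by
  obtain ⟨y, rfl⟩ : ∃ y, v = Real.exp y := ⟨Real.log v, (Real.exp_log hv).symm⟩
  rw [Real.log_exp] at h
  have h0 := abs_nonneg y
  have hy : |y| ≤ 1 / 1000 := by linarith
  have h1 := Real.abs_exp_sub_one_sub_id_le (x := y) (by linarith)
  have h2 : Real.exp y - 1 = (Real.exp y - 1 - y) + y := by ring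
  rw [h2]
  refine (abs_add_le _ _).trans ?_
  have h3 : y ^ 2 = |y| * |y| := by rw [← sq, sq_abs]
  rw [h3] at h1
  nlinarith

end consts

/-! ### The run in the fixed class -/

section run

variable {lam : ℝ} {kap : TM} {N : ℕ} {cls : ℕ → Cls} {dat : ℕ → ClsD}

/-- The orientation of a word. -/
noncomputable def wo (dat : ℕ → ClsD) (s0 : WSt) (w : List (Fin 3)) : Bool := (wst dat s0 w).o

/-- the low / high edge energy of a word -/
noncomputable def loE (S : Tube lam) (dat : ℕ → ClsD) (s0 : WSt) (w : List (Fin 3)) : ℝ :=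
  sel (wst dat s0 w).o (S.hl w) (S.hr w)

noncomputable def hiE (S : Tube lam) (dat : ℕ → ClsD) (s0 : WSt) (w : List (Fin 3)) : ℝ :=
  sel (wst dat s0 w).o (S.hr w) (S.hl w)

/-- What the end of `fixRun` tells. -/
structure BC (lam x μ : ℝ) (tX tS t : ℕ) (s : WSt) (e : ℝ) : Prop where
  X : |s.f.X lam e - x| * 2 ^ 40 ≤ tX
  S : |s.f.sig lam e - μ⁻¹| * 2 ^ 40 ≤ tS
  c : 122 * tX + 16 * tS ≤ 99 * t
  t : t ≤ 1099511627

variable (hk : KapOK lam kap) (hT : TabOK kap N cls dat) {s0 : WSt} {l r : ℝ}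
  (hR : RootOK lam N cls s0 l r)

section

attribute [local irreducible] TM.Rep TM.mul TM.add TM.sub TM.neg TM.inv TM.sqrt TM.one TM.nsm TM.sc

variable {ρ : Env}

include hk in
/-- One step of the constants. -/
theorem rep_alStep {mu : TM} {μ : ℝ} (hμ : 0 < μ) (hmu : Rep ρ mu μ) (w : List (Fin 3))
    (j : Fin 3) {e : ℝ} (h1 : (mkTube hk hT hR).P w e) (h2 : (mkTube hk hT hR).P (j :: w) e)
    {ed : EdgeL} {Ut : TM} (hU : ∀ ρ' : Env, ρ'.u = ρ.u → Rep ρ' Ut (wst dat s0 w).u)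
    (he : |(wst dat s0 w).f.Z lam e * 2 ^ 40 - (ed.b0 + ed.b1 * (wst dat s0 w).u +
      ed.b2 * (wst dat s0 w).u ^ 2)| ≤ (ed.r : ℝ))
    (hc : inCell (cls (wst dat s0 w).ci) ed.k (ed.tm Ut) = true) {A : TM} {a : ℝ}
    (hA : Rep ρ A (a / μ * (mkTube hk hT hR).dZ (j :: w) e)) :
    Rep ρ (alStep kap mu (WSt.cl (wst dat s0 w).o j) (cls (wst dat s0 w).ci) ed Ut A)
      (a * (mkTube hk hT hR).dZ w e) := by
  have hs := wst_good hT hR.good w
  have hP : (wst dat s0 w).Pt lam cls e := h1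
  have hg := rep_gAt hk (WSt.cl (wst dat s0 w).o j) hP.tube hU he hc
  have hd : (mkTube hk hT hR).dZ (j :: w) e = (mkTube hk hT hR).dZ w e *
      grR lam (WSt.cl (wst dat s0 w).o j) (wst dat s0 w).f e := al_dZ hs j hP
  have hpos := (mkTube hk hT hR).hpos _ _ h2
  have hne : grR lam (WSt.cl (wst dat s0 w).o j) (wst dat s0 w).f e ≠ 0 := by
    intro h0
    rw [hd, h0, mul_zero] at hpos
    exact lt_irrefl 0 hpos
  unfold alStep
  refine ImgRep_cast (rep_mul (rep_mul hmu (rep_inv hg)) hA) ?_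
  rw [hd]
  generalize grR lam (WSt.cl (wst dat s0 w).o j) (wst dat s0 w).f e = g at hne ⊢
  have hμ' : μ ≠ 0 := hμ.ne'
  field_simp

/-- The run in the class which is its own child. -/
theorem rep_fixRun {mu xst imu : TM} {x μ : ℝ} (hμ : 0 < μ) (hmu : Rep ρ mu μ)
    (hxst : Rep ρ xst x) (himu : Rep ρ imu μ⁻¹) {n0 : ℕ} (hn0 : (dat n0).a0.nx = n0)
    {ed : EdgeL} (b : Bool)
    (he : ∀ w, (wst dat s0 w).ci = n0 → (wst dat s0 w).o = b →
      |(wst dat s0 w).f.Z lam (enE (mkTube hk hT hR) b w) * 2 ^ 40 -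
        (ed.b0 + ed.b1 * (wst dat s0 w).u + ed.b2 * (wst dat s0 w).u ^ 2)| ≤ (ed.r : ℝ))
    (tX tS t : ℕ) (n : ℕ) : ∀ (w : List (Fin 3)) (Ut : TM) (a : ℝ),
      (wst dat s0 w).ci = n0 → (wst dat s0 w).o = b →
      (∀ ρ' : Env, ρ'.u = ρ.u → Rep ρ' Ut (wst dat s0 w).u) →
      (BC lam x μ tX tS t (wst dat s0 (rep (jL b) n w)) (enE (mkTube hk hT hR) b w) →
        |a / μ ^ n * (mkTube hk hT hR).dZ (rep (jL b) n w) (enE (mkTube hk hT hR) b w) - 1| *
          2 ^ 40 ≤ (t : ℝ)) →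
      Rep ρ (fixRun kap mu xst imu (cls n0) ed (dat n0).a0.up tX tS t n Ut)
        (a * (mkTube hk hT hR).dZ w (enE (mkTube hk hT hR) b w)) := by
  induction n with
  | zero =>
    intro w Ut a hw hb hU hV
    have hs := wst_good hT hR.good w
    have hP : (wst dat s0 w).Pt lam cls (enE (mkTube hk hT hR) b w) :=
      enE_P (S := mkTube hk hT hR) b w 0
    unfold fixRun
    generalize hc : (inCell (cls n0) ed.k (ed.tm Ut) &&
      magLe (sub (xAt (cls n0) ed.k (ed.tm Ut) Ut) xst) tX &&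
      magLe (sub (sAt (cls n0) ed.k (ed.tm Ut) Ut) imu) tS &&
      Nat.ble (122 * tX + 16 * tS) (99 * t) && Nat.ble t 1099511627) = bo
    cases bo with
    | false =>
      rw [cond_false]
      exact rep_poison
    | true =>
      rw [cond_true]
      simp only [Bool.and_eq_true] at hc
      obtain ⟨⟨⟨⟨c1, c2⟩, c3⟩, c4⟩, c5⟩ := hc
      rw [← hw] at c1 c2 c3
      obtain ⟨hX, hS⟩ := rep_xAt hP.tube (hU ρ rfl) (rep_edgeTm (hU ρ rfl) (he w hw hb)) c1
      have hbc : BC lam x μ tX tS t (wst dat s0 (rep (jL b) 0 w)) (enE (mkTube hk hT hR) b w) :=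
        ⟨rep_magLe (rep_sub hX hxst) c2, rep_magLe (rep_sub hS himu) c3,
          Nat.le_of_ble_eq_true c4, Nat.le_of_ble_eq_true c5⟩
      have h1 := hV hbc
      rw [pow_zero, div_one] at h1
      exact rep_blow rep_one h1
  | succ n ih =>
    intro w Ut a hw hb hU hV
    have hs := wst_good hT hR.good w
    unfold fixRun
    generalize hc : inCell (cls n0) ed.k (ed.tm Ut) = bo
    cases bo with
    | false =>
      rw [cond_false]
      exact rep_poison
    | true =>
      rw [cond_true]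
      have hj : jL b = jL (wst dat s0 w).o := by rw [hb]
      have hci : (wst dat s0 (jL b :: w)).ci = n0 := by
        rw [hj]
        refine (ch_jL_ci (dat := dat) (wst dat s0 w)).trans ?_
        rw [hw, hn0]
      have hu : (wst dat s0 (jL b :: w)).u = (dat n0).a0.up.uR (wst dat s0 w).u := by
        rw [hj]
        refine (ch_jL_u (dat := dat) (wst dat s0 w)).trans ?_
        rw [hw]
      have hU' : ∀ ρ' : Env, ρ'.u = ρ.u →
          Rep ρ' (updU (dat n0).a0.up Ut) (wst dat s0 (jL b :: w)).u := by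
        intro ρ' hρ'
        rw [hu]
        exact rep_updU _ (hU ρ' hρ')
      have h1 := ih (jL b :: w) (updU (dat n0).a0.up Ut) (a / μ) hci (wst_jL hT hR.good b w) hU'
      rw [enE_cons, rep_cons] at h1
      have h2 := h1 (by
        intro hbc
        have := hV hbc
        rw [pow_succ'] at this
        rw [div_div]
        exact this)
      have h3 := rep_alStep hk hT hR hμ hmu w (jL b) (enE_P (S := mkTube hk hT hR) b w 0)
        (enE_P (S := mkTube hk hT hR) b w 1) hU (he w hw hb) (by rw [hw]; exact hc) h2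
      rw [hb, cl_jL, hw] at h3
      exact h3

end

end run

/-! ### All words -/

/-- All checks of the edge constants: the class `0` is its own child `0`, and all chains of children
`0, 0, 0, ...` end there. -/
structure AlOK (kap mu xst imu : TM) (N : ℕ) (cls : ℕ → Cls) (dat : ℕ → ClsD) (edg : ℕ → EdgD)
    (tX tS t n K0 : ℕ) : Prop where
  low : ∀ m, m < N → m ≠ 0 →
    alLow kap mu (cls m) (dat m) (edg m) (edg (dat m).a0.nx) = true
  high : ∀ m, m < N → alHigh kap mu (cls m) (dat m) (edg m) (edg (dat m).a2.nx) = true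
  fix : alFix kap mu xst imu (cls 0) (dat 0) (edg 0) tX tS t n = true
  self : (dat 0).a0.nx = 0
  chain : ∀ m, m < N → (fun i => (dat i).a0.nx)^[K0] m = 0

section final

variable {lam : ℝ} {kap : TM} {N : ℕ} {cls : ℕ → Cls} {dat : ℕ → ClsD}

theorem rep_symU' {u : ℝ} (ρ' : Env) (h : ρ'.u = u) : Rep ρ' symU u := h ▸ rep_symU

/-- the environment of a parameter -/
def envU (u : ℝ) (hu : |u| ≤ 1) : Env :=
  ⟨0, u, 0, 0, 0, by simp, hu, by simp, by simp, by simp⟩

variable (hk : KapOK lam kap) (hT : TabOK kap N cls dat) {s0 : WSt} {l r : ℝ}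
  (hR : RootOK lam N cls s0 l r) {x y μ : ℝ} (F : FixPt lam x y μ) {mu xst imu : TM}
  (hmu : ∀ ρ : Env, Rep ρ mu μ) (hxst : ∀ ρ : Env, Rep ρ xst x) (himu : ∀ ρ : Env, Rep ρ imu μ⁻¹)
  {edg : ℕ → EdgD} {tX tS t n K0 : ℕ} (hA : AlOK kap mu xst imu N cls dat edg tX tS t n K0)

/-- The bounds of the low edges of all words (edge `0` of the canonical frame). -/
def EdB (lam : ℝ) (S : Tube lam) (dat : ℕ → ClsD) (s0 : WSt) (edg : ℕ → EdgD) : Prop :=
  ∀ w, |(wst dat s0 w).f.Z lam (loE S dat s0 w) * 2 ^ 40 -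
    ((edg (wst dat s0 w).ci).e0.b0 + (edg (wst dat s0 w).ci).e0.b1 * (wst dat s0 w).u +
      (edg (wst dat s0 w).ci).e0.b2 * (wst dat s0 w).u ^ 2)| ≤ ((edg (wst dat s0 w).ci).e0.r : ℝ)

/-- The bounds of the high edges of all words (edge `5` of the canonical frame). -/
def EdH (lam : ℝ) (S : Tube lam) (dat : ℕ → ClsD) (s0 : WSt) (edg : ℕ → EdgD) : Prop :=
  ∀ w, |(wst dat s0 w).f.Z lam (hiE S dat s0 w) * 2 ^ 40 -
    ((edg (wst dat s0 w).ci).e5.b0 + (edg (wst dat s0 w).ci).e5.b1 * (wst dat s0 w).u +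
      (edg (wst dat s0 w).ci).e5.b2 * (wst dat s0 w).u ^ 2)| ≤ ((edg (wst dat s0 w).ci).e5.r : ℝ)

theorem dZ_abs (w : List (Fin 3)) {E : ℝ} (hP : (mkTube hk hT hR).P w E) :
    (mkTube hk hT hR).dZ w E = |(wst dat s0 w).f.Z1 lam E| := by
  have h1 := (mkTube hk hT hR).hpos w E hP
  rw [← abs_of_pos h1]
  show |sgF (wst dat s0 w).o * (wst dat s0 w).f.Z1 lam E| = _
  rw [abs_mul, sgF_abs, one_mul]

theorem loE_P (w : List (Fin 3)) :
    (mkTube hk hT hR).P w (loE (mkTube hk hT hR) dat s0 w) :=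
  enE_P (S := mkTube hk hT hR) (wst dat s0 w).o w 0

theorem loE_eq {S : Tube lam} {w : List (Fin 3)} {b : Bool} (hb : (wst dat s0 w).o = b) :
    loE S dat s0 w = enE S b w := by
  unfold loE enE
  rw [hb]

theorem hiE_eq {S : Tube lam} {w : List (Fin 3)} {b : Bool} (hb : (wst dat s0 w).o = b) :
    hiE S dat s0 w = enE S (!b) w := by
  unfold hiE enE
  rw [hb]
  cases b <;> rfl

theorem hiE_P (w : List (Fin 3)) :
    (mkTube hk hT hR).P w (hiE (mkTube hk hT hR) dat s0 w) := by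
  rw [hiE_eq rfl]
  exact enE_P (S := mkTube hk hT hR) _ w 0

include hmu hxst himu hA F in
/-- The end of the run in the fixed class. -/
theorem fix_BC (hE : EdB lam (mkTube hk hT hR) dat s0 edg) {b : Bool} {w : List (Fin 3)}
    (hw : (wst dat s0 w).ci = 0) (hb : (wst dat s0 w).o = b) :
    BC lam x μ tX tS t (wst dat s0 (rep (jL b) n w)) (enE (mkTube hk hT hR) b w) := by
  by_contra hn
  have hs := wst_good hT hR.good w
  have hfix := hA.fix
  unfold alFix at hfix
  have hμ : 0 < μ := by linarith [F.hμ1]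
  have hall : ∀ a : ℝ, |a * (mkTube hk hT hR).dZ w (enE (mkTube hk hT hR) b w) -
      ((edg 0).aL.a0 + (edg 0).aL.a1 * (wst dat s0 w).u + (edg 0).aL.a2 * (wst dat s0 w).u ^ 2) /
        2 ^ 40| * 2 ^ 40 ≤ ((edg 0).aL.r : ℝ) := by
    intro a
    have h1 := rep_fixRun hk hT hR hμ (hmu (envU _ hs.u)) (hxst _) (himu _) hA.self
      (ed := (edg 0).e0) b (by
        intro w' hw' hb'
        have := hE w'
        rw [loE_eq hb', hw'] at this
        exact this) tX tS t n w symU a hw hb rep_symU' (fun h => absurd h hn)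
    exact rep_magLe (rep_sub h1 (rep_quadU _ _ _)) hfix
  have hd : 0 < (mkTube hk hT hR).dZ w (enE (mkTube hk hT hR) b w) :=
    (mkTube hk hT hR).hpos _ _ (enE_P (S := mkTube hk hT hR) b w 0)
  generalize ((edg 0).aL.a0 + (edg 0).aL.a1 * (wst dat s0 w).u +
    (edg 0).aL.a2 * (wst dat s0 w).u ^ 2 : ℝ) / 2 ^ 40 = q at hall
  generalize (mkTube hk hT hR).dZ w (enE (mkTube hk hT hR) b w) = d at hall hd
  have h2 := hall ((q + ((edg 0).aL.r + 1)) / d)
  rw [div_mul_cancel₀ _ hd.ne', add_sub_cancel_left] at h2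
  have h3 : (0 : ℝ) ≤ ((edg 0).aL.r : ℝ) := Nat.cast_nonneg _
  rw [abs_of_pos (by linarith)] at h2
  norm_num at h2
  nlinarith

theorem bc_small {s : WSt} {e : ℝ} (h : BC lam x μ tX tS t s e) :
    |s.f.X lam e - x| ≤ 1 / 100 ∧ |s.f.sig lam e - μ⁻¹| ≤ 1 / 100 ∧
      122 / 100 * |s.f.X lam e - x| + 16 / 100 * |s.f.sig lam e - μ⁻¹| ≤
        99 / 100 * ((t : ℝ) / 2 ^ 40) ∧ (t : ℝ) / 2 ^ 40 ≤ 1 / 1000 := by
  obtain ⟨h1, h2, h3, h4⟩ := h
  have h3' : (122 * tX + 16 * tS : ℝ) ≤ 99 * t := by exact_mod_cast h3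
  have h4' : (t : ℝ) ≤ 1099511627 := by exact_mod_cast h4
  have h5 : (0 : ℝ) ≤ tX := Nat.cast_nonneg _
  have h6 : (0 : ℝ) ≤ tS := Nat.cast_nonneg _
  norm_num at h1 h2
  refine ⟨by linarith, by linarith, ?_, ?_⟩
  · norm_num
    linarith
  · norm_num
    linarith

theorem xx_eq {b : Bool} {w : List (Fin 3)} (hb : (wst dat s0 w).o = b) (E : ℝ) :
    xx (mkTubeJ hk hT hR) b w E = (wst dat s0 w).f.X lam E := by
  show sel b (sgF (wst dat s0 w).o * (wst dat s0 w).f.X lam E)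
    (-(sgF (wst dat s0 w).o * (wst dat s0 w).f.X lam E)) = _
  rw [hb]
  cases b with
  | false => exact one_mul _
  | true =>
    show -(-1 * (wst dat s0 w).f.X lam E) = _
    ring

/-- The constants on the side `b`. -/
structure Cst (lam : ℝ) (S : Tube lam) (μ : ℝ) (b : Bool) (A : List (Fin 3) → ℝ) : Prop where
  pos : ∀ w, 0 < A w
  cons : ∀ w, A (jL b :: w) = A w / μ
  lim : ∀ w, Filter.Tendsto (fun n => μ ^ n / S.dZ (rep (jL b) n w) (enE S b w)) Filter.atTop
    (nhds (A w))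

include hmu hxst himu hA F in
theorem exists_cst (hE : EdB lam (mkTube hk hT hR) dat s0 edg) (b : Bool) :
    ∃ A : List (Fin 3) → ℝ, Cst lam (mkTube hk hT hR) μ b A := by
  have key : ∀ w, BC lam x μ tX tS t (wst dat s0 (rep (jL b) (n + (K0 + 1)) w))
      (enE (mkTube hk hT hR) b w) := by
    intro w
    have ho := wst_jL hT hR.good b w
    have h1 : (wst dat s0 (rep (jL b) K0 (jL b :: w))).ci = 0 := by
      rw [rep_ci hT hR.good ho]
      exact hA.chain _ (wst_good hT hR.good _).ci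
    have h2 := fix_BC hk hT hR F hmu hxst himu hA hE h1 (rep_o hT hR.good ho K0)
    rw [enE_rep, enE_cons, rep_cons, TubeJ.rep_add'] at h2
    exact h2
  have ho : ∀ w, (wst dat s0 (rep (jL b) (n + (K0 + 1)) w)).o = b := fun w =>
    wst_jL hT hR.good b (rep (jL b) (n + K0) w)
  obtain ⟨A, h1, h2, h3⟩ := exists_all (mkTubeJ hk hT hR) F b (n + (K0 + 1))
    (fun w => by
      rw [xx_eq hk hT hR (ho w)]
      exact (bc_small (key w)).1)
    (fun w => (bc_small (key w)).2.1)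
  exact ⟨A, h1, h2, h3⟩

theorem cst_rep {S : Tube lam} {b : Bool} {A : List (Fin 3) → ℝ} (hC : Cst lam S μ b A)
    (n : ℕ) (w : List (Fin 3)) : A (rep (jL b) n w) = A w / μ ^ n := by
  induction n with
  | zero => simp [rep]
  | succ n ih =>
    show A (jL b :: rep (jL b) n w) = _
    rw [hC.cons, ih, pow_succ, div_div]

include hmu hxst himu hA F in
/-- The value in the fixed class. -/
theorem fix_val (hE : EdB lam (mkTube hk hT hR) dat s0 edg) {b : Bool} {A : List (Fin 3) → ℝ}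
    (hC : Cst lam (mkTube hk hT hR) μ b A) {w : List (Fin 3)}
    (hw : (wst dat s0 w).ci = 0) (hb : (wst dat s0 w).o = b) :
    |A w * (mkTube hk hT hR).dZ w (enE (mkTube hk hT hR) b w) * 2 ^ 40 -
      ((edg 0).aL.a0 + (edg 0).aL.a1 * (wst dat s0 w).u + (edg 0).aL.a2 * (wst dat s0 w).u ^ 2)| ≤
        ((edg 0).aL.r : ℝ) := by
  have hs := wst_good hT hR.good w
  have hfix := hA.fix
  unfold alFix at hfix
  have hμ : 0 < μ := by linarith [F.hμ1]
  have hself : ∀ k : ℕ, (fun i => (dat i).a0.nx)^[k] 0 = 0 := by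
    intro k
    induction k with
    | zero => rfl
    | succ k ih =>
      rw [Function.iterate_succ_apply', ih]
      exact hA.self
  have key : ∀ m, BC lam x μ tX tS t (wst dat s0 (rep (jL b) (n + m) w))
      (enE (mkTube hk hT hR) b w) := by
    intro m
    have h1 : (wst dat s0 (rep (jL b) m w)).ci = 0 := by
      rw [rep_ci hT hR.good hb, hw]
      exact hself m
    have h2 := fix_BC hk hT hR F hmu hxst himu hA hE h1 (rep_o hT hR.good hb m)
    rw [enE_rep, TubeJ.rep_add'] at h2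
    exact h2
  have h1 := exists_one (mkTubeJ hk hT hR) F b (rep (jL b) n w)
  rw [enE_rep] at h1
  obtain ⟨a, ha, hlim, hlog⟩ := h1 (by
      intro m
      rw [TubeJ.rep_add', xx_eq hk hT hR (rep_o hT hR.good hb _), add_comm]
      exact (bc_small (key m)).1) (bc_small (key 0)).2.1
  have hC2 := hC.lim (rep (jL b) n w)
  rw [enE_rep] at hC2
  have haA := tendsto_nhds_unique hlim hC2
  have hd : 0 < (mkTube hk hT hR).dZ (rep (jL b) n w) (enE (mkTube hk hT hR) b w) :=
    (mkTube hk hT hR).hpos _ _ (enE_P (S := mkTube hk hT hR) b w n)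
  obtain ⟨-, -, k3, k4⟩ := bc_small (key 0)
  rw [xx_eq hk hT hR (rep_o hT hR.good hb _)] at hlog
  have h2 := al_exp (mul_pos ha hd) k4 (hlog.trans k3)
  rw [haA, cst_rep hC] at h2
  have h3 := rep_fixRun hk hT hR hμ (hmu (envU _ hs.u)) (hxst _) (himu _) hA.self
      (ed := (edg 0).e0) b (by
        intro w' hw' hb'
        have := hE w'
        rw [loE_eq hb', hw'] at this
        exact this) tX tS t n w symU (A w) hw hb rep_symU' (fun _ => by
          rw [le_div_iff₀ (by positivity)] at h2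
          exact h2)
  have h4 := rep_magLe (rep_sub h3 (rep_quadU _ _ _)) hfix
  rw [al_abs] at h4
  exact h4

include hmu hxst himu hA F in
/-- The value at the low edge. -/
theorem low_val (hE : EdB lam (mkTube hk hT hR) dat s0 edg) {b : Bool} {A : List (Fin 3) → ℝ}
    (hC : Cst lam (mkTube hk hT hR) μ b A) (k : ℕ) : ∀ {w : List (Fin 3)},
    (fun i => (dat i).a0.nx)^[k] (wst dat s0 w).ci = 0 → (wst dat s0 w).o = b →
    |A w * (mkTube hk hT hR).dZ w (enE (mkTube hk hT hR) b w) * 2 ^ 40 -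
      ((edg (wst dat s0 w).ci).aL.a0 + (edg (wst dat s0 w).ci).aL.a1 * (wst dat s0 w).u +
        (edg (wst dat s0 w).ci).aL.a2 * (wst dat s0 w).u ^ 2)| ≤
        ((edg (wst dat s0 w).ci).aL.r : ℝ) := by
  have hμ : 0 < μ := by linarith [F.hμ1]
  induction k with
  | zero =>
    intro w hw hb
    have hw' : (wst dat s0 w).ci = 0 := hw
    have h1 := fix_val hk hT hR F hmu hxst himu hA hE hC hw' hb
    rw [hw']
    exact h1
  | succ k ih =>
    intro w hw hb
    rcases eq_or_ne (wst dat s0 w).ci 0 with hw0 | hw0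
    · have h1 := fix_val hk hT hR F hmu hxst himu hA hE hC hw0 hb
      rw [hw0]
      exact h1
    · have hs := wst_good hT hR.good w
      have hlow := hA.low _ hs.ci hw0
      unfold alLow at hlow
      rw [Bool.and_eq_true] at hlow
      obtain ⟨hin, hmag⟩ := hlow
      have hj : jL b = jL (wst dat s0 w).o := by rw [hb]
      have hci : (wst dat s0 (jL b :: w)).ci = (dat (wst dat s0 w).ci).a0.nx := by
        rw [hj]
        exact ch_jL_ci (dat := dat) (wst dat s0 w)
      have hu : (wst dat s0 (jL b :: w)).u =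
          (dat (wst dat s0 w).ci).a0.up.uR (wst dat s0 w).u := by
        rw [hj]
        exact ch_jL_u (dat := dat) (wst dat s0 w)
      have h1 := ih (w := jL b :: w) (by
        rw [hci]
        rw [Function.iterate_succ_apply] at hw
        exact hw) (wst_jL hT hR.good b w)
      rw [enE_cons, hci, hu, hC.cons] at h1
      have h2 := rep_q3Tm (ρ := envU _ hs.u) (rep_upd (dat (wst dat s0 w).ci).a0.up) h1
      have hEw := hE w
      rw [loE_eq hb] at hEw
      have h3 := rep_alStep hk hT hR hμ (hmu (envU _ hs.u)) w (jL b)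
        (enE_P (S := mkTube hk hT hR) b w 0) (enE_P (S := mkTube hk hT hR) b w 1) rep_symU' hEw
        hin h2
      rw [hb, cl_jL] at h3
      have h4 := rep_magLe (rep_sub h3 (rep_quadU _ _ _)) hmag
      rw [al_abs] at h4
      exact h4

include hmu hxst himu hA F in
/-- The value at the high edge. -/
theorem high_val (hE : EdB lam (mkTube hk hT hR) dat s0 edg)
    (hE5 : EdH lam (mkTube hk hT hR) dat s0 edg) {b : Bool} {A : List (Fin 3) → ℝ}
    (hC : Cst lam (mkTube hk hT hR) μ (!b) A) {w : List (Fin 3)} (hb : (wst dat s0 w).o = b) :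
    |A w * (mkTube hk hT hR).dZ w (enE (mkTube hk hT hR) (!b) w) * 2 ^ 40 -
      ((edg (wst dat s0 w).ci).aH.a0 + (edg (wst dat s0 w).ci).aH.a1 * (wst dat s0 w).u +
        (edg (wst dat s0 w).ci).aH.a2 * (wst dat s0 w).u ^ 2)| ≤
        ((edg (wst dat s0 w).ci).aH.r : ℝ) := by
  have hμ : 0 < μ := by linarith [F.hμ1]
  have hs := wst_good hT hR.good w
  have hhigh := hA.high _ hs.ci
  unfold alHigh at hhigh
  rw [Bool.and_eq_true] at hhigh
  obtain ⟨hin, hmag⟩ := hhigh
  have hj : jL (!b) = jH (wst dat s0 w).o := by rw [hb, jH_eq]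
  have hci : (wst dat s0 (jL (!b) :: w)).ci = (dat (wst dat s0 w).ci).a2.nx := by
    rw [hj]
    exact ch_jH_ci (dat := dat) (wst dat s0 w)
  have hu : (wst dat s0 (jL (!b) :: w)).u =
      (dat (wst dat s0 w).ci).a2.up.uR (wst dat s0 w).u := by
    rw [hj]
    exact ch_jH_u (dat := dat) (wst dat s0 w)
  have h1 := low_val hk hT hR F hmu hxst himu hA hE hC K0 (w := jL (!b) :: w)
    (hA.chain _ (wst_good hT hR.good _).ci) (wst_jL hT hR.good (!b) w)
  rw [enE_cons, hci, hu, hC.cons] at h1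
  have h2 := rep_q3Tm (ρ := envU _ hs.u) (rep_upd (dat (wst dat s0 w).ci).a2.up) h1
  have hEw := hE5 w
  rw [hiE_eq hb] at hEw
  have h3 := rep_alStep hk hT hR hμ (hmu (envU _ hs.u)) w (jL (!b))
    (enE_P (S := mkTube hk hT hR) (!b) w 0) (enE_P (S := mkTube hk hT hR) (!b) w 1) rep_symU' hEw
    hin h2
  rw [hb, ← jH_eq, cl_jH] at h3
  have h4 := rep_magLe (rep_sub h3 (rep_quadU _ _ _)) hmag
  rw [al_abs] at h4
  exact h4

include hmu hxst himu hA F in
/-- **The edge constants.** -/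
theorem exists_consts (hE : EdB lam (mkTube hk hT hR) dat s0 edg)
    (hE5 : EdH lam (mkTube hk hT hR) dat s0 edg) :
    ∃ A B : List (Fin 3) → ℝ, (∀ w, 0 < A w) ∧ (∀ w, 0 < B w) ∧ (∀ w, A (0 :: w) = A w / μ) ∧
      (∀ w, B (2 :: w) = B w / μ) ∧
      (∀ w, |sel (wst dat s0 w).o (A w) (B w) *
        (mkTube hk hT hR).dZ w (loE (mkTube hk hT hR) dat s0 w) * 2 ^ 40 -
        ((edg (wst dat s0 w).ci).aL.a0 + (edg (wst dat s0 w).ci).aL.a1 * (wst dat s0 w).u +
          (edg (wst dat s0 w).ci).aL.a2 * (wst dat s0 w).u ^ 2)| ≤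
          ((edg (wst dat s0 w).ci).aL.r : ℝ)) ∧
      ∀ w, |sel (wst dat s0 w).o (B w) (A w) *
        (mkTube hk hT hR).dZ w (hiE (mkTube hk hT hR) dat s0 w) * 2 ^ 40 -
        ((edg (wst dat s0 w).ci).aH.a0 + (edg (wst dat s0 w).ci).aH.a1 * (wst dat s0 w).u +
          (edg (wst dat s0 w).ci).aH.a2 * (wst dat s0 w).u ^ 2)| ≤
          ((edg (wst dat s0 w).ci).aH.r : ℝ) := by
  obtain ⟨A, hCA⟩ := exists_cst hk hT hR F hmu hxst himu hA hE false
  obtain ⟨B, hCB⟩ := exists_cst hk hT hR F hmu hxst himu hA hE true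
  refine ⟨A, B, hCA.pos, hCB.pos, hCA.cons, hCB.cons, ?_, ?_⟩
  · intro w
    have hch := hA.chain _ (wst_good hT hR.good w).ci
    rcases ho : (wst dat s0 w).o with _ | _
    · rw [loE_eq ho]
      exact low_val hk hT hR F hmu hxst himu hA hE hCA K0 hch ho
    · rw [loE_eq ho]
      exact low_val hk hT hR F hmu hxst himu hA hE hCB K0 hch ho
  · intro w
    rcases ho : (wst dat s0 w).o with _ | _
    · rw [hiE_eq ho]
      exact high_val hk hT hR F hmu hxst himu hA hE hE5 (b := false) hCB ho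
    · rw [hiE_eq ho]
      exact high_val hk hT hR F hmu hxst himu hA hE hE5 (b := true) hCA ho

end final

end Pool.Agent.H20.Fib
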