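import Pool.Agent.H20.Fib.Jet

/-!
# FB-8. The step formulas

PROOF.  With `s = Z1 ≠ 0`, `D = Y - X Z > 0`: `rootR_eq` identifies `rootR`, `yR`.  Put
`y1 = e2 xs1 (m+1)`, `y2 = e2 xs2 (m+1)` (first and second `E`-derivative of `Y`).
Claim: `y1R = y1 / s` (from `inv1` divided by `s`) and `y2R = y2 / s^2 + nu * (y1 / s)`
(from `inv2`, `inv1`; `nu = -Z2/s^2`).  In the normalisation `f_1 = f'/s`, `f_2 = f''/s^2 + nu f'/s`
the product rules `(fg)_1 = f_1 g + f g_1`, `(fg)_2 = f_2 g + 2 f_1 g_1 + f g_2` hold, `Z` has the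
jet `(Z, 1, 0)`, `X` has `(X, sig, tau)`.  So `w1R, w2R, v1R, v2R` (and `U = 2VW - Z` for the middle
letter) are the jets of `e1 xs (m+3)`, `e2 xs (m+4)`, `e3 xs (m+5)` (recursions of `xs, xs1, xs2`,
signs: `e2 e3 = e1` etc.).  For the child with `X`-jet `(A, A1, A2)` and `Z`-jet `(B, B1 = g, B2)`,
i.e. `X_c' = s A1`, `X_c'' = s^2 (A2 - nu A1)`, `Z_c' = s g`, `Z_c'' = s^2 (B2 - nu g)`:
`sig_c = A1/g`, `tau_c = (A2 - sig_c B2)/g^2`, `nu_c = -Z_c''/Z_c'^2 = (nu - B2/g)/g`.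
All are `field_simp; ring` (or `linear_combination`) after clearing denominators; do the three
letters separately (`i = 0`, `i = 1`, `i = n + 2`).
-/

namespace Pool.Agent.H20.Fib

open Pool.Agent.H98.Fib (xs Sig)

namespace Fr

variable {f : Fr} {lam E : ℝ}

theorem Step_ok (hf : f.ok) : f.e1 ^ 2 = 1 ∧ f.e2 ^ 2 = 1 ∧ f.e3 ^ 2 = 1 ∧ f.e2 * f.e3 = f.e1 ∧
    f.e1 * f.e3 = f.e2 ∧ f.e1 * f.e2 = f.e3 := by
  have h1 : f.e1 ^ 2 = 1 := by rcases hf.h1 with h | h <;> rw [h] <;> norm_num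
  have h2 : f.e2 ^ 2 = 1 := by rcases hf.h2 with h | h <;> rw [h] <;> norm_num
  have h3 : f.e3 ^ 2 = 1 := by rcases hf.h3 with h | h <;> rw [h] <;> norm_num
  have hp := hf.hp
  refine ⟨h1, h2, h3, ?_, ?_, ?_⟩
  · linear_combination f.e1 * hp - f.e2 * f.e3 * h1
  · linear_combination f.e2 * hp - f.e1 * f.e3 * h2
  · linear_combination f.e3 * hp - f.e1 * f.e2 * h3

theorem Step_rec (lam E : ℝ) (n : ℕ) : xs lam E (n + 3)
    = 2 * xs lam E (n + 2) * xs lam E (n + 1) - xs lam E n := by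
  rw [Pool.Agent.H98.Fib.xs]

/-- `W`, `V` are the next traces. -/
theorem next_eq (hf : f.ok) (hD : 0 < f.Y lam E - f.X lam E * f.Z lam E) :
    wR (1 + lam ^ 2 / 4) (f.Z lam E) (f.X lam E) = f.e1 * xs lam E (f.m + 3) ∧
    vR (1 + lam ^ 2 / 4) (f.Z lam E) (f.X lam E) = f.e2 * xs lam E (f.m + 4) := by
  obtain ⟨h1, h2, h3, h23, h13, h12⟩ := Step_ok hf
  obtain ⟨-, hY⟩ := rootR_eq hf hD
  have hW : wR (1 + lam ^ 2 / 4) (f.Z lam E) (f.X lam E) = f.e1 * xs lam E (f.m + 3) := by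
    unfold wR
    rw [hY]
    unfold X Y Z
    rw [Pool.Agent.H98.Fib.xs]
    linear_combination (2 * xs lam E (f.m + 1) * xs lam E (f.m + 2)) * h23
  refine ⟨hW, ?_⟩
  unfold vR
  rw [hW, hY]
  have r : xs lam E (f.m + 4) = 2 * xs lam E (f.m + 3) * xs lam E (f.m + 2) - xs lam E (f.m + 1) :=
    Step_rec lam E (f.m + 1)
  unfold Y Z
  rw [r]
  linear_combination (2 * xs lam E (f.m + 3) * xs lam E (f.m + 2)) * h13

/-- The normalised derivatives of `Y`. -/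
theorem Step_y (hf : f.ok) (hD : 0 < f.Y lam E - f.X lam E * f.Z lam E) (hs : f.Z1 lam E ≠ 0) :
    f.e2 * xs1 lam E (f.m + 1)
      = f.Z1 lam E * y1R (1 + lam ^ 2 / 4) (f.Z lam E) (f.X lam E) (f.sig lam E) ∧
    f.e2 * xs2 lam E (f.m + 1) = f.Z1 lam E ^ 2 *
      (y2R (1 + lam ^ 2 / 4) (f.Z lam E) (f.X lam E) (f.sig lam E) (f.tau lam E)
        - f.nu lam E * y1R (1 + lam ^ 2 / 4) (f.Z lam E) (f.X lam E) (f.sig lam E)) := by
  obtain ⟨hR, hY⟩ := rootR_eq hf hD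
  have i1 := inv1 (lam := lam) (E := E) hf
  have i2 := inv2 (lam := lam) (E := E) hf
  have hD' : f.Y lam E - f.X lam E * f.Z lam E ≠ 0 := hD.ne'
  have e1 : f.e2 * xs1 lam E (f.m + 1)
      = f.Z1 lam E * y1R (1 + lam ^ 2 / 4) (f.Z lam E) (f.X lam E) (f.sig lam E) := by
    unfold y1R
    rw [hR, hY]
    unfold sig
    generalize f.e2 * xs1 lam E (f.m + 1) = Y1 at *
    generalize f.X lam E = X at *
    generalize f.Y lam E = Y at *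
    generalize f.Z lam E = Z at *
    generalize f.Z1 lam E = s at *
    generalize f.X1 lam E = X1 at *
    clear hR hY hD i2
    generalize hDd : Y - X * Z = D at *
    field_simp
    linear_combination i1 - Y1 * hDd
  refine ⟨e1, ?_⟩
  rw [e1] at i1 i2
  unfold y2R
  rw [hR, hY]
  generalize y1R (1 + lam ^ 2 / 4) (f.Z lam E) (f.X lam E) (f.sig lam E) = y1 at *
  unfold sig tau nu
  generalize f.e2 * xs2 lam E (f.m + 1) = Y2 at *
  generalize f.X lam E = X at *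
  generalize f.Y lam E = Y at *
  generalize f.Z lam E = Z at *
  generalize f.Z1 lam E = s at *
  generalize f.X1 lam E = X1 at *
  generalize f.X2 lam E = X2 at *
  generalize f.Z2 lam E = Z2 at *
  clear e1 hR hY hD
  field_simp
  linear_combination s * i2 - Z2 * i1

/-- jets of the next traces -/
theorem Step_w (hf : f.ok) (hD : 0 < f.Y lam E - f.X lam E * f.Z lam E) (hs : f.Z1 lam E ≠ 0) :
    f.e1 * xs1 lam E (f.m + 3)
      = f.Z1 lam E * w1R (1 + lam ^ 2 / 4) (f.Z lam E) (f.X lam E) (f.sig lam E) ∧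
    f.e1 * xs2 lam E (f.m + 3) = f.Z1 lam E ^ 2 *
      (w2R (1 + lam ^ 2 / 4) (f.Z lam E) (f.X lam E) (f.sig lam E) (f.tau lam E)
        - f.nu lam E * w1R (1 + lam ^ 2 / 4) (f.Z lam E) (f.X lam E) (f.sig lam E)) := by
  obtain ⟨h1, h2, h3, h23, h13, h12⟩ := Step_ok hf
  obtain ⟨-, hY⟩ := rootR_eq hf hD
  obtain ⟨j1, j2⟩ := Step_y hf hD hs
  unfold w1R w2R
  rw [hY]
  generalize y1R (1 + lam ^ 2 / 4) (f.Z lam E) (f.X lam E) (f.sig lam E) = y1 at *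
  generalize y2R (1 + lam ^ 2 / 4) (f.Z lam E) (f.X lam E) (f.sig lam E) (f.tau lam E) = y2 at *
  have e1 : f.e1 * xs1 lam E (f.m + 3) = 2 * (f.Z1 lam E * f.Y lam E
      + f.Z lam E * (f.e2 * xs1 lam E (f.m + 1))) - f.X1 lam E := by
    unfold X1 Y Z Z1
    rw [xs1]
    linear_combination (-(2 * (xs1 lam E (f.m + 2) * xs lam E (f.m + 1)
      + xs lam E (f.m + 2) * xs1 lam E (f.m + 1)))) * h23
  have e2 : f.e1 * xs2 lam E (f.m + 3) = 2 * (f.Z2 lam E * f.Y lam E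
      + 2 * (f.Z1 lam E * (f.e2 * xs1 lam E (f.m + 1)))
      + f.Z lam E * (f.e2 * xs2 lam E (f.m + 1))) - f.X2 lam E := by
    unfold X2 Y Z Z1 Z2
    rw [xs2]
    linear_combination (-(2 * (xs2 lam E (f.m + 2) * xs lam E (f.m + 1)
      + 2 * (xs1 lam E (f.m + 2) * xs1 lam E (f.m + 1))
      + xs lam E (f.m + 2) * xs2 lam E (f.m + 1)))) * h23
  rw [e1, e2, j1, j2]
  unfold sig tau nu
  constructor
  · field_simp
  · field_simp
    ring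

/-- jets of the traces after the next -/
theorem Step_v (hf : f.ok) (hD : 0 < f.Y lam E - f.X lam E * f.Z lam E) (hs : f.Z1 lam E ≠ 0) :
    f.e2 * xs1 lam E (f.m + 4)
      = f.Z1 lam E * v1R (1 + lam ^ 2 / 4) (f.Z lam E) (f.X lam E) (f.sig lam E) ∧
    f.e2 * xs2 lam E (f.m + 4) = f.Z1 lam E ^ 2 *
      (v2R (1 + lam ^ 2 / 4) (f.Z lam E) (f.X lam E) (f.sig lam E) (f.tau lam E)
        - f.nu lam E * v1R (1 + lam ^ 2 / 4) (f.Z lam E) (f.X lam E) (f.sig lam E)) := by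
  obtain ⟨h1, h2, h3, h23, h13, h12⟩ := Step_ok hf
  obtain ⟨hW, -⟩ := next_eq hf hD
  obtain ⟨j1, j2⟩ := Step_y hf hD hs
  obtain ⟨k1, k2⟩ := Step_w hf hD hs
  unfold v1R v2R
  rw [hW]
  generalize y1R (1 + lam ^ 2 / 4) (f.Z lam E) (f.X lam E) (f.sig lam E) = y1 at *
  generalize y2R (1 + lam ^ 2 / 4) (f.Z lam E) (f.X lam E) (f.sig lam E) (f.tau lam E) = y2 at *
  generalize w1R (1 + lam ^ 2 / 4) (f.Z lam E) (f.X lam E) (f.sig lam E) = w1 at *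
  generalize w2R (1 + lam ^ 2 / 4) (f.Z lam E) (f.X lam E) (f.sig lam E) (f.tau lam E) = w2 at *
  have e1 : f.e2 * xs1 lam E (f.m + 4) = 2 * ((f.e1 * xs1 lam E (f.m + 3)) * f.Z lam E
      + (f.e1 * xs lam E (f.m + 3)) * f.Z1 lam E) - f.e2 * xs1 lam E (f.m + 1) := by
    unfold Z Z1
    rw [show f.m + 4 = (f.m + 1) + 3 by ring, xs1]
    linear_combination (-(2 * (xs1 lam E (f.m + 3) * xs lam E (f.m + 2)
      + xs lam E (f.m + 3) * xs1 lam E (f.m + 2)))) * h13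
  have e2 : f.e2 * xs2 lam E (f.m + 4) = 2 * ((f.e1 * xs2 lam E (f.m + 3)) * f.Z lam E
      + 2 * ((f.e1 * xs1 lam E (f.m + 3)) * f.Z1 lam E)
      + (f.e1 * xs lam E (f.m + 3)) * f.Z2 lam E) - f.e2 * xs2 lam E (f.m + 1) := by
    unfold Z Z1 Z2
    rw [show f.m + 4 = (f.m + 1) + 3 by ring, xs2]
    linear_combination (-(2 * (xs2 lam E (f.m + 3) * xs lam E (f.m + 2)
      + 2 * (xs1 lam E (f.m + 3) * xs1 lam E (f.m + 2))
      + xs lam E (f.m + 3) * xs2 lam E (f.m + 2)))) * h13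
  rw [e1, e2, j1, j2, k1, k2]
  unfold nu
  constructor
  · ring
  · field_simp
    ring

/-- jets of the third next traces -/
theorem Step_u (hf : f.ok) (hD : 0 < f.Y lam E - f.X lam E * f.Z lam E) (hs : f.Z1 lam E ≠ 0)
    {W W1 W2 V V1 V2 : ℝ}
    (hW : W = f.e1 * xs lam E (f.m + 3)) (hV : V = f.e2 * xs lam E (f.m + 4))
    (hW1 : f.e1 * xs1 lam E (f.m + 3) = f.Z1 lam E * W1)
    (hW2 : f.e1 * xs2 lam E (f.m + 3) = f.Z1 lam E ^ 2 * (W2 - f.nu lam E * W1))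
    (hV1 : f.e2 * xs1 lam E (f.m + 4) = f.Z1 lam E * V1)
    (hV2 : f.e2 * xs2 lam E (f.m + 4) = f.Z1 lam E ^ 2 * (V2 - f.nu lam E * V1)) :
    -f.e3 * xs lam E (f.m + 5) = f.Z lam E - 2 * (V * W) ∧
    -f.e3 * xs1 lam E (f.m + 5) = f.Z1 lam E * (1 - 2 * (V1 * W + V * W1)) ∧
    -f.e3 * xs2 lam E (f.m + 5) = f.Z1 lam E ^ 2 *
      (-(2 * ((V2 * W + 2 * (V1 * W1)) + V * W2))
        - f.nu lam E * (1 - 2 * (V1 * W + V * W1))) := by
  obtain ⟨h1, h2, h3, h23, h13, h12⟩ := Step_ok hf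
  have e0 : -f.e3 * xs lam E (f.m + 5) = f.Z lam E - 2 * ((f.e2 * xs lam E (f.m + 4)) *
      (f.e1 * xs lam E (f.m + 3))) := by
    unfold Z
    rw [show f.m + 5 = (f.m + 2) + 3 by ring, Pool.Agent.H98.Fib.xs]
    linear_combination (2 * (xs lam E (f.m + 4) * xs lam E (f.m + 3))) * h12
  have e1 : -f.e3 * xs1 lam E (f.m + 5) = f.Z1 lam E - 2 * ((f.e2 * xs1 lam E (f.m + 4)) *
      (f.e1 * xs lam E (f.m + 3)) + (f.e2 * xs lam E (f.m + 4)) *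
      (f.e1 * xs1 lam E (f.m + 3))) := by
    unfold Z1
    rw [show f.m + 5 = (f.m + 2) + 3 by ring, xs1]
    linear_combination (2 * (xs1 lam E (f.m + 4) * xs lam E (f.m + 3)
      + xs lam E (f.m + 4) * xs1 lam E (f.m + 3))) * h12
  have e2 : -f.e3 * xs2 lam E (f.m + 5) = f.Z2 lam E - 2 * ((f.e2 * xs2 lam E (f.m + 4)) *
      (f.e1 * xs lam E (f.m + 3)) + 2 * ((f.e2 * xs1 lam E (f.m + 4)) *
      (f.e1 * xs1 lam E (f.m + 3))) + (f.e2 * xs lam E (f.m + 4)) *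
      (f.e1 * xs2 lam E (f.m + 3))) := by
    unfold Z2
    rw [show f.m + 5 = (f.m + 2) + 3 by ring, xs2]
    linear_combination (2 * (xs2 lam E (f.m + 4) * xs lam E (f.m + 3)
      + 2 * (xs1 lam E (f.m + 4) * xs1 lam E (f.m + 3))
      + xs lam E (f.m + 4) * xs2 lam E (f.m + 3))) * h12
  rw [e0, e1, e2, hW1, hW2, hV1, hV2, ← hW, ← hV]
  refine ⟨rfl, by ring, ?_⟩
  unfold nu
  field_simp
  ring

/-- the child's `sig`, `tau`, `nu` -/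
theorem Step_c {s nu A1 A2 g B2 X1 X2 Z1 Z2 : ℝ} (hs : s ≠ 0) (hg : g ≠ 0) (hX1 : X1 = s * A1)
    (hX2 : X2 = s ^ 2 * (A2 - nu * A1)) (hZ1 : Z1 = s * g) (hZ2 : Z2 = s ^ 2 * (B2 - nu * g)) :
    X1 / Z1 = A1 * g⁻¹ ∧
    (X2 * Z1 - X1 * Z2) / Z1 ^ 3 = A2 * (g⁻¹ * g⁻¹) - A1 * g⁻¹ * (B2 * (g⁻¹ * g⁻¹)) ∧
    -Z2 / Z1 ^ 2 = nu * g⁻¹ - B2 * (g⁻¹ * g⁻¹) := by
  subst hX1 hX2 hZ1 hZ2
  refine ⟨?_, ?_, ?_⟩
  · field_simp
  · field_simp
    ring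
  · field_simp
    ring

/-- The step formulas. -/
theorem step (hf : f.ok) (hD : 0 < f.Y lam E - f.X lam E * f.Z lam E)
    (hs : f.Z1 lam E ≠ 0) (i : ℕ)
    (hg : (imgR i (1 + lam ^ 2 / 4) (f.Z lam E) (f.X lam E) (f.sig lam E) (f.tau lam E)).g ≠ 0) :
    let a := imgR i (1 + lam ^ 2 / 4) (f.Z lam E) (f.X lam E) (f.sig lam E) (f.tau lam E)
    (f.ch i).X lam E = a.X ∧ (f.ch i).Y lam E = a.Y ∧ (f.ch i).Z lam E = a.Z ∧
      (f.ch i).Z1 lam E = f.Z1 lam E * a.g ∧ (f.ch i).sig lam E = a.S ∧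
      (f.ch i).tau lam E = a.T ∧ (f.ch i).nu lam E = f.nu lam E * a.q - a.be := by
  obtain ⟨hW, hV⟩ := next_eq hf hD
  obtain ⟨hW1, hW2⟩ := Step_w hf hD hs
  obtain ⟨hV1, hV2⟩ := Step_v hf hD hs
  unfold imgR preR at hg ⊢
  generalize wR (1 + lam ^ 2 / 4) (f.Z lam E) (f.X lam E) = W at *
  generalize w1R (1 + lam ^ 2 / 4) (f.Z lam E) (f.X lam E) (f.sig lam E) = W1 at *
  generalize w2R (1 + lam ^ 2 / 4) (f.Z lam E) (f.X lam E) (f.sig lam E) (f.tau lam E) = W2 at *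
  generalize vR (1 + lam ^ 2 / 4) (f.Z lam E) (f.X lam E) = V at *
  generalize v1R (1 + lam ^ 2 / 4) (f.Z lam E) (f.X lam E) (f.sig lam E) = V1 at *
  generalize v2R (1 + lam ^ 2 / 4) (f.Z lam E) (f.X lam E) (f.sig lam E) (f.tau lam E) = V2 at *
  have hZ2 : f.Z2 lam E = f.Z1 lam E ^ 2 * (0 - f.nu lam E * 1) := by
    unfold nu
    field_simp
    ring
  match i, hg with
  | 0, hg =>
    replace hg : -V1 ≠ 0 := hg
    have hc := Step_c hs hg (X1 := f.Z1 lam E) (X2 := f.Z2 lam E) (A1 := 1) (A2 := 0)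
      (nu := f.nu lam E) (B2 := -V2) (Z1 := -f.e2 * xs1 lam E (f.m + 4))
      (Z2 := -f.e2 * xs2 lam E (f.m + 4)) (by ring) hZ2
      (by linear_combination -hV1) (by linear_combination -hV2)
    obtain ⟨c1, c2, c3⟩ := hc
    refine ⟨rfl, ?_, ?_, ?_, ?_, ?_, c3⟩
    · show -f.e1 * xs lam E (f.m + 3) = -W
      rw [hW]; ring
    · show -f.e2 * xs lam E (f.m + 4) = -V
      rw [hV]; ring
    · show -f.e2 * xs1 lam E (f.m + 4) = f.Z1 lam E * -V1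
      linear_combination -hV1
    · refine c1.trans ?_
      show 1 * (-V1)⁻¹ = (-V1)⁻¹
      ring
    · refine c2.trans ?_
      show 0 * ((-V1)⁻¹ * (-V1)⁻¹) - 1 * (-V1)⁻¹ * (-V2 * ((-V1)⁻¹ * (-V1)⁻¹))
        = -((-V1)⁻¹ * (-V2 * ((-V1)⁻¹ * (-V1)⁻¹)))
      ring
  | 1, hg =>
    replace hg : 1 - 2 * (V1 * W + V * W1) ≠ 0 := hg
    obtain ⟨u0, u1, u2⟩ := Step_u hf hD hs hW hV hW1 hW2 hV1 hV2
    have hc := Step_c hs hg (X1 := f.e1 * xs1 lam E (f.m + 3)) (X2 := f.e1 * xs2 lam E (f.m + 3))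
      (A1 := W1) (A2 := W2) (nu := f.nu lam E) (B2 := -(2 * ((V2 * W + 2 * (V1 * W1)) + V * W2)))
      (Z1 := -f.e3 * xs1 lam E (f.m + 5)) (Z2 := -f.e3 * xs2 lam E (f.m + 5)) hW1 hW2 u1 u2
    obtain ⟨c1, c2, c3⟩ := hc
    refine ⟨hW.symm, ?_, u0, u1, c1, c2, c3⟩
    show -f.e2 * xs lam E (f.m + 4) = -V
    rw [hV]; ring
  | (n + 2), hg =>
    replace hg : V1 ≠ 0 := hg
    have hc := Step_c hs hg (X1 := f.Z1 lam E) (X2 := f.Z2 lam E) (A1 := 1) (A2 := 0)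
      (nu := f.nu lam E) (B2 := V2) (Z1 := f.e2 * xs1 lam E (f.m + 4))
      (Z2 := f.e2 * xs2 lam E (f.m + 4)) (by ring) hZ2 hV1 hV2
    obtain ⟨c1, c2, c3⟩ := hc
    refine ⟨rfl, hW.symm, hV.symm, hV1, ?_, ?_, c3⟩
    · refine c1.trans ?_
      show 1 * V1⁻¹ = V1⁻¹
      ring
    · refine c2.trans ?_
      show 0 * (V1⁻¹ * V1⁻¹) - 1 * V1⁻¹ * (V2 * (V1⁻¹ * V1⁻¹)) = -(V1⁻¹ * (V2 * (V1⁻¹ * V1⁻¹)))
      ring

end Fr

end Pool.Agent.H20.Fib
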