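import Pool.Agent.H20.Fib.ImgRep
import Pool.Agent.H20.Fib.Step

/-!
# FB-10. Frames, tubes: definitions and first facts

PROOFS.  `chF_*`: unfold, `ring`/`simp`, `field_simp` for `sig, tau, nu` (`nu` and `tau` change
sign, `sig` does not; all true also if `Z1 = 0` because of `x / 0 = 0`).
`Upd.*_le`, `below_spec`: triangle inequality, `|u| ≤ 1`, casts of `natAbs`.
`PT lam c u eta f E`: the values of the frame `f` at the energy `E` are in the tube of the class `c` with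
parameters `(u, eta)`.
-/

namespace Pool.Agent.H20.Fib

open TM
open Pool.Agent.H98.Fib (xs Sig)

namespace Fr

/-- the mirrored frame -/
def mir (f : Fr) : Fr := ⟨f.m, -f.e1, f.e2, -f.e3⟩

/-- the child frame in the orientation of its class -/
def chF (f : Fr) (i : ℕ) (fl : Bool) : Fr :=
  match fl with
  | false => f.ch i
  | true => (f.ch i).mir

end Fr

/-- the sign of a mirror flag -/
def sgF (fl : Bool) : ℝ :=
  match fl with
  | false => 1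
  | true => -1

theorem sgF_mul_self (fl : Bool) : sgF fl * sgF fl = 1 := by
  cases fl
  · exact one_mul 1
  · show (-1 : ℝ) * -1 = 1
    norm_num

namespace Fr

variable {f : Fr} {lam E : ℝ}

theorem Blk_mir_ok {g : Fr} (hg : g.ok) : g.mir.ok := by
  obtain ⟨h1, h2, h3, hp⟩ := hg
  refine ⟨jet_neg h1, h2, jet_neg h3, ?_⟩
  change (-g.e1) * g.e2 * (-g.e3) = 1
  linear_combination hp

theorem chF_ok (hf : f.ok) (i : ℕ) (fl : Bool) : (f.chF i fl).ok := by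
  cases fl
  · exact ch_ok hf i
  · exact Blk_mir_ok (ch_ok hf i)

theorem Blk_ch_m (f : Fr) (i : ℕ) : f.m < (f.ch i).m := by
  match i with
  | 0 => exact Nat.lt_add_of_pos_right (by norm_num)
  | 1 => exact Nat.lt_add_of_pos_right (by norm_num)
  | (k + 2) => exact Nat.lt_add_of_pos_right (by norm_num)

theorem Blk_mir_X (g : Fr) (lam E : ℝ) : g.mir.X lam E = -g.X lam E := by
  show -g.e1 * xs lam E g.m = -(g.e1 * xs lam E g.m)
  ring

theorem Blk_mir_Y (g : Fr) (lam E : ℝ) : g.mir.Y lam E = g.Y lam E := rfl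

theorem Blk_mir_Z (g : Fr) (lam E : ℝ) : g.mir.Z lam E = -g.Z lam E := by
  show -g.e3 * xs lam E (g.m + 2) = -(g.e3 * xs lam E (g.m + 2))
  ring

theorem Blk_mir_X1 (g : Fr) (lam E : ℝ) : g.mir.X1 lam E = -g.X1 lam E := by
  show -g.e1 * xs1 lam E g.m = -(g.e1 * xs1 lam E g.m)
  ring

theorem Blk_mir_Z1 (g : Fr) (lam E : ℝ) : g.mir.Z1 lam E = -g.Z1 lam E := by
  show -g.e3 * xs1 lam E (g.m + 2) = -(g.e3 * xs1 lam E (g.m + 2))
  ring

theorem Blk_mir_X2 (g : Fr) (lam E : ℝ) : g.mir.X2 lam E = -g.X2 lam E := by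
  show -g.e1 * xs2 lam E g.m = -(g.e1 * xs2 lam E g.m)
  ring

theorem Blk_mir_Z2 (g : Fr) (lam E : ℝ) : g.mir.Z2 lam E = -g.Z2 lam E := by
  show -g.e3 * xs2 lam E (g.m + 2) = -(g.e3 * xs2 lam E (g.m + 2))
  ring

theorem chF_m (f : Fr) (i : ℕ) (fl : Bool) : f.m < (f.chF i fl).m := by
  cases fl
  · exact Blk_ch_m f i
  · exact Blk_ch_m f i

theorem chF_X (f : Fr) (i : ℕ) (fl : Bool) (lam E : ℝ) :
    (f.chF i fl).X lam E = sgF fl * (f.ch i).X lam E := by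
  cases fl
  · exact (one_mul _).symm
  · show (f.ch i).mir.X lam E = -1 * (f.ch i).X lam E
    rw [Blk_mir_X]
    ring

theorem chF_Y (f : Fr) (i : ℕ) (fl : Bool) (lam E : ℝ) :
    (f.chF i fl).Y lam E = (f.ch i).Y lam E := by
  cases fl
  · rfl
  · rfl

theorem chF_Z (f : Fr) (i : ℕ) (fl : Bool) (lam E : ℝ) :
    (f.chF i fl).Z lam E = sgF fl * (f.ch i).Z lam E := by
  cases fl
  · exact (one_mul _).symm
  · show (f.ch i).mir.Z lam E = -1 * (f.ch i).Z lam E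
    rw [Blk_mir_Z]
    ring

theorem chF_Z1 (f : Fr) (i : ℕ) (fl : Bool) (lam E : ℝ) :
    (f.chF i fl).Z1 lam E = sgF fl * (f.ch i).Z1 lam E := by
  cases fl
  · exact (one_mul _).symm
  · show (f.ch i).mir.Z1 lam E = -1 * (f.ch i).Z1 lam E
    rw [Blk_mir_Z1]
    ring

theorem chF_sig (f : Fr) (i : ℕ) (fl : Bool) (lam E : ℝ) :
    (f.chF i fl).sig lam E = (f.ch i).sig lam E := by
  cases fl
  · rfl
  · show (f.ch i).mir.X1 lam E / (f.ch i).mir.Z1 lam E = (f.ch i).X1 lam E / (f.ch i).Z1 lam E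
    rw [Blk_mir_X1, Blk_mir_Z1, neg_div_neg_eq]

theorem chF_tau (f : Fr) (i : ℕ) (fl : Bool) (lam E : ℝ) :
    (f.chF i fl).tau lam E = sgF fl * (f.ch i).tau lam E := by
  cases fl
  · exact (one_mul _).symm
  · show ((f.ch i).mir.X2 lam E * (f.ch i).mir.Z1 lam E -
      (f.ch i).mir.X1 lam E * (f.ch i).mir.Z2 lam E) / (f.ch i).mir.Z1 lam E ^ 3 =
      -1 * (((f.ch i).X2 lam E * (f.ch i).Z1 lam E -
      (f.ch i).X1 lam E * (f.ch i).Z2 lam E) / (f.ch i).Z1 lam E ^ 3)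
    rw [Blk_mir_X1, Blk_mir_Z1, Blk_mir_X2, Blk_mir_Z2]
    have e : (-(f.ch i).Z1 lam E) ^ 3 = -((f.ch i).Z1 lam E ^ 3) := by ring
    rw [e, div_neg]
    ring

theorem chF_nu (f : Fr) (i : ℕ) (fl : Bool) (lam E : ℝ) :
    (f.chF i fl).nu lam E = sgF fl * (f.ch i).nu lam E := by
  cases fl
  · exact (one_mul _).symm
  · show -(f.ch i).mir.Z2 lam E / (f.ch i).mir.Z1 lam E ^ 2 =
      -1 * (-(f.ch i).Z2 lam E / (f.ch i).Z1 lam E ^ 2)
    rw [Blk_mir_Z1, Blk_mir_Z2, neg_sq]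
    ring

theorem continuous_Z (f : Fr) (lam : ℝ) : Continuous (fun E => f.Z lam E) :=
  continuous_iff_continuousAt.2 fun E => (hasDerivAt_Z f lam E).continuousAt

end Fr

/-- new parameter `u` -/
noncomputable def Upd.uR (p : Upd) (u : ℝ) : ℝ := (p.a0 + p.a1 * u + p.a2 * u ^ 2) / 2 ^ 40

/-- new parameter `eta` -/
noncomputable def Upd.etaR (p : Upd) (u eta : ℝ) : ℝ :=
  (p.e0 + p.e1 * u + p.e2 * u ^ 2) / 2 ^ 40 + (p.f0 + p.f1 * u) / 2 ^ 40 * eta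

theorem Blk_lin {u : ℝ} (hu : |u| ≤ 1) (a : ℤ) : |(a : ℝ) * u| ≤ (a.natAbs : ℝ) := by
  rw [abs_mul, Nat.cast_natAbs, Int.cast_abs]
  exact mul_le_of_le_one_right (abs_nonneg _) hu

theorem Blk_sq {u : ℝ} (hu : |u| ≤ 1) : |u ^ 2| ≤ 1 := by
  rw [abs_pow]
  exact pow_le_one₀ (abs_nonneg _) hu

theorem Blk_cst (a : ℤ) : |(a : ℝ)| ≤ (a.natAbs : ℝ) := by
  rw [Nat.cast_natAbs, Int.cast_abs]

theorem Blk_quad {u : ℝ} (hu : |u| ≤ 1) (a b c : ℤ) :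
    |(a : ℝ) + b * u + c * u ^ 2| ≤ ((a.natAbs + b.natAbs + c.natAbs : ℕ) : ℝ) := by
  push_cast
  have h1 := Blk_cst a
  have h2 := Blk_lin hu b
  have h3 := Blk_lin (Blk_sq hu) c
  calc |(a : ℝ) + b * u + c * u ^ 2| ≤ |(a : ℝ) + b * u| + |(c : ℝ) * u ^ 2| := abs_add_le _ _
    _ ≤ |(a : ℝ)| + |(b : ℝ) * u| + |(c : ℝ) * u ^ 2| := by
        linarith [abs_add_le (a : ℝ) ((b : ℝ) * u)]
    _ ≤ _ := by linarith

theorem Upd.uR_le {p : Upd} (h : updOK p = true) {u : ℝ} (hu : |u| ≤ 1) : |p.uR u| ≤ 1 := by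
  unfold updOK at h
  rw [Bool.and_eq_true] at h
  have h1 := Nat.le_of_ble_eq_true h.1
  have h2 : ((p.a0.natAbs + p.a1.natAbs + p.a2.natAbs : ℕ) : ℝ) ≤ 2 ^ 40 := by
    have h3 : ((p.a0.natAbs + p.a1.natAbs + p.a2.natAbs : ℕ) : ℝ) ≤ ((1099511627776 : ℕ) : ℝ) := by
      exact_mod_cast h1
    refine h3.trans ?_
    norm_num
  unfold Upd.uR
  rw [abs_div, abs_of_pos (by positivity : (0 : ℝ) < 2 ^ 40), div_le_one (by positivity)]
  exact (Blk_quad hu _ _ _).trans h2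

theorem Upd.etaR_le {p : Upd} (h : updOK p = true) {u eta : ℝ} (hu : |u| ≤ 1) (he : |eta| ≤ 1) :
    |p.etaR u eta| ≤ 1 := by
  unfold updOK at h
  rw [Bool.and_eq_true] at h
  have h1 := Nat.le_of_ble_eq_true h.2
  have h2 : ((p.e0.natAbs + p.e1.natAbs + p.e2.natAbs + p.f0.natAbs + p.f1.natAbs : ℕ) : ℝ) ≤
      2 ^ 40 := by
    have h3 : ((p.e0.natAbs + p.e1.natAbs + p.e2.natAbs + p.f0.natAbs + p.f1.natAbs : ℕ) : ℝ) ≤
        ((1099511627776 : ℕ) : ℝ) := by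
      exact_mod_cast h1
    refine h3.trans ?_
    norm_num
  unfold Upd.etaR
  have h4 := Blk_quad hu p.e0 p.e1 p.e2
  have h5 : |((p.f0 : ℝ) + p.f1 * u) * eta| ≤ ((p.f0.natAbs + p.f1.natAbs : ℕ) : ℝ) := by
    rw [abs_mul]
    have h6 : |(p.f0 : ℝ) + p.f1 * u| ≤ ((p.f0.natAbs + p.f1.natAbs : ℕ) : ℝ) := by
      push_cast
      linarith [abs_add_le (p.f0 : ℝ) ((p.f1 : ℝ) * u), Blk_cst p.f0, Blk_lin hu p.f1]
    exact (mul_le_of_le_one_right (abs_nonneg _) he).trans h6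
  have e : (p.e0 + p.e1 * u + p.e2 * u ^ 2) / 2 ^ 40 + (p.f0 + p.f1 * u) / 2 ^ 40 * eta =
      ((p.e0 + p.e1 * u + p.e2 * u ^ 2) + (p.f0 + p.f1 * u) * eta) / 2 ^ 40 := by ring
  rw [e, abs_div, abs_of_pos (by positivity : (0 : ℝ) < 2 ^ 40), div_le_one (by positivity)]
  push_cast at h2 h4 h5
  linarith [abs_add_le (p.e0 + p.e1 * u + p.e2 * u ^ 2) ((p.f0 + p.f1 * u) * eta)]

/-- value of a line -/
def LineD.ev (l : LineD) (u : ℝ) : ℝ := l.b0 + l.b1 * u + l.b2 * u ^ 2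

theorem below_spec {l l' : LineD} {m : ℤ} (h : below l l' m = true) {u : ℝ} (hu : |u| ≤ 1) :
    l.ev u + m ≤ l'.ev u := by
  have h1 : l.b0 + m + ((l'.b1 - l.b1).natAbs + (l'.b2 - l.b2).natAbs : ℕ) ≤ l'.b0 :=
    of_decide_eq_true h
  have h2 : ((l.b0 + m + ((l'.b1 - l.b1).natAbs + (l'.b2 - l.b2).natAbs : ℕ) : ℤ) : ℝ) ≤
      (l'.b0 : ℝ) := Int.cast_le.2 h1
  have h3 := (abs_le.1 (Blk_lin hu (l'.b1 - l.b1))).1
  have h4 := (abs_le.1 (Blk_lin (Blk_sq hu) (l'.b2 - l.b2))).1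
  rw [Int.cast_add, Int.cast_add, Int.cast_natCast, Nat.cast_add] at h2
  rw [Int.cast_sub] at h3 h4
  unfold LineD.ev
  linarith

/-- The values of the frame at the energy `E`, at the position `τ` of the cell `k`, are in the tube. -/
structure InCls (lam : ℝ) (c : Cls) (u eta : ℝ) (f : Fr) (E : ℝ) (k : ℕ) (τ : ℝ) : Prop where
  X : |f.X lam E - ev6R (c.cell k).fX τ u| * 2 ^ 40 ≤ (c.cell k).rX
  S : |f.sig lam E - ev6R (c.cell k).fS τ u| * 2 ^ 40 ≤ (c.cell k).rS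
  T : |f.tau lam E - ev6R (c.cell k).fT τ u| * 2 ^ 40 ≤ (c.cell k).rT
  N : |f.nu lam E - (ev6R (c.cell k).fN τ u + eta * ev6R (c.cell k).fR τ u)| * 2 ^ 40 ≤ (c.cell k).rN

/-- the same in all cells near the point -/
def PT (lam : ℝ) (c : Cls) (u eta : ℝ) (f : Fr) (E : ℝ) : Prop :=
  ∀ k < c.len, ∀ τ : ℝ, |τ| ≤ 13 / 8 → f.Z lam E * 2 ^ 40 = c.mid k + 2 ^ 34 * τ →
    InCls lam c u eta f E k τ

/-- `kap` is a model of `1 + lam^2/4` -/
def KapOK (lam : ℝ) (kap : TM) : Prop := ∀ ρ : Env, Rep ρ kap (1 + lam ^ 2 / 4)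

end Pool.Agent.H20.Fib
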