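import Pool.Agent.H20.Fib.TM

/-!
# The image of a piece of a tube, in Taylor models, and the check of one cell
-/

namespace Pool.Agent.H20.Fib

/-- coefficients of a quadratic polynomial
`(q0 + q1 τ + q2 u + q3 τ^2 + q4 τ u + q5 u^2) / 2^40` -/
structure Q6 where
  q0 : ℤ
  q1 : ℤ
  q2 : ℤ
  q3 : ℤ
  q4 : ℤ
  q5 : ℤ

/-- One cell of a class: the functions `X, sigma, tau, nu0, nu1` (`nu = nu0 + eta nu1`), the radii,
and bounds of the mismatch with the next cell. -/
structure CellD where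
  fX : Q6
  fS : Q6
  fT : Q6
  fN : Q6
  fR : Q6
  rX : ℕ
  rS : ℕ
  rT : ℕ
  rN : ℕ
  mX : ℕ
  mS : ℕ
  mT : ℕ
  mN : ℕ

/-- the child's values: `X, Z, sigma, tau`, `q = 1/g`, `be = B2/g^2`, `Y`, `g` -/
structure ImgT where
  X : TM
  Z : TM
  S : TM
  T : TM
  q : TM
  be : TM
  Y : TM
  g : TM

namespace TM

/-- `2 x` -/
def dbl (x : TM) : TM := nsm 2 x

/-- The symbols `E0, E1, E2` times `m / 2^40`. -/
def sym0 (m : ℕ) : TM := ⟨0, 0, 0, 0, 0, 0, m, 0, 0, m, 0⟩
def sym1 (m : ℕ) : TM := ⟨0, 0, 0, 0, 0, 0, 0, m, 0, m, 0⟩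
def sym2 (m : ℕ) : TM := ⟨0, 0, 0, 0, 0, 0, 0, 0, m, m, 0⟩

/-- The symbols `U`, `U^2`. -/
def symU : TM := ⟨0, 0, 1099511627776, 0, 0, 0, 0, 0, 0, 1099511627776, 0⟩
def symUU : TM := ⟨0, 0, 0, 0, 0, 1099511627776, 0, 0, 0, 1099511627776, 0⟩

/-- evaluation of a quadratic polynomial at `(τ, ξ)`, given `τ, ξ, τ^2, τ ξ, ξ^2` -/
def ev6 (q : Q6) (x1 x2 x3 x4 x5 : TM) : TM :=
  match q with
  | ⟨q0, q1, q2, q3, q4, q5⟩ => lc5 q0 q1 q2 q3 q4 q5 x1 x2 x3 x4 x5

end TM

open TM

/-- part of the image common to the three letters: `Y, Y1, Y2, W, W1, W2, V, V1, V2` -/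
structure Pre where
  Y : TM
  Y1 : TM
  W : TM
  W1 : TM
  W2 : TM
  V : TM
  V1 : TM
  V2 : TM

/-- `kap` is a model of `1 + lam^2/4`, `s` a hint for the root. -/
def preImg (kap : TM) (s : ℕ) (Z X S T : TM) : Pre :=
  let XX := mul X X
  let ZZ := mul Z Z
  let D := sqrt s (sub (add (mul XX ZZ) kap) (add XX ZZ))
  let iD := inv D
  let Y := add (mul X Z) D
  let YZ := mul Y Z
  let Y1 := mul (add (mul (sub YZ X) S) (sub (mul X Y) Z)) iD
  let Y2 := neg (mul (sub (add (add (mul Y1 Y1) (mul S S)) (add (mul X T) one))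
    (add (mul T YZ) (dbl (add (mul (mul S Y1) Z) (add (mul S Y) (mul X Y1)))))) iD)
  let W := sub (dbl YZ) X
  let W1 := sub (dbl (add Y (mul Z Y1))) S
  let W2 := sub (dbl (add (dbl Y1) (mul Z Y2))) T
  let V := sub (dbl (mul W Z)) Y
  let V1 := sub (dbl (add (mul W1 Z) W)) Y1
  let V2 := sub (dbl (add (mul W2 Z) (dbl W1))) Y2
  ⟨Y, Y1, W, W1, W2, V, V1, V2⟩

def imgEnd (A Y : TM) (B B1 B2 : TM) (S : TM → TM) (T : TM → TM → TM → TM → TM) : ImgT :=
  let ig := inv B1
  let ig2 := mul ig ig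
  let be := mul B2 ig2
  let Sc := S ig
  ⟨A, B, Sc, T ig ig2 Sc be, ig, be, Y, B1⟩

/-- The image under the letter `i` (`0 = L`, `1 = M`, `2 = R`). -/
def image (i : ℕ) (kap : TM) (s : ℕ) (Z X S T : TM) : ImgT :=
  match preImg kap s Z X S T with
  | ⟨_, _, W, W1, W2, V, V1, V2⟩ =>
    match i with
    | 0 => imgEnd Z (neg W) (neg V) (neg V1) (neg V2) (fun ig => ig)
        (fun ig _ _ be => neg (mul ig be))
    | 1 => imgEnd W (neg V) (sub Z (dbl (mul V W)))
        (sub one (dbl (add (mul V1 W) (mul V W1))))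
        (neg (dbl (add (add (mul V2 W) (dbl (mul V1 W1))) (mul V W2))))
        (fun ig => mul W1 ig) (fun _ ig2 Sc be => sub (mul W2 ig2) (mul Sc be))
    | _ => imgEnd Z W V V1 V2 (fun ig => ig) (fun ig _ _ be => neg (mul ig be))

/-- A piece `Z 2^40 = z0 + z1 u + h t` of the tube in the cell `k`, with image in the cell `kk`;
`s` is a hint for the square root. -/
structure Sub where
  z0 : ℤ
  z1 : ℤ
  h : ℤ
  k : ℕ
  kk : ℕ
  s : ℕ

/-- update of the parameters: `u' = a0 + a1 u + a2 u^2`, `eta' = e0 + e1 u + e2 u^2 + (f0 + f1 u) eta`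
(all times `2^-40`) -/
structure Upd where
  a0 : ℤ
  a1 : ℤ
  a2 : ℤ
  e0 : ℤ
  e1 : ℤ
  e2 : ℤ
  f0 : ℤ
  f1 : ℤ

/-- the affine model of `(Z 2^40 - mid) / 2^34` -/
def tauOf (Z : TM) (mid : ℤ) : TM := nsm 64 (sub Z (const mid))

/-- mirror image `(X, Z) -> (-X, -Z)` of the child's values (`g` is kept) -/
def mirI (a : ImgT) : ImgT :=
  match a with
  | ⟨X, Z, S, T, q, be, Y, g⟩ => ⟨neg X, neg Z, S, neg T, neg q, neg be, Y, g⟩

/-- the child's values in the frame of its class (`fl`: the frame is mirrored) -/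
def flI (fl : Bool) (a : ImgT) : ImgT :=
  match fl with
  | false => a
  | true => mirI a

/-- quadratic polynomial in `U` -/
def quadU (a b g : ℤ) : TM :=
  ⟨enc a, 0, enc b, 0, 0, enc g, 0, 0, 0, Nat.add a.natAbs (Nat.add b.natAbs g.natAbs), 0⟩

/-- The check of one piece: `c`, `mid` cell data and midpoint of the parent's cell, `d`, `mid'` of
the child's cell; `dp`, `dn` are the neighbours of the child's cell; `fl` says that the child's frame
is mirrored. -/
def cellCheck (kap : TM) (i : ℕ) (fl : Bool) (up : Upd) (c : CellD) (mid : ℤ) (dp d dn : CellD)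
    (mid' : ℤ) (e : Sub) : Bool :=
  let Z := lin e.z0 e.h e.z1
  let x1 := tauOf Z mid
  let x3 := mul x1 x1
  let x4 := mul x1 symU
  let X := add (ev6 c.fX x1 symU x3 x4 symUU) (sym0 c.rX)
  let S := add (ev6 c.fS x1 symU x3 x4 symUU) (sym1 c.rS)
  let T := add (ev6 c.fT x1 symU x3 x4 symUU) (sym2 c.rT)
  let N := ev6 c.fN x1 symU x3 x4 symUU
  let R := ev6 c.fR x1 symU x3 x4 symUU
  let im := flI fl (image i kap e.s Z X S T)
  let y1 := tauOf im.Z mid'
  let y2 := quadU up.a0 up.a1 up.a2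
  let y3 := mul y1 y1
  let y4 := mul y1 y2
  let y5 := mul y2 y2
  let NR := ev6 d.fR y1 y2 y3 y4 y5
  let E0 := quadU up.e0 up.e1 up.e2
  let F0 := lin up.f0 0 up.f1
  let eX := sub im.X (ev6 d.fX y1 y2 y3 y4 y5)
  let eS := sub im.S (ev6 d.fS y1 y2 y3 y4 y5)
  let eT := sub im.T (ev6 d.fT y1 y2 y3 y4 y5)
  let eN := sub (sub (sub (mul N im.q) im.be) (ev6 d.fN y1 y2 y3 y4 y5)) (mul E0 NR)
  let eR := sub (mul R im.q) (mul F0 NR)
  let bX := mag eX
  let bS := mag eS
  let bT := mag eT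
  let bN := Nat.add (Nat.add (mag eN) (mag eR))
    (Nat.add (Nat.shiftRight (Nat.mul c.rN (mag im.q)) 40) 1)
  magLe x1 1786706395136 && ge im.g 2199023255552 && ge (sub im.Y (mul im.X im.Z)) 1 &&
    magLe y1 1511828488192 &&
    good eX && good eS && good eT && good eN && good eR && good im.q &&
    Nat.ble bX d.rX && Nat.ble bS d.rS && Nat.ble bT d.rT && Nat.ble bN d.rN &&
    Nat.ble (Nat.add bX dp.mX) dp.rX && Nat.ble (Nat.add bS dp.mS) dp.rS &&
    Nat.ble (Nat.add bT dp.mT) dp.rT && Nat.ble (Nat.add bN dp.mN) dp.rN &&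
    Nat.ble (Nat.add bX d.mX) dn.rX && Nat.ble (Nat.add bS d.mS) dn.rS &&
    Nat.ble (Nat.add bT d.mT) dn.rT && Nat.ble (Nat.add bN d.mN) dn.rN

/-! ### Classes -/

/-- A class: the range starts at `p`, cell `k` is `[p + 2^35 k, p + 2^35 (k+1)]` (scaled by
`2^40`), evaluated up to `13/8` half widths from its midpoint. -/
structure Cls where
  p : ℤ
  cells : List CellD

/-- a cell beyond the ends -/
def topCell : CellD :=
  ⟨⟨0, 0, 0, 0, 0, 0⟩, ⟨0, 0, 0, 0, 0, 0⟩, ⟨0, 0, 0, 0, 0, 0⟩, ⟨0, 0, 0, 0, 0, 0⟩,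
    ⟨0, 0, 0, 0, 0, 0⟩, 1298074214633706907132624082305024, 1298074214633706907132624082305024,
    1298074214633706907132624082305024, 1298074214633706907132624082305024, 0, 0, 0, 0⟩

namespace Cls

def len (c : Cls) : ℕ := c.cells.length
def cell (c : Cls) (k : ℕ) : CellD := c.cells.getD k topCell
def prev (c : Cls) (k : ℕ) : CellD :=
  match k with
  | 0 => topCell
  | n + 1 => c.cell n
/-- midpoint of the cell `k` -/
def mid (c : Cls) (k : ℕ) : ℤ := c.p + 17179869184 * (2 * (k : ℤ) + 1)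
/-- right end -/
def hi (c : Cls) : ℤ := c.p + 34359738368 * (c.len : ℤ)

end Cls

/-- mismatch of two polynomials in neighbouring cells at `τ = 1 + s`, `|s| ≤ 5/8`, times `64` -/
def mm1 (a b : Q6) : ℕ :=
  match a with
  | ⟨a0, a1, a2, a3, a4, a5⟩ =>
    match b with
    | ⟨b0, b1, b2, b3, b4, b5⟩ =>
      64 * ((a0 + a1 + a3) - (b0 - b1 + b3)).natAbs + 40 * ((a1 + 2 * a3) - (b1 - 2 * b3)).natAbs
        + 25 * (a3 - b3).natAbs + 64 * ((a2 + a4) - (b2 - b4)).natAbs + 40 * (a4 - b4).natAbs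
        + 64 * (a5 - b5).natAbs

def mmCell (a b : CellD) : Bool :=
  Nat.ble (mm1 a.fX b.fX) (64 * a.mX) && Nat.ble (mm1 a.fS b.fS) (64 * a.mS) &&
    Nat.ble (mm1 a.fT b.fT) (64 * a.mT) && Nat.ble (mm1 a.fN b.fN + mm1 a.fR b.fR) (64 * a.mN)

/-- the mismatch bounds of a class are correct -/
def mmList : List CellD → Bool
  | [] => true
  | [_] => true
  | a :: b :: t => mmCell a b && mmList (b :: t)

/-! ### Lines and arcs -/

/-- A line `Z 2^40 = b0 + b1 u + b2 u^2`, in the cell `k`, hint `s`. -/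
structure LineD where
  b0 : ℤ
  b1 : ℤ
  b2 : ℤ
  k : ℕ
  s : ℕ

/-- the traces `D, Y, W, V` computed from `Z, X` -/
def posPre (kap : TM) (s : ℕ) (Z X : TM) : TM × TM × TM × TM :=
  let XX := mul X X
  let ZZ := mul Z Z
  let D := sqrt s (sub (add (mul XX ZZ) kap) (add XX ZZ))
  let Y := add (mul X Z) D
  let W := sub (dbl (mul Y Z)) X
  (D, Y, W, sub (dbl (mul W Z)) Y)

/-- the `Z` of the child `i` (not mirrored) -/
def posZ (i : ℕ) (kap : TM) (s : ℕ) (Z X : TM) : TM :=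
  match posPre kap s Z X with
  | (_, _, W, V) =>
    match i with
    | 0 => neg V
    | 1 => sub Z (dbl (mul V W))
    | _ => V

/-- the tube's `X` at `Z`, in the cell `c` with midpoint `mid` -/
def tubeX (c : CellD) (mid : ℤ) (Z : TM) : TM :=
  let x1 := tauOf Z mid
  add (ev6 c.fX x1 symU (mul x1 x1) (mul x1 symU) symUU) (sym0 c.rX)

/-- the line stays in its cell -/
def lineOK (c : Cls) (l : LineD) : Bool :=
  Nat.blt l.k c.len && magLe (tauOf (quadU l.b0 l.b1 l.b2) (c.mid l.k)) 1786706395136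

def flT (fl : Bool) (x : TM) : TM :=
  match fl with
  | false => x
  | true => neg x

/-- the child's `Z` (in the frame of its class) at the line `l` -/
def zLine (kap : TM) (i : ℕ) (fl : Bool) (c : Cls) (l : LineD) : TM :=
  flT fl (posZ i kap l.s (quadU l.b0 l.b1 l.b2) (tubeX (c.cell l.k) (c.mid l.k)
    (quadU l.b0 l.b1 l.b2)))

/-- child's `Z` at the line is at least / at most `T` (plus or minus `m`) -/
def zGE (kap : TM) (i : ℕ) (fl : Bool) (c : Cls) (l : LineD) (T : TM) (m : ℤ) : Bool :=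
  lineOK c l && ge (sub (zLine kap i fl c l) T) m

def zLE (kap : TM) (i : ℕ) (fl : Bool) (c : Cls) (l : LineD) (T : TM) (m : ℤ) : Bool :=
  lineOK c l && le (sub (zLine kap i fl c l) T) m

/-- The line `l` is below the line `l'` by at least `m`, for all `|u| ≤ 1`. -/
def below (l l' : LineD) (m : ℤ) : Bool :=
  decide (l.b0 + m + ((l'.b1 - l.b1).natAbs + (l'.b2 - l.b2).natAbs : ℕ) ≤ l'.b0)

/-- The pieces cover the region from the line `lo` to the line `hi`. -/
def cover : LineD → List Sub → LineD → Bool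
  | lo, [], hi => below hi lo 0
  | lo, e :: t, hi =>
    below ⟨e.z0 - e.h, e.z1, 0, 0, 0⟩ lo 0 && cover ⟨e.z0 + e.h, e.z1, 0, 0, 0⟩ t hi

/-- An arc: letter, mirror flag, class of the child, update, pieces, the lines where they start and
end, and two lines `A`, `B` inside the child's block. -/
structure ArcD where
  fl : Bool
  nx : ℕ
  up : Upd
  subs : List Sub
  lo : LineD
  hi : LineD
  A : LineD
  B : LineD

def updOK (up : Upd) : Bool :=
  Nat.ble (up.a0.natAbs + up.a1.natAbs + up.a2.natAbs) 1099511627776 &&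
    Nat.ble (up.e0.natAbs + up.e1.natAbs + up.e2.natAbs + up.f0.natAbs + up.f1.natAbs) 1099511627776

def subOK (kap : TM) (i : ℕ) (a : ArcD) (c d : Cls) (e : Sub) : Bool :=
  Nat.blt e.k c.len && Nat.blt e.kk d.len && decide (0 < e.h) &&
    cellCheck kap i a.fl a.up (c.cell e.k) (c.mid e.k) (d.prev e.kk) (d.cell e.kk) (d.cell (e.kk + 1))
      (d.mid e.kk) e

def cellsCheck (kap : TM) (i : ℕ) (a : ArcD) (c d : Cls) : List Sub → Bool
  | [] => true
  | e :: t => subOK kap i a c d e && cellsCheck kap i a c d t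

def endsCheck (kap : TM) (i : ℕ) (a : ArcD) (c d : Cls) : Bool :=
  match a.fl with
  | false => zLE kap i false c a.lo (const d.p) (-1) && zGE kap i false c a.hi (const d.hi) 1 &&
      zGE kap i false c a.A (const d.p) 0 && zLE kap i false c a.B (const d.hi) 0
  | true => zGE kap i true c a.lo (const d.hi) 1 && zLE kap i true c a.hi (const d.p) (-1) &&
      zLE kap i true c a.A (const d.hi) 0 && zGE kap i true c a.B (const d.p) 0

/-- The check of an arc from the class `c` to the class `d`. -/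
def arcCheck (kap : TM) (i : ℕ) (a : ArcD) (c d : Cls) : Bool :=
  updOK a.up && cover a.lo a.subs a.hi && below a.lo a.A 0 && below a.B a.hi 0 &&
    below a.A a.B 1 && endsCheck kap i a c d && cellsCheck kap i a c d a.subs

/-! ### Escape -/

/-- An escape piece `|Z 2^40 - z0 - z1 u| ≤ h` in the cell `k`, hint `s`, after `j` steps. -/
structure EscD where
  z0 : ℤ
  z1 : ℤ
  h : ℤ
  k : ℕ
  s : ℕ
  j : ℕ

def gt1 (x : TM) : Bool := ge x 1099511627777 || le x (-1099511627777)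

/-- two consecutive terms larger than one -/
def escSeq : ℕ → TM → TM → TM → Bool
  | 0, _, b, c => gt1 b && gt1 c
  | n + 1, a, b, c => escSeq n b c (sub (dbl (mul b c)) a)

def escCell (kap : TM) (c : Cls) (e : EscD) : Bool :=
  let Z := lin e.z0 e.h e.z1
  let X := tubeX (c.cell e.k) (c.mid e.k) Z
  Nat.blt e.k c.len && decide (0 < e.h) && magLe (tauOf Z (c.mid e.k)) 1786706395136 &&
    match posPre kap e.s Z X with
    | (_, Y, _, _) => escSeq e.j X Y Z

def escList (kap : TM) (c : Cls) : List EscD → Bool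
  | [] => true
  | e :: t => escCell kap c e && escList kap c t

/-- the escape pieces cover the region from `lo` to `hi` -/
def coverE : LineD → List EscD → LineD → Bool
  | lo, [], hi => below hi lo 0
  | lo, e :: t, hi =>
    below ⟨e.z0 - e.h, e.z1, 0, 0, 0⟩ lo 0 && coverE ⟨e.z0 + e.h, e.z1, 0, 0, 0⟩ t hi

/-- The combinatorial data of a class: three arcs and four lists of escape pieces. -/
structure ClsD where
  a0 : ArcD
  a1 : ArcD
  a2 : ArcD
  g0 : List EscD
  g1 : List EscD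
  g2 : List EscD
  g3 : List EscD

/-- order of the strips and the escape regions -/
def gapCheck (kap : TM) (c : Cls) (D : ClsD) : Bool :=
  mmList c.cells &&
  below ⟨c.p, 0, 0, 0, 0⟩ D.a0.lo 0 && below D.a0.hi D.a1.lo 1 && below D.a1.hi D.a2.lo 1 &&
  below D.a2.hi ⟨c.hi, 0, 0, 0, 0⟩ 0 &&
  coverE ⟨c.p, 0, 0, 0, 0⟩ D.g0 D.a0.A && coverE D.a0.B D.g1 D.a1.A && coverE D.a1.B D.g2 D.a2.A &&
  coverE D.a2.B D.g3 ⟨c.hi, 0, 0, 0, 0⟩ &&
  escList kap c D.g0 && escList kap c D.g1 && escList kap c D.g2 && escList kap c D.g3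

/-- the arc of a letter -/
def ClsD.arc (D : ClsD) (i : ℕ) : ArcD :=
  match i with
  | 0 => D.a0
  | 1 => D.a1
  | _ => D.a2

end Pool.Agent.H20.Fib
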