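import Pool.Agent.H20.Fib.Blk

/-!
# FB-11. Soundness of the check of one piece

`cell_sound`: let `E` be an energy where the frame `f` is in the tube of the class `c` with parameters
`(u, eta)`, with `Z 2^40` in the piece `e` of the arc `A` (letter `i`) from `c` to `d`, and `subOK`
holds.  Then the child frame `f.chF i A.fl` is in the tube of `d` with the updated parameters, its
derivative is `sgF fl * Z1 * g` with `g ≥ 2`, and `Y' - X' Z' > 0`.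

PROOF.  Unfold `subOK`, `cellCheck` (a chain of `&&`).  `h := e.h > 0`.
1. Environment `ρ`: `t = (Z 2^40 - z0 - z1 u)/h`, `u = u`, `e0 = (X - ev6R fX τ u) 2^40 / rX`
   (`0` if `rX = 0`; in all cases `|e0| ≤ 1` and `X = ev6R fX τ u + rX/2^40 e0` by `InCls`), same for
   `e1` (`sig`), `e2` (`tau`); here `τ = (Z 2^40 - mid k)/2^34`.  `rep_lin` and `rep_tauOf` give
   `Rep ρ (lin z0 h z1) Z` and `Rep ρ x1 τ`; `magLe x1 1786706395136` gives `|τ| ≤ 13/8`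
   (`1786706395136 = 13/8 * 2^40`), so `InCls` of the cell `e.k` is available.  (`InCls` is needed for `e0`, so
   first use an environment with `e0 = e1 = e2 = 0` to get `|τ| ≤ 13/8`.)
2. `Rep` of `X, S, T` (by `rep_ev6`, `rep_mul`, `rep_symU`, `rep_symUU`, `rep_sym0/1/2`, `rep_add`), `N0 = ev6R fN τ u`,
   `R0 = ev6R fR τ u`; `rep_image` gives the child's values `a = imgR i k1 Z X sig tau`.
   `ge im.g 2199023255552` gives `a.g ≥ 2` (so `≠ 0`) and `Fr.step` identifies them (`hs` from the hypothesis).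
   With the mirror flag: `Rep` of `-X, -Z, S, -T, -q, -be` (`rep_neg`); `chF_X` etc.
3. `magLe y1 1511828488192`: `|τ'| ≤ 11/8`, `τ' = (Z' 2^40 - mid' kk)/2^34`.
   `y2` represents `uR u` (`rep_quadU`), `y3 = τ'^2`, `y4 = τ' u'`, `y5 = u'^2`.  `rep_mag` gives
   `|X' - ev6R d.fX τ' u'| 2^40 ≤ bX`, same `S, T`.
4. `N`: `nu' = s (nu q - be)` (`s = sgF fl`, the mirrored `q`, `be` contain the sign), `nu = N0 + eta R0 + dl`,
   `|dl| 2^40 ≤ rN`.  `nu' - (NN + eta' NR) = (N0 q - be - NN - E0 NR) + eta (R0 q - F0 NR) + dl q`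
   where `NN = ev6R d.fN τ' u'`, `NR = ev6R d.fR τ' u'`, `eta' = E0 + F0 eta`.  Bounds: `mag eN`, `mag eR`
   (`|eta| ≤ 1`), and `|dl q| 2^40 ≤ rN mag(q) / 2^40 ≤ shiftRight (rN * mag q) 40 + 1`.
5. Conclusion for the cell `kk`: `bX ≤ d.rX` etc.  For a general cell `k'` and `τ''` with
   `|τ''| ≤ 13/8`, `Z' 2^40 = mid k' + 2^34 τ''`: `τ'' = τ' - 2 (k' - kk)`, and `|τ'| ≤ 11/8` gives
   `|k' - kk| ≤ 1` (integers).  `k' = kk + 1`: with `s = τ' - 1`, `|s| ≤ 5/8` (`τ' = 1 + s`,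
   `τ'' = -1 + s`): `mism_spec` for the pair `(kk, kk+1)` bounds the differences of the polynomials by
   `mX` etc., and `bX + d.mX ≤ dn.rX`.  `k' = kk - 1`: `τ'' = 1 + s`, `τ' = -1 + s`, pair
   `(kk-1, kk)`, `bX + dp.mX ≤ dp.rX`.  For `N` the difference is `(fN - fN') + eta' (fR - fR')`, `|eta'| ≤ 1`.
`mism_one`: `a(1+s, u) - b(-1+s, u) = d0 + d1 s + d3 s^2 + d2 u + d4 s u + d5 u^2` with the integers of `mm1`,
`|s| ≤ 5/8 = 40/64`, `s^2 ≤ 25/64`.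
-/

namespace Pool.Agent.H20.Fib

open TM
open Pool.Agent.H98.Fib (xs Sig)

theorem CellS_natAbs (n : ℤ) : ((n.natAbs : ℕ) : ℝ) = |(n : ℝ)| := by
  rw [Nat.cast_natAbs, Int.cast_abs]

theorem CellS_term {a s c : ℝ} (_ : 0 ≤ c) (hs : |s| ≤ c) : |a * s| ≤ c * |a| := by
  rw [abs_mul, mul_comm]
  exact mul_le_mul_of_nonneg_right hs (abs_nonneg a)

theorem mism_one (a b : Q6) {s u : ℝ} (hs : |s| ≤ 5 / 8) (hu : |u| ≤ 1) :
    |ev6R a (1 + s) u - ev6R b (-1 + s) u| * 2 ^ 40 * 64 ≤ (mm1 a b : ℝ) := by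
  obtain ⟨a0, a1, a2, a3, a4, a5⟩ := a
  obtain ⟨b0, b1, b2, b3, b4, b5⟩ := b
  have hm : (mm1 ⟨a0, a1, a2, a3, a4, a5⟩ ⟨b0, b1, b2, b3, b4, b5⟩ : ℝ)
      = 64 * |((a0 + a1 + a3 : ℝ) - (b0 - b1 + b3))| + 40 * |((a1 + 2 * a3 : ℝ) - (b1 - 2 * b3))|
        + 25 * |(a3 : ℝ) - b3| + 64 * |((a2 + a4 : ℝ) - (b2 - b4))| + 40 * |(a4 : ℝ) - b4|
        + 64 * |(a5 : ℝ) - b5| := by
    simp only [mm1]
    push_cast [CellS_natAbs]
    ring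
  rw [hm]
  have hs2 : |s ^ 2| ≤ 25 / 64 := by
    rw [abs_pow]
    nlinarith [abs_nonneg s]
  have hsu : |s * u| ≤ 5 / 8 := by
    rw [abs_mul]
    nlinarith [abs_nonneg s, abs_nonneg u]
  have hu2 : |u ^ 2| ≤ 1 := by
    rw [abs_pow]
    nlinarith [abs_nonneg u]
  have e1 := CellS_term (a := (a1 + 2 * a3 : ℝ) - (b1 - 2 * b3)) (by norm_num) hs
  have e3 := CellS_term (a := (a3 : ℝ) - b3) (by norm_num) hs2
  have e2 := CellS_term (a := (a2 + a4 : ℝ) - (b2 - b4)) (by norm_num) hu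
  have e4 := CellS_term (a := (a4 : ℝ) - b4) (by norm_num) hsu
  have e5 := CellS_term (a := (a5 : ℝ) - b5) (by norm_num) hu2
  have e0 : |((a0 + a1 + a3 : ℝ) - (b0 - b1 + b3))| ≤ |((a0 + a1 + a3 : ℝ) - (b0 - b1 + b3))| :=
    le_rfl
  have key : |ev6R ⟨a0, a1, a2, a3, a4, a5⟩ (1 + s) u - ev6R ⟨b0, b1, b2, b3, b4, b5⟩ (-1 + s) u|
      * 2 ^ 40 = |((a0 + a1 + a3 : ℝ) - (b0 - b1 + b3)) + ((a1 + 2 * a3 : ℝ) - (b1 - 2 * b3)) * s
        + ((a3 : ℝ) - b3) * s ^ 2 + ((a2 + a4 : ℝ) - (b2 - b4)) * u + ((a4 : ℝ) - b4) * (s * u)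
        + ((a5 : ℝ) - b5) * u ^ 2| := by
    rw [← abs_of_pos (show (0 : ℝ) < 2 ^ 40 by positivity), ← abs_mul]
    congr 1
    unfold ev6R
    push_cast
    ring
  rw [key]
  rw [abs_le] at e1 e2 e3 e4 e5 e0
  have : |((a0 + a1 + a3 : ℝ) - (b0 - b1 + b3)) + ((a1 + 2 * a3 : ℝ) - (b1 - 2 * b3)) * s
        + ((a3 : ℝ) - b3) * s ^ 2 + ((a2 + a4 : ℝ) - (b2 - b4)) * u + ((a4 : ℝ) - b4) * (s * u)
        + ((a5 : ℝ) - b5) * u ^ 2| ≤ (64 * |((a0 + a1 + a3 : ℝ) - (b0 - b1 + b3))| + 40 * |((a1 + 2 * a3 : ℝ) - (b1 - 2 * b3))|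
        + 25 * |(a3 : ℝ) - b3| + 64 * |((a2 + a4 : ℝ) - (b2 - b4))| + 40 * |(a4 : ℝ) - b4|
        + 64 * |(a5 : ℝ) - b5|) / 64 := by
    rw [abs_le]
    constructor <;> linarith [e1.1, e1.2, e2.1, e2.2, e3.1, e3.2, e4.1, e4.2, e5.1, e5.2, e0.1, e0.2]
  linarith

theorem mism_spec {l : List CellD} (h : mmList l = true) {k : ℕ} (hk : k + 1 < l.length) :
    mmCell (l.getD k topCell) (l.getD (k + 1) topCell) = true := by
  induction l generalizing k with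
  | nil => simp at hk
  | cons a t ih =>
    cases t with
    | nil => simp at hk
    | cons b t =>
      rw [mmList, Bool.and_eq_true] at h
      cases k with
      | zero => simpa using h.1
      | succ k =>
        have := ih h.2 (k := k) (by simpa using hk)
        simpa using this

/-- mismatch of two neighbouring cells -/
theorem CellS_mm {a b : CellD} (h : mmCell a b = true) {s u : ℝ} (hs : |s| ≤ 5 / 8)
    (hu : |u| ≤ 1) :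
    |ev6R a.fX (1 + s) u - ev6R b.fX (-1 + s) u| * 2 ^ 40 ≤ a.mX ∧
    |ev6R a.fS (1 + s) u - ev6R b.fS (-1 + s) u| * 2 ^ 40 ≤ a.mS ∧
    |ev6R a.fT (1 + s) u - ev6R b.fT (-1 + s) u| * 2 ^ 40 ≤ a.mT ∧
    (|ev6R a.fN (1 + s) u - ev6R b.fN (-1 + s) u|
      + |ev6R a.fR (1 + s) u - ev6R b.fR (-1 + s) u|) * 2 ^ 40 ≤ a.mN := by
  simp only [mmCell, Bool.and_eq_true, Nat.ble_eq] at h
  obtain ⟨⟨⟨h1, h2⟩, h3⟩, h4⟩ := h
  have g1 : ((mm1 a.fX b.fX : ℕ) : ℝ) ≤ 64 * a.mX := by exact_mod_cast h1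
  have g2 : ((mm1 a.fS b.fS : ℕ) : ℝ) ≤ 64 * a.mS := by exact_mod_cast h2
  have g3 : ((mm1 a.fT b.fT : ℕ) : ℝ) ≤ 64 * a.mT := by exact_mod_cast h3
  have g4 : ((mm1 a.fN b.fN : ℕ) : ℝ) + (mm1 a.fR b.fR : ℕ) ≤ 64 * a.mN := by exact_mod_cast h4
  have f1 := mism_one a.fX b.fX hs hu
  have f2 := mism_one a.fS b.fS hs hu
  have f3 := mism_one a.fT b.fT hs hu
  have f4 := mism_one a.fN b.fN hs hu
  have f5 := mism_one a.fR b.fR hs hu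
  refine ⟨by linarith, by linarith, by linarith, by linarith⟩

/-- the symbol of a remainder -/
theorem CellS_sym {x p : ℝ} {r : ℕ} (h : |x - p| * 2 ^ 40 ≤ r) :
    ∃ e : ℝ, |e| ≤ 1 ∧ p + (r : ℝ) / 2 ^ 40 * e = x := by
  rcases Nat.eq_zero_or_pos r with rfl | hr
  · refine ⟨0, by simp, ?_⟩
    have h1 : |x - p| ≤ 0 := by
      have : |x - p| * 2 ^ 40 ≤ 0 := by simpa using h
      nlinarith [abs_nonneg (x - p)]
    have h2 : x - p = 0 := abs_nonpos_iff.1 h1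
    simp
    linarith
  · have hr' : (0 : ℝ) < r := by exact_mod_cast hr
    refine ⟨(x - p) * 2 ^ 40 / r, ?_, ?_⟩
    · rw [abs_div, abs_mul, abs_of_pos hr', abs_of_pos (show (0 : ℝ) < 2 ^ 40 by positivity),
        div_le_one hr']
      exact h
    · field_simp
      ring

theorem CellS_flI {ρ : Env} {im : ImgT} {a : ImgR} (fl : Bool)
    (h : Rep ρ im.X a.X ∧ Rep ρ im.Z a.Z ∧ Rep ρ im.S a.S ∧ Rep ρ im.T a.T ∧ Rep ρ im.q a.q ∧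
      Rep ρ im.be a.be ∧ Rep ρ im.Y a.Y ∧ Rep ρ im.g a.g) :
    Rep ρ (flI fl im).X (sgF fl * a.X) ∧ Rep ρ (flI fl im).Z (sgF fl * a.Z) ∧
      Rep ρ (flI fl im).S a.S ∧ Rep ρ (flI fl im).T (sgF fl * a.T) ∧
      Rep ρ (flI fl im).q (sgF fl * a.q) ∧ Rep ρ (flI fl im).be (sgF fl * a.be) ∧
      Rep ρ (flI fl im).Y a.Y ∧ Rep ρ (flI fl im).g a.g := by
  obtain ⟨X, Z, S, T, q, be, Y, g⟩ := im
  obtain ⟨h1, h2, h3, h4, h5, h6, h7, h8⟩ := h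
  cases fl with
  | false =>
    exact ⟨ImgRep_cast h1 (by simp [sgF]), ImgRep_cast h2 (by simp [sgF]), h3,
      ImgRep_cast h4 (by simp [sgF]), ImgRep_cast h5 (by simp [sgF]),
      ImgRep_cast h6 (by simp [sgF]), h7, h8⟩
  | true =>
    exact ⟨ImgRep_cast (rep_neg h1) (by simp [sgF]), ImgRep_cast (rep_neg h2) (by simp [sgF]), h3,
      ImgRep_cast (rep_neg h4) (by simp [sgF]), ImgRep_cast (rep_neg h5) (by simp [sgF]),
      ImgRep_cast (rep_neg h6) (by simp [sgF]), h7, h8⟩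

theorem CellS_first {kap : TM} {i : ℕ} {fl : Bool} {up : Upd} {c : CellD} {mid : ℤ}
    {dp d dn : CellD} {mid' : ℤ} {e : Sub}
    (h : cellCheck kap i fl up c mid dp d dn mid' e = true) :
    magLe (tauOf (lin e.z0 e.h e.z1) mid) 1786706395136 = true := by
  unfold cellCheck at h
  extract_lets Z x1 x3 x4 X S T N R im y1 y2 y3 y4 y5 NR E0 F0 eX eS eT eN eR bX bS bT bN at h
  simp only [Bool.and_eq_true] at h
  exact h.1.1.1.1.1.1.1.1.1.1.1.1.1.1.1.1.1.1.1.1.1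

/-- the product with the remainder of `nu` -/
theorem CellS_rem {x q : ℝ} {r m : ℕ} (hx : |x| * 2 ^ 40 ≤ r) (hq : |q| * 2 ^ 40 ≤ m) :
    |x * q| * 2 ^ 40 ≤ (Nat.add (Nat.shiftRight (Nat.mul r m) 40) 1 : ℕ) := by
  have h := tmb_shift (Nat.mul r m)
  have h1 : ((Nat.add (Nat.shiftRight (Nat.mul r m) 40) 1 : ℕ) : ℝ)
      = (Nat.shiftRight (Nat.mul r m) 40 : ℕ) + 1 := by
    push_cast
    rfl
  rw [h1]
  refine le_trans ?_ h
  have h2 : ((Nat.mul r m : ℕ) : ℝ) = (r : ℝ) * m := by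
    rw [Nat.mul_eq, Nat.cast_mul]
  rw [h2, le_div_iff₀ (by positivity), abs_mul]
  calc |x| * |q| * 2 ^ 40 * 2 ^ 40 = (|x| * 2 ^ 40) * (|q| * 2 ^ 40) := by ring
    _ ≤ (r : ℝ) * m := mul_le_mul hx hq (by positivity) (by positivity)

theorem CellS_tri (a b c : ℝ) {e : ℝ} (he : |e| ≤ 1) : |a + e * b + c| ≤ |a| + |b| + |c| := by
  have h := CellS_term (a := b) (by norm_num) he
  rw [mul_comm b e, one_mul] at h
  refine (abs_add_three _ _ _).trans ?_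
  linarith

/-- The core: all facts which follow from the check at one point. -/
theorem CellS_core {ρ : Env} {kap : TM} {k1 : ℝ} (hk : Rep ρ kap k1) {i : ℕ} {fl : Bool}
    {up : Upd} {c : CellD} {mid : ℤ} {dp d dn : CellD} {mid' : ℤ} {e : Sub}
    (h : cellCheck kap i fl up c mid dp d dn mid' e = true) {Z X S T τ : ℝ}
    (hZ : Z * 2 ^ 40 = e.z0 + e.h * ρ.t + e.z1 * ρ.u) (hτ : τ = (Z * 2 ^ 40 - mid) / 2 ^ 34)
    (hX : ev6R c.fX τ ρ.u + (c.rX : ℝ) / 2 ^ 40 * ρ.e0 = X)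
    (hS : ev6R c.fS τ ρ.u + (c.rS : ℝ) / 2 ^ 40 * ρ.e1 = S)
    (hT : ev6R c.fT τ ρ.u + (c.rT : ℝ) / 2 ^ 40 * ρ.e2 = T) {τ' : ℝ}
    (hτ' : τ' = (sgF fl * (imgR i k1 Z X S T).Z * 2 ^ 40 - mid') / 2 ^ 34) :
    2 ≤ (imgR i k1 Z X S T).g ∧
    0 < (imgR i k1 Z X S T).Y - (sgF fl * (imgR i k1 Z X S T).X) * (sgF fl * (imgR i k1 Z X S T).Z) ∧
    |τ'| ≤ 11 / 8 ∧
    ∃ bX bS bT bN : ℕ,
      |sgF fl * (imgR i k1 Z X S T).X - ev6R d.fX τ' (up.uR ρ.u)| * 2 ^ 40 ≤ bX ∧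
      |(imgR i k1 Z X S T).S - ev6R d.fS τ' (up.uR ρ.u)| * 2 ^ 40 ≤ bS ∧
      |sgF fl * (imgR i k1 Z X S T).T - ev6R d.fT τ' (up.uR ρ.u)| * 2 ^ 40 ≤ bT ∧
      (∀ eta nu : ℝ, |eta| ≤ 1 →
        |nu - (ev6R c.fN τ ρ.u + eta * ev6R c.fR τ ρ.u)| * 2 ^ 40 ≤ c.rN →
        |sgF fl * (nu * (imgR i k1 Z X S T).q - (imgR i k1 Z X S T).be)
          - (ev6R d.fN τ' (up.uR ρ.u) + up.etaR ρ.u eta * ev6R d.fR τ' (up.uR ρ.u))| * 2 ^ 40
          ≤ bN) ∧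
      (bX ≤ d.rX ∧ bS ≤ d.rS ∧ bT ≤ d.rT ∧ bN ≤ d.rN) ∧
      (bX + dp.mX ≤ dp.rX ∧ bS + dp.mS ≤ dp.rS ∧ bT + dp.mT ≤ dp.rT ∧ bN + dp.mN ≤ dp.rN) ∧
      (bX + d.mX ≤ dn.rX ∧ bS + d.mS ≤ dn.rS ∧ bT + d.mT ≤ dn.rT ∧ bN + d.mN ≤ dn.rN) := by
  unfold cellCheck at h
  extract_lets Zt x1 x3 x4 Xt St Tt Nt Rt im y1 y2 y3 y4 y5 NR E0 F0 eX eS eT eN eR bX bS bT bN at h
  simp only [Bool.and_eq_true, Nat.ble_eq] at h
  obtain ⟨⟨⟨⟨⟨⟨⟨⟨⟨⟨⟨⟨⟨⟨⟨⟨⟨⟨⟨⟨⟨h1, h2⟩, h3⟩, h4⟩, g1⟩, g2⟩, g3⟩, g4⟩, g5⟩, g6⟩, a1⟩, a2⟩, a3⟩, a4⟩,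
    b1⟩, b2⟩, b3⟩, b4⟩, c1⟩, c2⟩, c3⟩, c4⟩ := h
  have rZ : Rep ρ Zt Z := ImgRep_cast (rep_lin (a := e.z0) (b := e.h) (g := e.z1)) (by
    rw [← hZ]; field_simp)
  have rx1 : Rep ρ x1 τ := ImgRep_cast (rep_tauOf (mid := mid) rZ) hτ.symm
  have rx3 : Rep ρ x3 (τ ^ 2) := ImgRep_cast (rep_mul rx1 rx1) (by ring)
  have rx4 : Rep ρ x4 (τ * ρ.u) := rep_mul rx1 rep_symU
  have rX : Rep ρ Xt X := ImgRep_cast (rep_add (rep_ev6 rx1 rep_symU rx3 rx4 rep_symUU)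
    (rep_sym0 c.rX)) hX
  have rS : Rep ρ St S := ImgRep_cast (rep_add (rep_ev6 rx1 rep_symU rx3 rx4 rep_symUU)
    (rep_sym1 c.rS)) hS
  have rT : Rep ρ Tt T := ImgRep_cast (rep_add (rep_ev6 rx1 rep_symU rx3 rx4 rep_symUU)
    (rep_sym2 c.rT)) hT
  have rN : Rep ρ Nt (ev6R c.fN τ ρ.u) := rep_ev6 rx1 rep_symU rx3 rx4 rep_symUU
  have rR : Rep ρ Rt (ev6R c.fR τ ρ.u) := rep_ev6 rx1 rep_symU rx3 rx4 rep_symUU
  obtain ⟨iX, iZ, iS, iT, iq, ibe, iY, ig⟩ := CellS_flI fl (rep_image i e.s hk rZ rX rS rT)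
  generalize imgR i k1 Z X S T = A at *
  have ry1 : Rep ρ y1 τ' := ImgRep_cast (rep_tauOf (mid := mid') iZ) hτ'.symm
  have ry2 : Rep ρ y2 (up.uR ρ.u) := rep_quadU up.a0 up.a1 up.a2
  have ry3 : Rep ρ y3 (τ' ^ 2) := ImgRep_cast (rep_mul ry1 ry1) (by ring)
  have ry4 : Rep ρ y4 (τ' * up.uR ρ.u) := rep_mul ry1 ry2
  have ry5 : Rep ρ y5 (up.uR ρ.u ^ 2) := ImgRep_cast (rep_mul ry2 ry2) (by ring)
  have rNR : Rep ρ NR (ev6R d.fR τ' (up.uR ρ.u)) := rep_ev6 ry1 ry2 ry3 ry4 ry5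
  have rE0 := rep_quadU (ρ := ρ) up.e0 up.e1 up.e2
  have rF0 := rep_lin (ρ := ρ) (a := up.f0) (b := 0) (g := up.f1)
  have reX : Rep ρ eX _ := rep_sub iX (rep_ev6 (q := d.fX) ry1 ry2 ry3 ry4 ry5)
  have reS : Rep ρ eS _ := rep_sub iS (rep_ev6 (q := d.fS) ry1 ry2 ry3 ry4 ry5)
  have reT : Rep ρ eT _ := rep_sub iT (rep_ev6 (q := d.fT) ry1 ry2 ry3 ry4 ry5)
  have reN : Rep ρ eN _ := rep_sub (rep_sub (rep_sub (rep_mul rN iq) ibe)
    (rep_ev6 (q := d.fN) ry1 ry2 ry3 ry4 ry5)) (rep_mul rE0 rNR)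
  have reR : Rep ρ eR _ := rep_sub (rep_mul rR iq) (rep_mul rF0 rNR)
  have m2 := rep_ge ig h2
  have m3 := rep_ge (rep_sub iY (rep_mul iX iZ)) h3
  have m4 := rep_magLe ry1 h4
  have n1 := rep_mag reX g1
  have n2 := rep_mag reS g2
  have n3 := rep_mag reT g3
  have n4 := rep_mag reN g4
  have n5 := rep_mag reR g5
  have n6 := rep_mag iq g6
  refine ⟨?_, ?_, ?_, bX, bS, bT, bN, n1, n2, n3, ?_, ⟨a1, a2, a3, a4⟩, ⟨b1, b2, b3, b4⟩,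
    ⟨c1, c2, c3, c4⟩⟩
  · push_cast at m2
    linarith
  · push_cast at m3
    linarith
  · push_cast at m4
    linarith
  · intro eta nu he hnu
    have n7 := CellS_rem hnu n6
    have key : sgF fl * (nu * A.q - A.be) - (ev6R d.fN τ' (up.uR ρ.u)
          + up.etaR ρ.u eta * ev6R d.fR τ' (up.uR ρ.u))
        = (ev6R c.fN τ ρ.u * (sgF fl * A.q) - sgF fl * A.be - ev6R d.fN τ' (up.uR ρ.u)
            - (up.e0 + up.e1 * ρ.u + up.e2 * ρ.u ^ 2) / 2 ^ 40 * ev6R d.fR τ' (up.uR ρ.u))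
          + eta * (ev6R c.fR τ ρ.u * (sgF fl * A.q)
            - (up.f0 + ((0 : ℤ) : ℝ) * ρ.t + up.f1 * ρ.u) / 2 ^ 40 * ev6R d.fR τ' (up.uR ρ.u))
          + (nu - (ev6R c.fN τ ρ.u + eta * ev6R c.fR τ ρ.u)) * (sgF fl * A.q) := by
      unfold Upd.etaR
      push_cast
      ring
    rw [key]
    have t1 := CellS_tri (ev6R c.fN τ ρ.u * (sgF fl * A.q) - sgF fl * A.be
      - ev6R d.fN τ' (up.uR ρ.u)
      - (up.e0 + up.e1 * ρ.u + up.e2 * ρ.u ^ 2) / 2 ^ 40 * ev6R d.fR τ' (up.uR ρ.u))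
      (ev6R c.fR τ ρ.u * (sgF fl * A.q)
      - (up.f0 + ((0 : ℤ) : ℝ) * ρ.t + up.f1 * ρ.u) / 2 ^ 40 * ev6R d.fR τ' (up.uR ρ.u))
      ((nu - (ev6R c.fN τ ρ.u + eta * ev6R c.fR τ ρ.u)) * (sgF fl * A.q)) he
    refine (mul_le_mul_of_nonneg_right t1 (by positivity)).trans ?_
    have hb : (bN : ℝ) = (mag eN + mag eR : ℝ)
        + (Nat.add (Nat.shiftRight (Nat.mul c.rN (mag im.q)) 40) 1 : ℕ) := by
      have : bN = mag eN + mag eR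
        + (Nat.add (Nat.shiftRight (Nat.mul c.rN (mag im.q)) 40) 1 : ℕ) := rfl
      rw [this, Nat.cast_add, Nat.cast_add]
    rw [hb]
    linarith

/-- passing to the neighbouring cell -/
theorem CellS_pass {x p q : ℝ} {b m r : ℕ} (h1 : |x - p| * 2 ^ 40 ≤ b)
    (h2 : |p - q| * 2 ^ 40 ≤ m) (h3 : b + m ≤ r) : |x - q| * 2 ^ 40 ≤ r := by
  have h4 : |x - q| ≤ |x - p| + |p - q| := abs_sub_le _ _ _
  have h5 : (b : ℝ) + m ≤ r := by exact_mod_cast h3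
  have h6 := mul_le_mul_of_nonneg_right h4 (show (0 : ℝ) ≤ 2 ^ 40 by positivity)
  linarith

theorem CellS_passN {x p1 p2 q1 q2 e : ℝ} {b m r : ℕ} (he : |e| ≤ 1)
    (h1 : |x - (p1 + e * p2)| * 2 ^ 40 ≤ b)
    (h2 : (|p1 - q1| + |p2 - q2|) * 2 ^ 40 ≤ m) (h3 : b + m ≤ r) :
    |x - (q1 + e * q2)| * 2 ^ 40 ≤ r := by
  refine CellS_pass h1 (q := q1 + e * q2) ?_ h3
  refine le_trans (mul_le_mul_of_nonneg_right ?_ (by positivity)) h2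
  have h := CellS_tri (p1 - q1) (p2 - q2) 0 he
  rw [abs_zero, add_zero, add_zero] at h
  have e1 : p1 + e * p2 - (q1 + e * q2) = p1 - q1 + e * (p2 - q2) := by ring
  rw [e1]
  exact h

theorem CellS_prev (c : Cls) (k : ℕ) : c.prev (k + 1) = c.cell k := rfl

theorem cell_sound {lam : ℝ} {kap : TM} (hk : KapOK lam kap) {i : ℕ} {A : ArcD} {c d : Cls}
    {e : Sub} (hc : subOK kap i A c d e = true) (hup : updOK A.up = true)
    (hd : mmList d.cells = true) {u eta : ℝ} {f : Fr} {E : ℝ} (hf : f.ok) (hu : |u| ≤ 1)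
    (he : |eta| ≤ 1) (hT : PT lam c u eta f E) (hD : 0 < f.Y lam E - f.X lam E * f.Z lam E)
    (h1 : f.Z1 lam E ≠ 0) (hz : |f.Z lam E * 2 ^ 40 - (e.z0 + e.z1 * u)| ≤ (e.h : ℝ)) :
    PT lam d (A.up.uR u) (A.up.etaR u eta) (f.chF i A.fl) E ∧
    0 < (f.chF i A.fl).Y lam E - (f.chF i A.fl).X lam E * (f.chF i A.fl).Z lam E ∧
    ∃ g : ℝ, 2 ≤ g ∧ (f.chF i A.fl).Z1 lam E = sgF A.fl * f.Z1 lam E * g := by
  simp only [subOK, Bool.and_eq_true, decide_eq_true_eq] at hc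
  obtain ⟨⟨⟨hk1, hk2⟩, hh⟩, hc⟩ := hc
  have hk1' : e.k < c.len := by simpa [Nat.blt] using hk1
  have hk2' : e.kk < d.len := by simpa [Nat.blt] using hk2
  have hh' : (0 : ℝ) < e.h := by exact_mod_cast hh
  have hfirst := CellS_first hc
  obtain ⟨t, ht, hZt⟩ : ∃ t : ℝ, |t| ≤ 1 ∧ f.Z lam E * 2 ^ 40 = e.z0 + e.h * t + e.z1 * u := by
    refine ⟨(f.Z lam E * 2 ^ 40 - (e.z0 + e.z1 * u)) / e.h, ?_, ?_⟩
    · rw [abs_div, abs_of_pos hh', div_le_one hh']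
      exact hz
    · field_simp
      ring
  obtain ⟨τ, hτ⟩ : ∃ τ : ℝ, τ = (f.Z lam E * 2 ^ 40 - c.mid e.k) / 2 ^ 34 := ⟨_, rfl⟩
  have hτ1 : |τ| ≤ 13 / 8 := by
    let ρ : Env := ⟨t, u, 0, 0, 0, ht, hu, by simp, by simp, by simp⟩
    have rZ : Rep ρ (lin e.z0 e.h e.z1) (f.Z lam E) :=
      ImgRep_cast (rep_lin (a := e.z0) (b := e.h) (g := e.z1)) (by
        change ((e.z0 : ℝ) + e.h * t + e.z1 * u) / 2 ^ 40 = _
        rw [← hZt]; field_simp)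
    have r1 := rep_magLe (rep_tauOf (mid := c.mid e.k) rZ) hfirst
    rw [← hτ] at r1
    push_cast at r1
    linarith
  have hin := hT e.k hk1' τ hτ1 (by rw [hτ]; field_simp; ring)
  obtain ⟨e0, he0, hX⟩ := CellS_sym hin.X
  obtain ⟨e1, he1, hS⟩ := CellS_sym hin.S
  obtain ⟨e2, he2, hTT⟩ := CellS_sym hin.T
  let ρ : Env := ⟨t, u, e0, e1, e2, ht, hu, he0, he1, he2⟩
  obtain ⟨τ', hτ'⟩ : ∃ τ' : ℝ, τ' = (sgF A.fl * (imgR i (1 + lam ^ 2 / 4) (f.Z lam E) (f.X lam E)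
    (f.sig lam E) (f.tau lam E)).Z * 2 ^ 40 - d.mid e.kk) / 2 ^ 34 := ⟨_, rfl⟩
  obtain ⟨hg, hD', hτ2, bX, bS, bT, bN, c1, c2, c3, c4, ⟨d1, d2, d3, d4⟩, ⟨p1, p2, p3, p4⟩,
    ⟨n1, n2, n3, n4⟩⟩ := CellS_core (ρ := ρ) (hk ρ) hc (Z := f.Z lam E) (X := f.X lam E)
      (S := f.sig lam E) (T := f.tau lam E) (τ := τ) hZt hτ hX hS hTT hτ'
  change |sgF A.fl * _ - ev6R _ τ' (A.up.uR u)| * 2 ^ 40 ≤ _ at c1
  change |_ - ev6R _ τ' (A.up.uR u)| * 2 ^ 40 ≤ _ at c2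
  change |sgF A.fl * _ - ev6R _ τ' (A.up.uR u)| * 2 ^ 40 ≤ _ at c3
  have c5 := c4 eta (f.nu lam E) he hin.N
  change |_ - (ev6R _ τ' (A.up.uR u) + A.up.etaR u eta * ev6R _ τ' (A.up.uR u))| * 2 ^ 40 ≤ _ at c5
  clear c4
  have hst := Fr.step hf hD h1 i (lam := lam) (E := E) (by linarith)
  simp only at hst
  generalize imgR i (1 + lam ^ 2 / 4) (f.Z lam E) (f.X lam E) (f.sig lam E) (f.tau lam E) = a at *
  obtain ⟨s1, s2, s3, s4, s5, s6, s7⟩ := hst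
  have hu' := Upd.uR_le hup hu
  have he' := Upd.etaR_le hup hu he
  refine ⟨?_, ?_, a.g, hg, ?_⟩
  · intro k' hk' τ'' hτ'' hz'
    rw [Fr.chF_Z, s3] at hz'
    have hmid : ((d.mid k' : ℤ) : ℝ) - (d.mid e.kk : ℤ) = 2 ^ 35 * ((k' : ℝ) - e.kk) := by
      unfold Cls.mid
      push_cast
      ring
    have hrel : τ'' = τ' - 2 * ((k' : ℝ) - e.kk) := by
      have : τ' * 2 ^ 34 = sgF A.fl * a.Z * 2 ^ 40 - d.mid e.kk := by
        rw [hτ']; field_simp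
      linarith
    have hcases : k' = e.kk ∨ k' = e.kk + 1 ∨ e.kk = k' + 1 := by
      rw [abs_le] at hτ'' hτ2
      have q1 : (k' : ℝ) - e.kk < 2 := by linarith [hτ''.1, hτ''.2, hτ2.1, hτ2.2]
      have q2 : (e.kk : ℝ) - k' < 2 := by linarith [hτ''.1, hτ''.2, hτ2.1, hτ2.2]
      have q3 : (k' : ℤ) - e.kk < 2 := by exact_mod_cast q1
      have q4 : (e.kk : ℤ) - k' < 2 := by exact_mod_cast q2
      omega
    rcases hcases with rfl | rfl | hkk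
    · have : τ'' = τ' := by rw [hrel]; ring
      subst this
      constructor
      · rw [Fr.chF_X, s1]
        exact c1.trans (by exact_mod_cast d1)
      · rw [Fr.chF_sig, s5]
        exact c2.trans (by exact_mod_cast d2)
      · rw [Fr.chF_tau, s6]
        exact c3.trans (by exact_mod_cast d3)
      · rw [Fr.chF_nu, s7]
        exact c5.trans (by exact_mod_cast d4)
    · have hm := CellS_mm (mism_spec hd (k := e.kk) hk') (s := τ' - 1) (u := A.up.uR u) (by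
        push_cast at hrel
        rw [abs_le] at hτ'' hτ2 ⊢
        constructor <;> linarith [hτ''.1, hτ''.2, hτ2.1, hτ2.2]) hu'
      have z1 : 1 + (τ' - 1) = τ' := by ring
      have z2 : -1 + (τ' - 1) = τ'' := by rw [hrel]; push_cast; ring
      rw [z1, z2] at hm
      obtain ⟨m1, m2, m3, m4⟩ := hm
      constructor
      · rw [Fr.chF_X, s1]
        exact CellS_pass c1 m1 n1
      · rw [Fr.chF_sig, s5]
        exact CellS_pass c2 m2 n2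
      · rw [Fr.chF_tau, s6]
        exact CellS_pass c3 m3 n3
      · rw [Fr.chF_nu, s7]
        exact CellS_passN he' c5 m4 n4
    · have hm := CellS_mm (mism_spec hd (k := k') (by rw [← hkk]; exact hk2')) (s := τ' + 1)
        (u := A.up.uR u) (by
        rw [hkk] at hrel
        push_cast at hrel
        rw [abs_le] at hτ'' hτ2 ⊢
        constructor <;> linarith [hτ''.1, hτ''.2, hτ2.1, hτ2.2]) hu'
      have z1 : 1 + (τ' + 1) = τ'' := by rw [hrel, hkk]; push_cast; ring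
      have z2 : -1 + (τ' + 1) = τ' := by ring
      rw [z1, z2] at hm
      obtain ⟨m1, m2, m3, m4⟩ := hm
      rw [hkk] at c1 c2 c3 c5 p1 p2 p3 p4
      rw [abs_sub_comm] at m1 m2 m3
      have m4' : (|ev6R (d.cell (k' + 1)).fN τ' (A.up.uR u) - ev6R (d.cell k').fN τ'' (A.up.uR u)|
          + |ev6R (d.cell (k' + 1)).fR τ' (A.up.uR u) - ev6R (d.cell k').fR τ'' (A.up.uR u)|)
          * 2 ^ 40 ≤ (d.cell k').mN := by
        rw [abs_sub_comm (ev6R (d.cell (k' + 1)).fN τ' (A.up.uR u)),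
          abs_sub_comm (ev6R (d.cell (k' + 1)).fR τ' (A.up.uR u))]
        exact m4
      constructor
      · rw [Fr.chF_X, s1]
        exact CellS_pass c1 m1 p1
      · rw [Fr.chF_sig, s5]
        exact CellS_pass c2 m2 p2
      · rw [Fr.chF_tau, s6]
        exact CellS_pass c3 m3 p3
      · rw [Fr.chF_nu, s7]
        exact CellS_passN he' c5 m4' p4
  · rw [Fr.chF_Y, Fr.chF_X, Fr.chF_Z, s1, s2, s3]
    exact hD'
  · rw [Fr.chF_Z1, s4]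
    ring

end Pool.Agent.H20.Fib
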