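import Pool.Agent.H20.Fib.EdgeC
import Pool.Agent.H98.Fib.Interface

/-!
# Contexts: parameter boxes, steps between boxes, rows in the units of the interface

A context is a class together with a box of parameters
`u 2^40 = U0 + U1 x`, `eta 2^40 = V0 + V1 x + V2 n`, `|x|, |n| ≤ 1`.
The context number `k` of the list `X` gives two rows of the table `tab`: `2 k` for the words with
the orientation of the class (parameters `x, n`), `2 k + 1` for the mirrored ones (parameters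
`-x, -n`).
-/

namespace Pool.Agent.H20.Fib

open TM
open Pool.Agent.H98.Fib (Aff CtxRow)

/-- A box of parameters. -/
structure Box where
  U0 : ℤ
  U1 : ℕ
  V0 : ℤ
  V1 : ℤ
  V2 : ℕ

/-- The parameters `u, eta` have the coordinates `x, n` in the box. -/
structure Box.In (b : Box) (u eta x n : ℝ) : Prop where
  hx : |x| ≤ 1
  hn : |n| ≤ 1
  u : u * 2 ^ 40 = b.U0 + b.U1 * x
  eta : eta * 2 ^ 40 = b.V0 + b.V1 * x + b.V2 * n

/-- model of `u`: `x` is the symbol `U` -/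
def Box.Ut (b : Box) : TM :=
  ⟨enc b.U0, 0, b.U1, 0, 0, 0, 0, 0, 0, Nat.add b.U0.natAbs b.U1, 0⟩

/-- model of `eta`: `x` is the symbol `U`, `n` the symbol `E0` -/
def Box.Et (b : Box) : TM :=
  ⟨enc b.V0, 0, enc b.V1, 0, 0, 0, b.V2, 0, 0, Nat.add (Nat.add b.V0.natAbs b.V1.natAbs) b.V2, 0⟩

/-- The update `p` maps the box `b` into the box `b'`. -/
def boxStep (p : Upd) (b b' : Box) : Bool :=
  let P0 : ℤ := p.a0 * 1208925819614629174706176 + p.a1 * b.U0 * 1099511627776 +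
    p.a2 * b.U0 * b.U0 - b'.U0 * 1208925819614629174706176
  let P1 : ℤ := (p.a1 * 1099511627776 + 2 * p.a2 * b.U0) * b.U1
  let P2 : ℤ := p.a2 * b.U1 * b.U1
  let g0 : ℤ := p.f0 * 1099511627776 + p.f1 * b.U0
  let g1 : ℤ := p.f1 * b.U1
  let Q0 : ℤ := p.e0 * 1208925819614629174706176 + p.e1 * b.U0 * 1099511627776 +
    p.e2 * b.U0 * b.U0 + g0 * b.V0 - b'.V0 * 1208925819614629174706176
  let Q1 : ℤ := (p.e1 * 1099511627776 + 2 * p.e2 * b.U0) * b.U1 + g0 * b.V1 + g1 * b.V0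
  let Q2 : ℤ := p.e2 * b.U1 * b.U1 + g1 * b.V1
  Nat.ble 1 b'.U1 && Nat.ble 1 b'.V2 &&
  Nat.ble (Nat.add (Nat.add P0.natAbs P1.natAbs) P2.natAbs)
    (Nat.mul b'.U1 1208925819614629174706176) &&
  Nat.ble (Nat.add (Nat.add (Nat.add (b'.U1 * Q0 - b'.V1 * P0).natAbs
      (b'.U1 * Q1 - b'.V1 * P1).natAbs) (b'.U1 * Q2 - b'.V1 * P2).natAbs)
      (Nat.add (b'.U1 * (g0 * b.V2)).natAbs (b'.U1 * (g1 * b.V2)).natAbs))
    (Nat.mul (Nat.mul b'.U1 b'.V2) 1208925819614629174706176)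

/-- A context: class, box, contexts of the canonical children, rows in units of the low and of the
high edge constant. -/
structure CtxD where
  ci : ℕ
  box : Box
  n0 : ℕ
  n1 : ℕ
  n2 : ℕ
  rl : RowD
  rh : RowD

/-- context of the canonical child `j` -/
def CtxD.n (x : CtxD) (j : ℕ) : ℕ :=
  match j with
  | 0 => x.n0
  | 1 => x.n1
  | _ => x.n2

/-- closure of the contexts: `D` is the data of the class -/
def ctxStep (X : ℕ → CtxD) (x : CtxD) (D : ClsD) : Bool :=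
  decide ((X x.n0).ci = D.a0.nx) && boxStep D.a0.up x.box (X x.n0).box &&
  decide ((X x.n1).ci = D.a1.nx) && boxStep D.a1.up x.box (X x.n1).box &&
  decide ((X x.n2).ci = D.a2.nx) && boxStep D.a2.up x.box (X x.n2).box

/-- `q` in the parameters `x, n` implies the affine form `f` in `x, n` -/
def affP (q : Q5) (f : Aff) : Bool :=
  decide ((2 * q.c + q.uu - 2097152 * f.c).natAbs + q.uu.natAbs +
    2 * (q.u - 1048576 * f.s).natAbs + 2 * (q.h - 1048576 * f.t).natAbs + 2 * q.r ≤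
    2097152 * f.e)

/-- `q` in the parameters `x, n` implies the affine form `f` in `-x, -n` -/
def affN (q : Q5) (f : Aff) : Bool :=
  decide ((2 * q.c + q.uu - 2097152 * f.c).natAbs + q.uu.natAbs +
    2 * (q.u + 1048576 * f.s).natAbs + 2 * (q.h + 1048576 * f.t).natAbs + 2 * q.r ≤
    2097152 * f.e)

/-- the constant form of `1 / mu` -/
def affC (imu : TM) (f : Aff) : Bool :=
  decide (f.s = 0) && decide (f.t = 0) && decide ((imu.c - 1048576 * f.c).natAbs + imu.r ≤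
    1048576 * f.e)

/-- the row `R` implies the row `T` of the table -/
def rowP (imu : TM) (R : RowD) (T : CtxRow) : Bool :=
  affP R.p1 T.e1 && affP R.p2 T.e2 && affP R.p3 T.e3 && affP R.p4 T.e4 && affP R.p5 T.len &&
  affC imu T.a0 && affP R.a1 T.a1 && affP R.a2 T.a2 && affP R.b0 T.b0 && affP R.b1 T.b1 &&
  affP R.b2 T.b2 && affP R.bb T.bb

def rowN (imu : TM) (R : RowD) (T : CtxRow) : Bool :=
  affN R.p1 T.e1 && affN R.p2 T.e2 && affN R.p3 T.e3 && affN R.p4 T.e4 && affN R.p5 T.len &&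
  affC imu T.a0 && affN R.a1 T.a1 && affN R.a2 T.a2 && affN R.b0 T.b0 && affN R.b1 T.b1 &&
  affN R.b2 T.b2 && affN R.bb T.bb

/-- `2 (p - q) ≤ len` for all parameters in `[-1, 1]` -/
def halfA (p q len : Aff) : Bool :=
  decide (2 * (p.c - q.c) + 2 * (p.e + q.e) + (2 * (p.s - q.s) - len.s).natAbs +
    (2 * (p.t - q.t) - len.t).natAbs + len.e ≤ len.c)

/-- every child is at most half as long as the word -/
def halfOK (T : CtxRow) : Bool :=
  halfA T.e1 ⟨0, 0, 0, 0⟩ T.len && halfA T.e3 T.e2 T.len && halfA T.len T.e4 T.len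

/-- `2 k` or `2 k + 1` -/
def ori (k : ℕ) (o : Bool) : ℕ :=
  match o with
  | false => 2 * k
  | true => 2 * k + 1

/-- the links of the two rows of the context `k` -/
def linkOK (k : ℕ) (x : CtxD) (D : ClsD) (T T' : CtxRow) : Bool :=
  decide (T.nx0 = ori x.n0 D.a0.fl) && decide (T.nx1 = ori x.n1 D.a1.fl) &&
  decide (T.nx2 = ori x.n2 D.a2.fl) && decide (T.mir = 2 * k + 1) &&
  decide (T'.nx0 = ori x.n2 (!D.a2.fl)) && decide (T'.nx1 = ori x.n1 (!D.a1.fl)) &&
  decide (T'.nx2 = ori x.n0 (!D.a0.fl)) && decide (T'.mir = 2 * k)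

/-- all light checks of the context `k` -/
def ctxOK (imu : TM) (X : ℕ → CtxD) (dat : ℕ → ClsD) (tab : ℕ → CtxRow) (N M k : ℕ) : Bool :=
  Nat.blt (X k).ci N && Nat.blt (X k).n0 M && Nat.blt (X k).n1 M && Nat.blt (X k).n2 M &&
  ctxStep X (X k) (dat (X k).ci) &&
  rowP imu (X k).rl (tab (2 * k)) && rowN imu (X k).rh (tab (2 * k + 1)) &&
  halfOK (tab (2 * k)) && halfOK (tab (2 * k + 1)) &&
  linkOK k (X k) (dat (X k).ci) (tab (2 * k)) (tab (2 * k + 1))

/-- the row checks of the context `k` -/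
def ctxLow (kap imu : TM) (cls : ℕ → Cls) (dat : ℕ → ClsD) (edg : ℕ → EdgD)
    (schU : ℕ → List RI) (x : CtxD) : Bool :=
  rowLow kap imu x.box.Ut x.box.Et (cls x.ci) (dat x.ci) (edg x.ci) (edg (dat x.ci).a0.nx)
    (edg (dat x.ci).a1.nx) (edg (dat x.ci).a2.nx) x.rl (schU x.ci)

def ctxHigh (kap imu : TM) (cls : ℕ → Cls) (dat : ℕ → ClsD) (edg : ℕ → EdgD)
    (schD : ℕ → List RI) (x : CtxD) : Bool :=
  rowHigh kap imu x.box.Ut x.box.Et (cls x.ci) (dat x.ci) (edg x.ci) (edg (dat x.ci).a0.nx)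
    (edg (dat x.ci).a1.nx) (edg (dat x.ci).a2.nx) x.rh (schD x.ci)

end Pool.Agent.H20.Fib
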