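import Pool.Agent.H20.Fib.EdgeC

/-!
# The downward step of the length integration (MP_9069b3_mp)

`stepLn_ok`: one piece from the value `Z` at `E` down to the value at `E'`; the lengths are positive.
-/

namespace Pool.Agent.H20.Fib

open TM
open Pool.Agent.H98.Fib (RepT LSt nuM rep_nuM half rep_half symT rep_symT pieceH pieceZ pieceX pieceR
  seg_frame continuous_frZ1 continuous_frZ2)

theorem PieceDn_nu (f : Fr) (lam E : ℝ) : f.mir.nu lam E = -f.nu lam E := by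
  show -f.mir.Z2 lam E / f.mir.Z1 lam E ^ 2 = -(-f.Z2 lam E / f.Z1 lam E ^ 2)
  rw [Fr.Blk_mir_Z1, Fr.Blk_mir_Z2, neg_sq]
  ring

/-- The piece of a block between two energies, `Z` decreasing along the parameter. -/
theorem seg_frame_neg {f : Fr} {lam Ea Eb m h : ℝ} (hh : h < 0)
    (hne : ∀ E ∈ Set.uIcc Ea Eb, f.Z1 lam E ≠ 0) (ha : f.Z lam Ea = m - h)
    (hb : f.Z lam Eb = m + h) :
    ∃ I : ℝ → ℝ, (∀ t, |t| ≤ 1 → I t ∈ Set.uIcc Ea Eb ∧ f.Z lam (I t) = m + h * t) ∧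
      I (-1) = Ea ∧ I 1 = Eb ∧ ContinuousOn I (Set.Icc (-1) 1) ∧
      (∀ t, |t| ≤ 1 → Real.exp (h * ∫ s in (-1 : ℝ)..t, f.nu lam (I s)) =
        |f.Z1 lam Ea| / |f.Z1 lam (I t)|) ∧
      h * ∫ t in (-1 : ℝ)..1, (|f.Z1 lam Ea| / |f.Z1 lam (I t)|) =
        -(|Eb - Ea| * |f.Z1 lam Ea|) := by
  obtain ⟨I, i1, i2, i3, i4, i5, i6⟩ := seg_frame (f := f.mir) (lam := lam) (Ea := Ea) (Eb := Eb)
    (m := -m) (h := -h) (by linarith)
    (fun E hE => by rw [Fr.Blk_mir_Z1]; exact neg_ne_zero.2 (hne E hE))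
    (by rw [Fr.Blk_mir_Z, ha]; ring) (by rw [Fr.Blk_mir_Z, hb]; ring)
  have ez : ∀ E, |f.mir.Z1 lam E| = |f.Z1 lam E| := fun E => by rw [Fr.Blk_mir_Z1, abs_neg]
  refine ⟨I, fun t ht => ⟨(i1 t ht).1, ?_⟩, i2, i3, i4, ?_, ?_⟩
  · have := (i1 t ht).2
    rw [Fr.Blk_mir_Z] at this
    linarith
  · intro t ht
    have h5 := i5 t ht
    rw [ez, ez] at h5
    rw [← h5]
    congr 1
    have e1 : (∫ s in (-1 : ℝ)..t, f.mir.nu lam (I s)) = -∫ s in (-1 : ℝ)..t, f.nu lam (I s) := by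
      rw [← intervalIntegral.integral_neg]
      exact intervalIntegral.integral_congr fun s _ => PieceDn_nu f lam (I s)
    rw [e1]
    ring
  · simp only [ez] at i6
    linarith

/-- The models of the length and of the density quotient of a downward piece. -/
theorem seg_rep_neg {ρ : Env} {f : Fr} {lam Ea Eb m h : ℝ} {NU HT : TM} (hh : h < 0)
    (hne : ∀ E ∈ Set.uIcc Ea Eb, f.Z1 lam E ≠ 0) (ha : f.Z lam Ea = m - h)
    (hb : f.Z lam Eb = m + h)
    (hNU : ∀ t (ht : |t| ≤ 1) E, E ∈ Set.uIcc Ea Eb → f.Z lam E = m + h * t →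
      Rep (ρ.setT t ht) NU (f.nu lam E))
    (hHT : ∀ t (ht : |t| ≤ 1), Rep (ρ.setT t ht) HT h) :
    Rep ρ (mul HT (integ (exp (mul HT (ai NU))))) (-(|Eb - Ea| * |f.Z1 lam Ea|)) ∧
      Rep ρ (exp (mul HT (integ NU))) (|f.Z1 lam Ea| / |f.Z1 lam Eb|) := by
  obtain ⟨I, i1, i2, i3, i4, i5, i6⟩ := seg_frame_neg hh hne ha hb
  have cZ1 : ContinuousOn (fun t => f.Z1 lam (I t)) (Set.Icc (-1) 1) :=
    (continuous_frZ1 f lam).comp_continuousOn i4
  have cZ2 : ContinuousOn (fun t => f.Z2 lam (I t)) (Set.Icc (-1) 1) :=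
    (continuous_frZ2 f lam).comp_continuousOn i4
  have hne' : ∀ t ∈ Set.Icc (-1 : ℝ) 1, f.Z1 lam (I t) ≠ 0 := fun t ht =>
    hne _ (i1 t (abs_le.2 ht)).1
  have cnu : ContinuousOn (fun t => f.nu lam (I t)) (Set.Icc (-1) 1) := by
    have : ContinuousOn (fun t => -f.Z2 lam (I t) / f.Z1 lam (I t) ^ 2) (Set.Icc (-1) 1) :=
      cZ2.neg.div (cZ1.pow 2) fun t ht => pow_ne_zero 2 (hne' t ht)
    exact this
  have hnui : IntervalIntegrable (fun t => f.nu lam (I t)) MeasureTheory.volume (-1) 1 := by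
    refine ContinuousOn.intervalIntegrable ?_
    rw [Set.uIcc_of_le (by norm_num)]
    exact cnu
  have hrep : ∀ t (ht : |t| ≤ 1), Rep (ρ.setT t ht) (exp (mul HT (ai NU)))
      (|f.Z1 lam Ea| / |f.Z1 lam (I t)|) := by
    intro t ht
    rw [← i5 t ht]
    refine rep_exp (rep_mul (hHT t ht) ?_)
    exact rep_ai hnui (fun s hs => hNU s hs (I s) (i1 s hs).1 (i1 s hs).2) ht
  have hqi : IntervalIntegrable (fun t => |f.Z1 lam Ea| / |f.Z1 lam (I t)|)
      MeasureTheory.volume (-1) 1 := by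
    refine ContinuousOn.intervalIntegrable ?_
    rw [Set.uIcc_of_le (by norm_num)]
    exact ContinuousOn.div continuousOn_const cZ1.abs fun t ht => abs_ne_zero.2 (hne' t ht)
  constructor
  · rw [← i6]
    refine rep_mul ?_ (rep_integ hqi hrep)
    exact hHT ρ.t ρ.ht
  · have h1 := i5 1 (by norm_num)
    rw [i3] at h1
    rw [← h1]
    refine rep_exp (rep_mul ?_ (rep_integ hnui
      (fun s hs => hNU s hs (I s) (i1 s hs).1 (i1 s hs).2)))
    exact hHT ρ.t ρ.ht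

/-- Length and density quotient of a downward piece. -/
theorem piece_sound_neg {ρ : Env} {lam : ℝ} {c : Cls} {u eta : ℝ} {f : Fr} {Ea Eb : ℝ} {k : ℕ}
    {A B Ut Et : TM} (hok : pieceOKn c k A B = true)
    (hT : ∀ E ∈ Set.uIcc Ea Eb, PT lam c u eta f E)
    (hne : ∀ E ∈ Set.uIcc Ea Eb, f.Z1 lam E ≠ 0)
    (hA : RepT ρ A (f.Z lam Ea)) (hB : RepT ρ B (f.Z lam Eb)) (hU : RepT ρ Ut u)
    (hE : RepT ρ Et eta) :
    f.Z lam Eb < f.Z lam Ea ∧
    RepT ρ (mul (pieceH A B) (integ (pieceX c k A B Ut Et))) (-(|Eb - Ea| * |f.Z1 lam Ea|)) ∧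
    RepT ρ (pieceR c k A B Ut Et) (|f.Z1 lam Ea| / |f.Z1 lam Eb|) := by
  unfold pieceOKn at hok
  rw [Bool.and_eq_true, Bool.and_eq_true] at hok
  obtain ⟨⟨o1, o2⟩, o3⟩ := hok
  have hk : k < c.len := by
    have : Nat.ble (k + 1) c.len = true := o1
    exact Nat.le_of_ble_eq_true this
  have hH : RepT ρ (pieceH A B) ((f.Z lam Eb - f.Z lam Ea) / 2) :=
    fun t ht => rep_half ((hB.sub hA) t ht)
  have hh : (f.Z lam Eb - f.Z lam Ea) / 2 < 0 := by
    have h1 := rep_le hH.rep o2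
    push_cast at h1
    by_contra hc
    push Not at hc
    have : 0 ≤ (f.Z lam Eb - f.Z lam Ea) / 2 * 2 ^ 40 := mul_nonneg hc (by positivity)
    linarith
  have hZt : ∀ t (ht : |t| ≤ 1), Rep (ρ.setT t ht) (pieceZ A B)
      ((f.Z lam Ea + f.Z lam Eb) / 2 + (f.Z lam Eb - f.Z lam Ea) / 2 * t) := fun t ht =>
    rep_add (rep_half ((hA.add hB) t ht)) (rep_mul (hH t ht) (rep_symT (ρ := ρ.setT t ht)))
  refine ⟨by linarith, ?_⟩
  have key : ∀ (ρ' : Env), (∀ t (ht : |t| ≤ 1), ρ'.setT t ht = ρ.setT t ht) →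
      Rep ρ' (mul (pieceH A B) (integ (pieceX c k A B Ut Et))) (-(|Eb - Ea| * |f.Z1 lam Ea|)) ∧
      Rep ρ' (pieceR c k A B Ut Et) (|f.Z1 lam Ea| / |f.Z1 lam Eb|) := by
    intro ρ' hρ'
    refine seg_rep_neg (m := (f.Z lam Ea + f.Z lam Eb) / 2)
      (h := (f.Z lam Eb - f.Z lam Ea) / 2) hh hne (by ring) (by ring) ?_ ?_
    · intro t ht E hEm hEz
      rw [hρ' t ht]
      have h1 := hZt t ht
      rw [← hEz] at h1
      exact rep_nuM hk (hT E hEm) h1 (hU t ht) (hE t ht) o3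
    · intro t ht
      rw [hρ' t ht]
      exact hH t ht
  exact ⟨fun t ht => (key (ρ.setT t ht) (fun _ _ => rfl)).1,
    fun t ht => (key (ρ.setT t ht) (fun _ _ => rfl)).2⟩

/-- The meaning of the state of the downward run: `E0` start, `E` current end, `sg` the sign of the
derivative. -/
structure LSt.OkN (ρ : Env) (lam : ℝ) (f : Fr) (sg E0 : ℝ) (s : LSt) (E : ℝ) : Prop where
  A : RepT ρ s.A (f.Z lam E)
  L : RepT ρ s.L (sg * (E0 - E) * |f.Z1 lam E0|)
  R : RepT ρ s.R (|f.Z1 lam E0| / |f.Z1 lam E|)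
  ord : sg * E ≤ sg * E0

theorem start_okN {ρ : Env} {lam : ℝ} {f : Fr} {sg E0 : ℝ} {A : TM}
    (h1 : f.Z1 lam E0 ≠ 0) (hA : RepT ρ A (f.Z lam E0)) :
    LSt.OkN ρ lam f sg E0 (LSt.start A) E0 where
  A := hA
  L := by
    have e : sg * (E0 - E0) * |f.Z1 lam E0| = ((0 : ℤ) : ℝ) / 2 ^ 40 := by simp
    rw [e]
    exact RepT.const 0
  R := by
    rw [div_self (abs_ne_zero.2 h1)]
    exact RepT.one
  ord := le_refl _

/-- `Z` is monotone in the energy with the sign `sg`. -/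
theorem PieceDn_mono {lam : ℝ} {f : Fr} {sg a b : ℝ} (hsg : sg = 1 ∨ sg = -1)
    (hmono : ∀ x, a ≤ x → x ≤ b → 0 < sg * f.Z1 lam x) {E E' : ℝ} (h1 : a ≤ E) (h2 : E ≤ b)
    (h1' : a ≤ E') (h2' : E' ≤ b) (h : f.Z lam E < f.Z lam E') : sg * E < sg * E' := by
  by_contra hc
  push Not at hc
  have hle : f.Z lam E' ≤ f.Z lam E := by
    rcases hsg with h | h
    · rw [h, one_mul, one_mul] at hc
      have hm : MonotoneOn (fun x => f.Z lam x) (Set.Icc a b) := by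
        refine monotoneOn_of_deriv_nonneg (convex_Icc a b) ?_ ?_ ?_
        · exact fun x _ => (Fr.hasDerivAt_Z f lam x).continuousAt.continuousWithinAt
        · exact fun x _ => (Fr.hasDerivAt_Z f lam x).differentiableAt.differentiableWithinAt
        · intro x hx
          rw [(Fr.hasDerivAt_Z f lam x).deriv]
          have hx' := interior_subset hx
          have := hmono x hx'.1 hx'.2
          rw [h, one_mul] at this
          exact this.le
      exact hm ⟨h1', h2'⟩ ⟨h1, h2⟩ hc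
    · rw [h] at hc
      have hc' : E ≤ E' := by linarith
      have hm : AntitoneOn (fun x => f.Z lam x) (Set.Icc a b) := by
        refine antitoneOn_of_deriv_nonpos (convex_Icc a b) ?_ ?_ ?_
        · exact fun x _ => (Fr.hasDerivAt_Z f lam x).continuousAt.continuousWithinAt
        · exact fun x _ => (Fr.hasDerivAt_Z f lam x).differentiableAt.differentiableWithinAt
        · intro x hx
          rw [(Fr.hasDerivAt_Z f lam x).deriv]
          have hx' := interior_subset hx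
          have := hmono x hx'.1 hx'.2
          rw [h] at this
          linarith
      exact hm ⟨h1, h2⟩ ⟨h1', h2'⟩ hc'
  linarith

/-- One downward step. -/
theorem stepLn_ok {ρ : Env} {lam : ℝ} {c : Cls} {u eta : ℝ} {f : Fr} {sg E0 E E' : ℝ}
    {Ut Et : TM} {s : LSt} {k : ℕ} {B : TM} {a b : ℝ} (hsg : sg = 1 ∨ sg = -1)
    (hT : ∀ x, a ≤ x → x ≤ b → PT lam c u eta f x)
    (hmono : ∀ x, a ≤ x → x ≤ b → 0 < sg * f.Z1 lam x)
    (hs : LSt.OkN ρ lam f sg E0 s E) (hE1 : a ≤ E) (hE2 : E ≤ b) (hE1' : a ≤ E') (hE2' : E' ≤ b)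
    (hB : RepT ρ B (f.Z lam E')) (hU : RepT ρ Ut u) (hEt : RepT ρ Et eta)
    (hok : (stepLn c Ut Et s (k, B)).ok = true) :
    s.ok = true ∧ LSt.OkN ρ lam f sg E0 (stepLn c Ut Et s (k, B)) E' := by
  have hok' : (s.ok && pieceOKn c k s.A B) = true := hok
  rw [Bool.and_eq_true] at hok'
  refine ⟨hok'.1, ?_⟩
  have hin : ∀ x ∈ Set.uIcc E E', a ≤ x ∧ x ≤ b := by
    intro x hx
    have := Set.uIcc_subset_Icc (⟨hE1, hE2⟩ : E ∈ Set.Icc a b) (⟨hE1', hE2'⟩ : E' ∈ Set.Icc a b) hx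
    exact ⟨this.1, this.2⟩
  have hne : ∀ x, a ≤ x → x ≤ b → f.Z1 lam x ≠ 0 := by
    intro x h1 h2 h0
    have := hmono x h1 h2
    rw [h0, mul_zero] at this
    exact lt_irrefl _ this
  obtain ⟨hlt, hL, hR⟩ := piece_sound_neg hok'.2 (fun x hx => hT x (hin x hx).1 (hin x hx).2)
    (fun x hx => hne x (hin x hx).1 (hin x hx).2) hs.A hB hU hEt
  have hord : sg * E' < sg * E := PieceDn_mono hsg hmono hE1' hE2' hE1 hE2 hlt
  have habs : |E' - E| = sg * (E - E') := by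
    rcases hsg with h | h
    · rw [h, one_mul, one_mul] at hord
      rw [h, one_mul, abs_of_neg (by linarith)]
      ring
    · rw [h] at hord
      rw [h, abs_of_pos (by linarith)]
      ring
  have p0 : |f.Z1 lam E| ≠ 0 := abs_ne_zero.2 (hne E hE1 hE2)
  refine ⟨hB, ?_, ?_, hord.le.trans hs.ord⟩
  · have h := hs.L.sub (hs.R.mul hL)
    have e : sg * (E0 - E') * |f.Z1 lam E0| = sg * (E0 - E) * |f.Z1 lam E0| -
        |f.Z1 lam E0| / |f.Z1 lam E| * -(|E' - E| * |f.Z1 lam E|) := by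
      rw [habs]
      field_simp
      ring
    rw [e]
    exact h
  · have h := hs.R.mul hR
    have e : |f.Z1 lam E0| / |f.Z1 lam E'| = |f.Z1 lam E0| / |f.Z1 lam E| *
        (|f.Z1 lam E| / |f.Z1 lam E'|) := by
      field_simp
    rw [e]
    exact h

end Pool.Agent.H20.Fib
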