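import Pool.Agent.H20.Fib.Sys

/-!
# FB-13. The tube system of a class table

`mkTube`: a class table with all its checks and a root block give the structure `Blocks.Tube`.
-/

namespace Pool.Agent.H20.Fib

open TM
open Pool.Agent.H98.Fib (xs Sig)

/-! ### Orientation -/

/-- left end (in `Z w`) of the interval `[a, b] / 2^40` of the canonical variable -/
noncomputable def endL (o : Bool) (a b : ℝ) : ℝ :=
  match o with
  | false => a / 2 ^ 40
  | true => -b / 2 ^ 40

/-- right end -/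
noncomputable def endR (o : Bool) (a b : ℝ) : ℝ :=
  match o with
  | false => b / 2 ^ 40
  | true => -a / 2 ^ 40

theorem endL_le {o : Bool} {a b z : ℝ} (h : endL o a b ≤ sgF o * z) (h' : sgF o * z ≤ endR o a b) :
    a ≤ z * 2 ^ 40 ∧ z * 2 ^ 40 ≤ b := by
  cases o with
  | false =>
    simp only [endL, endR, sgF, one_mul] at h h'
    rw [div_le_iff₀ (by norm_num)] at h
    rw [le_div_iff₀ (by norm_num)] at h'
    exact ⟨h, h'⟩
  | true =>
    simp only [endL, endR, sgF] at h h'
    rw [div_le_iff₀ (by norm_num)] at h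
    rw [le_div_iff₀ (by norm_num)] at h'
    constructor <;> linarith

theorem le_endL {o : Bool} {a b z : ℝ} (h : a ≤ z * 2 ^ 40) (h' : z * 2 ^ 40 ≤ b) :
    endL o a b ≤ sgF o * z ∧ sgF o * z ≤ endR o a b := by
  cases o with
  | false =>
    simp only [endL, endR, sgF, one_mul]
    rw [div_le_iff₀ (by norm_num), le_div_iff₀ (by norm_num)]
    exact ⟨h, h'⟩
  | true =>
    simp only [endL, endR, sgF]
    rw [div_le_iff₀ (by norm_num), le_div_iff₀ (by norm_num)]
    constructor <;> linarith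

theorem endL_true (fl : Bool) (a b : ℝ) : endL (true ^^ fl) a b = -endR fl a b := by
  cases fl with
  | false => simp only [endL, endR, Bool.xor_false]; ring
  | true => simp only [endL, endR, Bool.xor_true, Bool.not_true]; ring

theorem endR_true (fl : Bool) (a b : ℝ) : endR (true ^^ fl) a b = -endL fl a b := by
  cases fl with
  | false => simp only [endL, endR, Bool.xor_false]; ring
  | true => simp only [endL, endR, Bool.xor_true, Bool.not_true]; ring

theorem sgF_xor (o fl : Bool) : sgF (o ^^ fl) = sgF o * sgF fl := by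
  cases o <;> cases fl <;> simp [sgF]

theorem sgF_false : sgF false = 1 := rfl

theorem sgF_true : sgF true = -1 := rfl

theorem sgF_abs (o : Bool) : |sgF o| = 1 := by
  cases o <;> simp [sgF]

theorem endL_eq {o : Bool} {a b z : ℝ} (h : sgF o * z = endL o a b) :
    (o = false ∧ z * 2 ^ 40 = a) ∨ (o = true ∧ z * 2 ^ 40 = b) := by
  cases o with
  | false =>
    left
    simp only [endL, sgF, one_mul] at h
    exact ⟨rfl, by rw [h]; field_simp⟩
  | true =>
    right
    simp only [endL, sgF] at h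
    refine ⟨rfl, ?_⟩
    have : z = b / 2 ^ 40 := by linarith [h, neg_div (2 ^ 40 : ℝ) b]
    rw [this]; field_simp

theorem endR_eq {o : Bool} {a b z : ℝ} (h : sgF o * z = endR o a b) :
    (o = false ∧ z * 2 ^ 40 = b) ∨ (o = true ∧ z * 2 ^ 40 = a) := by
  cases o with
  | false =>
    left
    simp only [endR, sgF, one_mul] at h
    exact ⟨rfl, by rw [h]; field_simp⟩
  | true =>
    right
    simp only [endR, sgF] at h
    refine ⟨rfl, ?_⟩
    have : z = a / 2 ^ 40 := by linarith [h, neg_div (2 ^ 40 : ℝ) a]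
    rw [this]; field_simp

theorem endL_mono {o : Bool} {a b a' b' : ℝ} (h : a ≤ a') (h' : b' ≤ b) :
    endL o a b ≤ endL o a' b' ∧ endR o a' b' ≤ endR o a b := by
  cases o with
  | false =>
    simp only [endL, endR]
    constructor <;> gcongr
  | true =>
    simp only [endL, endR]
    constructor
    · apply div_le_div_of_nonneg_right _ (by norm_num)
      linarith
    · apply div_le_div_of_nonneg_right _ (by norm_num)
      linarith

theorem endL_lt {o : Bool} {a b : ℝ} (h : a < b) : endL o a b < endR o a b := by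
  cases o with
  | false =>
    simp only [endL, endR]
    gcongr
  | true =>
    simp only [endL, endR]
    apply div_lt_div_of_pos_right _ (by norm_num)
    linarith

/-! ### The facts of a class -/

/-- order of the lines of a class, at the parameter `u` -/
structure LinesOK (c : Cls) (D : ClsD) (u : ℝ) : Prop where
  a : ∀ i, i < 3 → (D.arc i).lo.ev u ≤ (D.arc i).A.ev u ∧
    (D.arc i).A.ev u < (D.arc i).B.ev u ∧ (D.arc i).B.ev u ≤ (D.arc i).hi.ev u
  p : (c.p : ℝ) ≤ D.a0.lo.ev u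
  g1 : D.a0.hi.ev u ≤ D.a1.lo.ev u
  g2 : D.a1.hi.ev u ≤ D.a2.lo.ev u
  q : D.a2.hi.ev u ≤ (c.hi : ℝ)

theorem Sys_ev0 (a : ℤ) (u : ℝ) : LineD.ev ⟨a, 0, 0, 0, 0⟩ u = a := by
  simp [LineD.ev]

theorem linesOK {kap : TM} {N : ℕ} {cls : ℕ → Cls} {dat : ℕ → ClsD} (hT : TabOK kap N cls dat)
    {n : ℕ} (hn : n < N) {u : ℝ} (hu : |u| ≤ 1) : LinesOK (cls n) (dat n) u := by
  have hg := hT.gap n hn
  unfold gapCheck at hg
  simp only [Bool.and_eq_true] at hg
  obtain ⟨⟨⟨⟨⟨⟨⟨⟨⟨⟨⟨⟨-, g1⟩, g2⟩, g3⟩, g4⟩, -⟩, -⟩, -⟩, -⟩, -⟩, -⟩, -⟩, -⟩ := hg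
  refine ⟨?_, ?_, ?_, ?_, ?_⟩
  · intro i hi
    have ha := hT.arc n hn i hi
    unfold arcCheck at ha
    simp only [Bool.and_eq_true] at ha
    obtain ⟨⟨⟨⟨⟨⟨-, -⟩, a1⟩, a2⟩, a3⟩, -⟩, -⟩ := ha
    have b1 := below_spec a1 hu
    have b2 := below_spec a2 hu
    have b3 := below_spec a3 hu
    push_cast at b1 b2 b3
    refine ⟨by linarith, by linarith, by linarith⟩
  · have := below_spec g1 hu
    rw [Sys_ev0] at this
    push_cast at this
    linarith
  · have := below_spec g2 hu
    push_cast at this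
    linarith
  · have := below_spec g3 hu
    push_cast at this
    linarith
  · have := below_spec g4 hu
    rw [Sys_ev0] at this
    push_cast at this
    linarith

theorem LinesOK.bounds {c : Cls} {D : ClsD} {u : ℝ} (h : LinesOK c D u) {i : ℕ} (hi : i < 3) :
    (c.p : ℝ) ≤ (D.arc i).lo.ev u ∧ (D.arc i).hi.ev u ≤ (c.hi : ℝ) := by
  have e0 : D.arc 0 = D.a0 := rfl
  have e1 : D.arc 1 = D.a1 := rfl
  have e2 : D.arc 2 = D.a2 := rfl
  have h0 := h.a 0 (by norm_num)
  have h1 := h.a 1 (by norm_num)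
  have h2 := h.a 2 (by norm_num)
  rw [e0] at h0
  rw [e1] at h1
  rw [e2] at h2
  have := h.p
  have := h.g1
  have := h.g2
  have := h.q
  have hi3 : i = 0 ∨ i = 1 ∨ i = 2 := by omega
  rcases hi3 with rfl | rfl | rfl
  · rw [e0]; constructor <;> linarith [h0.1, h0.2.1, h0.2.2, h1.1, h1.2.1, h1.2.2, h2.1, h2.2.1,
      h2.2.2]
  · rw [e1]; constructor <;> linarith [h0.1, h0.2.1, h0.2.2, h1.1, h1.2.1, h1.2.2, h2.1, h2.2.1,
      h2.2.2]
  · rw [e2]; constructor <;> linarith [h0.1, h0.2.1, h0.2.2, h1.1, h1.2.1, h1.2.2, h2.1, h2.2.1,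
      h2.2.2]

/-- The values of the child's `Z` at the four lines. -/
structure EndsOK (lam : ℝ) (i : ℕ) (A : ArcD) (d : Cls) (u : ℝ) (f : Fr) (E : ℝ) : Prop where
  lo : f.Z lam E * 2 ^ 40 = A.lo.ev u → sgF A.fl * (f.chF i A.fl).Z lam E < endL A.fl d.p d.hi
  hi : f.Z lam E * 2 ^ 40 = A.hi.ev u → endR A.fl d.p d.hi < sgF A.fl * (f.chF i A.fl).Z lam E
  a : f.Z lam E * 2 ^ 40 = A.A.ev u → endL A.fl d.p d.hi ≤ sgF A.fl * (f.chF i A.fl).Z lam E
  b : f.Z lam E * 2 ^ 40 = A.B.ev u → sgF A.fl * (f.chF i A.fl).Z lam E ≤ endR A.fl d.p d.hi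

theorem endsOK {lam : ℝ} {kap : TM} (hk : KapOK lam kap) {i : ℕ} {A : ArcD} {c d : Cls}
    (h : endsCheck kap i A c d = true) {u eta : ℝ} {f : Fr} {E : ℝ}
    (hf : f.ok) (hu : |u| ≤ 1) (hT : PT lam c u eta f E)
    (hD : 0 < f.Y lam E - f.X lam E * f.Z lam E) : EndsOK lam i A d u f E := by
  have hc : ∀ (a : ℤ) (ρ : Env), ρ.u = u → Rep ρ (const a) ((a : ℝ) / 2 ^ 40) :=
    fun a ρ _ => rep_const
  have e40 : ∀ a : ℝ, a / 2 ^ 40 * 2 ^ 40 = a := fun a => by field_simp
  rcases hfl : A.fl with _ | _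
  · unfold endsCheck at h
    rw [hfl] at h
    simp only [Bool.and_eq_true] at h
    obtain ⟨⟨⟨h1, h2⟩, h3⟩, h4⟩ := h
    constructor
    · intro hz
      have := zLE_sound hk h1 hf hu hT hD hz (hc d.p)
      rw [e40] at this
      push_cast at this
      rw [hfl]
      simp only [endL, sgF, one_mul]
      rw [lt_div_iff₀ (by norm_num)]
      linarith
    · intro hz
      have := zGE_sound hk h2 hf hu hT hD hz (hc d.hi)
      rw [e40] at this
      push_cast at this
      rw [hfl]
      simp only [endR, sgF, one_mul]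
      rw [div_lt_iff₀ (by norm_num)]
      linarith
    · intro hz
      have := zGE_sound hk h3 hf hu hT hD hz (hc d.p)
      rw [e40] at this
      push_cast at this
      rw [hfl]
      simp only [endL, sgF, one_mul]
      rw [div_le_iff₀ (by norm_num)]
      linarith
    · intro hz
      have := zLE_sound hk h4 hf hu hT hD hz (hc d.hi)
      rw [e40] at this
      push_cast at this
      rw [hfl]
      simp only [endR, sgF, one_mul]
      rw [le_div_iff₀ (by norm_num)]
      linarith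
  · unfold endsCheck at h
    rw [hfl] at h
    simp only [Bool.and_eq_true] at h
    obtain ⟨⟨⟨h1, h2⟩, h3⟩, h4⟩ := h
    constructor
    · intro hz
      have := zGE_sound hk h1 hf hu hT hD hz (hc d.hi)
      rw [e40] at this
      push_cast at this
      rw [hfl]
      simp only [endL, sgF]
      rw [lt_div_iff₀ (by norm_num)]
      linarith
    · intro hz
      have := zLE_sound hk h2 hf hu hT hD hz (hc d.p)
      rw [e40] at this
      push_cast at this
      rw [hfl]
      simp only [endR, sgF]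
      rw [div_lt_iff₀ (by norm_num)]
      linarith
    · intro hz
      have := zLE_sound hk h3 hf hu hT hD hz (hc d.hi)
      rw [e40] at this
      push_cast at this
      rw [hfl]
      simp only [endL, sgF]
      rw [div_le_iff₀ (by norm_num)]
      linarith
    · intro hz
      have := zGE_sound hk h4 hf hu hT hD hz (hc d.p)
      rw [e40] at this
      push_cast at this
      rw [hfl]
      simp only [endR, sgF]
      rw [le_div_iff₀ (by norm_num)]
      linarith

section

variable {lam : ℝ} {kap : TM} {N : ℕ} {cls : ℕ → Cls} {dat : ℕ → ClsD}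

theorem mono_ne {s : WSt} {E : ℝ} (hP : s.Pt lam cls E) : s.f.Z1 lam E ≠ 0 := by
  intro h
  have := hP.mono
  rw [h, mul_zero] at this
  exact lt_irrefl 0 this

/-- the arc of an energy letter -/
def WSt.arcOf (dat : ℕ → ClsD) (s : WSt) (j : Fin 3) : ArcD := (dat s.ci).arc (WSt.cl s.o j)

/-- One step: the child is in its tube. -/
theorem child_pt (hk : KapOK lam kap) (hT : TabOK kap N cls dat) {s : WSt} (hs : s.Good N)
    (j : Fin 3) {E : ℝ} (hP : s.Pt lam cls E)
    (h1 : (s.arcOf dat j).lo.ev s.u ≤ s.f.Z lam E * 2 ^ 40)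
    (h2 : s.f.Z lam E * 2 ^ 40 ≤ (s.arcOf dat j).hi.ev s.u) :
    (s.ch dat j).Pt lam cls E ∧
      2 * (sgF s.o * s.f.Z1 lam E) ≤ sgF (s.ch dat j).o * (s.ch dat j).f.Z1 lam E := by
  have hc := WSt.cl_lt s.o j
  have ha := hT.arc _ hs.ci _ hc
  have hnx := hT.nx _ hs.ci _ hc
  have hL := linesOK hT hs.ci hs.u
  have hA := hL.a _ hc
  unfold arcCheck at ha
  simp only [Bool.and_eq_true] at ha
  obtain ⟨⟨⟨⟨⟨⟨hup, hcov⟩, -⟩, -⟩, -⟩, -⟩, hcells⟩ := ha
  obtain ⟨e, he, hz⟩ := cover_spec' hcov hs.u (by linarith [hA.1, hA.2.1, hA.2.2]) h1 h2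
  have hsub := cells_spec hcells e he
  have hmm : mmList (cls ((dat s.ci).arc (WSt.cl s.o j)).nx).cells = true := by
    have hg := hT.gap _ hnx
    unfold gapCheck at hg
    simp only [Bool.and_eq_true] at hg
    exact hg.1.1.1.1.1.1.1.1.1.1.1.1
  obtain ⟨p1, p2, g, hg, p3⟩ := cell_sound hk hsub hup hmm hs.f hs.u hs.eta hP.tube hP.pos
    (mono_ne hP) hz
  have hm := hP.mono
  have e1 : sgF (s.ch dat j).o * (s.ch dat j).f.Z1 lam E = sgF s.o * s.f.Z1 lam E * g := by
    show sgF (s.o ^^ ((dat s.ci).arc (WSt.cl s.o j)).fl) *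
      (s.f.chF (WSt.cl s.o j) ((dat s.ci).arc (WSt.cl s.o j)).fl).Z1 lam E = _
    rw [p3, sgF_xor]
    have := sgF_mul_self ((dat s.ci).arc (WSt.cl s.o j)).fl
    linear_combination (sgF s.o * s.f.Z1 lam E * g) * this
  refine ⟨⟨p1, p2, ?_⟩, ?_⟩
  · rw [e1]
    exact mul_pos hm (by linarith)
  · rw [e1]
    nlinarith

/-- The ends of the strip. -/
theorem child_ends (hk : KapOK lam kap) (hT : TabOK kap N cls dat) {s : WSt} (hs : s.Good N)
    (j : Fin 3) {E : ℝ} (hP : s.Pt lam cls E) :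
    EndsOK lam (WSt.cl s.o j) (s.arcOf dat j) (cls (s.arcOf dat j).nx) s.u s.f E := by
  have hc := WSt.cl_lt s.o j
  have ha := hT.arc _ hs.ci _ hc
  unfold arcCheck at ha
  simp only [Bool.and_eq_true] at ha
  exact endsOK hk ha.1.2 hs.f hs.u hP.tube hP.pos

/-- Exhaustion. -/
theorem exh_can (hk : KapOK lam kap) (hT : TabOK kap N cls dat) {s : WSt} (hs : s.Good N)
    {E : ℝ} (hP : s.Pt lam cls E) (hE : E ∈ Sig lam)
    (h1 : ((cls s.ci).p : ℝ) ≤ s.f.Z lam E * 2 ^ 40)
    (h2 : s.f.Z lam E * 2 ^ 40 ≤ ((cls s.ci).hi : ℝ)) :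
    ∃ i, i < 3 ∧ ((dat s.ci).arc i).A.ev s.u ≤ s.f.Z lam E * 2 ^ 40 ∧
      s.f.Z lam E * 2 ^ 40 ≤ ((dat s.ci).arc i).B.ev s.u := by
  have hg := hT.gap _ hs.ci
  unfold gapCheck at hg
  simp only [Bool.and_eq_true] at hg
  obtain ⟨⟨⟨⟨⟨⟨⟨⟨-, c0⟩, c1⟩, c2⟩, c3⟩, e0⟩, e1⟩, e2⟩, e3⟩ := hg
  have hout : ∀ {t : List EscD}, escList kap (cls s.ci) t = true → (∃ e ∈ t,
      |s.f.Z lam E * 2 ^ 40 - (e.z0 + e.z1 * s.u)| ≤ (e.h : ℝ)) → False := by
    intro t ht he
    obtain ⟨e, he, hz⟩ := he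
    exact esc_sound hk (esc_spec ht e he) hs.f hs.u hP.tube hP.pos hz hE
  rcases lt_or_ge (s.f.Z lam E * 2 ^ 40) (((dat s.ci).arc 0).A.ev s.u) with a0 | a0
  · refine (hout e0 (coverE_spec' c0 hs.u ?_ ?_ a0.le)).elim
    · rw [Sys_ev0]; exact h1.trans_lt a0
    · rw [Sys_ev0]; exact h1
  rcases le_or_gt (s.f.Z lam E * 2 ^ 40) (((dat s.ci).arc 0).B.ev s.u) with b0 | b0
  · exact ⟨0, by norm_num, a0, b0⟩
  rcases lt_or_ge (s.f.Z lam E * 2 ^ 40) (((dat s.ci).arc 1).A.ev s.u) with a1 | a1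
  · exact (hout e1 (coverE_spec c1 hs.u b0 a1.le)).elim
  rcases le_or_gt (s.f.Z lam E * 2 ^ 40) (((dat s.ci).arc 1).B.ev s.u) with b1 | b1
  · exact ⟨1, by norm_num, a1, b1⟩
  rcases lt_or_ge (s.f.Z lam E * 2 ^ 40) (((dat s.ci).arc 2).A.ev s.u) with a2 | a2
  · exact (hout e2 (coverE_spec c2 hs.u b1 a2.le)).elim
  rcases le_or_gt (s.f.Z lam E * 2 ^ 40) (((dat s.ci).arc 2).B.ev s.u) with b2 | b2
  · exact ⟨2, by norm_num, a2, b2⟩
  · exact (hout e3 (coverE_spec c3 hs.u b2 (by rw [Sys_ev0]; exact h2))).elim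

theorem exists_cl (o : Bool) {i : ℕ} (hi : i < 3) : ∃ j : Fin 3, WSt.cl o j = i := by
  cases o with
  | false => exact ⟨⟨i, hi⟩, rfl⟩
  | true => exact ⟨⟨2 - i, by omega⟩, by show 2 - (2 - i) = i; omega⟩

end

/-- What is needed of the root. -/
structure RootOK (lam : ℝ) (N : ℕ) (cls : ℕ → Cls) (s0 : WSt) (l r : ℝ) : Prop where
  good : s0.Good N
  lt : l < r
  left : sgF s0.o * s0.f.Z lam l = endL s0.o (cls s0.ci).p (cls s0.ci).hi
  right : sgF s0.o * s0.f.Z lam r = endR s0.o (cls s0.ci).p (cls s0.ci).hi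
  pt : ∀ E, l ≤ E → E ≤ r → s0.Pt lam cls E
  big : ∀ E, l ≤ E → E ≤ r → 1 ≤ sgF s0.o * s0.f.Z1 lam E

/-- **The tube system of a class table.** -/
noncomputable def mkTube {lam : ℝ} {kap : TM} (hk : KapOK lam kap) {N : ℕ} {cls : ℕ → Cls}
    {dat : ℕ → ClsD} (hT : TabOK kap N cls dat) {s0 : WSt} {l r : ℝ}
    (hR : RootOK lam N cls s0 l r) : Pool.Agent.H98.Fib.Tube lam where
  Z w E := sgF (wst dat s0 w).o * (wst dat s0 w).f.Z lam E
  dZ w E := sgF (wst dat s0 w).o * (wst dat s0 w).f.Z1 lam E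
  P w E := (wst dat s0 w).Pt lam cls E
  p w j := endL (wst dat s0 w).o (((wst dat s0 w).arcOf dat j).lo.ev (wst dat s0 w).u)
    (((wst dat s0 w).arcOf dat j).hi.ev (wst dat s0 w).u)
  q w j := endR (wst dat s0 w).o (((wst dat s0 w).arcOf dat j).lo.ev (wst dat s0 w).u)
    (((wst dat s0 w).arcOf dat j).hi.ev (wst dat s0 w).u)
  A w j := endL (wst dat s0 w).o (((wst dat s0 w).arcOf dat j).A.ev (wst dat s0 w).u)
    (((wst dat s0 w).arcOf dat j).B.ev (wst dat s0 w).u)
  B w j := endR (wst dat s0 w).o (((wst dat s0 w).arcOf dat j).A.ev (wst dat s0 w).u)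
    (((wst dat s0 w).arcOf dat j).B.ev (wst dat s0 w).u)
  m w := (wst dat s0 w).f.m + 2
  zl w := endL (wst dat s0 w).o (cls (wst dat s0 w).ci).p (cls (wst dat s0 w).ci).hi
  zr w := endR (wst dat s0 w).o (cls (wst dat s0 w).ci).p (cls (wst dat s0 w).ci).hi
  γ := 2
  l0 := l
  r0 := r
  d0 := 1
  hzl w := by
    have hs := wst_good hT hR.good w
    have h1 : ((-1099511627776 : ℤ) : ℝ) ≤ (cls (wst dat s0 w).ci).p := by
      exact_mod_cast hT.lo _ hs.ci
    have h2 : ((cls (wst dat s0 w).ci).hi : ℝ) ≤ ((1099511627776 : ℤ) : ℝ) := by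
      exact_mod_cast hT.hi _ hs.ci
    push_cast at h1 h2
    cases (wst dat s0 w).o with
    | false =>
      simp only [endL]
      rw [le_div_iff₀ (by norm_num)]
      linarith
    | true =>
      simp only [endL]
      rw [le_div_iff₀ (by norm_num)]
      linarith
  hzr w := by
    have hs := wst_good hT hR.good w
    have h1 : ((-1099511627776 : ℤ) : ℝ) ≤ (cls (wst dat s0 w).ci).p := by
      exact_mod_cast hT.lo _ hs.ci
    have h2 : ((cls (wst dat s0 w).ci).hi : ℝ) ≤ ((1099511627776 : ℤ) : ℝ) := by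
      exact_mod_cast hT.hi _ hs.ci
    push_cast at h1 h2
    cases (wst dat s0 w).o with
    | false =>
      simp only [endR]
      rw [div_le_iff₀ (by norm_num)]
      linarith
    | true =>
      simp only [endR]
      rw [div_le_iff₀ (by norm_num)]
      linarith
  hγ := by norm_num
  h0 := hR.lt
  hd0 := by norm_num
  hd w E := (Fr.hasDerivAt_Z (wst dat s0 w).f lam E).const_mul _
  hpos w E hP := hP.mono
  hp w j := by
    have hs := wst_good hT hR.good w
    have hL := linesOK hT hs.ci hs.u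
    have hb := hL.bounds (WSt.cl_lt (wst dat s0 w).o j)
    exact (endL_mono hb.1 hb.2).1
  hq w j := by
    have hs := wst_good hT hR.good w
    have hL := linesOK hT hs.ci hs.u
    have hb := hL.bounds (WSt.cl_lt (wst dat s0 w).o j)
    exact (endL_mono hb.1 hb.2).2
  hpq w j := by
    have hs := wst_good hT hR.good w
    have hL := (linesOK hT hs.ci hs.u).a _ (WSt.cl_lt (wst dat s0 w).o j)
    exact endL_lt (by
      show ((dat _).arc _).lo.ev _ < ((dat _).arc _).hi.ev _
      linarith [hL.1, hL.2.1, hL.2.2])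
  hord1 w := by
    have hs := wst_good hT hR.good w
    have hL := linesOK hT hs.ci hs.u
    rcases ho : (wst dat s0 w).o with _ | _
    · have : ((wst dat s0 w).arcOf dat 0) = (dat (wst dat s0 w).ci).a0 := by
        unfold WSt.arcOf; rw [ho]; rfl
      rw [this]
      have : ((wst dat s0 w).arcOf dat 1) = (dat (wst dat s0 w).ci).a1 := by
        unfold WSt.arcOf; rw [ho]; rfl
      rw [this]
      simp only [endL, endR]
      have := hL.g1
      gcongr
    · have : ((wst dat s0 w).arcOf dat 0) = (dat (wst dat s0 w).ci).a2 := by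
        unfold WSt.arcOf; rw [ho]; rfl
      rw [this]
      have : ((wst dat s0 w).arcOf dat 1) = (dat (wst dat s0 w).ci).a1 := by
        unfold WSt.arcOf; rw [ho]; rfl
      rw [this]
      simp only [endL, endR]
      have := hL.g2
      apply div_le_div_of_nonneg_right _ (by norm_num)
      linarith
  hord2 w := by
    have hs := wst_good hT hR.good w
    have hL := linesOK hT hs.ci hs.u
    rcases ho : (wst dat s0 w).o with _ | _
    · have : ((wst dat s0 w).arcOf dat 1) = (dat (wst dat s0 w).ci).a1 := by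
        unfold WSt.arcOf; rw [ho]; rfl
      rw [this]
      have : ((wst dat s0 w).arcOf dat 2) = (dat (wst dat s0 w).ci).a2 := by
        unfold WSt.arcOf; rw [ho]; rfl
      rw [this]
      simp only [endL, endR]
      have := hL.g2
      gcongr
    · have : ((wst dat s0 w).arcOf dat 1) = (dat (wst dat s0 w).ci).a1 := by
        unfold WSt.arcOf; rw [ho]; rfl
      rw [this]
      have : ((wst dat s0 w).arcOf dat 2) = (dat (wst dat s0 w).ci).a0 := by
        unfold WSt.arcOf; rw [ho]; rfl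
      rw [this]
      simp only [endL, endR]
      have := hL.g1
      apply div_le_div_of_nonneg_right _ (by norm_num)
      linarith
  root E h1 h2 := hR.pt E h1 h2
  rootl := hR.left
  rootr := hR.right
  rootd E h1 h2 := hR.big E h1 h2
  grow w j E hP h1 h2 := by
    have hs := wst_good hT hR.good w
    obtain ⟨a1, a2⟩ := endL_le h1 h2
    exact (child_pt hk hT hs j hP a1 a2).2
  step w j E hP h1 h2 _ _ := by
    have hs := wst_good hT hR.good w
    obtain ⟨a1, a2⟩ := endL_le h1 h2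
    exact (child_pt hk hT hs j hP a1 a2).1
  atp w j E hP hz := by
    have hs := wst_good hT hR.good w
    have he := child_ends hk hT hs j hP
    show sgF ((wst dat s0 w).o ^^ ((wst dat s0 w).arcOf dat j).fl) *
      ((wst dat s0 w).f.chF _ ((wst dat s0 w).arcOf dat j).fl).Z lam E <
      endL ((wst dat s0 w).o ^^ ((wst dat s0 w).arcOf dat j).fl) _ _
    rw [sgF_xor, mul_assoc]
    rcases endL_eq hz with ⟨ho, hz⟩ | ⟨ho, hz⟩
    · rw [ho, Bool.false_xor, sgF_false, one_mul]
      rw [ho] at he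
      exact he.lo hz
    · rw [ho, endL_true, sgF_true, neg_one_mul]
      rw [ho] at he
      exact neg_lt_neg (he.hi hz)
  atq w j E hP hz := by
    have hs := wst_good hT hR.good w
    have he := child_ends hk hT hs j hP
    show endR ((wst dat s0 w).o ^^ ((wst dat s0 w).arcOf dat j).fl) _ _ <
      sgF ((wst dat s0 w).o ^^ ((wst dat s0 w).arcOf dat j).fl) *
      ((wst dat s0 w).f.chF _ ((wst dat s0 w).arcOf dat j).fl).Z lam E
    rw [sgF_xor, mul_assoc]
    rcases endR_eq hz with ⟨ho, hz⟩ | ⟨ho, hz⟩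
    · rw [ho, Bool.false_xor, sgF_false, one_mul]
      rw [ho] at he
      exact he.hi hz
    · rw [ho, endR_true, sgF_true, neg_one_mul]
      rw [ho] at he
      exact neg_lt_neg (he.lo hz)
  hpA w j := by
    have hs := wst_good hT hR.good w
    have hL := (linesOK hT hs.ci hs.u).a _ (WSt.cl_lt (wst dat s0 w).o j)
    exact (endL_mono hL.1 hL.2.2).1
  hBq w j := by
    have hs := wst_good hT hR.good w
    have hL := (linesOK hT hs.ci hs.u).a _ (WSt.cl_lt (wst dat s0 w).o j)
    exact (endL_mono hL.1 hL.2.2).2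
  atA w j E hP hz := by
    have hs := wst_good hT hR.good w
    have he := child_ends hk hT hs j hP
    show endL ((wst dat s0 w).o ^^ ((wst dat s0 w).arcOf dat j).fl) _ _ ≤
      sgF ((wst dat s0 w).o ^^ ((wst dat s0 w).arcOf dat j).fl) *
      ((wst dat s0 w).f.chF _ ((wst dat s0 w).arcOf dat j).fl).Z lam E
    rw [sgF_xor, mul_assoc]
    rcases endL_eq hz with ⟨ho, hz⟩ | ⟨ho, hz⟩
    · rw [ho, Bool.false_xor, sgF_false, one_mul]
      rw [ho] at he
      exact he.a hz
    · rw [ho, endL_true, sgF_true, neg_one_mul]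
      rw [ho] at he
      exact neg_le_neg (he.b hz)
  atB w j E hP hz := by
    have hs := wst_good hT hR.good w
    have he := child_ends hk hT hs j hP
    show sgF ((wst dat s0 w).o ^^ ((wst dat s0 w).arcOf dat j).fl) *
      ((wst dat s0 w).f.chF _ ((wst dat s0 w).arcOf dat j).fl).Z lam E ≤
      endR ((wst dat s0 w).o ^^ ((wst dat s0 w).arcOf dat j).fl) _ _
    rw [sgF_xor, mul_assoc]
    rcases endR_eq hz with ⟨ho, hz⟩ | ⟨ho, hz⟩
    · rw [ho, Bool.false_xor, sgF_false, one_mul]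
      rw [ho] at he
      exact he.b hz
    · rw [ho, endR_true, sgF_true, neg_one_mul]
      rw [ho] at he
      exact neg_le_neg (he.a hz)
  exh w E hP h1 h2 hE := by
    have hs := wst_good hT hR.good w
    obtain ⟨a1, a2⟩ := endL_le h1 h2
    obtain ⟨i, hi, b1, b2⟩ := exh_can hk hT hs hP hE a1 a2
    obtain ⟨j, rfl⟩ := exists_cl (wst dat s0 w).o hi
    have := le_endL (o := (wst dat s0 w).o) b1 b2
    exact ⟨j, this.1, this.2⟩
  hm w := by
    induction w with
    | nil => exact Nat.zero_le _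
    | cons j w ih =>
      have h := Fr.chF_m (wst dat s0 w).f (WSt.cl (wst dat s0 w).o j)
        ((dat (wst dat s0 w).ci).arc (WSt.cl (wst dat s0 w).o j)).fl
      have e : (wst dat s0 (j :: w)).f = (wst dat s0 w).f.chF (WSt.cl (wst dat s0 w).o j)
        ((dat (wst dat s0 w).ci).arc (WSt.cl (wst dat s0 w).o j)).fl := rfl
      rw [← e] at h
      simp only [List.length_cons]
      omega
  hZ w E := by
    have hs := wst_good hT hR.good w
    have h3 : |(wst dat s0 w).f.e3| = 1 := by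
      rcases hs.f.h3 with h | h <;> rw [h] <;> simp
    show |sgF (wst dat s0 w).o * ((wst dat s0 w).f.e3 * xs lam E ((wst dat s0 w).f.m + 2))| = _
    rw [abs_mul, abs_mul, sgF_abs, h3, one_mul, one_mul]

end Pool.Agent.H20.Fib
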