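import Pool.Agent.H20.Fib.GAt
import Pool.Agent.H20.Fib.PieceDn
import Pool.Agent.H20.Fib.SysT
import Pool.Agent.H98.Fib.Edges

/-!
# Soundness of the rows: the runs and the positions of the edges (MP_9069b3_mp)

`RowEnv`: what the runs need to know about a word: the tube and the sign of the derivative on the block
`[a, b]`, all values of the range are taken, the six canonical edges `e j` with their bounds.

`rowLow_run`, `rowHigh_run`: the results of the runs.  `rowLow_pos`, `rowHigh_pos`: the positions.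
-/

namespace Pool.Agent.H20.Fib

open TM
open Pool.Agent.H98.Fib (RepT LSt stepL stepL_ok start_ok)

/-! ### Entries of a row -/

/-- The meaning of an entry of a row. -/
def Q5.Holds (q : Q5) (u eta v : ℝ) : Prop :=
  |v * 2 ^ 40 - (q.c + q.u * u + q.uu * u ^ 2 + q.h * eta)| ≤ (q.r : ℝ)

theorem rep_Q5 {ρ : Env} (q : Q5) :
    Rep ρ q.tm ((q.c + q.u * ρ.u + q.uu * ρ.u ^ 2 + q.h * ρ.e0) / 2 ^ 40) := by
  refine ImgRep_mk (c' := q.c) (t' := 0) (u' := q.u) (tt' := 0) (tu' := 0) (uu' := q.uu)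
    (a0' := q.h) (a1' := 0) (a2' := 0) (fun h => ?_) ?_ ?_
  · simp only [Nat.add_eq] at h
    exact ⟨ImgRep_enc (by omega), ImgRep_zero, ImgRep_enc (by omega), ImgRep_zero, ImgRep_zero,
      ImgRep_enc (by omega), ImgRep_enc (by omega), ImgRep_zero, ImgRep_zero⟩
  · simp only [Nat.add_eq]
    push_cast
    simp only [abs_zero, Int.abs_eq_natAbs]
    omega
  · push_cast; ring

theorem Q5.chk_sound {ρ : Env} {q : Q5} {x : TM} {v : ℝ} (hx : Rep ρ x v)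
    (h : q.chk x = true) : q.Holds ρ.u ρ.e0 v := by
  have h1 := rep_magLe (rep_sub hx (rep_Q5 q)) h
  unfold Q5.Holds
  have e : v * 2 ^ 40 - (q.c + q.u * ρ.u + q.uu * ρ.u ^ 2 + q.h * ρ.e0) =
      (v - (q.c + q.u * ρ.u + q.uu * ρ.u ^ 2 + q.h * ρ.e0) / 2 ^ 40) * 2 ^ 40 := by
    field_simp
  rw [e, abs_mul, abs_of_pos (show (0 : ℝ) < 2 ^ 40 by positivity)]
  exact h1

/-! ### Models of the parameters -/

theorem RowS_symU (ρ : Env) : RepT ρ symU ρ.u := fun t ht => rep_symU (ρ := ρ.setT t ht)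

theorem RowS_sym0 (ρ : Env) : RepT ρ (sym0 1099511627776) ρ.e0 := by
  intro t ht
  refine ImgRep_cast (rep_sym0 (ρ := ρ.setT t ht) 1099511627776) ?_
  show ((1099511627776 : ℕ) : ℝ) / 2 ^ 40 * ρ.e0 = ρ.e0
  push_cast
  ring

/-- the model of an edge -/
theorem RowS_edge {ρ : Env} {e : EdgeL} {Ut : TM} {u z : ℝ} (hU : Rep ρ Ut u)
    (h : |z * 2 ^ 40 - (e.b0 + e.b1 * u + e.b2 * u ^ 2)| ≤ (e.r : ℝ)) :
    Rep ρ (e.tm Ut) z := by
  refine rep_blow (rep_quadAt hU) ?_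
  have e1 : (z - (e.b0 + e.b1 * u + e.b2 * u ^ 2) / 2 ^ 40) * 2 ^ 40 =
      z * 2 ^ 40 - (e.b0 + e.b1 * u + e.b2 * u ^ 2) := by
    field_simp
  rw [← abs_of_pos (show (0 : ℝ) < 2 ^ 40 by positivity), ← abs_mul,
    abs_of_pos (show (0 : ℝ) < 2 ^ 40 by positivity), e1]
  exact h

/-- the model of a constant -/
theorem RowS_Q3 {ρ : Env} {q : Q3} {Ut : TM} {u z : ℝ} (hU : Rep ρ Ut u)
    (h : |z * 2 ^ 40 - (q.a0 + q.a1 * u + q.a2 * u ^ 2)| ≤ (q.r : ℝ)) :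
    Rep ρ (q.tm Ut) z := by
  refine rep_blow (rep_quadAt hU) ?_
  have e1 : (z - (q.a0 + q.a1 * u + q.a2 * u ^ 2) / 2 ^ 40) * 2 ^ 40 =
      z * 2 ^ 40 - (q.a0 + q.a1 * u + q.a2 * u ^ 2) := by
    field_simp
  rw [← abs_of_pos (show (0 : ℝ) < 2 ^ 40 by positivity), ← abs_mul,
    abs_of_pos (show (0 : ℝ) < 2 ^ 40 by positivity), e1]
  exact h

/-! ### What the runs need -/

/-- A word: tube and monotonicity on the block `[a, b]`, edges `e 0, ..., e 5`. -/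
structure RowEnv (lam : ℝ) (c : Cls) (Ec : EdgD) (u eta : ℝ) (f : Fr) (sg a b : ℝ)
    (e : ℕ → ℝ) : Prop where
  hsg : sg = 1 ∨ sg = -1
  pt : ∀ x, a ≤ x → x ≤ b → PT lam c u eta f x
  mono : ∀ x, a ≤ x → x ≤ b → 0 < sg * f.Z1 lam x
  ex : ∀ z : ℝ, (c.p : ℝ) ≤ z → z ≤ (c.hi : ℝ) → ∃ E, a ≤ E ∧ E ≤ b ∧ f.Z lam E * 2 ^ 40 = z
  mem : ∀ j, j ≤ 5 → a ≤ e j ∧ e j ≤ b
  edge : ∀ j, j ≤ 5 → |f.Z lam (e j) * 2 ^ 40 -
    ((Ec.e j).b0 + (Ec.e j).b1 * u + (Ec.e j).b2 * u ^ 2)| ≤ ((Ec.e j).r : ℝ)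

namespace RowEnv

variable {lam : ℝ} {c : Cls} {Ec : EdgD} {u eta : ℝ} {f : Fr} {sg a b : ℝ} {e : ℕ → ℝ}

theorem ne (H : RowEnv lam c Ec u eta f sg a b e) {x : ℝ} (h1 : a ≤ x) (h2 : x ≤ b) :
    f.Z1 lam x ≠ 0 := by
  intro h0
  have := H.mono x h1 h2
  rw [h0, mul_zero] at this
  exact lt_irrefl _ this

/-- the model of the edge `j` -/
theorem repE (H : RowEnv lam c Ec u eta f sg a b e) {ρ : Env} {Ut : TM} (hU : RepT ρ Ut u)
    {j : ℕ} (hj : j ≤ 5) : RepT ρ ((Ec.e j).tm Ut) (f.Z lam (e j)) :=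
  fun t ht => RowS_edge (hU t ht) (H.edge j hj)

/-- the far end of a cell -/
theorem node (H : RowEnv lam c Ec u eta f sg a b e) {k : ℕ} (hk : k < c.len) :
    (∃ E, a ≤ E ∧ E ≤ b ∧ f.Z lam E * 2 ^ 40 = ((c.p + 34359738368 * ((k : ℤ) + 1) : ℤ) : ℝ)) ∧
    (∃ E, a ≤ E ∧ E ≤ b ∧ f.Z lam E * 2 ^ 40 = ((c.p + 34359738368 * (k : ℤ) : ℤ) : ℝ)) := by
  have h1 : (k : ℤ) + 1 ≤ (c.len : ℤ) := by exact_mod_cast hk
  have h0 : (0 : ℤ) ≤ (k : ℤ) := Int.natCast_nonneg k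
  constructor
  · refine H.ex _ ?_ ?_
    · exact_mod_cast (by omega : c.p ≤ c.p + 34359738368 * ((k : ℤ) + 1))
    · unfold Cls.hi
      exact_mod_cast (by omega :
        c.p + 34359738368 * ((k : ℤ) + 1) ≤ c.p + 34359738368 * (c.len : ℤ))
  · refine H.ex _ ?_ ?_
    · exact_mod_cast (by omega : c.p ≤ c.p + 34359738368 * (k : ℤ))
    · unfold Cls.hi
      exact_mod_cast (by omega :
        c.p + 34359738368 * (k : ℤ) ≤ c.p + 34359738368 * (c.len : ℤ))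

end RowEnv

theorem RowS_const {ρ : Env} {v : ℝ} {z : ℤ} (h : v * 2 ^ 40 = (z : ℝ)) : RepT ρ (const z) v := by
  have e : v = (z : ℝ) / 2 ^ 40 := by rw [← h]; field_simp
  rw [e]
  exact RepT.const z

/-! ### The upward run -/

theorem runUp_false {c : Cls} {Ec : EdgD} {Ut Et : TM} (sch : List RI) : ∀ s : LSt, s.ok = false →
    ∀ x ∈ runUp c Ec Ut Et sch s, x.ok = false := by
  induction sch with
  | nil => intro s _ x hx; exact absurd hx List.not_mem_nil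
  | cons i t ih =>
    intro s hs x hx
    cases i with
    | node k =>
      refine ih _ ?_ x hx
      show (s.ok && _) = false
      rw [hs, Bool.false_and]
    | stop j k =>
      rcases List.mem_cons.1 hx with rfl | hx
      · show (s.ok && _) = false
        rw [hs, Bool.false_and]
      · exact ih s hs x hx

theorem runUp_len {c : Cls} {Ec : EdgD} {Ut Et : TM} (sch : List RI) : ∀ s : LSt,
    (runUp c Ec Ut Et sch s).length = (stops sch).length := by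
  induction sch with
  | nil => intro s; rfl
  | cons i t ih =>
    intro s
    cases i with
    | node k => exact ih _
    | stop j k =>
      show (runUp c Ec Ut Et t s).length + 1 = (stops t).length + 1
      rw [ih s]

/-- Soundness of the upward run. -/
theorem runUp_ok {lam : ℝ} {c : Cls} {Ec : EdgD} {u eta : ℝ} {f : Fr} {sg a b : ℝ} {e : ℕ → ℝ}
    (H : RowEnv lam c Ec u eta f sg a b e) {ρ : Env} {Ut Et : TM} (hU : RepT ρ Ut u)
    (hE : RepT ρ Et eta) {E0 : ℝ} (sch : List RI) : ∀ (s : LSt) (E : ℝ), s.Ok ρ lam f sg E0 E → a ≤ E → E ≤ b →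
      (∀ j ∈ stops sch, j ≤ 5) → (∀ x ∈ runUp c Ec Ut Et sch s, x.ok = true) →
      List.Forall₂ (fun j x => LSt.Ok ρ lam f sg E0 x (e j)) (stops sch) (runUp c Ec Ut Et sch s) := by
  induction sch with
  | nil => intro s E _ _ _ _ _; exact List.Forall₂.nil
  | cons i t ih =>
    intro s E hs h1 h2 hst hok
    cases i with
    | node k =>
      change ∀ x ∈ runUp c Ec Ut Et t (stepL c Ut Et s
        (k, const (c.p + 34359738368 * ((k : ℤ) + 1)))), x.ok = true at hok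
      change List.Forall₂ _ (stops t) (runUp c Ec Ut Et t (stepL c Ut Et s
        (k, const (c.p + 34359738368 * ((k : ℤ) + 1)))))
      rcases Bool.eq_false_or_eq_true (stepL c Ut Et s
        (k, const (c.p + 34359738368 * ((k : ℤ) + 1)))).ok with hk | hk
      · have hk' : (s.ok && (Nat.blt k c.len && _ && _)) = true := hk
        rw [Bool.and_eq_true, Bool.and_eq_true, Bool.and_eq_true] at hk'
        have hlt : k < c.len := by
          have : Nat.ble (k + 1) c.len = true := hk'.2.1.1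
          exact Nat.le_of_ble_eq_true this
        obtain ⟨E', e1, e2, e3⟩ := (H.node hlt).1
        obtain ⟨-, k2⟩ := stepL_ok (E' := E') H.hsg H.pt H.mono hs h1 h2 e1 e2
          (RowS_const e3) hU hE hk
        exact ih _ E' k2 e1 e2 hst hok
      · have hnil : runUp c Ec Ut Et t (stepL c Ut Et s
            (k, const (c.p + 34359738368 * ((k : ℤ) + 1)))) = [] := by
          rw [List.eq_nil_iff_forall_not_mem]
          intro x hx
          have a1 := hok x hx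
          have a2 := runUp_false t _ hk x hx
          rw [a1] at a2
          exact absurd a2 (by decide)
        have hlen := runUp_len (c := c) (Ec := Ec) (Ut := Ut) (Et := Et) t (stepL c Ut Et s
            (k, const (c.p + 34359738368 * ((k : ℤ) + 1))))
        rw [hnil] at hlen ⊢
        rw [List.length_eq_zero_iff.1 hlen.symm]
        exact List.Forall₂.nil
    | stop j k =>
      change ∀ x ∈ stepL c Ut Et s (k, (Ec.e j).tm Ut) :: runUp c Ec Ut Et t s, x.ok = true at hok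
      have hj : j ≤ 5 := hst j List.mem_cons_self
      obtain ⟨m1, m2⟩ := H.mem j hj
      obtain ⟨-, k2⟩ := stepL_ok (E' := e j) H.hsg H.pt H.mono hs h1 h2 m1 m2
        (H.repE hU hj) hU hE (hok _ List.mem_cons_self)
      exact List.Forall₂.cons k2 (ih s E hs h1 h2 (fun x hx => hst x (List.mem_cons_of_mem _ hx))
        fun x hx => hok x (List.mem_cons_of_mem _ hx))

/-! ### The row in units of the low constant -/

theorem RowS_all {s1 s2 s3 s4 s5 : LSt} (o1 : s1.ok = true) (o2 : s2.ok = true)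
    (o3 : s3.ok = true) (o4 : s4.ok = true) (o5 : s5.ok = true) :
    ∀ x ∈ [s1, s2, s3, s4, s5], x.ok = true := by
  intro x hx
  simp only [List.mem_cons, List.not_mem_nil, or_false] at hx
  rcases hx with rfl | rfl | rfl | rfl | rfl
  · exact o1
  · exact o2
  · exact o3
  · exact o4
  · exact o5

theorem RowS_forall {P : ℕ → LSt → Prop} {a1 a2 a3 a4 a5 : ℕ} {s1 s2 s3 s4 s5 : LSt}
    (h : List.Forall₂ P [a1, a2, a3, a4, a5] [s1, s2, s3, s4, s5]) :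
    P a1 s1 ∧ P a2 s2 ∧ P a3 s3 ∧ P a4 s4 ∧ P a5 s5 := by
  simp only [List.forall₂_cons] at h
  exact ⟨h.1, h.2.1, h.2.2.1, h.2.2.2.1, h.2.2.2.2.1⟩

theorem RowS_five {l : List LSt} {P : LSt → LSt → LSt → LSt → LSt → Bool}
    (h : (match l with
      | [s1, s2, s3, s4, s5] => P s1 s2 s3 s4 s5
      | _ => false) = true) :
    ∃ s1 s2 s3 s4 s5, l = [s1, s2, s3, s4, s5] ∧ P s1 s2 s3 s4 s5 = true := by
  match l, h with
  | [s1, s2, s3, s4, s5], h => exact ⟨s1, s2, s3, s4, s5, rfl, h⟩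

/-- The run of `rowLow`. -/
theorem rowLow_run {kap imu : TM} {lam : ℝ} {c : Cls} {D : ClsD} {Ec E0 E1 E2 : EdgD} {R : RowD}
    {sch : List RI} {u eta : ℝ} {f : Fr} {sg a b : ℝ} {e : ℕ → ℝ}
    (H : RowEnv lam c Ec u eta f sg a b e)
    {ρ : Env} {Ut Et : TM} (hU : RepT ρ Ut u) (hE : RepT ρ Et eta)
    (h : rowLow kap imu Ut Et c D Ec E0 E1 E2 R sch = true) :
    ∃ s1 s2 s3 s4 s5 : LSt,
      rowLowCmp kap imu Ut c D Ec E0 E1 E2 R (inv (Ec.aL.tm Ut))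
        (quadAt D.a0.up.a0 D.a0.up.a1 D.a0.up.a2 Ut) (quadAt D.a1.up.a0 D.a1.up.a1 D.a1.up.a2 Ut)
        (quadAt D.a2.up.a0 D.a2.up.a1 D.a2.up.a2 Ut) s1 s2 s3 s4 s5 = true ∧
        LSt.Ok ρ lam f sg (e 0) s1 (e 1) ∧ LSt.Ok ρ lam f sg (e 0) s2 (e 2) ∧
        LSt.Ok ρ lam f sg (e 0) s3 (e 3) ∧ LSt.Ok ρ lam f sg (e 0) s4 (e 4) ∧
        LSt.Ok ρ lam f sg (e 0) s5 (e 5) := by
  unfold rowLow at h
  rw [Bool.and_eq_true, decide_eq_true_eq] at h
  obtain ⟨hst, h⟩ := h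
  obtain ⟨s1, s2, s3, s4, s5, hl, hc⟩ := RowS_five h
  refine ⟨s1, s2, s3, s4, s5, hc, ?_⟩
  have hok : ∀ x ∈ [s1, s2, s3, s4, s5], x.ok = true := by
    unfold rowLowCmp at hc
    simp only [Bool.and_eq_true] at hc
    obtain ⟨⟨⟨⟨⟨⟨⟨⟨⟨⟨⟨⟨⟨⟨⟨⟨⟨⟨⟨o1, o2⟩, o3⟩, o4⟩, o5⟩, -⟩, -⟩, -⟩, -⟩, -⟩, -⟩, -⟩, -⟩, -⟩, -⟩, -⟩,
      -⟩, -⟩, -⟩, -⟩ := hc
    exact RowS_all o1 o2 o3 o4 o5
  have h0 := H.mem 0 (by norm_num)
  have hrun := runUp_ok H hU hE (E0 := e 0) sch (LSt.start (Ec.e0.tm Ut)) (e 0)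
    (start_ok (H.ne h0.1 h0.2) (H.repE hU (j := 0) (by norm_num))) h0.1 h0.2
    (by rw [hst]; decide) (by rw [hl]; exact hok)
  rw [hst, hl] at hrun
  exact RowS_forall hrun

/-- a length in units of a constant -/
theorem RowS_div {x z A : ℝ} (hz : z ≠ 0) : x * |z| * (A * |z|)⁻¹ = x / A := by
  have hz' : |z| ≠ 0 := abs_ne_zero.2 hz
  rw [mul_inv, div_eq_mul_inv]
  field_simp

/-- **Positions of the edges in units of the low constant.** -/
theorem rowLow_pos {kap imu : TM} {lam : ℝ} {c : Cls} {D : ClsD} {Ec E0 E1 E2 : EdgD} {R : RowD}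
    {sch : List RI} {u eta : ℝ} {f : Fr} {sg a b : ℝ} {e : ℕ → ℝ}
    (H : RowEnv lam c Ec u eta f sg a b e) {ρ : Env} {Ut Et : TM} (hU : RepT ρ Ut u)
    (hE : RepT ρ Et eta) (h : rowLow kap imu Ut Et c D Ec E0 E1 E2 R sch = true) {A : ℝ}
    (hA : |A * |f.Z1 lam (e 0)| * 2 ^ 40 - (Ec.aL.a0 + Ec.aL.a1 * u + Ec.aL.a2 * u ^ 2)| ≤
      (Ec.aL.r : ℝ)) :
    R.p1.Holds ρ.u ρ.e0 (sg * (e 1 - e 0) / A) ∧ R.p2.Holds ρ.u ρ.e0 (sg * (e 2 - e 0) / A) ∧
    R.p3.Holds ρ.u ρ.e0 (sg * (e 3 - e 0) / A) ∧ R.p4.Holds ρ.u ρ.e0 (sg * (e 4 - e 0) / A) ∧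
    R.p5.Holds ρ.u ρ.e0 (sg * (e 5 - e 0) / A) := by
  obtain ⟨s1, s2, s3, s4, s5, hc, k1, k2, k3, k4, k5⟩ := rowLow_run H hU hE h
  have h0 := H.mem 0 (by norm_num)
  have hne := H.ne h0.1 h0.2
  have hia : Rep ρ (inv (Ec.aL.tm Ut)) (A * |f.Z1 lam (e 0)|)⁻¹ :=
    rep_inv (RowS_Q3 hU.rep hA)
  unfold rowLowCmp at hc
  simp only [Bool.and_eq_true] at hc
  obtain ⟨⟨⟨⟨⟨⟨⟨⟨⟨⟨⟨-, q1⟩, q2⟩, q3⟩, q4⟩, q5⟩, -⟩, -⟩, -⟩, -⟩, -⟩, -⟩ := hc
  have key : ∀ {q : Q5} {s : LSt} {x : ℝ}, LSt.Ok ρ lam f sg (e 0) s x →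
      q.chk (mul s.L (inv (Ec.aL.tm Ut))) = true →
      q.Holds ρ.u ρ.e0 (sg * (x - e 0) / A) := by
    intro q s x hs hq
    have := Q5.chk_sound (rep_mul hs.L.rep hia) hq
    rwa [RowS_div hne] at this
  exact ⟨key k1 q1, key k2 q2, key k3 q3, key k4 q4, key k5 q5⟩

/-! ### The downward run -/

theorem runDn_false {c : Cls} {Ec : EdgD} {Ut Et : TM} (sch : List RI) : ∀ s : LSt, s.ok = false →
    ∀ x ∈ runDn c Ec Ut Et sch s, x.ok = false := by
  induction sch with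
  | nil => intro s _ x hx; exact absurd hx List.not_mem_nil
  | cons i t ih =>
    intro s hs x hx
    cases i with
    | node k =>
      refine ih _ ?_ x hx
      show (s.ok && _) = false
      rw [hs, Bool.false_and]
    | stop j k =>
      rcases List.mem_cons.1 hx with rfl | hx
      · show (s.ok && _) = false
        rw [hs, Bool.false_and]
      · exact ih s hs x hx

theorem runDn_len {c : Cls} {Ec : EdgD} {Ut Et : TM} (sch : List RI) : ∀ s : LSt,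
    (runDn c Ec Ut Et sch s).length = (stops sch).length := by
  induction sch with
  | nil => intro s; rfl
  | cons i t ih =>
    intro s
    cases i with
    | node k => exact ih _
    | stop j k =>
      show (runDn c Ec Ut Et t s).length + 1 = (stops t).length + 1
      rw [ih s]

/-- Soundness of the downward run. -/
theorem runDn_ok {lam : ℝ} {c : Cls} {Ec : EdgD} {u eta : ℝ} {f : Fr} {sg a b : ℝ} {e : ℕ → ℝ}
    (H : RowEnv lam c Ec u eta f sg a b e) {ρ : Env} {Ut Et : TM} (hU : RepT ρ Ut u)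
    (hE : RepT ρ Et eta) {E0 : ℝ} (sch : List RI) : ∀ (s : LSt) (E : ℝ), LSt.OkN ρ lam f sg E0 s E → a ≤ E → E ≤ b →
      (∀ j ∈ stops sch, j ≤ 5) → (∀ x ∈ runDn c Ec Ut Et sch s, x.ok = true) →
      List.Forall₂ (fun j x => LSt.OkN ρ lam f sg E0 x (e j)) (stops sch)
        (runDn c Ec Ut Et sch s) := by
  induction sch with
  | nil => intro s E _ _ _ _ _; exact List.Forall₂.nil
  | cons i t ih =>
    intro s E hs h1 h2 hst hok
    cases i with
    | node k =>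
      change ∀ x ∈ runDn c Ec Ut Et t (stepLn c Ut Et s
        (k, const (c.p + 34359738368 * (k : ℤ)))), x.ok = true at hok
      change List.Forall₂ _ (stops t) (runDn c Ec Ut Et t (stepLn c Ut Et s
        (k, const (c.p + 34359738368 * (k : ℤ)))))
      rcases Bool.eq_false_or_eq_true (stepLn c Ut Et s
        (k, const (c.p + 34359738368 * (k : ℤ)))).ok with hk | hk
      · have hk' : (s.ok && (Nat.blt k c.len && _ && _)) = true := hk
        rw [Bool.and_eq_true, Bool.and_eq_true, Bool.and_eq_true] at hk'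
        have hlt : k < c.len := by
          have : Nat.ble (k + 1) c.len = true := hk'.2.1.1
          exact Nat.le_of_ble_eq_true this
        obtain ⟨E', e1, e2, e3⟩ := (H.node hlt).2
        obtain ⟨-, k2⟩ := stepLn_ok (E' := E') H.hsg H.pt H.mono hs h1 h2 e1 e2
          (RowS_const e3) hU hE hk
        exact ih _ E' k2 e1 e2 hst hok
      · have hnil : runDn c Ec Ut Et t (stepLn c Ut Et s
            (k, const (c.p + 34359738368 * (k : ℤ)))) = [] := by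
          rw [List.eq_nil_iff_forall_not_mem]
          intro x hx
          have a1 := hok x hx
          have a2 := runDn_false t _ hk x hx
          rw [a1] at a2
          exact absurd a2 (by decide)
        have hlen := runDn_len (c := c) (Ec := Ec) (Ut := Ut) (Et := Et) t (stepLn c Ut Et s
            (k, const (c.p + 34359738368 * (k : ℤ))))
        rw [hnil] at hlen ⊢
        rw [List.length_eq_zero_iff.1 hlen.symm]
        exact List.Forall₂.nil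
    | stop j k =>
      change ∀ x ∈ stepLn c Ut Et s (k, (Ec.e j).tm Ut) :: runDn c Ec Ut Et t s, x.ok = true
        at hok
      have hj : j ≤ 5 := hst j List.mem_cons_self
      obtain ⟨m1, m2⟩ := H.mem j hj
      obtain ⟨-, k2⟩ := stepLn_ok (E' := e j) H.hsg H.pt H.mono hs h1 h2 m1 m2
        (H.repE hU hj) hU hE (hok _ List.mem_cons_self)
      exact List.Forall₂.cons k2 (ih s E hs h1 h2 (fun x hx => hst x (List.mem_cons_of_mem _ hx))
        fun x hx => hok x (List.mem_cons_of_mem _ hx))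

/-! ### The row in units of the high constant -/

/-- The run of `rowHigh`. -/
theorem rowHigh_run {kap imu : TM} {lam : ℝ} {c : Cls} {D : ClsD} {Ec E0 E1 E2 : EdgD}
    {R : RowD} {sch : List RI} {u eta : ℝ} {f : Fr} {sg a b : ℝ} {e : ℕ → ℝ}
    (H : RowEnv lam c Ec u eta f sg a b e)
    {ρ : Env} {Ut Et : TM} (hU : RepT ρ Ut u) (hE : RepT ρ Et eta)
    (h : rowHigh kap imu Ut Et c D Ec E0 E1 E2 R sch = true) :
    ∃ s4 s3 s2 s1 s0 : LSt,
      rowHighCmp kap imu Ut c D Ec E0 E1 E2 R (inv (Ec.aH.tm Ut))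
        (quadAt D.a0.up.a0 D.a0.up.a1 D.a0.up.a2 Ut) (quadAt D.a1.up.a0 D.a1.up.a1 D.a1.up.a2 Ut)
        (quadAt D.a2.up.a0 D.a2.up.a1 D.a2.up.a2 Ut) s4 s3 s2 s1 s0 = true ∧
        LSt.OkN ρ lam f sg (e 5) s4 (e 4) ∧ LSt.OkN ρ lam f sg (e 5) s3 (e 3) ∧
        LSt.OkN ρ lam f sg (e 5) s2 (e 2) ∧ LSt.OkN ρ lam f sg (e 5) s1 (e 1) ∧
        LSt.OkN ρ lam f sg (e 5) s0 (e 0) := by
  unfold rowHigh at h
  rw [Bool.and_eq_true, decide_eq_true_eq] at h
  obtain ⟨hst, h⟩ := h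
  obtain ⟨s4, s3, s2, s1, s0, hl, hc⟩ := RowS_five h
  refine ⟨s4, s3, s2, s1, s0, hc, ?_⟩
  have hok : ∀ x ∈ [s4, s3, s2, s1, s0], x.ok = true := by
    unfold rowHighCmp at hc
    simp only [Bool.and_eq_true] at hc
    obtain ⟨⟨⟨⟨⟨⟨⟨⟨⟨⟨⟨⟨⟨⟨⟨⟨⟨⟨⟨o1, o2⟩, o3⟩, o4⟩, o5⟩, -⟩, -⟩, -⟩, -⟩, -⟩, -⟩, -⟩, -⟩, -⟩, -⟩, -⟩,
      -⟩, -⟩, -⟩, -⟩ := hc
    exact RowS_all o1 o2 o3 o4 o5
  have h0 := H.mem 5 (by norm_num)
  have hrun := runDn_ok H hU hE (E0 := e 5) sch (LSt.start (Ec.e5.tm Ut)) (e 5)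
    (start_okN (H.ne h0.1 h0.2) (H.repE hU (j := 5) (by norm_num))) h0.1 h0.2
    (by rw [hst]; decide) (by rw [hl]; exact hok)
  rw [hst, hl] at hrun
  exact RowS_forall hrun

/-- **Positions of the edges in units of the high constant.** -/
theorem rowHigh_pos {kap imu : TM} {lam : ℝ} {c : Cls} {D : ClsD} {Ec E0 E1 E2 : EdgD}
    {R : RowD} {sch : List RI} {u eta : ℝ} {f : Fr} {sg a b : ℝ} {e : ℕ → ℝ}
    (H : RowEnv lam c Ec u eta f sg a b e) {ρ : Env} {Ut Et : TM} (hU : RepT ρ Ut u)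
    (hE : RepT ρ Et eta) (h : rowHigh kap imu Ut Et c D Ec E0 E1 E2 R sch = true) {A : ℝ}
    (hA : |A * |f.Z1 lam (e 5)| * 2 ^ 40 - (Ec.aH.a0 + Ec.aH.a1 * u + Ec.aH.a2 * u ^ 2)| ≤
      (Ec.aH.r : ℝ)) :
    R.p1.Holds ρ.u ρ.e0 (sg * (e 5 - e 4) / A) ∧ R.p2.Holds ρ.u ρ.e0 (sg * (e 5 - e 3) / A) ∧
    R.p3.Holds ρ.u ρ.e0 (sg * (e 5 - e 2) / A) ∧ R.p4.Holds ρ.u ρ.e0 (sg * (e 5 - e 1) / A) ∧
    R.p5.Holds ρ.u ρ.e0 (sg * (e 5 - e 0) / A) := by
  obtain ⟨s4, s3, s2, s1, s0, hc, k1, k2, k3, k4, k5⟩ := rowHigh_run H hU hE h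
  have h0 := H.mem 5 (by norm_num)
  have hne := H.ne h0.1 h0.2
  have hia : Rep ρ (inv (Ec.aH.tm Ut)) (A * |f.Z1 lam (e 5)|)⁻¹ :=
    rep_inv (RowS_Q3 hU.rep hA)
  unfold rowHighCmp at hc
  simp only [Bool.and_eq_true] at hc
  obtain ⟨⟨⟨⟨⟨⟨⟨⟨⟨⟨⟨-, q1⟩, q2⟩, q3⟩, q4⟩, q5⟩, -⟩, -⟩, -⟩, -⟩, -⟩, -⟩ := hc
  have key : ∀ {q : Q5} {s : LSt} {x : ℝ}, LSt.OkN ρ lam f sg (e 5) s x →
      q.chk (mul s.L (inv (Ec.aH.tm Ut))) = true →
      q.Holds ρ.u ρ.e0 (sg * (e 5 - x) / A) := by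
    intro q s x hs hq
    have := Q5.chk_sound (rep_mul hs.L.rep hia) hq
    rwa [RowS_div hne] at this
  exact ⟨key k1 q1, key k2 q2, key k3 q3, key k4 q4, key k5 q5⟩

/-! ### The data of a word of the class table -/

/-- `RowEnv` of a word. -/
theorem rowEnv_word {lam : ℝ} {kap : TM} (hk : KapOK lam kap) {N : ℕ} {cls : ℕ → Cls}
    {dat : ℕ → ClsD} (hT : TabOK kap N cls dat) {s0 : WSt} {l r : ℝ}
    (hR : RootOK lam N cls s0 l r) (w : List (Fin 3)) {Ec : EdgD} {e : ℕ → ℝ}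
    (hm : ∀ j, j ≤ 5 → (mkTube hk hT hR).l w ≤ e j ∧ e j ≤ (mkTube hk hT hR).r w)
    (he : ∀ j, j ≤ 5 → |(wst dat s0 w).f.Z lam (e j) * 2 ^ 40 -
      ((Ec.e j).b0 + (Ec.e j).b1 * (wst dat s0 w).u + (Ec.e j).b2 * (wst dat s0 w).u ^ 2)| ≤
        ((Ec.e j).r : ℝ)) :
    RowEnv lam (cls (wst dat s0 w).ci) Ec (wst dat s0 w).u (wst dat s0 w).eta (wst dat s0 w).f
      (sgF (wst dat s0 w).o) ((mkTube hk hT hR).l w) ((mkTube hk hT hR).r w) e where
  hsg := by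
    cases (wst dat s0 w).o with
    | false => exact Or.inl rfl
    | true => exact Or.inr rfl
  pt x h1 h2 := ((mkTube hk hT hR).P_of_mem w h1 h2).tube
  mono x h1 h2 := ((mkTube hk hT hR).P_of_mem w h1 h2).mono
  ex z h1 h2 := by
    have e40 : z / 2 ^ 40 * 2 ^ 40 = z := by field_simp
    have h3 := le_endL (o := (wst dat s0 w).o) (z := z / 2 ^ 40)
      (a := ((cls (wst dat s0 w).ci).p : ℝ)) (b := ((cls (wst dat s0 w).ci).hi : ℝ))
      (by rw [e40]; exact h1) (by rw [e40]; exact h2)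
    obtain ⟨E, g1, g2, g3⟩ := (mkTube hk hT hR).exists_Z_eq w (z := sgF (wst dat s0 w).o * (z / 2 ^ 40))
      h3.1 h3.2
    refine ⟨E, g1, g2, ?_⟩
    have g4 : sgF (wst dat s0 w).o * (wst dat s0 w).f.Z lam E =
      sgF (wst dat s0 w).o * (z / 2 ^ 40) := g3
    have g5 : (wst dat s0 w).f.Z lam E = z / 2 ^ 40 := by
      have := sgF_mul_self (wst dat s0 w).o
      linear_combination sgF (wst dat s0 w).o * g4 -
        ((wst dat s0 w).f.Z lam E - z / 2 ^ 40) * this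
    rw [g5, e40]
  mem := hm
  edge := he

end Pool.Agent.H20.Fib
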