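import Pool.Agent.H20.Fib.CtxC
import Pool.Agent.H20.Fib.RowS

/-!
# Contexts: soundness of the boxes, of the steps and of the passage to affine forms (MP_9069b3_mp)

`Box.repU`, `Box.repE`, `Box.repUE`: the models of the parameters.  `boxStep_sound`: one step of the
parameters.  `affP_sound`, `affN_sound`, `affC_sound`: affine forms.  `rowP_sound`, `rowN_sound`: a
row of the table.  `halfOK_sound`: the children are at most half as long as the word.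
-/

namespace Pool.Agent.H20.Fib

open TM
open Pool.Agent.H98.Fib (RepT Aff CtxRow HTree)

/-! ### Models of the parameters of a box -/

section models

variable {b : Box} {u eta x n : ℝ} {ρ : Env}

theorem CtxS_repU (b : Box) (ρ : Env) : Rep ρ b.Ut ((b.U0 + b.U1 * ρ.u) / 2 ^ 40) := by
  refine ImgRep_mk (c' := b.U0) (t' := 0) (u' := (b.U1 : ℤ)) (tt' := 0) (tu' := 0) (uu' := 0)
    (a0' := 0) (a1' := 0) (a2' := 0) (fun h => ?_) ?_ ?_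
  · simp only [Nat.add_eq] at h
    exact ⟨ImgRep_enc (by omega), ImgRep_zero, ImgRep_nat (by omega), ImgRep_zero, ImgRep_zero,
      ImgRep_zero, ImgRep_zero, ImgRep_zero, ImgRep_zero⟩
  · simp only [Nat.add_eq]
    push_cast
    simp only [abs_zero, Int.abs_eq_natAbs]
    omega
  · push_cast; ring

theorem CtxS_repE (b : Box) (ρ : Env) :
    Rep ρ b.Et ((b.V0 + b.V1 * ρ.u + b.V2 * ρ.e0) / 2 ^ 40) := by
  refine ImgRep_mk (c' := b.V0) (t' := 0) (u' := b.V1) (tt' := 0) (tu' := 0) (uu' := 0)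
    (a0' := (b.V2 : ℤ)) (a1' := 0) (a2' := 0) (fun h => ?_) ?_ ?_
  · simp only [Nat.add_eq] at h
    exact ⟨ImgRep_enc (by omega), ImgRep_zero, ImgRep_enc (by omega), ImgRep_zero, ImgRep_zero,
      ImgRep_zero, ImgRep_nat (by omega), ImgRep_zero, ImgRep_zero⟩
  · simp only [Nat.add_eq]
    push_cast
    simp only [abs_zero, Int.abs_eq_natAbs]
    omega
  · push_cast; ring

theorem Box.In.u_eq (h : b.In u eta x n) : (b.U0 + b.U1 * x) / 2 ^ 40 = u := by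
  rw [← h.u]
  field_simp

theorem Box.In.eta_eq (h : b.In u eta x n) : (b.V0 + b.V1 * x + b.V2 * n) / 2 ^ 40 = eta := by
  rw [← h.eta]
  field_simp

/-- model of `u` -/
theorem Box.In.repU (h : b.In u eta x n) (hx : ρ.u = x) : RepT ρ b.Ut u := by
  subst hx
  intro t ht
  have := CtxS_repU b (ρ.setT t ht)
  exact ImgRep_cast this h.u_eq

/-- model of `eta` -/
theorem Box.In.repE (h : b.In u eta x n) (hx : ρ.u = x) (hn : ρ.e0 = n) : RepT ρ b.Et eta := by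
  subst hx hn
  intro t ht
  have := CtxS_repE b (ρ.setT t ht)
  exact ImgRep_cast this h.eta_eq

/-- model of `u` for all values of the error symbols -/
theorem Box.In.repUE (h : b.In u eta x n) (hx : ρ.u = x) (a c g : ℝ) (ha : |a| ≤ 1)
    (hc : |c| ≤ 1) (hg : |g| ≤ 1) : Rep (ρ.setE a c g ha hc hg) b.Ut u := by
  subst hx
  have := CtxS_repU b (ρ.setE a c g ha hc hg)
  exact ImgRep_cast this h.u_eq

/-- the environment of a word -/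
theorem Box.In.env (h : b.In u eta x n) : ∃ ρ : Env, ρ.u = x ∧ ρ.e0 = n :=
  ⟨⟨0, x, n, 0, 0, by simp, h.hx, h.hn, by simp, by simp⟩, rfl, rfl⟩

end models

/-! ### Steps -/

theorem CtxS_abs (a : ℤ) : |(a : ℝ)| = (a.natAbs : ℝ) := by
  rw [Nat.cast_natAbs, Int.cast_abs]

theorem CtxS_mul {y : ℝ} (hy : |y| ≤ 1) (a : ℤ) : |(a : ℝ) * y| ≤ (a.natAbs : ℝ) := by
  rw [abs_mul, CtxS_abs]
  exact mul_le_of_le_one_right (Nat.cast_nonneg _) hy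

theorem CtxS_mulr {y : ℝ} (hy : |y| ≤ 1) (a : ℝ) : |a * y| ≤ |a| := by
  rw [abs_mul]
  exact mul_le_of_le_one_right (abs_nonneg _) hy

theorem CtxS_sq {x : ℝ} (hx : |x| ≤ 1) : |x ^ 2| ≤ 1 := by
  rw [abs_pow]
  exact pow_le_one₀ (abs_nonneg _) hx

theorem CtxS_prod {x n : ℝ} (hx : |x| ≤ 1) (hn : |n| ≤ 1) : |x * n| ≤ 1 := by
  rw [abs_mul]
  exact mul_le_one₀ hx (abs_nonneg _) hn

/-- One step of the parameters. -/
theorem boxStep_sound {p : Upd} {b b' : Box} (hs : boxStep p b b' = true) {u eta x n : ℝ}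
    (h : b.In u eta x n) : ∃ x' n', b'.In (p.uR u) (p.etaR u eta) x' n' := by
  obtain ⟨hx, hn, hu, he⟩ := h
  unfold boxStep at hs
  simp only [Bool.and_eq_true, Nat.ble_eq, Nat.add_eq, Nat.mul_eq] at hs
  obtain ⟨⟨⟨h1, h2⟩, h3⟩, h4⟩ := hs
  -- names for the integers
  obtain ⟨P0, hP0⟩ : ∃ P0 : ℤ, P0 = p.a0 * 1208925819614629174706176 +
    p.a1 * b.U0 * 1099511627776 + p.a2 * b.U0 * b.U0 - b'.U0 * 1208925819614629174706176 :=
    ⟨_, rfl⟩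
  obtain ⟨P1, hP1⟩ : ∃ P1 : ℤ, P1 = (p.a1 * 1099511627776 + 2 * p.a2 * b.U0) * b.U1 := ⟨_, rfl⟩
  obtain ⟨P2, hP2⟩ : ∃ P2 : ℤ, P2 = p.a2 * b.U1 * b.U1 := ⟨_, rfl⟩
  obtain ⟨g0, hg0⟩ : ∃ g0 : ℤ, g0 = p.f0 * 1099511627776 + p.f1 * b.U0 := ⟨_, rfl⟩
  obtain ⟨g1, hg1⟩ : ∃ g1 : ℤ, g1 = p.f1 * b.U1 := ⟨_, rfl⟩
  rw [← hP0, ← hP1, ← hP2] at h3
  rw [← hP0, ← hP1, ← hP2, ← hg0, ← hg1] at h4
  obtain ⟨Q0, hQ0⟩ : ∃ Q0 : ℤ, Q0 = p.e0 * 1208925819614629174706176 +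
    p.e1 * b.U0 * 1099511627776 + p.e2 * b.U0 * b.U0 + g0 * b.V0 -
    b'.V0 * 1208925819614629174706176 := ⟨_, rfl⟩
  obtain ⟨Q1, hQ1⟩ : ∃ Q1 : ℤ, Q1 = (p.e1 * 1099511627776 + 2 * p.e2 * b.U0) * b.U1 +
    g0 * b.V1 + g1 * b.V0 := ⟨_, rfl⟩
  obtain ⟨Q2, hQ2⟩ : ∃ Q2 : ℤ, Q2 = p.e2 * b.U1 * b.U1 + g1 * b.V1 := ⟨_, rfl⟩
  rw [← hQ0, ← hQ1, ← hQ2] at h4
  have hU : (0 : ℝ) < b'.U1 := by exact_mod_cast (by omega : 0 < b'.U1)
  have hV : (0 : ℝ) < b'.V2 := by exact_mod_cast (by omega : 0 < b'.V2)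
  have hU' : (b'.U1 : ℝ) ≠ 0 := hU.ne'
  have hV' : (b'.V2 : ℝ) ≠ 0 := hV.ne'
  have hx2 := CtxS_sq hx
  have hxn := CtxS_prod hx hn
  -- the new coordinates
  obtain ⟨x', hx'⟩ : ∃ x' : ℝ, x' = (p.uR u * 2 ^ 40 - b'.U0) / b'.U1 := ⟨_, rfl⟩
  obtain ⟨n', hn'⟩ : ∃ n' : ℝ, n' = (p.etaR u eta * 2 ^ 40 - b'.V0 - b'.V1 * x') / b'.V2 :=
    ⟨_, rfl⟩
  have ex : (b'.U1 : ℝ) * x' = p.uR u * 2 ^ 40 - b'.U0 := by
    rw [hx']
    field_simp
  have en : (b'.V2 : ℝ) * n' = p.etaR u eta * 2 ^ 40 - b'.V0 - b'.V1 * x' := by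
    rw [hn']
    field_simp
  have eu : p.uR u * 2 ^ 40 = p.a0 + p.a1 * u + p.a2 * u ^ 2 := by
    unfold Upd.uR
    field_simp
  have ee : p.etaR u eta * 2 ^ 40 = p.e0 + p.e1 * u + p.e2 * u ^ 2 + (p.f0 + p.f1 * u) * eta := by
    unfold Upd.etaR
    field_simp
  have kx : (b'.U1 : ℝ) * x' * 2 ^ 80 = P0 + P1 * x + P2 * x ^ 2 := by
    rw [ex, eu, hP0, hP1, hP2]
    push_cast
    have hu2 : u * 2 ^ 80 = (b.U0 + b.U1 * x) * 2 ^ 40 := by rw [← hu]; ring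
    have hu3 : u ^ 2 * 2 ^ 80 = (b.U0 + b.U1 * x) ^ 2 := by rw [← hu]; ring
    linear_combination (p.a1 : ℝ) * hu2 + (p.a2 : ℝ) * hu3
  have hxle : |x'| ≤ 1 := by
    have k1 : |(P0 : ℝ) + P1 * x + P2 * x ^ 2| ≤ (b'.U1 : ℝ) * 1208925819614629174706176 := by
      have k2 : ((P0.natAbs + P1.natAbs + P2.natAbs : ℕ) : ℝ) ≤
          ((b'.U1 * 1208925819614629174706176 : ℕ) : ℝ) := by exact_mod_cast h3
      push_cast at k2
      refine le_trans ?_ k2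
      have q0 := CtxS_abs P0
      have q1 := CtxS_mul hx P1
      have q2 := CtxS_mul hx2 P2
      have q3 := abs_add_le ((P0 : ℝ) + P1 * x) (P2 * x ^ 2)
      have q4 := abs_add_le (P0 : ℝ) (P1 * x)
      linarith
    rw [← kx, abs_mul, abs_mul, abs_of_pos hU] at k1
    have k3 : (b'.U1 : ℝ) * |x'| * |(2 : ℝ) ^ 80| ≤ (b'.U1 : ℝ) * 1 * |(2 : ℝ) ^ 80| := by
      refine k1.trans (le_of_eq ?_)
      norm_num
    have k4 : (b'.U1 : ℝ) * |x'| ≤ (b'.U1 : ℝ) * 1 := le_of_mul_le_mul_right k3 (by positivity)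
    exact le_of_mul_le_mul_left k4 hU
  have kn : (b'.U1 : ℝ) * b'.V2 * n' * 2 ^ 80 = ((b'.U1 * Q0 - b'.V1 * P0 : ℤ) : ℝ) +
      ((b'.U1 * Q1 - b'.V1 * P1 : ℤ) : ℝ) * x + ((b'.U1 * Q2 - b'.V1 * P2 : ℤ) : ℝ) * x ^ 2 +
      ((b'.U1 * (g0 * b.V2) : ℤ) : ℝ) * n + ((b'.U1 * (g1 * b.V2) : ℤ) : ℝ) * (x * n) := by
    have e1 : (b'.U1 : ℝ) * b'.V2 * n' * 2 ^ 80 =
        (b'.U1 : ℝ) * 2 ^ 80 * (p.etaR u eta * 2 ^ 40 - b'.V0) -
          b'.V1 * (b'.U1 * x' * 2 ^ 80) := by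
      linear_combination (b'.U1 : ℝ) * 2 ^ 80 * en
    rw [e1, kx, ee]
    have hu2 : u * 2 ^ 80 = (b.U0 + b.U1 * x) * 2 ^ 40 := by rw [← hu]; ring
    have hu3 : u ^ 2 * 2 ^ 80 = (b.U0 + b.U1 * x) ^ 2 := by rw [← hu]; ring
    have he2 : (p.f0 + p.f1 * u) * eta * 2 ^ 80 =
        (p.f0 * 2 ^ 40 + p.f1 * (b.U0 + b.U1 * x)) * (b.V0 + b.V1 * x + b.V2 * n) := by
      rw [← he, ← hu]
      ring
    rw [hQ0, hQ1, hQ2, hg0, hg1]
    push_cast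
    linear_combination (b'.U1 : ℝ) * (p.e1 : ℝ) * hu2 + (b'.U1 : ℝ) * (p.e2 : ℝ) * hu3 +
      (b'.U1 : ℝ) * he2
  have hnle : |n'| ≤ 1 := by
    obtain ⟨R0, hR0⟩ : ∃ R0 : ℤ, R0 = b'.U1 * Q0 - b'.V1 * P0 := ⟨_, rfl⟩
    obtain ⟨R1, hR1⟩ : ∃ R1 : ℤ, R1 = b'.U1 * Q1 - b'.V1 * P1 := ⟨_, rfl⟩
    obtain ⟨R2, hR2⟩ : ∃ R2 : ℤ, R2 = b'.U1 * Q2 - b'.V1 * P2 := ⟨_, rfl⟩
    obtain ⟨R3, hR3⟩ : ∃ R3 : ℤ, R3 = b'.U1 * (g0 * b.V2) := ⟨_, rfl⟩
    obtain ⟨R4, hR4⟩ : ∃ R4 : ℤ, R4 = b'.U1 * (g1 * b.V2) := ⟨_, rfl⟩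
    rw [← hR0, ← hR1, ← hR2, ← hR3, ← hR4] at kn h4
    have k1 : |(R0 : ℝ) + R1 * x + R2 * x ^ 2 + R3 * n + R4 * (x * n)| ≤
        (b'.U1 : ℝ) * b'.V2 * 1208925819614629174706176 := by
      have k2 : ((R0.natAbs + R1.natAbs + R2.natAbs + (R3.natAbs + R4.natAbs) : ℕ) : ℝ) ≤
          ((b'.U1 * b'.V2 * 1208925819614629174706176 : ℕ) : ℝ) := by exact_mod_cast h4
      push_cast at k2
      refine le_trans ?_ k2
      have q0 := CtxS_abs R0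
      have q1 := CtxS_mul hx R1
      have q2 := CtxS_mul hx2 R2
      have q3 := CtxS_mul hn R3
      have q4 := CtxS_mul hxn R4
      have q5 := abs_add_le ((R0 : ℝ) + R1 * x + R2 * x ^ 2 + R3 * n) (R4 * (x * n))
      have q6 := abs_add_le ((R0 : ℝ) + R1 * x + R2 * x ^ 2) (R3 * n)
      have q7 := abs_add_le ((R0 : ℝ) + R1 * x) (R2 * x ^ 2)
      have q8 := abs_add_le (R0 : ℝ) (R1 * x)
      linarith
    rw [← kn, abs_mul, abs_mul, abs_of_pos (mul_pos hU hV)] at k1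
    have k3 : (b'.U1 : ℝ) * b'.V2 * |n'| * |(2 : ℝ) ^ 80| ≤
        (b'.U1 : ℝ) * b'.V2 * 1 * |(2 : ℝ) ^ 80| := by
      refine k1.trans (le_of_eq ?_)
      norm_num
    have k4 : (b'.U1 : ℝ) * b'.V2 * |n'| ≤ (b'.U1 : ℝ) * b'.V2 * 1 :=
      le_of_mul_le_mul_right k3 (by positivity)
    exact le_of_mul_le_mul_left k4 (mul_pos hU hV)
  refine ⟨x', n', hxle, hnle, ?_, ?_⟩
  · linarith
  · linarith

/-! ### Affine forms -/

/-- the inequality behind `affP`, `affN` -/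
theorem CtxS_aff {v x n : ℝ} {qc qu quu qh : ℤ} {qr : ℕ} {fc fs ft fe : ℤ} (hx : |x| ≤ 1)
    (hn : |n| ≤ 1)
    (hq : |v * 2 ^ 40 - (qc + qu * x + quu * x ^ 2 + qh * n)| ≤ (qr : ℝ))
    (h : ((2 * qc + quu - 2097152 * fc).natAbs + quu.natAbs + 2 * (qu - 1048576 * fs).natAbs +
      2 * (qh - 1048576 * ft).natAbs + 2 * qr : ℤ) ≤ 2097152 * fe) :
    |1048576 * v - ((fc : ℝ) + fs * x + ft * n)| ≤ fe := by
  have h' := (Int.cast_le (R := ℝ)).2 h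
  push_cast at h'
  have k1 := CtxS_mulr hx ((qu : ℝ) - 1048576 * fs)
  have k2 := CtxS_mulr hn ((qh : ℝ) - 1048576 * ft)
  have hx2 : |2 * x ^ 2 - 1| ≤ 1 := by
    have := CtxS_sq hx
    rw [abs_le] at this ⊢
    constructor
    · nlinarith [sq_nonneg x]
    · linarith
  have k3 := CtxS_mulr hx2 (quu : ℝ)
  have k0 := le_abs_self (2 * (qc : ℝ) + quu - 2097152 * fc)
  have k0' := neg_abs_le (2 * (qc : ℝ) + quu - 2097152 * fc)
  rw [abs_le] at hq k1 k2 k3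
  rw [abs_le]
  constructor
  · linarith
  · linarith

theorem affP_sound {q : Q5} {f : Aff} (h : affP q f = true) {x n v : ℝ} (hx : |x| ≤ 1)
    (hn : |n| ≤ 1) (hq : q.Holds x n v) : f.Holds x n v :=
  CtxS_aff hx hn hq (of_decide_eq_true h)

theorem affN_sound {q : Q5} {f : Aff} (h : affN q f = true) {x n v : ℝ} (hx : |x| ≤ 1)
    (hn : |n| ≤ 1) (hq : q.Holds x n v) : f.Holds (-x) (-n) v := by
  have h1 := of_decide_eq_true h
  have h2 : ((2 * q.c + q.uu - 2097152 * f.c).natAbs + q.uu.natAbs +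
      2 * (q.u - 1048576 * -f.s).natAbs + 2 * (q.h - 1048576 * -f.t).natAbs + 2 * q.r : ℤ) ≤
        2097152 * f.e := by
    have e1 : q.u - 1048576 * -f.s = q.u + 1048576 * f.s := by ring
    have e2 : q.h - 1048576 * -f.t = q.h + 1048576 * f.t := by ring
    rw [e1, e2]
    exact h1
  have h3 := CtxS_aff hx hn hq h2
  unfold Aff.Holds
  have e : (1048576 * v - ((f.c : ℝ) + f.s * -x + f.t * -n)) =
      1048576 * v - ((f.c : ℝ) + ((-f.s : ℤ) : ℝ) * x + ((-f.t : ℤ) : ℝ) * n) := by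
    push_cast
    ring
  rw [e]
  exact h3

/-- the constant `1 / mu` -/
theorem affC_sound {imu : TM} {f : Aff} (h : affC imu f = true) {v : ℝ}
    (hv : |v * 2 ^ 40 - (imu.c : ℝ)| ≤ (imu.r : ℝ)) (x n : ℝ) : f.Holds x n v := by
  unfold affC at h
  simp only [Bool.and_eq_true, decide_eq_true_eq] at h
  obtain ⟨⟨h1, h2⟩, h3⟩ := h
  have h3' := (Int.cast_le (R := ℝ)).2 h3
  push_cast at h3'
  have k0 := le_abs_self ((imu.c : ℝ) - 1048576 * f.c)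
  have k0' := neg_abs_le ((imu.c : ℝ) - 1048576 * f.c)
  unfold Aff.Holds
  rw [h1, h2]
  push_cast
  rw [zero_mul, zero_mul, add_zero, add_zero]
  rw [abs_le] at hv
  rw [abs_le]
  constructor
  · linarith
  · linarith

/-! ### Rows -/

/-- The quantities of a word in a row. -/
structure RowD.Holds (R : RowD) (x n : ℝ) (p1 p2 p3 p4 p5 a1 a2 b0 b1 b2 bb : ℝ) : Prop where
  p1 : R.p1.Holds x n p1
  p2 : R.p2.Holds x n p2
  p3 : R.p3.Holds x n p3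
  p4 : R.p4.Holds x n p4
  p5 : R.p5.Holds x n p5
  a1 : R.a1.Holds x n a1
  a2 : R.a2.Holds x n a2
  b0 : R.b0.Holds x n b0
  b1 : R.b1.Holds x n b1
  b2 : R.b2.Holds x n b2
  bb : R.bb.Holds x n bb

/-- A row of the table from a row in the parameters of the box. -/
theorem rowP_sound {imu : TM} {R : RowD} {t : CtxRow} (h : rowP imu R t = true) {T : HTree}
    {A B : List (Fin 3) → ℝ} {w : List (Fin 3)} {x n : ℝ} (hx : |x| ≤ 1) (hn : |n| ≤ 1)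
    (hmu : |A (0 :: w) / A w * 2 ^ 40 - (imu.c : ℝ)| ≤ (imu.r : ℝ))
    (hR : R.Holds x n ((T.hr (0 :: w) - T.hl w) / A w) ((T.hl (1 :: w) - T.hl w) / A w)
      ((T.hr (1 :: w) - T.hl w) / A w) ((T.hl (2 :: w) - T.hl w) / A w) (T.len w / A w)
      (A (1 :: w) / A w) (A (2 :: w) / A w) (B (0 :: w) / A w) (B (1 :: w) / A w)
      (B (2 :: w) / A w) (B w / A w)) : t.Holds T A B w x n := by
  unfold rowP at h
  simp only [Bool.and_eq_true] at h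
  obtain ⟨⟨⟨⟨⟨⟨⟨⟨⟨⟨⟨h1, h2⟩, h3⟩, h4⟩, h5⟩, h6⟩, h7⟩, h8⟩, h9⟩, h10⟩, h11⟩, h12⟩ := h
  exact ⟨affP_sound h5 hx hn hR.p5, affP_sound h1 hx hn hR.p1, affP_sound h2 hx hn hR.p2,
    affP_sound h3 hx hn hR.p3, affP_sound h4 hx hn hR.p4, affC_sound h6 hmu x n,
    affP_sound h7 hx hn hR.a1, affP_sound h8 hx hn hR.a2, affP_sound h9 hx hn hR.b0,
    affP_sound h10 hx hn hR.b1, affP_sound h11 hx hn hR.b2, affP_sound h12 hx hn hR.bb⟩

/-- The same with the parameters `-x`, `-n`. -/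
theorem rowN_sound {imu : TM} {R : RowD} {t : CtxRow} (h : rowN imu R t = true) {T : HTree}
    {A B : List (Fin 3) → ℝ} {w : List (Fin 3)} {x n : ℝ} (hx : |x| ≤ 1) (hn : |n| ≤ 1)
    (hmu : |A (0 :: w) / A w * 2 ^ 40 - (imu.c : ℝ)| ≤ (imu.r : ℝ))
    (hR : R.Holds x n ((T.hr (0 :: w) - T.hl w) / A w) ((T.hl (1 :: w) - T.hl w) / A w)
      ((T.hr (1 :: w) - T.hl w) / A w) ((T.hl (2 :: w) - T.hl w) / A w) (T.len w / A w)
      (A (1 :: w) / A w) (A (2 :: w) / A w) (B (0 :: w) / A w) (B (1 :: w) / A w)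
      (B (2 :: w) / A w) (B w / A w)) : t.Holds T A B w (-x) (-n) := by
  unfold rowN at h
  simp only [Bool.and_eq_true] at h
  obtain ⟨⟨⟨⟨⟨⟨⟨⟨⟨⟨⟨h1, h2⟩, h3⟩, h4⟩, h5⟩, h6⟩, h7⟩, h8⟩, h9⟩, h10⟩, h11⟩, h12⟩ := h
  exact ⟨affN_sound h5 hx hn hR.p5, affN_sound h1 hx hn hR.p1, affN_sound h2 hx hn hR.p2,
    affN_sound h3 hx hn hR.p3, affN_sound h4 hx hn hR.p4, affC_sound h6 hmu (-x) (-n),
    affN_sound h7 hx hn hR.a1, affN_sound h8 hx hn hR.a2, affN_sound h9 hx hn hR.b0,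
    affN_sound h10 hx hn hR.b1, affN_sound h11 hx hn hR.b2, affN_sound h12 hx hn hR.bb⟩

/-! ### Lengths of the children -/

theorem halfA_sound {p q len : Aff} (h : halfA p q len = true) {x n P Q L : ℝ} (hx : |x| ≤ 1)
    (hn : |n| ≤ 1) (hp : p.Holds x n P) (hq : q.Holds x n Q) (hl : len.Holds x n L) :
    2 * (P - Q) ≤ L := by
  have h1 : (2 * (p.c - q.c) + 2 * (p.e + q.e) + ((2 * (p.s - q.s) - len.s).natAbs : ℤ) +
    ((2 * (p.t - q.t) - len.t).natAbs : ℤ) + len.e : ℤ) ≤ len.c := of_decide_eq_true h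
  have h2 := (Int.cast_le (R := ℝ)).2 h1
  push_cast at h2
  have k1 := CtxS_mulr hx (2 * ((p.s : ℝ) - q.s) - len.s)
  have k2 := CtxS_mulr hn (2 * ((p.t : ℝ) - q.t) - len.t)
  unfold Aff.Holds at hp hq hl
  rw [abs_le] at hp hq hl k1 k2
  linarith [hp.2, hq.1, hl.1, k1.2, k2.2]

/-- Every child is at most half as long as the word. -/
theorem halfOK_sound {t : CtxRow} (h : halfOK t = true) {T : HTree} {A B : List (Fin 3) → ℝ}
    {w : List (Fin 3)} {x n : ℝ} (hA : 0 < A w) (hx : |x| ≤ 1) (hn : |n| ≤ 1)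
    (ht : t.Holds T A B w x n) (i : Fin 3) : 2 * T.len (i :: w) ≤ T.len w := by
  unfold halfOK at h
  simp only [Bool.and_eq_true] at h
  obtain ⟨⟨h0, h1⟩, h2⟩ := h
  have hz : Aff.Holds ⟨0, 0, 0, 0⟩ x n 0 := by
    unfold Aff.Holds
    simp
  have hfin : ∀ {P : ℝ}, 2 * (P / A w) ≤ T.len w / A w → 2 * P ≤ T.len w := by
    intro P hP
    rw [← mul_div_assoc, div_le_div_iff_of_pos_right hA] at hP
    exact hP
  have e0 := halfA_sound h0 hx hn ht.e1 hz ht.len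
  have e1 := halfA_sound h1 hx hn ht.e3 ht.e2 ht.len
  have e2 := halfA_sound h2 hx hn ht.len ht.e4 ht.len
  match i with
  | 0 =>
    have e : T.len (0 :: w) = T.hr (0 :: w) - T.hl w := by
      unfold HTree.len
      rw [T.hl0]
    rw [e]
    refine hfin ?_
    rw [sub_zero] at e0
    exact e0
  | 1 =>
    have e : T.len (1 :: w) = (T.hr (1 :: w) - T.hl w) - (T.hl (1 :: w) - T.hl w) := by
      unfold HTree.len
      ring
    rw [e]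
    refine hfin ?_
    rw [sub_div]
    exact e1
  | 2 =>
    have e : T.len (2 :: w) = T.len w - (T.hl (2 :: w) - T.hl w) := by
      unfold HTree.len
      rw [T.hr2]
      ring
    rw [e]
    refine hfin ?_
    rw [sub_div]
    exact e2

end Pool.Agent.H20.Fib
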