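import Pool.Agent.H20.Fib.RowK

/-!
# Soundness of the edge checks

`edOK`: from `edgeCheck` for all classes, the six edges of every word are where the table says.
-/

namespace Pool.Agent.H20.Fib

open TM
open Pool.Agent.H98.Fib (Tube)

/-! ### Lines of an edge in the oriented coordinate -/

theorem EdgeL.lo_ev (e : EdgeL) (u : ℝ) :
    e.lo.ev u = e.b0 + e.b1 * u + e.b2 * u ^ 2 - e.r := by
  simp only [EdgeL.lo, LineD.ev]
  push_cast
  ring

theorem EdgeL.hi_ev (e : EdgeL) (u : ℝ) :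
    e.hi.ev u = e.b0 + e.b1 * u + e.b2 * u ^ 2 + e.r := by
  simp only [EdgeL.hi, LineD.ev]
  push_cast
  ring

theorem EdgeL.lo_le_hi (e : EdgeL) (u : ℝ) : e.lo.ev u ≤ e.hi.ev u := by
  rw [EdgeL.lo_ev, EdgeL.hi_ev]
  have : (0 : ℝ) ≤ e.r := Nat.cast_nonneg _
  linarith

/-- left bound of the edge in the coordinate `sgF o * Z` -/
noncomputable def eL (o : Bool) (e : EdgeL) (u : ℝ) : ℝ := endL o (e.lo.ev u) (e.hi.ev u)

/-- right bound -/
noncomputable def eR (o : Bool) (e : EdgeL) (u : ℝ) : ℝ := endR o (e.lo.ev u) (e.hi.ev u)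

theorem eL_le_eR (o : Bool) (e : EdgeL) (u : ℝ) : eL o e u ≤ eR o e u := by
  have h := e.lo_le_hi u
  unfold eL eR
  cases o with
  | false =>
    simp only [endL, endR]
    gcongr
  | true =>
    simp only [endL, endR]
    apply div_le_div_of_nonneg_right _ (by norm_num)
    linarith

theorem bd_of_eL {o : Bool} {e : EdgeL} {u z : ℝ} (h : eL o e u ≤ sgF o * z)
    (h' : sgF o * z ≤ eR o e u) :
    |z * 2 ^ 40 - (e.b0 + e.b1 * u + e.b2 * u ^ 2)| ≤ (e.r : ℝ) := by
  obtain ⟨h1, h2⟩ := endL_le h h'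
  rw [EdgeL.lo_ev] at h1
  rw [EdgeL.hi_ev] at h2
  rw [abs_le]
  constructor <;> linarith

/-! ### One step in the frame of a class -/

structure EdgeStep (lam : ℝ) (i : ℕ) (A : ArcD) (e e' : EdgeL) (u : ℝ) (f : Fr) (E : ℝ) :
    Prop where
  lo : f.Z lam E * 2 ^ 40 = e.lo.ev u →
    sgF A.fl * (f.chF i A.fl).Z lam E ≤ eL A.fl e' (A.up.uR u)
  hi : f.Z lam E * 2 ^ 40 = e.hi.ev u →
    eR A.fl e' (A.up.uR u) ≤ sgF A.fl * (f.chF i A.fl).Z lam E

theorem edgeStep {lam : ℝ} {kap : TM} (hk : KapOK lam kap) {i : ℕ} {A : ArcD} {c : Cls}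
    {e e' : EdgeL} (h : edgeOne kap i A c e e' = true) {u eta : ℝ} {f : Fr} {E : ℝ}
    (hf : f.ok) (hu : |u| ≤ 1) (hT : PT lam c u eta f E)
    (hD : 0 < f.Y lam E - f.X lam E * f.Z lam E) : EdgeStep lam i A e e' u f E := by
  have hc : ∀ ρ : Env, ρ.u = u → Rep ρ (e'.cen (quadU A.up.a0 A.up.a1 A.up.a2))
      (((e'.b0 : ℝ) + e'.b1 * A.up.uR u + e'.b2 * (A.up.uR u) ^ 2) / 2 ^ 40) := by
    intro ρ hρ
    have h1 : Rep ρ (quadU A.up.a0 A.up.a1 A.up.a2) (A.up.uR u) := by
      have := rep_quadU (ρ := ρ) A.up.a0 A.up.a1 A.up.a2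
      rw [hρ] at this
      exact this
    exact rep_quadAt h1
  have e40 : ∀ a : ℝ, a / 2 ^ 40 * 2 ^ 40 = a := fun a => by field_simp
  unfold edgeOne at h
  rcases hfl : A.fl with _ | _
  · rw [hfl] at h
    simp only [Bool.and_eq_true] at h
    obtain ⟨-, h1, h2⟩ := h
    constructor
    · intro hz
      have := zLE_sound hk h1 hf hu hT hD hz hc
      rw [e40] at this
      push_cast at this
      rw [hfl]
      simp only [eL, endL, sgF, one_mul]
      rw [le_div_iff₀ (by norm_num), EdgeL.lo_ev]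
      linarith
    · intro hz
      have := zGE_sound hk h2 hf hu hT hD hz hc
      rw [e40] at this
      push_cast at this
      rw [hfl]
      simp only [eR, endR, sgF, one_mul]
      rw [div_le_iff₀ (by norm_num), EdgeL.hi_ev]
      linarith
  · rw [hfl] at h
    simp only [Bool.and_eq_true] at h
    obtain ⟨-, h1, h2⟩ := h
    constructor
    · intro hz
      have := zGE_sound hk h1 hf hu hT hD hz hc
      rw [e40] at this
      push_cast at this
      rw [hfl]
      simp only [eL, endL, sgF]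
      rw [le_div_iff₀ (by norm_num), EdgeL.hi_ev]
      linarith
    · intro hz
      have := zLE_sound hk h2 hf hu hT hD hz hc
      rw [e40] at this
      push_cast at this
      rw [hfl]
      simp only [eR, endR, sgF]
      rw [div_le_iff₀ (by norm_num), EdgeL.lo_ev]
      linarith

/-! ### Words -/

section words

variable {lam : ℝ} {kap : TM} (hk : KapOK lam kap) {N : ℕ} {cls : ℕ → Cls} {dat : ℕ → ClsD}
  (hT : TabOK kap N cls dat) {s0 : WSt} {l r : ℝ} (hR : RootOK lam N cls s0 l r)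
  {edg : ℕ → EdgD}

/-- index of the child's edge at a side (`false` = low) in the frame of the parent -/
def cEd (fl b : Bool) : ℕ := cond (b ^^ fl) 5 0

/-- index of the parent's edge at the low / high end of the canonical child `i` -/
def pEd (i : ℕ) (b : Bool) : ℕ := 2 * i + cond b 1 0

theorem cEd_xor (o fl b : Bool) : cEd fl (o ^^ b) = cEd (o ^^ fl) b := by
  cases o <;> cases fl <;> cases b <;> rfl

theorem edge_one {i : ℕ} (h : edgeCheck kap (cls i) (dat i) (edg i) (edg (dat i).a0.nx)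
    (edg (dat i).a1.nx) (edg (dat i).a2.nx) = true) {k : ℕ} (hk : k < 3) (b : Bool) :
    edgeOne kap k ((dat i).arc k) (cls i) ((edg i).e (pEd k b))
      ((edg ((dat i).arc k).nx).e (cEd ((dat i).arc k).fl b)) = true := by
  have hlow : ∀ (D : EdgD) (fl : Bool), D.low fl = D.e (cEd fl false) := by
    intro D fl; cases fl <;> rfl
  have hhigh : ∀ (D : EdgD) (fl : Bool), D.high fl = D.e (cEd fl true) := by
    intro D fl; cases fl <;> rfl
  unfold edgeCheck at h
  simp only [Bool.and_eq_true, hlow, hhigh] at h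
  obtain ⟨⟨⟨⟨⟨h0, h1⟩, h2⟩, h3⟩, h4⟩, h5⟩ := h
  interval_cases k
  · cases b
    · exact h0
    · exact h1
  · cases b
    · exact h2
    · exact h3
  · cases b
    · exact h4
    · exact h5

/-- all edge checks -/
def EdgesOK (kap : TM) (N : ℕ) (cls : ℕ → Cls) (dat : ℕ → ClsD) (edg : ℕ → EdgD) : Prop :=
  ∀ i, i < N → edgeCheck kap (cls i) (dat i) (edg i) (edg (dat i).a0.nx)
    (edg (dat i).a1.nx) (edg (dat i).a2.nx) = true

/-- The parent's edge and the child's edge along the letter `j`, the end `b` in the order of energies. -/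
structure WStep (S : Tube lam) (dat : ℕ → ClsD) (s0 : WSt) (edg : ℕ → EdgD)
    (w : List (Fin 3)) (j : Fin 3) (e e' : EdgeL) : Prop where
  lo : ∀ E, S.P w E → S.Z w E = eL (wst dat s0 w).o e (wst dat s0 w).u →
    S.Z (j :: w) E ≤ eL (wst dat s0 (j :: w)).o e' (wst dat s0 (j :: w)).u
  hi : ∀ E, S.P w E → S.Z w E = eR (wst dat s0 w).o e (wst dat s0 w).u →
    eR (wst dat s0 (j :: w)).o e' (wst dat s0 (j :: w)).u ≤ S.Z (j :: w) E
  q : eL (wst dat s0 w).o e (wst dat s0 w).u ≤ S.q w j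
  p : S.p w j ≤ eR (wst dat s0 w).o e (wst dat s0 w).u

theorem eL_xor_true (fl : Bool) (e : EdgeL) (u : ℝ) : eL (true ^^ fl) e u = -eR fl e u :=
  endL_true fl _ _

theorem eR_xor_true (fl : Bool) (e : EdgeL) (u : ℝ) : eR (true ^^ fl) e u = -eL fl e u :=
  endR_true fl _ _

theorem wStep (w : List (Fin 3)) (j : Fin 3) {e e' : EdgeL}
    (h : edgeOne kap (WSt.cl (wst dat s0 w).o j) ((wst dat s0 w).arcOf dat j)
      (cls (wst dat s0 w).ci) e e' = true) :
    WStep (mkTube hk hT hR) dat s0 edg w j e e' := by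
  have hs := wst_good hT hR.good w
  have hb : below ((wst dat s0 w).arcOf dat j).lo e.lo 0 = true ∧
      below e.hi ((wst dat s0 w).arcOf dat j).hi 0 = true := by
    unfold edgeOne at h
    simp only [Bool.and_eq_true] at h
    exact h.1
  have b1 := below_spec hb.1 hs.u
  have b2 := below_spec hb.2 hs.u
  push_cast at b1 b2
  have b3 := e.lo_le_hi (wst dat s0 w).u
  have hm := endL_mono (o := (wst dat s0 w).o) (a := ((wst dat s0 w).arcOf dat j).lo.ev
    (wst dat s0 w).u) (a' := e.lo.ev (wst dat s0 w).u) (b' := e.hi.ev (wst dat s0 w).u)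
    (b := ((wst dat s0 w).arcOf dat j).hi.ev (wst dat s0 w).u) (by linarith) (by linarith)
  have hLR := eL_le_eR (wst dat s0 w).o e (wst dat s0 w).u
  refine ⟨?_, ?_, ?_, ?_⟩
  · intro E hP hz
    have hP' : (wst dat s0 w).Pt lam cls E := hP
    have he := edgeStep hk h hs.f hs.u hP'.tube hP'.pos
    show sgF ((wst dat s0 w).o ^^ ((wst dat s0 w).arcOf dat j).fl) *
      ((wst dat s0 w).f.chF _ ((wst dat s0 w).arcOf dat j).fl).Z lam E ≤
      eL ((wst dat s0 w).o ^^ ((wst dat s0 w).arcOf dat j).fl) e'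
        (((wst dat s0 w).arcOf dat j).up.uR (wst dat s0 w).u)
    rw [sgF_xor, mul_assoc]
    have hz' : sgF (wst dat s0 w).o * (wst dat s0 w).f.Z lam E =
      endL (wst dat s0 w).o (e.lo.ev (wst dat s0 w).u) (e.hi.ev (wst dat s0 w).u) := hz
    rcases endL_eq hz' with ⟨ho, hz2⟩ | ⟨ho, hz2⟩
    · rw [ho, Bool.false_xor, sgF_false, one_mul]
      rw [ho] at he
      exact he.lo hz2
    · rw [ho, eL_xor_true, sgF_true, neg_one_mul]
      rw [ho] at he
      exact neg_le_neg (he.hi hz2)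
  · intro E hP hz
    have hP' : (wst dat s0 w).Pt lam cls E := hP
    have he := edgeStep hk h hs.f hs.u hP'.tube hP'.pos
    show eR ((wst dat s0 w).o ^^ ((wst dat s0 w).arcOf dat j).fl) e'
        (((wst dat s0 w).arcOf dat j).up.uR (wst dat s0 w).u) ≤
      sgF ((wst dat s0 w).o ^^ ((wst dat s0 w).arcOf dat j).fl) *
      ((wst dat s0 w).f.chF _ ((wst dat s0 w).arcOf dat j).fl).Z lam E
    rw [sgF_xor, mul_assoc]
    have hz' : sgF (wst dat s0 w).o * (wst dat s0 w).f.Z lam E =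
      endR (wst dat s0 w).o (e.lo.ev (wst dat s0 w).u) (e.hi.ev (wst dat s0 w).u) := hz
    rcases endR_eq hz' with ⟨ho, hz2⟩ | ⟨ho, hz2⟩
    · rw [ho, Bool.false_xor, sgF_false, one_mul]
      rw [ho] at he
      exact he.hi hz2
    · rw [ho, eR_xor_true, sgF_true, neg_one_mul]
      rw [ho] at he
      exact neg_le_neg (he.lo hz2)
  · exact hLR.trans hm.2
  · exact hm.1.trans hLR

/-- The step for the end `b` (energy order) of the letter `j`. -/
theorem wStep_of (hE : EdgesOK kap N cls dat edg) (w : List (Fin 3)) (j : Fin 3) (b : Bool) :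
    WStep (mkTube hk hT hR) dat s0 edg w j
      ((edg (wst dat s0 w).ci).e (pEd (WSt.cl (wst dat s0 w).o j) ((wst dat s0 w).o ^^ b)))
      ((edg (wst dat s0 (j :: w)).ci).e (cEd (wst dat s0 (j :: w)).o b)) := by
  have hs := wst_good hT hR.good w
  have h := edge_one (hE _ hs.ci) (WSt.cl_lt (wst dat s0 w).o j) ((wst dat s0 w).o ^^ b)
  have e1 : cEd ((dat (wst dat s0 w).ci).arc (WSt.cl (wst dat s0 w).o j)).fl
      ((wst dat s0 w).o ^^ b) = cEd (wst dat s0 (j :: w)).o b := cEd_xor _ _ _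
  rw [e1] at h
  exact wStep hk hT hR w j h

/-- Ends of the hulls in the coordinate of the word. -/
theorem edge_hl (hE : EdgesOK kap N cls dat edg) (w : List (Fin 3)) :
    eL (wst dat s0 w).o ((edg (wst dat s0 w).ci).e (cEd (wst dat s0 w).o false))
      (wst dat s0 w).u ≤ (mkTube hk hT hR).Z w ((mkTube hk hT hR).hl w) ∧
    (mkTube hk hT hR).Z w ((mkTube hk hT hR).hl w) ≤
    eR (wst dat s0 w).o ((edg (wst dat s0 w).ci).e (cEd (wst dat s0 w).o false))
      (wst dat s0 w).u := by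
  have e0 : ∀ o : Bool, pEd (WSt.cl o 0) (o ^^ false) = cEd o false := by
    intro o; cases o <;> rfl
  have h : ∀ w, WStep (mkTube hk hT hR) dat s0 edg w 0
      ((edg (wst dat s0 w).ci).e (cEd (wst dat s0 w).o false))
      ((edg (wst dat s0 (0 :: w)).ci).e (cEd (wst dat s0 (0 :: w)).o false)) := by
    intro w
    have := wStep_of hk hT hR hE w 0 false
    rw [e0] at this
    exact this
  exact ⟨(mkTube hk hT hR).le_Z_hl (a := fun w => eL (wst dat s0 w).o
      ((edg (wst dat s0 w).ci).e (cEd (wst dat s0 w).o false)) (wst dat s0 w).u)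
      (fun w => (h w).q) (fun w => (h w).lo) w,
    (mkTube hk hT hR).Z_hl_le (b := fun w => eR (wst dat s0 w).o
      ((edg (wst dat s0 w).ci).e (cEd (wst dat s0 w).o false)) (wst dat s0 w).u)
      (fun w => (h w).p) (fun w => (h w).hi) w⟩

theorem edge_hr (hE : EdgesOK kap N cls dat edg) (w : List (Fin 3)) :
    eL (wst dat s0 w).o ((edg (wst dat s0 w).ci).e (cEd (wst dat s0 w).o true))
      (wst dat s0 w).u ≤ (mkTube hk hT hR).Z w ((mkTube hk hT hR).hr w) ∧
    (mkTube hk hT hR).Z w ((mkTube hk hT hR).hr w) ≤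
    eR (wst dat s0 w).o ((edg (wst dat s0 w).ci).e (cEd (wst dat s0 w).o true))
      (wst dat s0 w).u := by
  have e0 : ∀ o : Bool, pEd (WSt.cl o 2) (o ^^ true) = cEd o true := by
    intro o; cases o <;> rfl
  have h : ∀ w, WStep (mkTube hk hT hR) dat s0 edg w 2
      ((edg (wst dat s0 w).ci).e (cEd (wst dat s0 w).o true))
      ((edg (wst dat s0 (2 :: w)).ci).e (cEd (wst dat s0 (2 :: w)).o true)) := by
    intro w
    have := wStep_of hk hT hR hE w 2 true
    rw [e0] at this
    exact this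
  exact ⟨(mkTube hk hT hR).le_Z_hr (a := fun w => eL (wst dat s0 w).o
      ((edg (wst dat s0 w).ci).e (cEd (wst dat s0 w).o true)) (wst dat s0 w).u)
      (fun w => (h w).q) (fun w => (h w).lo) w,
    (mkTube hk hT hR).Z_hr_le (b := fun w => eR (wst dat s0 w).o
      ((edg (wst dat s0 w).ci).e (cEd (wst dat s0 w).o true)) (wst dat s0 w).u)
      (fun w => (h w).p) (fun w => (h w).hi) w⟩

/-- Bounds of a point given by its coordinate. -/
theorem edge_bd {w : List (Fin 3)} {e : EdgeL} {x : ℝ}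
    (h : eL (wst dat s0 w).o e (wst dat s0 w).u ≤ (mkTube hk hT hR).Z w x ∧
      (mkTube hk hT hR).Z w x ≤ eR (wst dat s0 w).o e (wst dat s0 w).u) :
    |(wst dat s0 w).f.Z lam x * 2 ^ 40 - (e.b0 + e.b1 * (wst dat s0 w).u +
      e.b2 * (wst dat s0 w).u ^ 2)| ≤ (e.r : ℝ) :=
  bd_of_eL (o := (wst dat s0 w).o) h.1 h.2

/-- Ends of the hulls of the children in the coordinate of the word. -/
theorem edge_hl_child (hE : EdgesOK kap N cls dat edg) (w : List (Fin 3)) (j : Fin 3) :
    eL (wst dat s0 w).o ((edg (wst dat s0 w).ci).e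
      (pEd (WSt.cl (wst dat s0 w).o j) ((wst dat s0 w).o ^^ false))) (wst dat s0 w).u ≤
      (mkTube hk hT hR).Z w ((mkTube hk hT hR).hl (j :: w)) ∧
    (mkTube hk hT hR).Z w ((mkTube hk hT hR).hl (j :: w)) ≤
    eR (wst dat s0 w).o ((edg (wst dat s0 w).ci).e
      (pEd (WSt.cl (wst dat s0 w).o j) ((wst dat s0 w).o ^^ false))) (wst dat s0 w).u := by
  have h := wStep_of hk hT hR hE w j false
  have hc := edge_hl hk hT hR hE (j :: w)
  exact ⟨(mkTube hk hT hR).le_Z_hl_child h.q hc.1 h.lo,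
    (mkTube hk hT hR).Z_hl_child_le h.p hc.2 h.hi⟩

theorem edge_hr_child (hE : EdgesOK kap N cls dat edg) (w : List (Fin 3)) (j : Fin 3) :
    eL (wst dat s0 w).o ((edg (wst dat s0 w).ci).e
      (pEd (WSt.cl (wst dat s0 w).o j) ((wst dat s0 w).o ^^ true))) (wst dat s0 w).u ≤
      (mkTube hk hT hR).Z w ((mkTube hk hT hR).hr (j :: w)) ∧
    (mkTube hk hT hR).Z w ((mkTube hk hT hR).hr (j :: w)) ≤
    eR (wst dat s0 w).o ((edg (wst dat s0 w).ci).e
      (pEd (WSt.cl (wst dat s0 w).o j) ((wst dat s0 w).o ^^ true))) (wst dat s0 w).u := by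
  have h := wStep_of hk hT hR hE w j true
  have hc := edge_hr hk hT hR hE (j :: w)
  exact ⟨(mkTube hk hT hR).le_Z_hr_child h.q hc.1 h.lo,
    (mkTube hk hT hR).Z_hr_child_le h.p hc.2 h.hi⟩

/-- **All edges of all words are where the table says.** -/
theorem edOK (hE : EdgesOK kap N cls dat edg) :
    EdOK lam (mkTube hk hT hR) dat s0 edg := by
  intro w j hj
  have a1 := edge_bd hk hT hR (edge_hl hk hT hR hE w)
  have a2 := edge_bd hk hT hR (edge_hr hk hT hR hE w)
  have c1 := fun i => edge_bd hk hT hR (edge_hl_child hk hT hR hE w i)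
  have c2 := fun i => edge_bd hk hT hR (edge_hr_child hk hT hR hE w i)
  rcases ho : (wst dat s0 w).o with _ | _
  · rw [ho] at a1 a2 c1 c2
    interval_cases j
    · exact a1
    · exact c2 0
    · exact c1 1
    · exact c2 1
    · exact c1 2
    · exact a2
  · rw [ho] at a1 a2 c1 c2
    interval_cases j
    · exact a2
    · exact c1 2
    · exact c2 1
    · exact c1 1
    · exact c2 0
    · exact a1

end words

end Pool.Agent.H20.Fib
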