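import Pool.Agent.H98.Fib.Defs

/-!
# FB-6. Trace jets, frames and the step formulas (purely algebraic / calculus)

A frame `f = (m; e1, e2, e3)` (signs, product one) gives the functions
`X = e1 xs m`, `Y = e2 xs (m+1)`, `Z = e3 xs (m+2)` of the energy `E`.

PROOFS.
* `hasDerivAt_xs`, `hasDerivAt_xs1`: strong induction with the recursion `xs (n+3) = 2 xs (n+2)
  xs (n+1) - xs n` (prove three consecutive indices together).
* `inv`: `X^2+Y^2+Z^2-2XYZ = 1 + lam^2/4`: induction for the unsigned sequence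
  (`x = xs n, y = xs (n+1), z = xs (n+2)`, next `2 z y - x`), start `(1, E/2, (E-lam)/2)`; the signs
  drop out because their product is one.
* `inv1`, `inv2`: first and second derivative of the invariant, i.e.
  `X X1 + Y Y1 + Z Z1 = X1 Y Z + X Y1 Z + X Y Z1` and
  `X1^2 + X X2 + Y1^2 + Y Y2 + Z1^2 + Z Z2 = X2 Y Z + X Y2 Z + X Y Z2 + 2 (X1 Y1 Z + X1 Y Z1 + X Y1 Z1)`.
  (Either differentiate `inv` or do an induction as for `inv`.)
* `ch_ok`: signs.
(`step` is in Step.lean)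
* for `Step.lean`: with `s = Z1 ≠ 0`, `D = Y - X Z ≠ 0`.  `preR` computes (in its fields) `D = Y - XZ`
  (positive root of `X^2 Z^2 + k1 - (X^2 + Z^2)` by `inv`), `Y`, `Y1/s`, and with the second
  derivatives in the normalisation `f2 = f''/s^2 + nu f'/s`, `nu = -Z2/s^2` (product rule holds:
  `(f g)2 = f2 g + 2 f1 g1 + f g2`, `Z` has the jet `(Z, 1, 0)`, `X` has `(X, sig, tau)`), the jets of
  `W = 2 Z Y - X`, `V = 2 W Z - Y`, `U = 2 V W - Z`, which are `e1 xs (m+3)`, `e2 xs (m+4)`,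
  `e3 xs (m+5)`.  For the child with new `X`-jet `(A, A1, A2)` and new `Z`-jet `(B, B1 = g, B2)`:
  `Z' = s g`, `sig = A1/g`, `tau = (A2 - sig B2)/g^2`, `nu = (nu - B2/g)/g`.

Status: complete (helper26).
-/

namespace Pool.Agent.H20.Fib

open Pool.Agent.H98.Fib (xs Sig)

/-- derivative of `xs` with respect to the energy -/
noncomputable def xs1 (lam E : ℝ) : ℕ → ℝ
  | 0 => 0
  | 1 => 1 / 2
  | 2 => 1 / 2
  | (n + 3) => 2 * (xs1 lam E (n + 2) * xs lam E (n + 1) + xs lam E (n + 2) * xs1 lam E (n + 1))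
      - xs1 lam E n

/-- second derivative -/
noncomputable def xs2 (lam E : ℝ) : ℕ → ℝ
  | 0 => 0
  | 1 => 0
  | 2 => 0
  | (n + 3) => 2 * (xs2 lam E (n + 2) * xs lam E (n + 1)
      + 2 * (xs1 lam E (n + 2) * xs1 lam E (n + 1)) + xs lam E (n + 2) * xs2 lam E (n + 1))
      - xs2 lam E n

theorem jet_d3 (lam E : ℝ) (n : ℕ) :
    HasDerivAt (fun x => xs lam x n) (xs1 lam E n) E ∧
    HasDerivAt (fun x => xs lam x (n + 1)) (xs1 lam E (n + 1)) E ∧
    HasDerivAt (fun x => xs lam x (n + 2)) (xs1 lam E (n + 2)) E := by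
  induction n with
  | zero =>
    refine ⟨hasDerivAt_const E (1 : ℝ), ?_, ?_⟩
    · have h := (hasDerivAt_id E).div_const (2 : ℝ)
      exact h
    · have h := ((hasDerivAt_id E).sub_const lam).div_const (2 : ℝ)
      exact h
  | succ n ih =>
    obtain ⟨h0, h1, h2⟩ := ih
    refine ⟨h1, h2, ?_⟩
    have h3 := ((h2.const_mul (2 : ℝ)).mul h1).sub h0
    have e1 : (fun x => xs lam x (n + 3)) =
        fun x => 2 * xs lam x (n + 2) * xs lam x (n + 1) - xs lam x n := rfl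
    have e2 : xs1 lam E (n + 3) = 2 * xs1 lam E (n + 2) * xs lam E (n + 1) +
        2 * xs lam E (n + 2) * xs1 lam E (n + 1) - xs1 lam E n := by
      have e3 : xs1 lam E (n + 3) = 2 * (xs1 lam E (n + 2) * xs lam E (n + 1)
        + xs lam E (n + 2) * xs1 lam E (n + 1)) - xs1 lam E n := rfl
      rw [e3]
      ring
    change HasDerivAt (fun x => xs lam x (n + 3)) (xs1 lam E (n + 3)) E
    rw [e1, e2]
    exact h3

theorem hasDerivAt_xs (lam E : ℝ) (n : ℕ) :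
    HasDerivAt (fun x => xs lam x n) (xs1 lam E n) E := (jet_d3 lam E n).1

theorem jet_dd3 (lam E : ℝ) (n : ℕ) :
    HasDerivAt (fun x => xs1 lam x n) (xs2 lam E n) E ∧
    HasDerivAt (fun x => xs1 lam x (n + 1)) (xs2 lam E (n + 1)) E ∧
    HasDerivAt (fun x => xs1 lam x (n + 2)) (xs2 lam E (n + 2)) E := by
  induction n with
  | zero =>
    exact ⟨hasDerivAt_const E (0 : ℝ), hasDerivAt_const E (1 / 2 : ℝ),
      hasDerivAt_const E (1 / 2 : ℝ)⟩
  | succ n ih =>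
    obtain ⟨h0, h1, h2⟩ := ih
    refine ⟨h1, h2, ?_⟩
    have a1 := hasDerivAt_xs lam E (n + 1)
    have a2 := hasDerivAt_xs lam E (n + 2)
    have h3 := (((h2.mul a1).add (a2.mul h1)).const_mul (2 : ℝ)).sub h0
    have e1 : (fun x => xs1 lam x (n + 3)) =
        fun x => 2 * (xs1 lam x (n + 2) * xs lam x (n + 1)
        + xs lam x (n + 2) * xs1 lam x (n + 1)) - xs1 lam x n := rfl
    have e2 : xs2 lam E (n + 3) = 2 * ((xs2 lam E (n + 2) * xs lam E (n + 1) +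
        xs1 lam E (n + 2) * xs1 lam E (n + 1)) + (xs1 lam E (n + 2) * xs1 lam E (n + 1) +
        xs lam E (n + 2) * xs2 lam E (n + 1))) - xs2 lam E n := by
      have e3 : xs2 lam E (n + 3) = 2 * (xs2 lam E (n + 2) * xs lam E (n + 1)
        + 2 * (xs1 lam E (n + 2) * xs1 lam E (n + 1)) + xs lam E (n + 2) * xs2 lam E (n + 1))
        - xs2 lam E n := rfl
      rw [e3]
      ring
    change HasDerivAt (fun x => xs1 lam x (n + 3)) (xs2 lam E (n + 3)) E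
    rw [e1, e2]
    exact h3

theorem hasDerivAt_xs1 (lam E : ℝ) (n : ℕ) :
    HasDerivAt (fun x => xs1 lam x n) (xs2 lam E n) E := (jet_dd3 lam E n).1

theorem jet_inv (lam E : ℝ) (n : ℕ) :
    xs lam E n ^ 2 + xs lam E (n + 1) ^ 2 + xs lam E (n + 2) ^ 2
      - 2 * xs lam E n * xs lam E (n + 1) * xs lam E (n + 2) = 1 + lam ^ 2 / 4 := by
  induction n with
  | zero =>
    have e0 : xs lam E 0 = 1 := rfl
    have e1 : xs lam E (0 + 1) = E / 2 := rfl
    have e2 : xs lam E (0 + 2) = (E - lam) / 2 := rfl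
    rw [e0, e1, e2]
    ring
  | succ n ih =>
    have e : xs lam E (n + 1 + 2) = 2 * xs lam E (n + 2) * xs lam E (n + 1) - xs lam E n := rfl
    have e' : xs lam E (n + 1 + 1) = xs lam E (n + 2) := rfl
    rw [e, e']
    linear_combination ih

theorem jet_inv1 (lam E : ℝ) (n : ℕ) :
    xs lam E n * xs1 lam E n + xs lam E (n + 1) * xs1 lam E (n + 1)
      + xs lam E (n + 2) * xs1 lam E (n + 2)
      = xs1 lam E n * xs lam E (n + 1) * xs lam E (n + 2)
        + xs lam E n * xs1 lam E (n + 1) * xs lam E (n + 2)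
        + xs lam E n * xs lam E (n + 1) * xs1 lam E (n + 2) := by
  induction n with
  | zero =>
    have e0 : xs lam E 0 = 1 := rfl
    have e1 : xs lam E (0 + 1) = E / 2 := rfl
    have e2 : xs lam E (0 + 2) = (E - lam) / 2 := rfl
    have f0 : xs1 lam E 0 = 0 := rfl
    have f1 : xs1 lam E (0 + 1) = 1 / 2 := rfl
    have f2 : xs1 lam E (0 + 2) = 1 / 2 := rfl
    rw [e0, e1, e2, f0, f1, f2]
    ring
  | succ n ih =>
    have e : xs lam E (n + 1 + 2) = 2 * xs lam E (n + 2) * xs lam E (n + 1) - xs lam E n := rfl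
    have e' : xs lam E (n + 1 + 1) = xs lam E (n + 2) := rfl
    have f : xs1 lam E (n + 1 + 2) = 2 * (xs1 lam E (n + 2) * xs lam E (n + 1)
        + xs lam E (n + 2) * xs1 lam E (n + 1)) - xs1 lam E n := rfl
    have f' : xs1 lam E (n + 1 + 1) = xs1 lam E (n + 2) := rfl
    rw [e, e', f, f']
    linear_combination ih

theorem jet_inv2 (lam E : ℝ) (n : ℕ) :
    xs1 lam E n ^ 2 + xs lam E n * xs2 lam E n + xs1 lam E (n + 1) ^ 2
      + xs lam E (n + 1) * xs2 lam E (n + 1) + xs1 lam E (n + 2) ^ 2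
      + xs lam E (n + 2) * xs2 lam E (n + 2)
      = xs2 lam E n * xs lam E (n + 1) * xs lam E (n + 2)
        + xs lam E n * xs2 lam E (n + 1) * xs lam E (n + 2)
        + xs lam E n * xs lam E (n + 1) * xs2 lam E (n + 2)
        + 2 * (xs1 lam E n * xs1 lam E (n + 1) * xs lam E (n + 2)
          + xs1 lam E n * xs lam E (n + 1) * xs1 lam E (n + 2)
          + xs lam E n * xs1 lam E (n + 1) * xs1 lam E (n + 2)) := by
  induction n with
  | zero =>
    have e0 : xs lam E 0 = 1 := rfl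
    have e1 : xs lam E (0 + 1) = E / 2 := rfl
    have e2 : xs lam E (0 + 2) = (E - lam) / 2 := rfl
    have f0 : xs1 lam E 0 = 0 := rfl
    have f1 : xs1 lam E (0 + 1) = 1 / 2 := rfl
    have f2 : xs1 lam E (0 + 2) = 1 / 2 := rfl
    have g0 : xs2 lam E 0 = 0 := rfl
    have g1 : xs2 lam E (0 + 1) = 0 := rfl
    have g2 : xs2 lam E (0 + 2) = 0 := rfl
    rw [e0, e1, e2, f0, f1, f2, g0, g1, g2]
    ring
  | succ n ih =>
    have e : xs lam E (n + 1 + 2) = 2 * xs lam E (n + 2) * xs lam E (n + 1) - xs lam E n := rfl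
    have e' : xs lam E (n + 1 + 1) = xs lam E (n + 2) := rfl
    have f : xs1 lam E (n + 1 + 2) = 2 * (xs1 lam E (n + 2) * xs lam E (n + 1)
        + xs lam E (n + 2) * xs1 lam E (n + 1)) - xs1 lam E n := rfl
    have f' : xs1 lam E (n + 1 + 1) = xs1 lam E (n + 2) := rfl
    have g : xs2 lam E (n + 1 + 2) = 2 * (xs2 lam E (n + 2) * xs lam E (n + 1)
        + 2 * (xs1 lam E (n + 2) * xs1 lam E (n + 1)) + xs lam E (n + 2) * xs2 lam E (n + 1))
        - xs2 lam E n := rfl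
    have g' : xs2 lam E (n + 1 + 1) = xs2 lam E (n + 2) := rfl
    rw [e, e', f, f', g, g']
    linear_combination ih

/-- A frame: index and signs. -/
structure Fr where
  m : ℕ
  e1 : ℝ
  e2 : ℝ
  e3 : ℝ

namespace Fr

/-- signs with product one -/
structure ok (f : Fr) : Prop where
  h1 : f.e1 = 1 ∨ f.e1 = -1
  h2 : f.e2 = 1 ∨ f.e2 = -1
  h3 : f.e3 = 1 ∨ f.e3 = -1
  hp : f.e1 * f.e2 * f.e3 = 1

/-- the child frames: `0 = L`, `1 = M`, otherwise `R` -/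
def ch (f : Fr) : ℕ → Fr
  | 0 => ⟨f.m + 2, f.e3, -f.e1, -f.e2⟩
  | 1 => ⟨f.m + 3, f.e1, -f.e2, -f.e3⟩
  | _ => ⟨f.m + 2, f.e3, f.e1, f.e2⟩

variable (f : Fr) (lam E : ℝ)

noncomputable def X : ℝ := f.e1 * xs lam E f.m
noncomputable def Y : ℝ := f.e2 * xs lam E (f.m + 1)
noncomputable def Z : ℝ := f.e3 * xs lam E (f.m + 2)
noncomputable def X1 : ℝ := f.e1 * xs1 lam E f.m
noncomputable def Z1 : ℝ := f.e3 * xs1 lam E (f.m + 2)
noncomputable def X2 : ℝ := f.e1 * xs2 lam E f.m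
noncomputable def Z2 : ℝ := f.e3 * xs2 lam E (f.m + 2)
noncomputable def sig : ℝ := f.X1 lam E / f.Z1 lam E
noncomputable def tau : ℝ :=
  (f.X2 lam E * f.Z1 lam E - f.X1 lam E * f.Z2 lam E) / f.Z1 lam E ^ 3
noncomputable def nu : ℝ := -f.Z2 lam E / f.Z1 lam E ^ 2

end Fr

/-- the real counterpart of `Pre` -/
structure PreR where
  D : ℝ
  Y : ℝ
  Y1 : ℝ
  W : ℝ
  W1 : ℝ
  W2 : ℝ
  V : ℝ
  V1 : ℝ
  V2 : ℝ

/-- the real counterpart of `ImgT` -/
structure ImgR where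
  X : ℝ
  Z : ℝ
  S : ℝ
  T : ℝ
  q : ℝ
  be : ℝ
  Y : ℝ
  g : ℝ

/-- the root `Y - X Z` -/
noncomputable def rootR (k1 Z X : ℝ) : ℝ := Real.sqrt (X * X * (Z * Z) + k1 - (X * X + Z * Z))

noncomputable def yR (k1 Z X : ℝ) : ℝ := X * Z + rootR k1 Z X

noncomputable def y1R (k1 Z X S : ℝ) : ℝ :=
  ((yR k1 Z X * Z - X) * S + (X * yR k1 Z X - Z)) * (rootR k1 Z X)⁻¹

noncomputable def y2R (k1 Z X S T : ℝ) : ℝ :=
  -(((y1R k1 Z X S * y1R k1 Z X S + S * S) + (X * T + 1)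
    - (T * (yR k1 Z X * Z) + 2 * (S * y1R k1 Z X S * Z + (S * yR k1 Z X + X * y1R k1 Z X S))))
    * (rootR k1 Z X)⁻¹)

noncomputable def wR (k1 Z X : ℝ) : ℝ := 2 * (yR k1 Z X * Z) - X
noncomputable def w1R (k1 Z X S : ℝ) : ℝ := 2 * (yR k1 Z X + Z * y1R k1 Z X S) - S
noncomputable def w2R (k1 Z X S T : ℝ) : ℝ :=
  2 * (2 * y1R k1 Z X S + Z * y2R k1 Z X S T) - T
noncomputable def vR (k1 Z X : ℝ) : ℝ := 2 * (wR k1 Z X * Z) - yR k1 Z X
noncomputable def v1R (k1 Z X S : ℝ) : ℝ :=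
  2 * (w1R k1 Z X S * Z + wR k1 Z X) - y1R k1 Z X S
noncomputable def v2R (k1 Z X S T : ℝ) : ℝ :=
  2 * (w2R k1 Z X S T * Z + 2 * w1R k1 Z X S) - y2R k1 Z X S T

noncomputable def preR (k1 Z X S T : ℝ) : PreR :=
  ⟨rootR k1 Z X, yR k1 Z X, y1R k1 Z X S, wR k1 Z X, w1R k1 Z X S, w2R k1 Z X S T,
   vR k1 Z X, v1R k1 Z X S, v2R k1 Z X S T⟩

/-- The image of the point `(X, Z, sig = S, tau = T)` under the letter `i`. -/
noncomputable def imgR (i : ℕ) (k1 Z X S T : ℝ) : ImgR :=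
  match preR k1 Z X S T with
  | ⟨_, _, _, W, W1, W2, V, V1, V2⟩ =>
    match i with
    | 0 => ⟨Z, -V, (-V1)⁻¹, -((-V1)⁻¹ * (-V2 * ((-V1)⁻¹ * (-V1)⁻¹))), (-V1)⁻¹,
        -V2 * ((-V1)⁻¹ * (-V1)⁻¹), -W, -V1⟩
    | 1 =>
      let B1 := 1 - 2 * (V1 * W + V * W1)
      let B2 := -(2 * ((V2 * W + 2 * (V1 * W1)) + V * W2))
      ⟨W, Z - 2 * (V * W), W1 * B1⁻¹, W2 * (B1⁻¹ * B1⁻¹) - W1 * B1⁻¹ * (B2 * (B1⁻¹ * B1⁻¹)),
        B1⁻¹, B2 * (B1⁻¹ * B1⁻¹), -V, B1⟩
    | _ => ⟨Z, V, V1⁻¹, -(V1⁻¹ * (V2 * (V1⁻¹ * V1⁻¹))), V1⁻¹, V2 * (V1⁻¹ * V1⁻¹), W, V1⟩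

namespace Fr

variable {f : Fr} {lam E : ℝ}

theorem jet_neg {e : ℝ} (h : e = 1 ∨ e = -1) : -e = 1 ∨ -e = -1 := by
  rcases h with h | h
  · right
    rw [h]
  · left
    rw [h, neg_neg]

theorem jet_sq {e : ℝ} (h : e = 1 ∨ e = -1) : e ^ 2 = 1 := by
  rcases h with h | h
  · rw [h, one_pow]
  · rw [h]
    norm_num

theorem ch_ok (hf : f.ok) (i : ℕ) : (f.ch i).ok := by
  obtain ⟨h1, h2, h3, hp⟩ := hf
  match i with
  | 0 =>
    refine ⟨h3, jet_neg h1, jet_neg h2, ?_⟩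
    change f.e3 * (-f.e1) * (-f.e2) = 1
    linear_combination hp
  | 1 =>
    refine ⟨h1, jet_neg h2, jet_neg h3, ?_⟩
    change f.e1 * (-f.e2) * (-f.e3) = 1
    linear_combination hp
  | (k + 2) =>
    refine ⟨h3, h1, h2, ?_⟩
    change f.e3 * f.e1 * f.e2 = 1
    linear_combination hp

theorem hasDerivAt_Z (f : Fr) (lam E : ℝ) :
    HasDerivAt (fun x => f.Z lam x) (f.Z1 lam E) E :=
  (hasDerivAt_xs lam E (f.m + 2)).const_mul f.e3

theorem hasDerivAt_Z1 (f : Fr) (lam E : ℝ) :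
    HasDerivAt (fun x => f.Z1 lam x) (f.Z2 lam E) E :=
  (hasDerivAt_xs1 lam E (f.m + 2)).const_mul f.e3

theorem inv (hf : f.ok) :
    f.X lam E ^ 2 + f.Y lam E ^ 2 + f.Z lam E ^ 2 - 2 * f.X lam E * f.Y lam E * f.Z lam E
      = 1 + lam ^ 2 / 4 := by
  have a := jet_inv lam E f.m
  have h1 := jet_sq hf.h1
  have h2 := jet_sq hf.h2
  have h3 := jet_sq hf.h3
  have hp := hf.hp
  unfold X Y Z
  linear_combination a + xs lam E f.m ^ 2 * h1 + xs lam E (f.m + 1) ^ 2 * h2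
    + xs lam E (f.m + 2) ^ 2 * h3
    - 2 * xs lam E f.m * xs lam E (f.m + 1) * xs lam E (f.m + 2) * hp

/-- the positive root -/
theorem rootR_eq (hf : f.ok) (hD : 0 < f.Y lam E - f.X lam E * f.Z lam E) :
    rootR (1 + lam ^ 2 / 4) (f.Z lam E) (f.X lam E) = f.Y lam E - f.X lam E * f.Z lam E ∧
    yR (1 + lam ^ 2 / 4) (f.Z lam E) (f.X lam E) = f.Y lam E := by
  have a := inv (lam := lam) (E := E) hf
  have h1 : rootR (1 + lam ^ 2 / 4) (f.Z lam E) (f.X lam E) =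
      f.Y lam E - f.X lam E * f.Z lam E := by
    rw [rootR]
    have h2 : f.X lam E * f.X lam E * (f.Z lam E * f.Z lam E) + (1 + lam ^ 2 / 4)
        - (f.X lam E * f.X lam E + f.Z lam E * f.Z lam E) =
        (f.Y lam E - f.X lam E * f.Z lam E) ^ 2 := by
      linear_combination -a
    rw [h2]
    exact Real.sqrt_sq hD.le
  refine ⟨h1, ?_⟩
  rw [yR, h1]
  ring

/-- First derivative of the invariant. -/
theorem inv1 (hf : f.ok) :
    f.X lam E * f.X1 lam E + f.Y lam E * (f.e2 * xs1 lam E (f.m + 1)) + f.Z lam E * f.Z1 lam E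
      = f.X1 lam E * f.Y lam E * f.Z lam E + f.X lam E * (f.e2 * xs1 lam E (f.m + 1)) * f.Z lam E
        + f.X lam E * f.Y lam E * f.Z1 lam E := by
  have a := jet_inv1 lam E f.m
  have h1 := jet_sq hf.h1
  have h2 := jet_sq hf.h2
  have h3 := jet_sq hf.h3
  have hp := hf.hp
  unfold X Y Z X1 Z1
  linear_combination a + xs lam E f.m * xs1 lam E f.m * h1
    + xs lam E (f.m + 1) * xs1 lam E (f.m + 1) * h2
    + xs lam E (f.m + 2) * xs1 lam E (f.m + 2) * h3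
    - (xs1 lam E f.m * xs lam E (f.m + 1) * xs lam E (f.m + 2)
        + xs lam E f.m * xs1 lam E (f.m + 1) * xs lam E (f.m + 2)
        + xs lam E f.m * xs lam E (f.m + 1) * xs1 lam E (f.m + 2)) * hp

/-- Second derivative of the invariant. -/
theorem inv2 (hf : f.ok) :
    f.X1 lam E ^ 2 + f.X lam E * f.X2 lam E + (f.e2 * xs1 lam E (f.m + 1)) ^ 2
      + f.Y lam E * (f.e2 * xs2 lam E (f.m + 1)) + f.Z1 lam E ^ 2 + f.Z lam E * f.Z2 lam E
      = f.X2 lam E * f.Y lam E * f.Z lam E + f.X lam E * (f.e2 * xs2 lam E (f.m + 1)) * f.Z lam E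
        + f.X lam E * f.Y lam E * f.Z2 lam E
        + 2 * (f.X1 lam E * (f.e2 * xs1 lam E (f.m + 1)) * f.Z lam E
          + f.X1 lam E * f.Y lam E * f.Z1 lam E
          + f.X lam E * (f.e2 * xs1 lam E (f.m + 1)) * f.Z1 lam E) := by
  have a := jet_inv2 lam E f.m
  have h1 := jet_sq hf.h1
  have h2 := jet_sq hf.h2
  have h3 := jet_sq hf.h3
  have hp := hf.hp
  unfold X Y Z X1 Z1 X2 Z2
  linear_combination a + (xs1 lam E f.m ^ 2 + xs lam E f.m * xs2 lam E f.m) * h1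
    + (xs1 lam E (f.m + 1) ^ 2 + xs lam E (f.m + 1) * xs2 lam E (f.m + 1)) * h2
    + (xs1 lam E (f.m + 2) ^ 2 + xs lam E (f.m + 2) * xs2 lam E (f.m + 2)) * h3
    - (xs2 lam E f.m * xs lam E (f.m + 1) * xs lam E (f.m + 2)
        + xs lam E f.m * xs2 lam E (f.m + 1) * xs lam E (f.m + 2)
        + xs lam E f.m * xs lam E (f.m + 1) * xs2 lam E (f.m + 2)
        + 2 * (xs1 lam E f.m * xs1 lam E (f.m + 1) * xs lam E (f.m + 2)
          + xs1 lam E f.m * xs lam E (f.m + 1) * xs1 lam E (f.m + 2)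
          + xs lam E f.m * xs1 lam E (f.m + 1) * xs1 lam E (f.m + 2))) * hp

end Fr

end Pool.Agent.H20.Fib
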