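import Pool.Agent.H20.Fib.Sys
import Pool.Agent.H98.Fib.Piece

/-!
# Kernel checks of the edges, edge constants and rows (definitions)

All positions are in the canonical variable `Z 2^40` of a class.  The six edges of a class are numbered
`0, ..., 5` in increasing order of `Z`: ends of the hulls of the canonical children `0, 1, 2`.
The edge `j = 2 i + (0 or 1)` of the parent is the edge `0` or `5` of the child `i` (exchanged if the
child is mirrored).
-/

namespace Pool.Agent.H20.Fib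

open TM
open Pool.Agent.H98.Fib (half symT nuM pieceH pieceZ pieceX pieceR pieceOK LSt stepL)

/-- An edge: `Z 2^40 = b0 + b1 u + b2 u^2` up to `r`, in the cell `k`, hint `s` for the root. -/
structure EdgeL where
  b0 : ℤ
  b1 : ℤ
  b2 : ℤ
  r : ℕ
  k : ℕ
  s : ℕ

/-- A quadratic polynomial with an error. -/
structure Q3 where
  a0 : ℤ
  a1 : ℤ
  a2 : ℤ
  r : ℕ

/-- Edges and edge constants of a class. -/
structure EdgD where
  e0 : EdgeL
  e1 : EdgeL
  e2 : EdgeL
  e3 : EdgeL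
  e4 : EdgeL
  e5 : EdgeL
  aL : Q3
  aH : Q3

/-- the edge `j` -/
def EdgD.e (D : EdgD) (j : ℕ) : EdgeL :=
  match j with
  | 0 => D.e0
  | 1 => D.e1
  | 2 => D.e2
  | 3 => D.e3
  | 4 => D.e4
  | _ => D.e5

/-- quadratic polynomial of a model -/
def quadAt (a b g : ℤ) (x : TM) : TM := add (add (const a) (sc b x)) (sc g (mul x x))

/-- the updated parameter `u'` as a model, from a model of `u` -/
def updU (up : Upd) (Ut : TM) : TM := quadAt up.a0 up.a1 up.a2 Ut

/-- lower and upper line of an edge -/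
def EdgeL.lo (e : EdgeL) : LineD := ⟨e.b0 - e.r, e.b1, e.b2, e.k, e.s⟩
def EdgeL.hi (e : EdgeL) : LineD := ⟨e.b0 + e.r, e.b1, e.b2, e.k, e.s⟩

/-- the centre of an edge as a model, `Ut` a model of the parameter -/
def EdgeL.cen (e : EdgeL) (Ut : TM) : TM := quadAt e.b0 e.b1 e.b2 Ut

/-- the edge as a model -/
def EdgeL.tm (e : EdgeL) (Ut : TM) : TM := blow (e.cen Ut) e.r

/-- a constant as a model -/
def Q3.tm (q : Q3) (Ut : TM) : TM := blow (quadAt q.a0 q.a1 q.a2 Ut) q.r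

/-- The edge `e` of the parent is the edge `e'` of the child `i` along the arc `a`. -/
def edgeOne (kap : TM) (i : ℕ) (a : ArcD) (c : Cls) (e e' : EdgeL) : Bool :=
  below a.lo e.lo 0 && below e.hi a.hi 0 &&
  match a.fl with
  | false => zLE kap i false c e.lo (e'.cen (quadU a.up.a0 a.up.a1 a.up.a2)) (-(e'.r : ℤ)) &&
      zGE kap i false c e.hi (e'.cen (quadU a.up.a0 a.up.a1 a.up.a2)) e'.r
  | true => zGE kap i true c e.lo (e'.cen (quadU a.up.a0 a.up.a1 a.up.a2)) e'.r &&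
      zLE kap i true c e.hi (e'.cen (quadU a.up.a0 a.up.a1 a.up.a2)) (-(e'.r : ℤ))

/-- low / high edge of a child in the frame of the parent -/
def EdgD.low (D : EdgD) (fl : Bool) : EdgeL :=
  match fl with
  | false => D.e0
  | true => D.e5

def EdgD.high (D : EdgD) (fl : Bool) : EdgeL :=
  match fl with
  | false => D.e5
  | true => D.e0

/-- All edges of a class; `E i` is the edge data of the class of the child `i`. -/
def edgeCheck (kap : TM) (c : Cls) (D : ClsD) (Ec E0 E1 E2 : EdgD) : Bool :=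
  edgeOne kap 0 D.a0 c Ec.e0 (E0.low D.a0.fl) && edgeOne kap 0 D.a0 c Ec.e1 (E0.high D.a0.fl) &&
  edgeOne kap 1 D.a1 c Ec.e2 (E1.low D.a1.fl) && edgeOne kap 1 D.a1 c Ec.e3 (E1.high D.a1.fl) &&
  edgeOne kap 2 D.a2 c Ec.e4 (E2.low D.a2.fl) && edgeOne kap 2 D.a2 c Ec.e5 (E2.high D.a2.fl)

/-! ### Models at an edge -/

/-- `X` of the tube at `Z` in the cell `k` -/
def xAt (c : Cls) (k : ℕ) (Z Ut : TM) : TM :=
  let x1 := tauOf Z (c.mid k)
  blow (ev6 (c.cell k).fX x1 Ut (mul x1 x1) (mul x1 Ut) (mul Ut Ut)) (c.cell k).rX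

/-- `sig` of the tube at `Z` in the cell `k` -/
def sAt (c : Cls) (k : ℕ) (Z Ut : TM) : TM :=
  let x1 := tauOf Z (c.mid k)
  blow (ev6 (c.cell k).fS x1 Ut (mul x1 x1) (mul x1 Ut) (mul Ut Ut)) (c.cell k).rS

/-- the point with model `Z` is in reach of the cell `k` -/
def inCell (c : Cls) (k : ℕ) (Z : TM) : Bool :=
  Nat.blt k c.len && magLe (tauOf Z (c.mid k)) 1786706395136

/-- the symbols `E0, E1, E2` become a part of the radius -/
def collapse (x : TM) : TM :=
  match x with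
  | ⟨c1, t1, u1, tt1, tu1, uu1, a1, b1, e1, n1, r1⟩ =>
    ⟨c1, t1, u1, tt1, tu1, uu1, 0, 0, 0, n1, Nat.add r1 (Nat.add (Nat.add (ab a1) (ab b1)) (ab e1))⟩

/-- `X` of the tube at `Z` in the cell `k`, the error is the symbol `E0` -/
def xAtS (c : Cls) (k : ℕ) (Z Ut : TM) : TM :=
  let x1 := tauOf Z (c.mid k)
  add (ev6 (c.cell k).fX x1 Ut (mul x1 x1) (mul x1 Ut) (mul Ut Ut)) (sym0 (c.cell k).rX)

/-- `sig` of the tube at `Z` in the cell `k`, the error is the symbol `E1` -/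
def sAtS (c : Cls) (k : ℕ) (Z Ut : TM) : TM :=
  let x1 := tauOf Z (c.mid k)
  add (ev6 (c.cell k).fS x1 Ut (mul x1 x1) (mul x1 Ut) (mul Ut Ut)) (sym1 (c.cell k).rS)

/-- the growth factor `g` of the child `i` at the edge `e`; `Ut` does not contain the symbols
`E0, E1, E2` -/
def gAt (kap : TM) (i : ℕ) (c : Cls) (e : EdgeL) (Ut : TM) : TM :=
  let Z := add (e.cen Ut) (sym2 e.r)
  collapse (image i kap e.s Z (xAtS c e.k Z Ut) (sAtS c e.k Z Ut) (const 0)).g

/-- `mu / g` times a model of the child's constant -/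
def alStep (kap mu : TM) (i : ℕ) (c : Cls) (e : EdgeL) (Ut A : TM) : TM :=
  mul (mul mu (inv (gAt kap i c e Ut))) A

/-- Edge constant at the low edge (child `0`, class `nx0`) from the child's constant. -/
def alLow (kap mu : TM) (c : Cls) (D : ClsD) (Ec E0 : EdgD) : Bool :=
  inCell c Ec.e0.k (Ec.e0.tm symU) &&
  magLe (sub (alStep kap mu 0 c Ec.e0 symU (E0.aL.tm (quadU D.a0.up.a0 D.a0.up.a1 D.a0.up.a2)))
    (quadU Ec.aL.a0 Ec.aL.a1 Ec.aL.a2)) Ec.aL.r

/-- Edge constant at the high edge: the child `2` is mirrored. -/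
def alHigh (kap mu : TM) (c : Cls) (D : ClsD) (Ec E2 : EdgD) : Bool :=
  inCell c Ec.e5.k (Ec.e5.tm symU) &&
  magLe (sub (alStep kap mu 2 c Ec.e5 symU (E2.aL.tm (quadU D.a2.up.a0 D.a2.up.a1 D.a2.up.a2)))
    (quadU Ec.aH.a0 Ec.aH.a1 Ec.aH.a2)) Ec.aH.r

/-- The class which is its own child `0`: `n` steps, then the tail: at the last word `X` and `sig` of
the low edge are close to the fixed point `xst` and to `1/mu = imu`. -/
def fixRun (kap mu xst imu : TM) (c : Cls) (e : EdgeL) (up : Upd) (tX tS t : ℕ) : ℕ → TM → TM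
  | 0, Ut => cond (inCell c e.k (e.tm Ut) && magLe (sub (xAt c e.k (e.tm Ut) Ut) xst) tX &&
      magLe (sub (sAt c e.k (e.tm Ut) Ut) imu) tS && Nat.ble (122 * tX + 16 * tS) (99 * t) &&
      Nat.ble t 1099511627)
      (blow one t) (blow one 1298074214633706907132624082305024)
  | n + 1, Ut => cond (inCell c e.k (e.tm Ut))
      (alStep kap mu 0 c e Ut (fixRun kap mu xst imu c e up tX tS t n (updU up Ut)))
      (blow one 1298074214633706907132624082305024)

def alFix (kap mu xst imu : TM) (c : Cls) (D : ClsD) (Ec : EdgD) (tX tS t n : ℕ) : Bool :=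
  magLe (sub (fixRun kap mu xst imu c Ec.e0 D.a0.up tX tS t n symU)
    (quadU Ec.aL.a0 Ec.aL.a1 Ec.aL.a2)) Ec.aL.r

/-! ### Rows -/

/-- `(c + u U + uu U^2 + h eta) / 2^40` up to `r / 2^40` -/
structure Q5 where
  c : ℤ
  u : ℤ
  uu : ℤ
  h : ℤ
  r : ℕ

/-- the polynomial as a model: `u` is the symbol `U`, `eta` the symbol `E0` -/
def Q5.tm (q : Q5) : TM :=
  ⟨enc q.c, 0, enc q.u, 0, 0, enc q.uu, enc q.h, 0, 0,
    Nat.add (Nat.add q.c.natAbs q.u.natAbs) (Nat.add q.uu.natAbs q.h.natAbs), 0⟩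

def Q5.chk (q : Q5) (x : TM) : Bool := magLe (sub x q.tm) q.r

/-- Instructions of the integration: `node k` = go to the far end of the cell `k`; `stop j k` = record
the edge `j`, integrating in the cell `k`. -/
inductive RI where
  | node (k : ℕ)
  | stop (j k : ℕ)

/-- upward run: `node k` goes to the upper end of the cell `k`; `Ut`, `Et` are models of the
parameters `u`, `eta` of the word -/
def runUp (c : Cls) (Ec : EdgD) (Ut Et : TM) : List RI → LSt → List LSt
  | [], _ => []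
  | RI.node k :: t, s =>
    runUp c Ec Ut Et t (stepL c Ut Et s (k, const (c.p + 34359738368 * ((k : ℤ) + 1))))
  | RI.stop j k :: t, s => stepL c Ut Et s (k, (Ec.e j).tm Ut) :: runUp c Ec Ut Et t s

/-- The row of a class in units of the low edge constant: positions of the edges `1..5`, constants of
the children at their ends. -/
structure RowD where
  p1 : Q5
  p2 : Q5
  p3 : Q5
  p4 : Q5
  p5 : Q5
  a1 : Q5
  a2 : Q5
  b0 : Q5
  b1 : Q5
  b2 : Q5
  bb : Q5

/-- constant of a child at its low / high edge, in the frame of the parent -/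
def EdgD.cL (D : EdgD) (fl : Bool) (Ut : TM) : TM :=
  match fl with
  | false => D.aL.tm Ut
  | true => D.aH.tm Ut

def EdgD.cH (D : EdgD) (fl : Bool) (Ut : TM) : TM :=
  match fl with
  | false => D.aH.tm Ut
  | true => D.aL.tm Ut

/-- constant of the child `i` at the edge `e` of the parent in units of the parent's constant: `R` is
the density at the edge, `C` the child's constant there, `ia` the inverse of the parent's constant -/
def cUnit (kap : TM) (i : ℕ) (c : Cls) (e : EdgeL) (Ut R C ia : TM) : TM :=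
  mul (mul (mul C R) (inv (gAt kap i c e Ut))) ia

/-- the comparison of the row with the results of the run -/
def rowLowCmp (kap imu Ut : TM) (c : Cls) (D : ClsD) (Ec E0 E1 E2 : EdgD) (R : RowD) (ia : TM)
    (U0 U1 U2 : TM) (s1 s2 s3 s4 s5 : LSt) : Bool :=
  s1.ok && s2.ok && s3.ok && s4.ok && s5.ok &&
  inCell c Ec.e1.k (Ec.e1.tm Ut) && inCell c Ec.e2.k (Ec.e2.tm Ut) &&
  inCell c Ec.e3.k (Ec.e3.tm Ut) && inCell c Ec.e4.k (Ec.e4.tm Ut) &&
  R.p1.chk (mul s1.L ia) && R.p2.chk (mul s2.L ia) && R.p3.chk (mul s3.L ia) &&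
  R.p4.chk (mul s4.L ia) && R.p5.chk (mul s5.L ia) &&
  R.b0.chk (cUnit kap 0 c Ec.e1 Ut s1.R (E0.cH D.a0.fl U0) ia) &&
  R.a1.chk (cUnit kap 1 c Ec.e2 Ut s2.R (E1.cL D.a1.fl U1) ia) &&
  R.b1.chk (cUnit kap 1 c Ec.e3 Ut s3.R (E1.cH D.a1.fl U1) ia) &&
  R.a2.chk (cUnit kap 2 c Ec.e4 Ut s4.R (E2.cL D.a2.fl U2) ia) &&
  R.bb.chk (mul (mul (Ec.aH.tm Ut) s5.R) ia) &&
  R.b2.chk (mul imu (mul (mul (Ec.aH.tm Ut) s5.R) ia))

def rowLow1 (kap imu Ut : TM) (c : Cls) (D : ClsD) (Ec E0 E1 E2 : EdgD) (R : RowD) (l : List LSt) :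
    Bool :=
  match l with
  | [s1, s2, s3, s4, s5] => rowLowCmp kap imu Ut c D Ec E0 E1 E2 R (inv (Ec.aL.tm Ut))
      (quadAt D.a0.up.a0 D.a0.up.a1 D.a0.up.a2 Ut) (quadAt D.a1.up.a0 D.a1.up.a1 D.a1.up.a2 Ut)
      (quadAt D.a2.up.a0 D.a2.up.a1 D.a2.up.a2 Ut) s1 s2 s3 s4 s5
  | _ => false

/-- the indices of the stops in a schedule -/
def stops : List RI → List ℕ
  | [] => []
  | RI.node _ :: t => stops t
  | RI.stop j _ :: t => j :: stops t

/-- The check of the row in units of the low edge constant; `Ut`, `Et` are models of the parameters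
`u`, `eta` in the symbols `U` (`x`) and `E0` (`n`). -/
def rowLow (kap imu Ut Et : TM) (c : Cls) (D : ClsD) (Ec E0 E1 E2 : EdgD) (R : RowD) (sch : List RI) :
    Bool :=
  decide (stops sch = [1, 2, 3, 4, 5]) &&
  rowLow1 kap imu Ut c D Ec E0 E1 E2 R (runUp c Ec Ut Et sch (LSt.start (Ec.e0.tm Ut)))

/-! ### Downward run -/

/-- the check of a piece from `A` down to `B` -/
def pieceOKn (c : Cls) (k : ℕ) (A B : TM) : Bool :=
  Nat.blt k c.len && le (pieceH A B) (-1) && magLe (tauOf (pieceZ A B) (c.mid k)) 1786706395136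

/-- One piece downwards: `L` models the (positive) length. -/
def stepLn (c : Cls) (Ut Et : TM) (s : LSt) (p : ℕ × TM) : LSt :=
  let X := pieceX c p.1 s.A p.2 Ut Et
  ⟨p.2, sub s.L (mul s.R (mul (pieceH s.A p.2) (integ X))),
    mul s.R (pieceR c p.1 s.A p.2 Ut Et), s.ok && pieceOKn c p.1 s.A p.2⟩

/-- downward run: `node k` goes to the lower end of the cell `k` -/
def runDn (c : Cls) (Ec : EdgD) (Ut Et : TM) : List RI → LSt → List LSt
  | [], _ => []
  | RI.node k :: t, s =>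
    runDn c Ec Ut Et t (stepLn c Ut Et s (k, const (c.p + 34359738368 * (k : ℤ))))
  | RI.stop j k :: t, s => stepLn c Ut Et s (k, (Ec.e j).tm Ut) :: runDn c Ec Ut Et t s

/-- The row in units of the high edge constant (mirrored: `p1` is the edge 4, ..., `p5` the edge 0). -/
def rowHighCmp (kap imu Ut : TM) (c : Cls) (D : ClsD) (Ec E0 E1 E2 : EdgD) (R : RowD) (ia : TM)
    (U0 U1 U2 : TM) (s4 s3 s2 s1 s0 : LSt) : Bool :=
  s4.ok && s3.ok && s2.ok && s1.ok && s0.ok &&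
  inCell c Ec.e1.k (Ec.e1.tm Ut) && inCell c Ec.e2.k (Ec.e2.tm Ut) &&
  inCell c Ec.e3.k (Ec.e3.tm Ut) && inCell c Ec.e4.k (Ec.e4.tm Ut) &&
  R.p1.chk (mul s4.L ia) && R.p2.chk (mul s3.L ia) && R.p3.chk (mul s2.L ia) &&
  R.p4.chk (mul s1.L ia) && R.p5.chk (mul s0.L ia) &&
  R.b0.chk (cUnit kap 2 c Ec.e4 Ut s4.R (E2.cL D.a2.fl U2) ia) &&
  R.a1.chk (cUnit kap 1 c Ec.e3 Ut s3.R (E1.cH D.a1.fl U1) ia) &&
  R.b1.chk (cUnit kap 1 c Ec.e2 Ut s2.R (E1.cL D.a1.fl U1) ia) &&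
  R.a2.chk (cUnit kap 0 c Ec.e1 Ut s1.R (E0.cH D.a0.fl U0) ia) &&
  R.bb.chk (mul (mul (Ec.aL.tm Ut) s0.R) ia) &&
  R.b2.chk (mul imu (mul (mul (Ec.aL.tm Ut) s0.R) ia))

def rowHigh1 (kap imu Ut : TM) (c : Cls) (D : ClsD) (Ec E0 E1 E2 : EdgD) (R : RowD) (l : List LSt) :
    Bool :=
  match l with
  | [s4, s3, s2, s1, s0] => rowHighCmp kap imu Ut c D Ec E0 E1 E2 R (inv (Ec.aH.tm Ut))
      (quadAt D.a0.up.a0 D.a0.up.a1 D.a0.up.a2 Ut) (quadAt D.a1.up.a0 D.a1.up.a1 D.a1.up.a2 Ut)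
      (quadAt D.a2.up.a0 D.a2.up.a1 D.a2.up.a2 Ut) s4 s3 s2 s1 s0
  | _ => false

/-- The check of the row in units of the high edge constant. -/
def rowHigh (kap imu Ut Et : TM) (c : Cls) (D : ClsD) (Ec E0 E1 E2 : EdgD) (R : RowD) (sch : List RI) :
    Bool :=
  decide (stops sch = [4, 3, 2, 1, 0]) &&
  rowHigh1 kap imu Ut c D Ec E0 E1 E2 R (runDn c Ec Ut Et sch (LSt.start (Ec.e5.tm Ut)))

end Pool.Agent.H20.Fib
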