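import Pool.Agent.H20.Fib.AlphaS
import Pool.Agent.H20.Fib.CtxS

/-!
# Soundness of the rows: the constants of the children (MP_9069b3_mp)

The entries `a1, a2, b0, b1, b2, bb` of `rowLow` and `rowHigh`.

* `rep_cUnit`: the constant of a child in units of the constant of the parent.
* `CstEnv`: what the constants need in addition to `RowEnv`; `rowLow_cst`, `rowHigh_cst`: the entries.
* `edE`: the six edges of a word; `rowEnv_ed`, `cstEnv_ed`: the data of a word of a class table.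
* `rowLow_word`, `rowHigh_word`: all entries of the rows of a word (positions and constants), with
  `RowD.Holds` of CtxS.lean.
-/

namespace Pool.Agent.H20.Fib

open TM
open Pool.Agent.H98.Fib (RepT LSt Tube Sig)
open Pool.Agent.H98.Fib.Tube (rep rep_cons)

/-! ### Constants of the children in the frame of the parent -/

/-- the constant of a child at its low / high end in the frame of the parent -/
def EdgD.qL (D : EdgD) (fl : Bool) : Q3 :=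
  match fl with
  | false => D.aL
  | true => D.aH

def EdgD.qH (D : EdgD) (fl : Bool) : Q3 :=
  match fl with
  | false => D.aH
  | true => D.aL

theorem EdgD.cL_eq (D : EdgD) (fl : Bool) (Ut : TM) : D.cL fl Ut = (D.qL fl).tm Ut := by
  cases fl <;> rfl

theorem EdgD.cH_eq (D : EdgD) (fl : Bool) (Ut : TM) : D.cH fl Ut = (D.qH fl).tm Ut := by
  cases fl <;> rfl

/-- The meaning of a quadratic polynomial with an error. -/
def Q3.Holds (q : Q3) (u v : ℝ) : Prop :=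
  |v * 2 ^ 40 - (q.a0 + q.a1 * u + q.a2 * u ^ 2)| ≤ (q.r : ℝ)

/-- What the constants of a row need in addition: the constants `aL`, `aH` of the parent and the
constants `b0` (child `0`, high end), `a1`, `b1` (child `1`, low and high end), `a2` (child `2`, low
end) of the canonical children, low and high in the frame of the parent. -/
structure CstEnv (lam : ℝ) (D : ClsD) (Ec E0 E1 E2 : EdgD) (u : ℝ) (f : Fr) (e : ℕ → ℝ)
    (aL aH b0 a1 b1 a2 : ℝ) : Prop where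
  hf : f.ok
  pos : ∀ j, j ≤ 5 → 0 < f.Y lam (e j) - f.X lam (e j) * f.Z lam (e j)
  g1 : 0 < grR lam 0 f (e 1)
  g2 : 0 < grR lam 1 f (e 2)
  g3 : 0 < grR lam 1 f (e 3)
  g4 : 0 < grR lam 2 f (e 4)
  low : Ec.aL.Holds u (aL * |f.Z1 lam (e 0)|)
  high : Ec.aH.Holds u (aH * |f.Z1 lam (e 5)|)
  c1 : (E0.qH D.a0.fl).Holds (D.a0.up.uR u) (b0 * |(f.chF 0 D.a0.fl).Z1 lam (e 1)|)
  c2 : (E1.qL D.a1.fl).Holds (D.a1.up.uR u) (a1 * |(f.chF 1 D.a1.fl).Z1 lam (e 2)|)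
  c3 : (E1.qH D.a1.fl).Holds (D.a1.up.uR u) (b1 * |(f.chF 1 D.a1.fl).Z1 lam (e 3)|)
  c4 : (E2.qL D.a2.fl).Holds (D.a2.up.uR u) (a2 * |(f.chF 2 D.a2.fl).Z1 lam (e 4)|)

/-- a constant in units of another one -/
theorem RowK_div {p q A A' : ℝ} (hp : p ≠ 0) (hq : q ≠ 0) :
    A' * |q| * (|p| / |q|) * (A * |p|)⁻¹ = A' / A := by
  have hp' : |p| ≠ 0 := abs_ne_zero.2 hp
  have hq' : |q| ≠ 0 := abs_ne_zero.2 hq
  rw [mul_inv, div_eq_mul_inv, div_eq_mul_inv]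
  field_simp

section models

attribute [local irreducible] TM.Rep TM.mul TM.add TM.sub TM.neg TM.inv TM.sqrt TM.one TM.nsm TM.sc

variable {ρ : Env}

theorem Q3.Holds.rep {q : Q3} {Ut : TM} {u v : ℝ} (h : q.Holds u v) (hU : Rep ρ Ut u) :
    Rep ρ (q.tm Ut) v :=
  rep_q3Tm hU h

/-- The constant of a child in units of the constant of the parent. -/
theorem rep_cUnit {lam : ℝ} {kap : TM} (hk : KapOK lam kap) {c : Cls} {u eta : ℝ} {f : Fr}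
    {x x0 : ℝ} (i : ℕ) {fl : Bool} {e : EdgeL} {Ut R C ia : TM} {A A' : ℝ}
    (hU : ∀ (a b g : ℝ) (ha : |a| ≤ 1) (hb : |b| ≤ 1) (hg : |g| ≤ 1),
      Rep (ρ.setE a b g ha hb hg) Ut u)
    (hf : f.ok) (hT : PT lam c u eta f x) (hD : 0 < f.Y lam x - f.X lam x * f.Z lam x)
    (h1 : f.Z1 lam x ≠ 0) (h0 : f.Z1 lam x0 ≠ 0) (hg : 0 < grR lam i f x)
    (hin : inCell c e.k (e.tm Ut) = true)
    (hz : |f.Z lam x * 2 ^ 40 - ((e.b0 : ℝ) + e.b1 * u + e.b2 * u ^ 2)| ≤ (e.r : ℝ))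
    (hR : Rep ρ R (|f.Z1 lam x0| / |f.Z1 lam x|))
    (hC : Rep ρ C (A' * |(f.chF i fl).Z1 lam x|))
    (hia : Rep ρ ia (A * |f.Z1 lam x0|)⁻¹) :
    Rep ρ (cUnit kap i c e Ut R C ia) (A' / A) := by
  have hgr : Rep ρ (gAt kap i c e Ut) (grR lam i f x) := gAt_rep hk i hU hT hin hz 0
  unfold cUnit
  refine ImgRep_cast (rep_mul (rep_mul (rep_mul hC hR) (rep_inv hgr)) hia) ?_
  rw [Fr.chF_Z1, al_Z1 hf hD h1 i, abs_mul, sgF_abs, one_mul, abs_mul, abs_of_pos hg]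
  have h1' : |f.Z1 lam x| ≠ 0 := abs_ne_zero.2 h1
  have h0' : |f.Z1 lam x0| ≠ 0 := abs_ne_zero.2 h0
  have hg' := hg.ne'
  generalize |f.Z1 lam x| = p at h1' ⊢
  generalize |f.Z1 lam x0| = q at h0' ⊢
  generalize grR lam i f x = g at hg' ⊢
  rw [mul_inv, div_eq_mul_inv, div_eq_mul_inv]
  field_simp


variable {kap imu Ut : TM} {lam : ℝ} {c : Cls} {D : ClsD} {Ec E0 E1 E2 : EdgD} {R : RowD}
  {u eta : ℝ} {f : Fr} {sg a b : ℝ} {e : ℕ → ℝ} {aL aH b0 a1 b1 a2 : ℝ}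

/-- Constants of the row in units of the low constant. -/
theorem rowLowCmp_cst (H : RowEnv lam c Ec u eta f sg a b e)
    (K : CstEnv lam D Ec E0 E1 E2 u f e aL aH b0 a1 b1 a2) (hk : KapOK lam kap)
    (hU : ∀ (a b g : ℝ) (ha : |a| ≤ 1) (hb : |b| ≤ 1) (hg : |g| ≤ 1),
      Rep (ρ.setE a b g ha hb hg) Ut u) {μi : ℝ} (himu : Rep ρ imu μi) {s1 s2 s3 s4 s5 : LSt}
    (hc : rowLowCmp kap imu Ut c D Ec E0 E1 E2 R (inv (Ec.aL.tm Ut))
      (quadAt D.a0.up.a0 D.a0.up.a1 D.a0.up.a2 Ut) (quadAt D.a1.up.a0 D.a1.up.a1 D.a1.up.a2 Ut)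
      (quadAt D.a2.up.a0 D.a2.up.a1 D.a2.up.a2 Ut) s1 s2 s3 s4 s5 = true)
    (r1 : Rep ρ s1.R (|f.Z1 lam (e 0)| / |f.Z1 lam (e 1)|))
    (r2 : Rep ρ s2.R (|f.Z1 lam (e 0)| / |f.Z1 lam (e 2)|))
    (r3 : Rep ρ s3.R (|f.Z1 lam (e 0)| / |f.Z1 lam (e 3)|))
    (r4 : Rep ρ s4.R (|f.Z1 lam (e 0)| / |f.Z1 lam (e 4)|))
    (r5 : Rep ρ s5.R (|f.Z1 lam (e 0)| / |f.Z1 lam (e 5)|)) :
    R.b0.Holds ρ.u ρ.e0 (b0 / aL) ∧ R.a1.Holds ρ.u ρ.e0 (a1 / aL) ∧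
    R.b1.Holds ρ.u ρ.e0 (b1 / aL) ∧ R.a2.Holds ρ.u ρ.e0 (a2 / aL) ∧
    R.bb.Holds ρ.u ρ.e0 (aH / aL) ∧ R.b2.Holds ρ.u ρ.e0 (μi * (aH / aL)) := by
  have hU0 : Rep ρ Ut u := hU ρ.e0 ρ.e1 ρ.e2 ρ.h0 ρ.h1 ρ.h2
  have m0 := H.mem 0 (by norm_num)
  have m1 := H.mem 1 (by norm_num)
  have m2 := H.mem 2 (by norm_num)
  have m3 := H.mem 3 (by norm_num)
  have m4 := H.mem 4 (by norm_num)
  have m5 := H.mem 5 (by norm_num)
  have n0 := H.ne m0.1 m0.2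
  have hia : Rep ρ (inv (Ec.aL.tm Ut)) (aL * |f.Z1 lam (e 0)|)⁻¹ :=
    rep_inv (K.low.rep hU0)
  unfold rowLowCmp at hc
  simp only [Bool.and_eq_true] at hc
  obtain ⟨⟨⟨⟨⟨⟨⟨⟨⟨⟨⟨⟨⟨⟨⟨-, i1⟩, i2⟩, i3⟩, i4⟩, -⟩, -⟩, -⟩, -⟩, -⟩, q1⟩, q2⟩, q3⟩, q4⟩, q5⟩, q6⟩ := hc
  rw [EdgD.cH_eq] at q1 q3
  rw [EdgD.cL_eq] at q2 q4
  have k1 := rep_cUnit hk 0 hU K.hf (H.pt _ m1.1 m1.2) (K.pos 1 (by norm_num)) (H.ne m1.1 m1.2) n0
    K.g1 i1 (H.edge 1 (by norm_num)) r1 (K.c1.rep (rep_updU _ hU0)) hia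
  have k2 := rep_cUnit hk 1 hU K.hf (H.pt _ m2.1 m2.2) (K.pos 2 (by norm_num)) (H.ne m2.1 m2.2) n0
    K.g2 i2 (H.edge 2 (by norm_num)) r2 (K.c2.rep (rep_updU _ hU0)) hia
  have k3 := rep_cUnit hk 1 hU K.hf (H.pt _ m3.1 m3.2) (K.pos 3 (by norm_num)) (H.ne m3.1 m3.2) n0
    K.g3 i3 (H.edge 3 (by norm_num)) r3 (K.c3.rep (rep_updU _ hU0)) hia
  have k4 := rep_cUnit hk 2 hU K.hf (H.pt _ m4.1 m4.2) (K.pos 4 (by norm_num)) (H.ne m4.1 m4.2) n0
    K.g4 i4 (H.edge 4 (by norm_num)) r4 (K.c4.rep (rep_updU _ hU0)) hia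
  have k5 : Rep ρ (mul (mul (Ec.aH.tm Ut) s5.R) (inv (Ec.aL.tm Ut))) (aH / aL) := by
    refine ImgRep_cast (rep_mul (rep_mul (K.high.rep hU0) r5) hia) ?_
    exact RowK_div n0 (H.ne m5.1 m5.2)
  exact ⟨Q5.chk_sound k1 q1, Q5.chk_sound k2 q2, Q5.chk_sound k3 q3, Q5.chk_sound k4 q4,
    Q5.chk_sound k5 q5, Q5.chk_sound (rep_mul himu k5) q6⟩

/-- Constants of the row in units of the high constant. -/
theorem rowHighCmp_cst (H : RowEnv lam c Ec u eta f sg a b e)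
    (K : CstEnv lam D Ec E0 E1 E2 u f e aL aH b0 a1 b1 a2) (hk : KapOK lam kap)
    (hU : ∀ (a b g : ℝ) (ha : |a| ≤ 1) (hb : |b| ≤ 1) (hg : |g| ≤ 1),
      Rep (ρ.setE a b g ha hb hg) Ut u) {μi : ℝ} (himu : Rep ρ imu μi) {s4 s3 s2 s1 s0 : LSt}
    (hc : rowHighCmp kap imu Ut c D Ec E0 E1 E2 R (inv (Ec.aH.tm Ut))
      (quadAt D.a0.up.a0 D.a0.up.a1 D.a0.up.a2 Ut) (quadAt D.a1.up.a0 D.a1.up.a1 D.a1.up.a2 Ut)
      (quadAt D.a2.up.a0 D.a2.up.a1 D.a2.up.a2 Ut) s4 s3 s2 s1 s0 = true)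
    (r4 : Rep ρ s4.R (|f.Z1 lam (e 5)| / |f.Z1 lam (e 4)|))
    (r3 : Rep ρ s3.R (|f.Z1 lam (e 5)| / |f.Z1 lam (e 3)|))
    (r2 : Rep ρ s2.R (|f.Z1 lam (e 5)| / |f.Z1 lam (e 2)|))
    (r1 : Rep ρ s1.R (|f.Z1 lam (e 5)| / |f.Z1 lam (e 1)|))
    (r0 : Rep ρ s0.R (|f.Z1 lam (e 5)| / |f.Z1 lam (e 0)|)) :
    R.b0.Holds ρ.u ρ.e0 (a2 / aH) ∧ R.a1.Holds ρ.u ρ.e0 (b1 / aH) ∧
    R.b1.Holds ρ.u ρ.e0 (a1 / aH) ∧ R.a2.Holds ρ.u ρ.e0 (b0 / aH) ∧
    R.bb.Holds ρ.u ρ.e0 (aL / aH) ∧ R.b2.Holds ρ.u ρ.e0 (μi * (aL / aH)) := by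
  have hU0 : Rep ρ Ut u := hU ρ.e0 ρ.e1 ρ.e2 ρ.h0 ρ.h1 ρ.h2
  have m0 := H.mem 0 (by norm_num)
  have m1 := H.mem 1 (by norm_num)
  have m2 := H.mem 2 (by norm_num)
  have m3 := H.mem 3 (by norm_num)
  have m4 := H.mem 4 (by norm_num)
  have m5 := H.mem 5 (by norm_num)
  have n5 := H.ne m5.1 m5.2
  have hia : Rep ρ (inv (Ec.aH.tm Ut)) (aH * |f.Z1 lam (e 5)|)⁻¹ :=
    rep_inv (K.high.rep hU0)
  unfold rowHighCmp at hc
  simp only [Bool.and_eq_true] at hc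
  obtain ⟨⟨⟨⟨⟨⟨⟨⟨⟨⟨⟨⟨⟨⟨⟨-, i1⟩, i2⟩, i3⟩, i4⟩, -⟩, -⟩, -⟩, -⟩, -⟩, q1⟩, q2⟩, q3⟩, q4⟩, q5⟩, q6⟩ := hc
  rw [EdgD.cL_eq] at q1 q3
  rw [EdgD.cH_eq] at q2 q4
  have k1 := rep_cUnit hk 0 hU K.hf (H.pt _ m1.1 m1.2) (K.pos 1 (by norm_num)) (H.ne m1.1 m1.2) n5
    K.g1 i1 (H.edge 1 (by norm_num)) r1 (K.c1.rep (rep_updU _ hU0)) hia
  have k2 := rep_cUnit hk 1 hU K.hf (H.pt _ m2.1 m2.2) (K.pos 2 (by norm_num)) (H.ne m2.1 m2.2) n5
    K.g2 i2 (H.edge 2 (by norm_num)) r2 (K.c2.rep (rep_updU _ hU0)) hia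
  have k3 := rep_cUnit hk 1 hU K.hf (H.pt _ m3.1 m3.2) (K.pos 3 (by norm_num)) (H.ne m3.1 m3.2) n5
    K.g3 i3 (H.edge 3 (by norm_num)) r3 (K.c3.rep (rep_updU _ hU0)) hia
  have k4 := rep_cUnit hk 2 hU K.hf (H.pt _ m4.1 m4.2) (K.pos 4 (by norm_num)) (H.ne m4.1 m4.2) n5
    K.g4 i4 (H.edge 4 (by norm_num)) r4 (K.c4.rep (rep_updU _ hU0)) hia
  have k5 : Rep ρ (mul (mul (Ec.aL.tm Ut) s0.R) (inv (Ec.aH.tm Ut))) (aL / aH) := by
    refine ImgRep_cast (rep_mul (rep_mul (K.low.rep hU0) r0) hia) ?_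
    exact RowK_div n5 (H.ne m0.1 m0.2)
  exact ⟨Q5.chk_sound k4 q1, Q5.chk_sound k3 q2, Q5.chk_sound k2 q3, Q5.chk_sound k1 q4,
    Q5.chk_sound k5 q5, Q5.chk_sound (rep_mul himu k5) q6⟩

/-- **Constants of a row in units of the low constant.** -/
theorem rowLow_cst (H : RowEnv lam c Ec u eta f sg a b e)
    (K : CstEnv lam D Ec E0 E1 E2 u f e aL aH b0 a1 b1 a2) (hk : KapOK lam kap) {Et : TM}
    (hU : ∀ (a b g : ℝ) (ha : |a| ≤ 1) (hb : |b| ≤ 1) (hg : |g| ≤ 1),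
      Rep (ρ.setE a b g ha hb hg) Ut u) (hUT : RepT ρ Ut u) (hE : RepT ρ Et eta) {μi : ℝ}
    (himu : Rep ρ imu μi) {sch : List RI}
    (h : rowLow kap imu Ut Et c D Ec E0 E1 E2 R sch = true) :
    R.b0.Holds ρ.u ρ.e0 (b0 / aL) ∧ R.a1.Holds ρ.u ρ.e0 (a1 / aL) ∧
    R.b1.Holds ρ.u ρ.e0 (b1 / aL) ∧ R.a2.Holds ρ.u ρ.e0 (a2 / aL) ∧
    R.bb.Holds ρ.u ρ.e0 (aH / aL) ∧ R.b2.Holds ρ.u ρ.e0 (μi * (aH / aL)) := by
  obtain ⟨s1, s2, s3, s4, s5, hc, k1, k2, k3, k4, k5⟩ := rowLow_run H hUT hE h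
  exact rowLowCmp_cst H K hk hU himu hc k1.R.rep k2.R.rep k3.R.rep k4.R.rep k5.R.rep

/-- **Constants of a row in units of the high constant.** -/
theorem rowHigh_cst (H : RowEnv lam c Ec u eta f sg a b e)
    (K : CstEnv lam D Ec E0 E1 E2 u f e aL aH b0 a1 b1 a2) (hk : KapOK lam kap) {Et : TM}
    (hU : ∀ (a b g : ℝ) (ha : |a| ≤ 1) (hb : |b| ≤ 1) (hg : |g| ≤ 1),
      Rep (ρ.setE a b g ha hb hg) Ut u) (hUT : RepT ρ Ut u) (hE : RepT ρ Et eta) {μi : ℝ}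
    (himu : Rep ρ imu μi) {sch : List RI}
    (h : rowHigh kap imu Ut Et c D Ec E0 E1 E2 R sch = true) :
    R.b0.Holds ρ.u ρ.e0 (a2 / aH) ∧ R.a1.Holds ρ.u ρ.e0 (b1 / aH) ∧
    R.b1.Holds ρ.u ρ.e0 (a1 / aH) ∧ R.a2.Holds ρ.u ρ.e0 (b0 / aH) ∧
    R.bb.Holds ρ.u ρ.e0 (aL / aH) ∧ R.b2.Holds ρ.u ρ.e0 (μi * (aL / aH)) := by
  obtain ⟨s4, s3, s2, s1, s0, hc, k4, k3, k2, k1, k0⟩ := rowHigh_run H hUT hE h
  exact rowHighCmp_cst H K hk hU himu hc k4.R.rep k3.R.rep k2.R.rep k1.R.rep k0.R.rep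

end models

/-! ### The words of a class table -/

/-- the six edges of a word in the canonical order (`o` the orientation) -/
noncomputable def edE {lam : ℝ} (S : Tube lam) (o : Bool) (w : List (Fin 3)) (j : ℕ) : ℝ :=
  match j with
  | 0 => sel o (S.hl w) (S.hr w)
  | 1 => sel o (S.hr (jL o :: w)) (S.hl (jL o :: w))
  | 2 => sel o (S.hl (1 :: w)) (S.hr (1 :: w))
  | 3 => sel o (S.hr (1 :: w)) (S.hl (1 :: w))
  | 4 => sel o (S.hl (jH o :: w)) (S.hr (jH o :: w))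
  | _ => sel o (S.hr w) (S.hl w)

section tube

variable {lam : ℝ} (S : Tube lam)

theorem RowK_hl_mem (w : List (Fin 3)) : S.l w ≤ S.hl w ∧ S.hl w ≤ S.r w :=
  ⟨S.l_le_hl w, S.hl_le_r w⟩

theorem RowK_hr_mem (w : List (Fin 3)) : S.l w ≤ S.hr w ∧ S.hr w ≤ S.r w :=
  ⟨S.l_le_hr w, S.hr_le_r w⟩

theorem RowK_up {w : List (Fin 3)} (j : Fin 3) {x : ℝ} (h : S.l (j :: w) ≤ x ∧ x ≤ S.r (j :: w)) :
    S.l w ≤ x ∧ x ≤ S.r w :=
  ⟨(S.l_lt w j).le.trans h.1, h.2.trans (S.r_lt w j).le⟩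

/-- the edges of the children -/
theorem edE_child (o : Bool) (w : List (Fin 3)) :
    (S.l (jL o :: w) ≤ edE S o w 1 ∧ edE S o w 1 ≤ S.r (jL o :: w)) ∧
    (S.l (1 :: w) ≤ edE S o w 2 ∧ edE S o w 2 ≤ S.r (1 :: w)) ∧
    (S.l (1 :: w) ≤ edE S o w 3 ∧ edE S o w 3 ≤ S.r (1 :: w)) ∧
    (S.l (jH o :: w) ≤ edE S o w 4 ∧ edE S o w 4 ≤ S.r (jH o :: w)) := by
  cases o with
  | false => exact ⟨RowK_hr_mem S _, RowK_hl_mem S _, RowK_hr_mem S _, RowK_hl_mem S _⟩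
  | true => exact ⟨RowK_hl_mem S _, RowK_hr_mem S _, RowK_hl_mem S _, RowK_hr_mem S _⟩

/-- the edges are in the block -/
theorem edE_mem (o : Bool) (w : List (Fin 3)) {j : ℕ} (hj : j ≤ 5) :
    S.l w ≤ edE S o w j ∧ edE S o w j ≤ S.r w := by
  obtain ⟨h1, h2, h3, h4⟩ := edE_child S o w
  have h0 : S.l w ≤ edE S o w 0 ∧ edE S o w 0 ≤ S.r w := by
    cases o with
    | false => exact RowK_hl_mem S _
    | true => exact RowK_hr_mem S _
  have h5 : S.l w ≤ edE S o w 5 ∧ edE S o w 5 ≤ S.r w := by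
    cases o with
    | false => exact RowK_hr_mem S _
    | true => exact RowK_hl_mem S _
  interval_cases j
  · exact h0
  · exact RowK_up S _ h1
  · exact RowK_up S _ h2
  · exact RowK_up S _ h3
  · exact RowK_up S _ h4
  · exact h5

end tube

section words

variable {lam : ℝ} {kap : TM} (hk : KapOK lam kap) {N : ℕ} {cls : ℕ → Cls} {dat : ℕ → ClsD}
  (hT : TabOK kap N cls dat) {s0 : WSt} {l r : ℝ} (hR : RootOK lam N cls s0 l r)
  {edg : ℕ → EdgD}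

/-- The bounds of all edges of all words. -/
def EdOK (lam : ℝ) (S : Tube lam) (dat : ℕ → ClsD) (s0 : WSt) (edg : ℕ → EdgD) : Prop :=
  ∀ w j, j ≤ 5 → |(wst dat s0 w).f.Z lam (edE S (wst dat s0 w).o w j) * 2 ^ 40 -
    (((edg (wst dat s0 w).ci).e j).b0 + ((edg (wst dat s0 w).ci).e j).b1 * (wst dat s0 w).u +
      ((edg (wst dat s0 w).ci).e j).b2 * (wst dat s0 w).u ^ 2)| ≤
      (((edg (wst dat s0 w).ci).e j).r : ℝ)

theorem EdOK.low {S : Tube lam} (h : EdOK lam S dat s0 edg) : EdB lam S dat s0 edg :=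
  fun w => h w 0 (by norm_num)

theorem EdOK.high {S : Tube lam} (h : EdOK lam S dat s0 edg) : EdH lam S dat s0 edg :=
  fun w => h w 5 (by norm_num)

/-- The edge constants `A` (left), `B` (right) of all words. -/
structure CstOK (lam : ℝ) (S : Tube lam) (dat : ℕ → ClsD) (s0 : WSt) (edg : ℕ → EdgD)
    (μ : ℝ) (A B : List (Fin 3) → ℝ) : Prop where
  A_pos : ∀ w, 0 < A w
  B_pos : ∀ w, 0 < B w
  A_zero : ∀ w, A (0 :: w) = A w / μ
  B_two : ∀ w, B (2 :: w) = B w / μ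
  low : ∀ w, |sel (wst dat s0 w).o (A w) (B w) * S.dZ w (loE S dat s0 w) * 2 ^ 40 -
    ((edg (wst dat s0 w).ci).aL.a0 + (edg (wst dat s0 w).ci).aL.a1 * (wst dat s0 w).u +
      (edg (wst dat s0 w).ci).aL.a2 * (wst dat s0 w).u ^ 2)| ≤
      ((edg (wst dat s0 w).ci).aL.r : ℝ)
  high : ∀ w, |sel (wst dat s0 w).o (B w) (A w) * S.dZ w (hiE S dat s0 w) * 2 ^ 40 -
    ((edg (wst dat s0 w).ci).aH.a0 + (edg (wst dat s0 w).ci).aH.a1 * (wst dat s0 w).u +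
      (edg (wst dat s0 w).ci).aH.a2 * (wst dat s0 w).u ^ 2)| ≤
      ((edg (wst dat s0 w).ci).aH.r : ℝ)

/-- `RowEnv` of a word. -/
theorem rowEnv_ed (hE : EdOK lam (mkTube hk hT hR) dat s0 edg) (w : List (Fin 3)) :
    RowEnv lam (cls (wst dat s0 w).ci) (edg (wst dat s0 w).ci) (wst dat s0 w).u
      (wst dat s0 w).eta (wst dat s0 w).f (sgF (wst dat s0 w).o) ((mkTube hk hT hR).l w)
      ((mkTube hk hT hR).r w) (edE (mkTube hk hT hR) (wst dat s0 w).o w) :=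
  rowEnv_word hk hT hR w (fun _ hj => edE_mem _ _ w hj) (hE w)

/-- The growth factor is positive. -/
theorem grR_pos (w : List (Fin 3)) (j : Fin 3) {x : ℝ} (h1 : (mkTube hk hT hR).P w x)
    (h2 : (mkTube hk hT hR).P (j :: w) x) :
    0 < grR lam (WSt.cl (wst dat s0 w).o j) (wst dat s0 w).f x := by
  have hd : (mkTube hk hT hR).dZ (j :: w) x = (mkTube hk hT hR).dZ w x *
      grR lam (WSt.cl (wst dat s0 w).o j) (wst dat s0 w).f x :=
    al_dZ (wst_good hT hR.good w) j h1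
  have p1 := (mkTube hk hT hR).hpos _ _ h1
  have p2 := (mkTube hk hT hR).hpos _ _ h2
  rw [hd] at p2
  exact (pos_iff_pos_of_mul_pos p2).1 p1

theorem sel_not {α : Type} (o : Bool) (a b : α) : sel (!o) a b = sel o b a := by
  cases o <;> rfl

variable {μ : ℝ} {A B : List (Fin 3) → ℝ}

/-- The constant at the low end of a child (in the frame of the parent). -/
theorem child_low (hC : CstOK lam (mkTube hk hT hR) dat s0 edg μ A B) (w : List (Fin 3))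
    (j : Fin 3) {i : ℕ} (hi : WSt.cl (wst dat s0 w).o j = i) :
    ((edg ((dat (wst dat s0 w).ci).arc i).nx).qL ((dat (wst dat s0 w).ci).arc i).fl).Holds
      (((dat (wst dat s0 w).ci).arc i).up.uR (wst dat s0 w).u)
      (sel (wst dat s0 w).o (A (j :: w)) (B (j :: w)) *
        |((wst dat s0 w).f.chF i ((dat (wst dat s0 w).ci).arc i).fl).Z1 lam
          (sel (wst dat s0 w).o ((mkTube hk hT hR).hl (j :: w)) ((mkTube hk hT hR).hr (j :: w)))|)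
      := by
  subst hi
  have hL := hC.low (j :: w)
  have hH := hC.high (j :: w)
  rw [dZ_abs hk hT hR _ (loE_P hk hT hR _)] at hL
  rw [dZ_abs hk hT hR _ (hiE_P hk hT hR _)] at hH
  unfold loE at hL
  unfold hiE at hH
  have ho : (wst dat s0 (j :: w)).o = ((wst dat s0 w).o ^^
    ((dat (wst dat s0 w).ci).arc (WSt.cl (wst dat s0 w).o j)).fl) := rfl
  rw [ho] at hL hH
  change |_ * |((wst dat s0 w).f.chF (WSt.cl (wst dat s0 w).o j)
    ((dat (wst dat s0 w).ci).arc (WSt.cl (wst dat s0 w).o j)).fl).Z1 lam _| * 2 ^ 40 - _| ≤ _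
    at hL
  change |_ * |((wst dat s0 w).f.chF (WSt.cl (wst dat s0 w).o j)
    ((dat (wst dat s0 w).ci).arc (WSt.cl (wst dat s0 w).o j)).fl).Z1 lam _| * 2 ^ 40 - _| ≤ _
    at hH
  generalize ((dat (wst dat s0 w).ci).arc (WSt.cl (wst dat s0 w).o j)).fl = fl at hL hH ⊢
  cases fl with
  | false =>
    rw [Bool.xor_false] at hL
    exact hL
  | true =>
    rw [Bool.xor_true, sel_not, sel_not] at hH
    exact hH

/-- The constant at the high end of a child (in the frame of the parent). -/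
theorem child_high (hC : CstOK lam (mkTube hk hT hR) dat s0 edg μ A B) (w : List (Fin 3))
    (j : Fin 3) {i : ℕ} (hi : WSt.cl (wst dat s0 w).o j = i) :
    ((edg ((dat (wst dat s0 w).ci).arc i).nx).qH ((dat (wst dat s0 w).ci).arc i).fl).Holds
      (((dat (wst dat s0 w).ci).arc i).up.uR (wst dat s0 w).u)
      (sel (wst dat s0 w).o (B (j :: w)) (A (j :: w)) *
        |((wst dat s0 w).f.chF i ((dat (wst dat s0 w).ci).arc i).fl).Z1 lam
          (sel (wst dat s0 w).o ((mkTube hk hT hR).hr (j :: w)) ((mkTube hk hT hR).hl (j :: w)))|)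
      := by
  subst hi
  have hL := hC.low (j :: w)
  have hH := hC.high (j :: w)
  rw [dZ_abs hk hT hR _ (loE_P hk hT hR _)] at hL
  rw [dZ_abs hk hT hR _ (hiE_P hk hT hR _)] at hH
  unfold loE at hL
  unfold hiE at hH
  have ho : (wst dat s0 (j :: w)).o = ((wst dat s0 w).o ^^
    ((dat (wst dat s0 w).ci).arc (WSt.cl (wst dat s0 w).o j)).fl) := rfl
  rw [ho] at hL hH
  change |_ * |((wst dat s0 w).f.chF (WSt.cl (wst dat s0 w).o j)
    ((dat (wst dat s0 w).ci).arc (WSt.cl (wst dat s0 w).o j)).fl).Z1 lam _| * 2 ^ 40 - _| ≤ _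
    at hL
  change |_ * |((wst dat s0 w).f.chF (WSt.cl (wst dat s0 w).o j)
    ((dat (wst dat s0 w).ci).arc (WSt.cl (wst dat s0 w).o j)).fl).Z1 lam _| * 2 ^ 40 - _| ≤ _
    at hH
  generalize ((dat (wst dat s0 w).ci).arc (WSt.cl (wst dat s0 w).o j)).fl = fl at hL hH ⊢
  cases fl with
  | false =>
    rw [Bool.xor_false] at hH
    exact hH
  | true =>
    rw [Bool.xor_true, sel_not, sel_not] at hL
    exact hL

theorem cl_one (o : Bool) : WSt.cl o 1 = 1 := by cases o <;> rfl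

/-- `CstEnv` of a word. -/
theorem cstEnv_ed (hC : CstOK lam (mkTube hk hT hR) dat s0 edg μ A B) (w : List (Fin 3)) :
    CstEnv lam (dat (wst dat s0 w).ci) (edg (wst dat s0 w).ci)
      (edg (dat (wst dat s0 w).ci).a0.nx) (edg (dat (wst dat s0 w).ci).a1.nx)
      (edg (dat (wst dat s0 w).ci).a2.nx) (wst dat s0 w).u (wst dat s0 w).f
      (edE (mkTube hk hT hR) (wst dat s0 w).o w)
      (sel (wst dat s0 w).o (A w) (B w)) (sel (wst dat s0 w).o (B w) (A w))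
      (sel (wst dat s0 w).o (B (jL (wst dat s0 w).o :: w)) (A (jL (wst dat s0 w).o :: w)))
      (sel (wst dat s0 w).o (A (1 :: w)) (B (1 :: w)))
      (sel (wst dat s0 w).o (B (1 :: w)) (A (1 :: w)))
      (sel (wst dat s0 w).o (A (jH (wst dat s0 w).o :: w)) (B (jH (wst dat s0 w).o :: w))) := by
  have hP : ∀ j, j ≤ 5 → (mkTube hk hT hR).P w (edE (mkTube hk hT hR) (wst dat s0 w).o w j) := by
    intro j hj
    obtain ⟨h1, h2⟩ := edE_mem (mkTube hk hT hR) (wst dat s0 w).o w hj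
    exact (mkTube hk hT hR).P_of_mem w h1 h2
  obtain ⟨m1, m2, m3, m4⟩ := edE_child (mkTube hk hT hR) (wst dat s0 w).o w
  refine ⟨(wst_good hT hR.good w).f, fun j hj => ?_, ?_, ?_, ?_, ?_, ?_, ?_, ?_, ?_, ?_, ?_⟩
  · have h : (wst dat s0 w).Pt lam cls (edE (mkTube hk hT hR) (wst dat s0 w).o w j) := hP j hj
    exact h.pos
  · have := grR_pos hk hT hR w (jL (wst dat s0 w).o) (hP 1 (by norm_num))
      ((mkTube hk hT hR).P_of_mem _ m1.1 m1.2)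
    rwa [cl_jL] at this
  · have := grR_pos hk hT hR w 1 (hP 2 (by norm_num))
      ((mkTube hk hT hR).P_of_mem _ m2.1 m2.2)
    rwa [cl_one] at this
  · have := grR_pos hk hT hR w 1 (hP 3 (by norm_num))
      ((mkTube hk hT hR).P_of_mem _ m3.1 m3.2)
    rwa [cl_one] at this
  · have := grR_pos hk hT hR w (jH (wst dat s0 w).o) (hP 4 (by norm_num))
      ((mkTube hk hT hR).P_of_mem _ m4.1 m4.2)
    rwa [cl_jH] at this
  · have h := hC.low w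
    rw [dZ_abs hk hT hR _ (loE_P hk hT hR _)] at h
    exact h
  · have h := hC.high w
    rw [dZ_abs hk hT hR _ (hiE_P hk hT hR _)] at h
    exact h
  · exact child_high hk hT hR hC w (jL (wst dat s0 w).o) (i := 0) (cl_jL _)
  · exact child_low hk hT hR hC w 1 (i := 1) (cl_one _)
  · exact child_high hk hT hR hC w 1 (i := 1) (cl_one _)
  · exact child_low hk hT hR hC w (jH (wst dat s0 w).o) (i := 2) (cl_jH _)

/-- **All entries of the low row of a word** (orientation `o`, edges `e j = edE S o w j`, low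
constant `c = sel o (A w) (B w)`). -/
theorem rowLow_word (hE : EdOK lam (mkTube hk hT hR) dat s0 edg)
    (hC : CstOK lam (mkTube hk hT hR) dat s0 edg μ A B) (w : List (Fin 3)) {ρ : Env}
    {imu Ut Et : TM} (himu : Rep ρ imu μ⁻¹)
    (hU : ∀ (a b g : ℝ) (ha : |a| ≤ 1) (hb : |b| ≤ 1) (hg : |g| ≤ 1),
      Rep (ρ.setE a b g ha hb hg) Ut (wst dat s0 w).u) (hUT : RepT ρ Ut (wst dat s0 w).u)
    (hEt : RepT ρ Et (wst dat s0 w).eta) {R : RowD} {sch : List RI}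
    (h : rowLow kap imu Ut Et (cls (wst dat s0 w).ci) (dat (wst dat s0 w).ci)
      (edg (wst dat s0 w).ci) (edg (dat (wst dat s0 w).ci).a0.nx)
      (edg (dat (wst dat s0 w).ci).a1.nx) (edg (dat (wst dat s0 w).ci).a2.nx) R sch = true)
    {o : Bool} (ho : (wst dat s0 w).o = o) :
    R.Holds ρ.u ρ.e0
      (sgF o * (edE (mkTube hk hT hR) o w 1 - edE (mkTube hk hT hR) o w 0) / sel o (A w) (B w))
      (sgF o * (edE (mkTube hk hT hR) o w 2 - edE (mkTube hk hT hR) o w 0) / sel o (A w) (B w))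
      (sgF o * (edE (mkTube hk hT hR) o w 3 - edE (mkTube hk hT hR) o w 0) / sel o (A w) (B w))
      (sgF o * (edE (mkTube hk hT hR) o w 4 - edE (mkTube hk hT hR) o w 0) / sel o (A w) (B w))
      (sgF o * (edE (mkTube hk hT hR) o w 5 - edE (mkTube hk hT hR) o w 0) / sel o (A w) (B w))
      (sel o (A (1 :: w)) (B (1 :: w)) / sel o (A w) (B w))
      (sel o (A (jH o :: w)) (B (jH o :: w)) / sel o (A w) (B w))
      (sel o (B (jL o :: w)) (A (jL o :: w)) / sel o (A w) (B w))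
      (sel o (B (1 :: w)) (A (1 :: w)) / sel o (A w) (B w))
      (sel o (B (jH o :: w)) (A (jH o :: w)) / sel o (A w) (B w))
      (sel o (B w) (A w) / sel o (A w) (B w)) := by
  subst ho
  have H := rowEnv_ed hk hT hR hE w
  have K := cstEnv_ed hk hT hR hC w
  obtain ⟨q1, q2, q3, q4, q5⟩ := rowLow_pos H hUT hEt h K.low
  obtain ⟨k1, k2, k3, k4, k5, k6⟩ := rowLow_cst H K hk hU hUT hEt himu h
  have e6 : μ⁻¹ * (sel (wst dat s0 w).o (B w) (A w) / sel (wst dat s0 w).o (A w) (B w)) =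
      sel (wst dat s0 w).o (B (jH (wst dat s0 w).o :: w)) (A (jH (wst dat s0 w).o :: w)) /
        sel (wst dat s0 w).o (A w) (B w) := by
    rw [← mul_div_assoc]
    congr 1
    cases (wst dat s0 w).o with
    | false =>
      show μ⁻¹ * B w = B (2 :: w)
      rw [hC.B_two, div_eq_inv_mul]
    | true =>
      show μ⁻¹ * A w = A (0 :: w)
      rw [hC.A_zero, div_eq_inv_mul]
  rw [e6] at k6
  exact ⟨q1, q2, q3, q4, q5, k2, k4, k1, k3, k6, k5⟩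

/-- **All entries of the high row of a word** (units of the high constant `sel o (B w) (A w)`). -/
theorem rowHigh_word (hE : EdOK lam (mkTube hk hT hR) dat s0 edg)
    (hC : CstOK lam (mkTube hk hT hR) dat s0 edg μ A B) (w : List (Fin 3)) {ρ : Env}
    {imu Ut Et : TM} (himu : Rep ρ imu μ⁻¹)
    (hU : ∀ (a b g : ℝ) (ha : |a| ≤ 1) (hb : |b| ≤ 1) (hg : |g| ≤ 1),
      Rep (ρ.setE a b g ha hb hg) Ut (wst dat s0 w).u) (hUT : RepT ρ Ut (wst dat s0 w).u)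
    (hEt : RepT ρ Et (wst dat s0 w).eta) {R : RowD} {sch : List RI}
    (h : rowHigh kap imu Ut Et (cls (wst dat s0 w).ci) (dat (wst dat s0 w).ci)
      (edg (wst dat s0 w).ci) (edg (dat (wst dat s0 w).ci).a0.nx)
      (edg (dat (wst dat s0 w).ci).a1.nx) (edg (dat (wst dat s0 w).ci).a2.nx) R sch = true)
    {o : Bool} (ho : (wst dat s0 w).o = o) :
    R.Holds ρ.u ρ.e0
      (sgF o * (edE (mkTube hk hT hR) o w 5 - edE (mkTube hk hT hR) o w 4) / sel o (B w) (A w))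
      (sgF o * (edE (mkTube hk hT hR) o w 5 - edE (mkTube hk hT hR) o w 3) / sel o (B w) (A w))
      (sgF o * (edE (mkTube hk hT hR) o w 5 - edE (mkTube hk hT hR) o w 2) / sel o (B w) (A w))
      (sgF o * (edE (mkTube hk hT hR) o w 5 - edE (mkTube hk hT hR) o w 1) / sel o (B w) (A w))
      (sgF o * (edE (mkTube hk hT hR) o w 5 - edE (mkTube hk hT hR) o w 0) / sel o (B w) (A w))
      (sel o (B (1 :: w)) (A (1 :: w)) / sel o (B w) (A w))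
      (sel o (B (jL o :: w)) (A (jL o :: w)) / sel o (B w) (A w))
      (sel o (A (jH o :: w)) (B (jH o :: w)) / sel o (B w) (A w))
      (sel o (A (1 :: w)) (B (1 :: w)) / sel o (B w) (A w))
      (sel o (A (jL o :: w)) (B (jL o :: w)) / sel o (B w) (A w))
      (sel o (A w) (B w) / sel o (B w) (A w)) := by
  subst ho
  have H := rowEnv_ed hk hT hR hE w
  have K := cstEnv_ed hk hT hR hC w
  obtain ⟨q1, q2, q3, q4, q5⟩ := rowHigh_pos H hUT hEt h K.high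
  obtain ⟨k1, k2, k3, k4, k5, k6⟩ := rowHigh_cst H K hk hU hUT hEt himu h
  have e6 : μ⁻¹ * (sel (wst dat s0 w).o (A w) (B w) / sel (wst dat s0 w).o (B w) (A w)) =
      sel (wst dat s0 w).o (A (jL (wst dat s0 w).o :: w)) (B (jL (wst dat s0 w).o :: w)) /
        sel (wst dat s0 w).o (B w) (A w) := by
    rw [← mul_div_assoc]
    congr 1
    cases (wst dat s0 w).o with
    | false =>
      show μ⁻¹ * A w = A (0 :: w)
      rw [hC.A_zero, div_eq_inv_mul]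
    | true =>
      show μ⁻¹ * B w = B (2 :: w)
      rw [hC.B_two, div_eq_inv_mul]
  rw [e6] at k6
  exact ⟨q1, q2, q3, q4, q5, k2, k4, k1, k3, k6, k5⟩

end words

end Pool.Agent.H20.Fib
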