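import Pool.Agent.H20.Fib.CtxS
import Pool.Agent.H20.Fib.RowK

/-!
# The family of contexts of the words: final theorem of part (B)

`fam_of`: a table of contexts with all its checks, the edge constants `A, B` and the bounds of the
edges give the structure `Fam` of Interface.lean.
-/

namespace Pool.Agent.H20.Fib

open TM
open Pool.Agent.H98.Fib (xs Sig FixPt Tube Aff CtxRow Fam HTree RepT)
open Pool.Agent.H98.Fib.HTree (mirL mirror mirL_mirL)

/-! ### From the canonical rows to the rows of the tree and of its mirror image -/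

section trees

variable {x n m : ℝ} {T : HTree} {A B : List (Fin 3) → ℝ} {w : List (Fin 3)}

theorem fam_map (w : List (Fin 3)) : (w.map mirL).map mirL = w := by
  rw [List.map_map]
  have : (mirL ∘ mirL) = id := funext mirL_mirL
  rw [this, List.map_id]

theorem fam_cast {R : RowD} {p1 p2 p3 p4 p5 a1 a2 b0 b1 b2 bb p1' p2' p3' p4' p5' a1' a2' b0' b1'
    b2' bb' : ℝ} (h : R.Holds x n p1 p2 p3 p4 p5 a1 a2 b0 b1 b2 bb) (h1 : p1 = p1')
    (h2 : p2 = p2') (h3 : p3 = p3') (h4 : p4 = p4') (h5 : p5 = p5') (h6 : a1 = a1')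
    (h7 : a2 = a2') (h8 : b0 = b0') (h9 : b1 = b1') (h10 : b2 = b2') (h11 : bb = bb') :
    R.Holds x n p1' p2' p3' p4' p5' a1' a2' b0' b1' b2' bb' := by
  subst h1 h2 h3 h4 h5 h6 h7 h8 h9 h10 h11
  exact h

/-- The quantities of the mirror image of the tree. -/
theorem fam_mirror {R : RowD} (h : R.Holds x n ((T.hr w - T.hl (2 :: w)) / B w)
    ((T.hr w - T.hr (1 :: w)) / B w) ((T.hr w - T.hl (1 :: w)) / B w)
    ((T.hr w - T.hr (0 :: w)) / B w) ((T.hr w - T.hl w) / B w) (B (1 :: w) / B w)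
    (B (0 :: w) / B w) (A (2 :: w) / B w) (A (1 :: w) / B w) (A (0 :: w) / B w) (A w / B w))
    {T' : HTree} (hT' : T' = T.mirror) {A' B' : List (Fin 3) → ℝ}
    (hA' : A' = fun v => B (v.map mirL)) (hB' : B' = fun v => A (v.map mirL))
    {w' : List (Fin 3)} (hw' : w' = w.map mirL) :
    R.Holds x n ((T'.hr (0 :: w') - T'.hl w') / A' w') ((T'.hl (1 :: w') - T'.hl w') / A' w')
      ((T'.hr (1 :: w') - T'.hl w') / A' w') ((T'.hl (2 :: w') - T'.hl w') / A' w')
      (T'.len w' / A' w') (A' (1 :: w') / A' w') (A' (2 :: w') / A' w') (B' (0 :: w') / A' w')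
      (B' (1 :: w') / A' w') (B' (2 :: w') / A' w') (B' w' / A' w') := by
  subst hT' hA' hB' hw'
  have e := fam_map w
  have c0 : (0 :: w.map mirL).map mirL = 2 :: w := by rw [List.map_cons, e]; rfl
  have c1 : (1 :: w.map mirL).map mirL = 1 :: w := by rw [List.map_cons, e]; rfl
  have c2 : (2 :: w.map mirL).map mirL = 0 :: w := by rw [List.map_cons, e]; rfl
  have n1 : ∀ a b : ℝ, -a - -b = b - a := fun a b => by ring
  refine fam_cast h ?_ ?_ ?_ ?_ ?_ ?_ ?_ ?_ ?_ ?_ ?_
  · show _ = (-T.hl ((0 :: w.map mirL).map mirL) - -T.hr ((w.map mirL).map mirL)) /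
      B ((w.map mirL).map mirL)
    rw [e, c0, n1]
  · show _ = (-T.hr ((1 :: w.map mirL).map mirL) - -T.hr ((w.map mirL).map mirL)) /
      B ((w.map mirL).map mirL)
    rw [e, c1, n1]
  · show _ = (-T.hl ((1 :: w.map mirL).map mirL) - -T.hr ((w.map mirL).map mirL)) /
      B ((w.map mirL).map mirL)
    rw [e, c1, n1]
  · show _ = (-T.hr ((2 :: w.map mirL).map mirL) - -T.hr ((w.map mirL).map mirL)) /
      B ((w.map mirL).map mirL)
    rw [e, c2, n1]
  · show _ = (-T.hl ((w.map mirL).map mirL) - -T.hr ((w.map mirL).map mirL)) /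
      B ((w.map mirL).map mirL)
    rw [e, n1]
  · show _ = B ((1 :: w.map mirL).map mirL) / B ((w.map mirL).map mirL)
    rw [e, c1]
  · show _ = B ((2 :: w.map mirL).map mirL) / B ((w.map mirL).map mirL)
    rw [e, c2]
  · show _ = A ((0 :: w.map mirL).map mirL) / B ((w.map mirL).map mirL)
    rw [e, c0]
  · show _ = A ((1 :: w.map mirL).map mirL) / B ((w.map mirL).map mirL)
    rw [e, c1]
  · show _ = A ((2 :: w.map mirL).map mirL) / B ((w.map mirL).map mirL)
    rw [e, c2]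
  · show _ = A ((w.map mirL).map mirL) / B ((w.map mirL).map mirL)
    rw [e]

end trees

/-! ### The rows of the words -/

section fam

variable {lam : ℝ} {kap : TM} {N : ℕ} {cls : ℕ → Cls} {dat : ℕ → ClsD}

/-- number of the context of a word -/
noncomputable def kapW (X : ℕ → CtxD) (dat : ℕ → ClsD) (s0 : WSt) : List (Fin 3) → ℕ
  | [] => 0
  | i :: w => (X (kapW X dat s0 w)).n (WSt.cl (wst dat s0 w).o i)

/-- context of a word in the table -/
noncomputable def ctxW (X : ℕ → CtxD) (dat : ℕ → ClsD) (s0 : WSt) (w : List (Fin 3)) : ℕ :=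
  ori (kapW X dat s0 w) (wst dat s0 w).o

/-- The data of a context are correct for the word. -/
structure KOK (X : ℕ → CtxD) (dat : ℕ → ClsD) (s0 : WSt) (M : ℕ) (w : List (Fin 3)) : Prop where
  lt : kapW X dat s0 w < M
  ci : (X (kapW X dat s0 w)).ci = (wst dat s0 w).ci
  box : ∃ x n, (X (kapW X dat s0 w)).box.In (wst dat s0 w).u (wst dat s0 w).eta x n

theorem kOK {imu : TM} {X : ℕ → CtxD} {tab : ℕ → CtxRow} {M : ℕ} {s0 : WSt}
    (hX : ∀ k, k < M → ctxOK imu X dat tab N M k = true) (hM : 0 < M)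
    (h0 : (X 0).ci = s0.ci) (hb : ∃ x n, (X 0).box.In s0.u s0.eta x n) (w : List (Fin 3)) :
    KOK X dat s0 M w := by
  induction w with
  | nil => exact ⟨hM, h0, hb⟩
  | cons i w ih =>
    obtain ⟨h1, h2, x, n, h3⟩ := ih
    have hk := hX _ h1
    unfold ctxOK at hk
    simp only [Bool.and_eq_true, Nat.blt_eq] at hk
    obtain ⟨⟨⟨⟨⟨⟨⟨⟨⟨-, g0⟩, g1⟩, g2⟩, hs⟩, -⟩, -⟩, -⟩, -⟩, -⟩ := hk
    unfold ctxStep at hs
    rw [h2] at hs
    simp only [Bool.and_eq_true, decide_eq_true_eq] at hs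
    obtain ⟨⟨⟨⟨⟨c0, b0⟩, c1⟩, b1⟩, c2⟩, b2⟩ := hs
    have hc := WSt.cl_lt (wst dat s0 w).o i
    obtain ⟨c, hcd⟩ : ∃ c, c = WSt.cl (wst dat s0 w).o i := ⟨_, rfl⟩
    have e1 : kapW X dat s0 (i :: w) = (X (kapW X dat s0 w)).n c := by rw [hcd]; rfl
    have e2 : (wst dat s0 (i :: w)).ci = ((dat (wst dat s0 w).ci).arc c).nx := by rw [hcd]; rfl
    have e3 : (wst dat s0 (i :: w)).u =
      ((dat (wst dat s0 w).ci).arc c).up.uR (wst dat s0 w).u := by rw [hcd]; rfl
    have e4 : (wst dat s0 (i :: w)).eta =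
      ((dat (wst dat s0 w).ci).arc c).up.etaR (wst dat s0 w).u (wst dat s0 w).eta := by
      rw [hcd]; rfl
    rw [← hcd] at hc
    have hc3 : c = 0 ∨ c = 1 ∨ c = 2 := by omega
    constructor
    · rw [e1]
      rcases hc3 with rfl | rfl | rfl
      · exact g0
      · exact g1
      · exact g2
    · rw [e1, e2]
      rcases hc3 with rfl | rfl | rfl
      · exact c0
      · exact c1
      · exact c2
    · rw [e1, e3, e4]
      rcases hc3 with rfl | rfl | rfl
      · exact boxStep_sound b0 h3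
      · exact boxStep_sound b1 h3
      · exact boxStep_sound b2 h3

variable (hk : KapOK lam kap) (hT : TabOK kap N cls dat) {s0 : WSt} {l r : ℝ}
  (hR : RootOK lam N cls s0 l r) {edg : ℕ → EdgD} {μ : ℝ} {A B : List (Fin 3) → ℝ}

/-- The rows of a word: both views. -/
theorem fam_rows (hE : EdOK lam (mkTube hk hT hR) dat s0 edg)
    (hC : CstOK lam (mkTube hk hT hR) dat s0 edg μ A B) {imu : TM}
    (himu : ∀ ρ : Env, Rep ρ imu μ⁻¹) (hm : |μ⁻¹ * 2 ^ 40 - (imu.c : ℝ)| ≤ (imu.r : ℝ))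
    {X : ℕ → CtxD} {tab : ℕ → CtxRow} {M : ℕ} {schU schD : ℕ → List RI}
    (hX : ∀ k, k < M → ctxOK imu X dat tab N M k = true)
    (hlow : ∀ k, k < M → ctxLow kap imu cls dat edg schU (X k) = true)
    (hhigh : ∀ k, k < M → ctxHigh kap imu cls dat edg schD (X k) = true)
    {w : List (Fin 3)} (hw : KOK X dat s0 M w) {x n : ℝ}
    (hb : (X (kapW X dat s0 w)).box.In (wst dat s0 w).u (wst dat s0 w).eta x n) {o : Bool}
    (ho : (wst dat s0 w).o = o) :
    (tab (ori (kapW X dat s0 w) o)).Holds (mkTube hk hT hR).tree A B w (sel o x (-x))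
      (sel o n (-n)) ∧
    (tab (ori (kapW X dat s0 w) (!o))).Holds (mkTube hk hT hR).tree.mirror
      (fun v => B (v.map mirL)) (fun v => A (v.map mirL)) (w.map mirL)
      (sel o (-x) x) (sel o (-n) n) := by
  obtain ⟨h1, h2, -⟩ := hw
  have hk1 := hX _ h1
  have hk2 := hlow _ h1
  have hk3 := hhigh _ h1
  unfold ctxOK at hk1
  simp only [Bool.and_eq_true] at hk1
  obtain ⟨⟨⟨⟨⟨⟨⟨⟨⟨-, -⟩, -⟩, -⟩, -⟩, hP⟩, hN⟩, -⟩, -⟩, -⟩ := hk1
  obtain ⟨ρ, hρu, hρn⟩ := hb.env
  unfold ctxLow at hk2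
  unfold ctxHigh at hk3
  rw [h2] at hk2 hk3
  have q1 := rowLow_word hk hT hR hE hC w (himu ρ) (hb.repUE hρu) (hb.repU hρu)
    (hb.repE hρu hρn) hk2 ho
  have q2 := rowHigh_word hk hT hR hE hC w (himu ρ) (hb.repUE hρu) (hb.repU hρu)
    (hb.repE hρu hρn) hk3 ho
  rw [hρu, hρn] at q1 q2
  have hA0 := (hC.A_pos w).ne'
  have hB0 := (hC.B_pos w).ne'
  have mA : |A (0 :: w) / A w * 2 ^ 40 - (imu.c : ℝ)| ≤ (imu.r : ℝ) := by
    rw [hC.A_zero, div_right_comm, div_self hA0, one_div]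
    exact hm
  have mB : |(fun v : List (Fin 3) => B (v.map mirL)) (0 :: w.map mirL) /
      (fun v : List (Fin 3) => B (v.map mirL)) (w.map mirL) * 2 ^ 40 - (imu.c : ℝ)| ≤
        (imu.r : ℝ) := by
    have c0 : (0 :: w.map mirL).map mirL = 2 :: w := by rw [List.map_cons, fam_map]; rfl
    show |B ((0 :: w.map mirL).map mirL) / B ((w.map mirL).map mirL) * 2 ^ 40 - _| ≤ _
    rw [c0, fam_map, hC.B_two, div_right_comm, div_self hB0, one_div]
    exact hm
  cases o with
  | false =>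
    constructor
    · refine rowP_sound hP hb.hx hb.hn mA (fam_cast q1 ?_ ?_ ?_ ?_ ?_ rfl rfl rfl rfl rfl rfl)
      · show 1 * _ / A w = _
        rw [one_mul]
        rfl
      · show 1 * _ / A w = _
        rw [one_mul]
        rfl
      · show 1 * _ / A w = _
        rw [one_mul]
        rfl
      · show 1 * _ / A w = _
        rw [one_mul]
        rfl
      · show 1 * _ / A w = _
        rw [one_mul]
        rfl
    · refine rowN_sound hN hb.hx hb.hn mB (fam_mirror (T := (mkTube hk hT hR).tree) (A := A)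
        (B := B) (w := w) (fam_cast q2 ?_ ?_ ?_ ?_ ?_ rfl rfl rfl rfl rfl rfl) rfl rfl rfl rfl)
      · show 1 * _ / B w = _
        rw [one_mul]
        rfl
      · show 1 * _ / B w = _
        rw [one_mul]
        rfl
      · show 1 * _ / B w = _
        rw [one_mul]
        rfl
      · show 1 * _ / B w = _
        rw [one_mul]
        rfl
      · show 1 * _ / B w = _
        rw [one_mul]
        rfl
  | true =>
    have n1 : ∀ a b c : ℝ, -1 * (a - b) / c = (b - a) / c := fun a b c => by ring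
    constructor
    · refine rowN_sound hN hb.hx hb.hn mA (fam_cast q2 ?_ ?_ ?_ ?_ ?_ rfl rfl rfl rfl rfl rfl)
      · exact n1 _ _ _
      · exact n1 _ _ _
      · exact n1 _ _ _
      · exact n1 _ _ _
      · exact n1 _ _ _
    · refine rowP_sound hP hb.hx hb.hn mB (fam_mirror (T := (mkTube hk hT hR).tree) (A := A)
        (B := B) (w := w) (fam_cast q1 ?_ ?_ ?_ ?_ ?_ rfl rfl rfl rfl rfl rfl) rfl rfl rfl rfl)
      · exact n1 _ _ _
      · exact n1 _ _ _
      · exact n1 _ _ _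
      · exact n1 _ _ _
      · exact n1 _ _ _

theorem ori_false (k : ℕ) : ori k false = 2 * k := rfl

theorem ori_true (k : ℕ) : ori k true = 2 * k + 1 := rfl

/-- The links of the table. -/
theorem fam_link {imu : TM} {X : ℕ → CtxD} {tab : ℕ → CtxRow} {M : ℕ}
    (hX : ∀ k, k < M → ctxOK imu X dat tab N M k = true) {w : List (Fin 3)}
    (hw : KOK X dat s0 M w) :
    (∀ i, ctxW X dat s0 (i :: w) = (tab (ctxW X dat s0 w)).nx i) ∧
    (tab (ctxW X dat s0 w)).mir = ori (kapW X dat s0 w) (!(wst dat s0 w).o) := by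
  obtain ⟨h1, h2, -⟩ := hw
  have hk1 := hX _ h1
  unfold ctxOK at hk1
  simp only [Bool.and_eq_true] at hk1
  obtain ⟨-, hl⟩ := hk1
  unfold linkOK at hl
  rw [h2] at hl
  simp only [Bool.and_eq_true, decide_eq_true_eq] at hl
  obtain ⟨⟨⟨⟨⟨⟨⟨c0, c1⟩, c2⟩, c3⟩, d0⟩, d1⟩, d2⟩, d3⟩ := hl
  have key : ∀ i, ctxW X dat s0 (i :: w) = ori ((X (kapW X dat s0 w)).n
      (WSt.cl (wst dat s0 w).o i)) ((wst dat s0 w).o ^^
        ((dat (wst dat s0 w).ci).arc (WSt.cl (wst dat s0 w).o i)).fl) := fun i => rfl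
  unfold ctxW at key ⊢
  rcases ho : (wst dat s0 w).o with _ | _
  · refine ⟨fun i => ?_, ?_⟩
    · have k1 := key i
      rw [ho] at k1
      rw [k1, Bool.false_xor, ori_false]
      match i with
      | 0 => exact c0.symm
      | 1 => exact c1.symm
      | 2 => exact c2.symm
    · exact c3
  · refine ⟨fun i => ?_, ?_⟩
    · have k1 := key i
      rw [ho] at k1
      rw [k1, Bool.true_xor, ori_true]
      match i with
      | 0 => exact d0.symm
      | 1 => exact d1.symm
      | 2 => exact d2.symm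
    · exact d3

/-- **The family of the words.** -/
theorem fam_of (hE : EdOK lam (mkTube hk hT hR) dat s0 edg) {x0 y0 : ℝ}
    (F : FixPt lam x0 y0 μ) (hC : CstOK lam (mkTube hk hT hR) dat s0 edg μ A B) {imu : TM}
    (himu : ∀ ρ : Env, Rep ρ imu μ⁻¹) (hm : |μ⁻¹ * 2 ^ 40 - (imu.c : ℝ)| ≤ (imu.r : ℝ))
    {X : ℕ → CtxD} {tab : ℕ → CtxRow} {M : ℕ} {schU schD : ℕ → List RI} (hM : 0 < M)
    (hX : ∀ k, k < M → ctxOK imu X dat tab N M k = true)
    (hlow : ∀ k, k < M → ctxLow kap imu cls dat edg schU (X k) = true)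
    (hhigh : ∀ k, k < M → ctxHigh kap imu cls dat edg schD (X k) = true)
    (h0 : (X 0).ci = s0.ci) (hb : ∃ x n, (X 0).box.In s0.u s0.eta x n) :
    ∃ x n : List (Fin 3) → ℝ, Fam tab (ori 0 s0.o) (mkTube hk hT hR).tree A B μ
      (ctxW X dat s0) x n := by
  have hK := fun w => kOK hX hM h0 hb w
  choose x n hxn using fun w => (hK w).box
  have hμ : 0 < μ := by linarith [F.hμ1]
  have rows := fun w => fam_rows hk hT hR hE hC himu hm hX hlow hhigh (hK w) (hxn w) rfl
  have habs : ∀ (o : Bool) (a : ℝ), |a| ≤ 1 → |sel o a (-a)| ≤ 1 := by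
    intro o a ha
    cases o with
    | false => exact ha
    | true =>
      show |-a| ≤ 1
      rw [abs_neg]
      exact ha
  have hneg : ∀ (o : Bool) (a : ℝ), -(sel o a (-a)) = sel o (-a) a := by
    intro o a
    cases o with
    | false => rfl
    | true => exact neg_neg a
  refine ⟨fun w => sel (wst dat s0 w).o (x w) (-(x w)),
    fun w => sel (wst dat s0 w).o (n w) (-(n w)), ?_⟩
  constructor
  · linarith [F.hμ1]
  · exact hC.A_pos
  · exact hC.B_pos
  · intro w
    rw [hC.A_zero]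
    field_simp
  · intro w
    rw [hC.B_two]
    field_simp
  · exact fun w => habs _ _ (hxn w).hx
  · exact fun w => habs _ _ (hxn w).hn
  · rfl
  · exact fun w => (fam_link hX (hK w)).1
  · intro w i
    have hk1 := hX _ (hK w).lt
    unfold ctxOK at hk1
    simp only [Bool.and_eq_true] at hk1
    obtain ⟨⟨⟨-, hh1⟩, hh2⟩, -⟩ := hk1
    have hh : halfOK (tab (ctxW X dat s0 w)) = true := by
      unfold ctxW
      cases (wst dat s0 w).o with
      | false => exact hh1
      | true => exact hh2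
    exact halfOK_sound hh (hC.A_pos w) (habs _ _ (hxn w).hx) (habs _ _ (hxn w).hn) (rows w).1 i
  · exact fun w => (rows w).1
  · intro w
    rw [(fam_link hX (hK w)).2, hneg, hneg]
    exact (rows w).2

end fam

end Pool.Agent.H20.Fib
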