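import Pool.Agent.H20.Fib.EdgeC
import Pool.Agent.H20.Fib.CellS

/-!
# The growth factor at an edge (soundness of `gAt`)
-/

namespace Pool.Agent.H20.Fib

open TM

/-- other values of the symbols `E0, E1, E2` -/
def Env.setE (ρ : Env) (a b g : ℝ) (ha : |a| ≤ 1) (hb : |b| ≤ 1) (hg : |g| ≤ 1) : Env :=
  ⟨ρ.t, ρ.u, a, b, g, ρ.ht, ρ.hu, ha, hb, hg⟩

theorem rep_collapse {ρ : Env} {x : TM} {v a b g : ℝ} {ha : |a| ≤ 1} {hb : |b| ≤ 1}
    {hg : |g| ≤ 1} (h : Rep (ρ.setE a b g ha hb hg) x v) : Rep ρ (collapse x) v := by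
  obtain ⟨c1, t1, u1, tt1, tu1, uu1, a1, b1, e1, n1, r1⟩ := x
  intro hn hr
  simp only [collapse, Nat.add_eq] at hn hr
  obtain ⟨h1, h2, h3⟩ := h hn (by simp only; omega)
  obtain ⟨q1, q2, q3, q4, q5, q6, q7, q8, q9⟩ := h1
  simp only at q1 q2 q3 q4 q5 q6 q7 q8 q9
  have z0 : dec 0 = 0 := by decide
  have k7 := ab_eq q7
  have k8 := ab_eq q8
  have k9 := ab_eq q9
  have zz : (0 : ℕ) < 2 ^ 112 := by norm_num
  refine ⟨⟨q1, q2, q3, q4, q5, q6, zz, zz, zz⟩, ?_, ?_⟩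
  · simp only [nrm, collapse, z0, abs_zero] at h2 ⊢
    have := abs_nonneg (dec a1)
    have := abs_nonneg (dec b1)
    have := abs_nonneg (dec e1)
    linarith
  · simp only [val, collapse, z0, Nat.add_eq, Env.setE] at h3 ⊢
    have m7 : |(dec a1 : ℝ) * a| ≤ ((ab a1 : ℕ) : ℝ) := by
      rw [abs_mul]
      have : ((ab a1 : ℕ) : ℝ) = |(dec a1 : ℝ)| := by
        have := congrArg (fun z : ℤ => (z : ℝ)) k7
        simp only [Int.cast_natCast, Int.cast_abs] at this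
        exact this
      rw [this]
      exact mul_le_of_le_one_right (abs_nonneg _) ha
    have m8 : |(dec b1 : ℝ) * b| ≤ ((ab b1 : ℕ) : ℝ) := by
      rw [abs_mul]
      have : ((ab b1 : ℕ) : ℝ) = |(dec b1 : ℝ)| := by
        have := congrArg (fun z : ℤ => (z : ℝ)) k8
        simp only [Int.cast_natCast, Int.cast_abs] at this
        exact this
      rw [this]
      exact mul_le_of_le_one_right (abs_nonneg _) hb
    have m9 : |(dec e1 : ℝ) * g| ≤ ((ab e1 : ℕ) : ℝ) := by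
      rw [abs_mul]
      have : ((ab e1 : ℕ) : ℝ) = |(dec e1 : ℝ)| := by
        have := congrArg (fun z : ℤ => (z : ℝ)) k9
        simp only [Int.cast_natCast, Int.cast_abs] at this
        exact this
      rw [this]
      exact mul_le_of_le_one_right (abs_nonneg _) hg
    push_cast
    rw [abs_le] at h3 m7 m8 m9 ⊢
    constructor <;> linarith [h3.1, h3.2, m7.1, m7.2, m8.1, m8.2, m9.1, m9.2]

theorem rep_quadAt {ρ : Env} {a b g : ℤ} {x : TM} {v : ℝ} (hx : Rep ρ x v) :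
    Rep ρ (quadAt a b g x) (((a : ℝ) + b * v + g * v ^ 2) / 2 ^ 40) := by
  have h := rep_add (rep_add (rep_const (ρ := ρ) (a := a)) (rep_sc (a := b) hx))
    (rep_sc (a := g) (rep_mul hx hx))
  refine ImgRep_cast h ?_
  ring

/-- the centre of the edge, moved by a symbol -/
theorem gAt_sym {z q : ℝ} {r : ℕ} (h : |z - q| ≤ (r : ℝ)) : ∃ s : ℝ, |s| ≤ 1 ∧ q + r * s = z := by
  rcases Nat.eq_zero_or_pos r with h0 | h0
  · subst h0
    refine ⟨0, by norm_num, ?_⟩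
    simp only [Nat.cast_zero] at h ⊢
    have := abs_nonpos_iff.1 h
    linarith
  · have hr : (0 : ℝ) < r := by exact_mod_cast h0
    refine ⟨(z - q) / r, ?_, ?_⟩
    · rw [abs_div, abs_of_pos hr, div_le_one hr]
      exact h
    · field_simp
      ring

attribute [local irreducible] TM.Rep TM.mul TM.add TM.sub TM.neg TM.inv TM.sqrt TM.one TM.nsm TM.const TM.ev6

/-- Soundness of `gAt`: `Ut` represents `u` for all values of the symbols `E0, E1, E2`. -/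
theorem gAt_rep {lam : ℝ} {kap : TM} (hk : KapOK lam kap) {ρ : Env} {c : Cls} {u eta : ℝ} {f : Fr}
    {E : ℝ} (i : ℕ) {e : EdgeL} {Ut : TM}
    (hU : ∀ (a b g : ℝ) (ha : |a| ≤ 1) (hb : |b| ≤ 1) (hg : |g| ≤ 1),
      Rep (ρ.setE a b g ha hb hg) Ut u)
    (hT : PT lam c u eta f E) (hin : inCell c e.k (e.tm Ut) = true)
    (hz : |f.Z lam E * 2 ^ 40 - ((e.b0 : ℝ) + e.b1 * u + e.b2 * u ^ 2)| ≤ (e.r : ℝ)) (T : ℝ) :
    Rep ρ (gAt kap i c e Ut)
      (imgR i (1 + lam ^ 2 / 4) (f.Z lam E) (f.X lam E) (f.sig lam E) T).g := by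
  unfold inCell at hin
  rw [Bool.and_eq_true] at hin
  have hkc : e.k < c.len := Nat.le_of_ble_eq_true hin.1
  have hU0 : Rep ρ Ut u := hU ρ.e0 ρ.e1 ρ.e2 ρ.h0 ρ.h1 ρ.h2
  -- the position is in the range of the cell
  have rZ0 : Rep ρ (e.tm Ut) (f.Z lam E) := by
    refine rep_blow (rep_quadAt hU0) ?_
    have : |f.Z lam E - ((e.b0 : ℝ) + e.b1 * u + e.b2 * u ^ 2) / 2 ^ 40| * 2 ^ 40 =
        |f.Z lam E * 2 ^ 40 - ((e.b0 : ℝ) + e.b1 * u + e.b2 * u ^ 2)| := by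
      rw [← abs_of_pos (show (0 : ℝ) < 2 ^ 40 by positivity), ← abs_mul,
        abs_of_pos (show (0 : ℝ) < 2 ^ 40 by positivity)]
      congr 1
      field_simp
    rw [this]
    exact hz
  have hτ := rep_magLe (rep_tauOf (mid := c.mid e.k) rZ0) hin.2
  have hτ' : |(f.Z lam E * 2 ^ 40 - c.mid e.k) / 2 ^ 34| ≤ 13 / 8 := by
    push_cast at hτ
    linarith
  have hc := hT e.k hkc _ hτ' (by field_simp; ring)
  obtain ⟨s2, hs2, hs2'⟩ := gAt_sym hz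
  obtain ⟨s0, hs0, hX⟩ := CellS_sym hc.X
  obtain ⟨s1, hs1, hS⟩ := CellS_sym hc.S
  have hU' := hU s0 s1 s2 hs0 hs1 hs2
  have rZ : Rep (ρ.setE s0 s1 s2 hs0 hs1 hs2) (add (e.cen Ut) (sym2 e.r)) (f.Z lam E) := by
    refine ImgRep_cast (rep_add (rep_quadAt hU') (rep_sym2 e.r)) ?_
    change ((e.b0 : ℝ) + e.b1 * u + e.b2 * u ^ 2) / 2 ^ 40 + (e.r : ℝ) / 2 ^ 40 * s2 = _
    rw [← mul_div_right_comm, ← add_div, hs2']
    field_simp
  have rx1 := rep_tauOf (mid := c.mid e.k) rZ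
  have rx3 : Rep (ρ.setE s0 s1 s2 hs0 hs1 hs2) _
      (((f.Z lam E * 2 ^ 40 - c.mid e.k) / 2 ^ 34) ^ 2) := ImgRep_cast (rep_mul rx1 rx1) (by ring)
  have rx4 := rep_mul rx1 hU'
  have rx5 : Rep (ρ.setE s0 s1 s2 hs0 hs1 hs2) _ (u ^ 2) :=
    ImgRep_cast (rep_mul hU' hU') (by ring)
  have rX : Rep (ρ.setE s0 s1 s2 hs0 hs1 hs2)
      (xAtS c e.k (add (e.cen Ut) (sym2 e.r)) Ut) (f.X lam E) :=
    ImgRep_cast (rep_add (rep_ev6 (q := (c.cell e.k).fX) rx1 hU' rx3 rx4 rx5)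
      (rep_sym0 (c.cell e.k).rX)) hX
  have rS : Rep (ρ.setE s0 s1 s2 hs0 hs1 hs2)
      (sAtS c e.k (add (e.cen Ut) (sym2 e.r)) Ut) (f.sig lam E) :=
    ImgRep_cast (rep_add (rep_ev6 (q := (c.cell e.k).fS) rx1 hU' rx3 rx4 rx5)
      (rep_sym1 (c.cell e.k).rS)) hS
  have h0 : Rep (ρ.setE s0 s1 s2 hs0 hs1 hs2) (const 0) 0 :=
    ImgRep_cast rep_const (by norm_num)
  have key := (rep_image i e.s (hk _) rZ rX rS h0).2.2.2.2.2.2.2
  have hg : (imgR i (1 + lam ^ 2 / 4) (f.Z lam E) (f.X lam E) (f.sig lam E) T).g =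
      (imgR i (1 + lam ^ 2 / 4) (f.Z lam E) (f.X lam E) (f.sig lam E) 0).g := by
    match i with
    | 0 => rfl
    | 1 => rfl
    | (n + 2) => rfl
  rw [hg]
  exact rep_collapse key

end Pool.Agent.H20.Fib
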