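import Pool.Agent.H20.Fib.TMa

/-!
# FB-3. Taylor models: the product

PROOF.  Write `L = |t| + |u|`, `Q = |tt| + |tu| + |uu|`, `D = |d0| + |d1| + |d2|`,
`N = |c| + L + Q + D` for both factors (these are the natural numbers `ab ..` by `ab_eq`).
Suppose the result has `n < 2^110`, `r < 2^110`.  The last summand of `r` is a multiple of `2^110`,
so it is `0` and `n1 + n2 < 2^110`; the flag gives `(N1 + r1 + 1) (N2 + r2 + 1) < 2^110`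
(`flag_lt`), in particular `r1, r2 < 2^110`.  So both models are good.
Each sum of products of coefficients has absolute value `<= N1 N2 < 2^110`, so `dec (sh ..)` is its
quotient by `2^40` up to `1` (`dec_sh_real`).  The nine sums of products together have absolute
value `<= N1 N2`, hence the new norm is at most `N1 N2 / 2^40 + 9`.
With `P1 = val`, `v 2^40 = P1 + δ1`, `|δ1| <= r1`, `|P1| <= N1` etc.:
`v w 2^40 = (P1 + δ1)(P2 + δ2) / 2^40`, `|δ1 P2 + δ1 δ2 + P1 δ2| <= r1 (N2 + r2) + r2 N1`, and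
`P1 P2` minus the nine kept terms is bounded by
`L1 Q2 + Q1 (L2 + Q2) + D1 (L2 + Q2 + D2) + (L1 + Q1) D2`
(kept: `c1 *` everything, everything `* c2`, and `(t, u) * (t, u)`; all symbols are bounded by one;
split `P_i = c_i + A_i + B_i + C_i` with `|A| <= L, |B| <= Q, |C| <= D`,
then `P1 P2 = c1 c2 + c1 (A2 + B2 + C2) + c2 (A1 + B1 + C1) + A1 A2 + rest`).
-/

namespace Pool.Agent.H20.Fib.TM

variable {ρ : Env}

lemma TMc_abs_mul {a s : ℝ} (hs : |s| ≤ 1) : |a * s| ≤ |a| := by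
  rw [abs_mul]
  exact mul_le_of_le_one_right (abs_nonneg _) hs

lemma TMc_one {a s : ℝ} (ha : |a| ≤ 1) (hs : |s| ≤ 1) : |a * s| ≤ 1 :=
  (TMc_abs_mul hs).trans ha

lemma TMc_sq {s : ℝ} (hs : |s| ≤ 1) : |s ^ 2| ≤ 1 := by
  rw [abs_pow]
  exact pow_le_one₀ (abs_nonneg _) hs

lemma TMc_A {t u T U : ℝ} (hT : |T| ≤ 1) (hU : |U| ≤ 1) : |t * T + u * U| ≤ |t| + |u| :=
  (abs_add_le _ _).trans (add_le_add (TMc_abs_mul hT) (TMc_abs_mul hU))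

lemma TMc_B {a b c x y z : ℝ} (hx : |x| ≤ 1) (hy : |y| ≤ 1) (hz : |z| ≤ 1) :
    |a * x + b * y + c * z| ≤ |a| + |b| + |c| :=
  (abs_add_le _ _).trans (add_le_add (TMc_A hx hy) (TMc_abs_mul hz))

/-- the bound of the dropped terms -/
lemma TMc_rest {A1 B1 C1 A2 B2 C2 L1 Q1 D1 L2 Q2 D2 : ℝ} (hA1 : |A1| ≤ L1) (hB1 : |B1| ≤ Q1)
    (hC1 : |C1| ≤ D1) (hA2 : |A2| ≤ L2) (hB2 : |B2| ≤ Q2) (hC2 : |C2| ≤ D2) :
    |A1 * B2 + B1 * (A2 + B2) + C1 * (A2 + B2 + C2) + (A1 + B1) * C2| ≤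
      L1 * Q2 + Q1 * (L2 + Q2) + D1 * (L2 + Q2 + D2) + (L1 + Q1) * D2 := by
  have a1 := abs_nonneg A1
  have a2 := abs_nonneg B1
  have a3 := abs_nonneg C1
  have a4 := abs_nonneg A2
  have a5 := abs_nonneg B2
  have a6 := abs_nonneg C2
  have h1 : |A1 * B2| ≤ L1 * Q2 := by
    rw [abs_mul]; exact mul_le_mul hA1 hB2 a5 (a1.trans hA1)
  have h2 : |B1 * (A2 + B2)| ≤ Q1 * (L2 + Q2) := by
    rw [abs_mul]
    exact mul_le_mul hB1 ((abs_add_le _ _).trans (add_le_add hA2 hB2)) (abs_nonneg _) (a2.trans hB1)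
  have h3 : |C1 * (A2 + B2 + C2)| ≤ D1 * (L2 + Q2 + D2) := by
    rw [abs_mul]
    exact mul_le_mul hC1 ((abs_add_le _ _).trans (add_le_add ((abs_add_le _ _).trans
      (add_le_add hA2 hB2)) hC2)) (abs_nonneg _) (a3.trans hC1)
  have h4 : |(A1 + B1) * C2| ≤ (L1 + Q1) * D2 := by
    rw [abs_mul]
    exact mul_le_mul ((abs_add_le _ _).trans (add_le_add hA1 hB1)) hC2 a6
      (add_nonneg (a1.trans hA1) (a2.trans hB1))
  exact (abs_add_le _ _).trans (add_le_add ((abs_add_le _ _).trans (add_le_add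
    ((abs_add_le _ _).trans (add_le_add h1 h2)) h3)) h4)

/-- the error of the product -/
lemma TMc_err {T U E0 E1 E2 : ℝ} (hT : |T| ≤ 1) (hU : |U| ≤ 1) (h0 : |E0| ≤ 1) (h1 : |E1| ≤ 1)
    (h2 : |E2| ≤ 1) {c1 t1 u1 tt1 tu1 uu1 a1 b1 e1 c2 t2 u2 tt2 tu2 uu2 a2 b2 e2 : ℝ}
    {V W r1 r2 : ℝ}
    (hV : |V - (c1 + t1 * T + u1 * U + tt1 * T ^ 2 + tu1 * (T * U) + uu1 * U ^ 2 + a1 * E0 +
      b1 * E1 + e1 * E2)| ≤ r1)
    (hW : |W - (c2 + t2 * T + u2 * U + tt2 * T ^ 2 + tu2 * (T * U) + uu2 * U ^ 2 + a2 * E0 +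
      b2 * E1 + e2 * E2)| ≤ r2)
    {M : ℝ} (hM : 0 < M) {sc st su stt stu suu sa sb se : ℝ}
    (k1 : |sc - (c1 * c2) / M| ≤ 1)
    (k2 : |st - (c1 * t2 + t1 * c2) / M| ≤ 1)
    (k3 : |su - (c1 * u2 + u1 * c2) / M| ≤ 1)
    (k4 : |stt - (c1 * tt2 + tt1 * c2 + t1 * t2) / M| ≤ 1)
    (k5 : |stu - (c1 * tu2 + tu1 * c2 + (t1 * u2 + u1 * t2)) / M| ≤ 1)
    (k6 : |suu - (c1 * uu2 + uu1 * c2 + u1 * u2) / M| ≤ 1)
    (k7 : |sa - (c1 * a2 + a1 * c2) / M| ≤ 1)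
    (k8 : |sb - (c1 * b2 + b1 * c2) / M| ≤ 1)
    (k9 : |se - (c1 * e2 + e1 * c2) / M| ≤ 1)
    {L1 Q1 D1 L2 Q2 D2 N1 N2 : ℝ}
    (hL1 : L1 = |t1| + |u1|) (hQ1 : Q1 = |tt1| + |tu1| + |uu1|) (hD1 : D1 = |a1| + |b1| + |e1|)
    (hL2 : L2 = |t2| + |u2|) (hQ2 : Q2 = |tt2| + |tu2| + |uu2|) (hD2 : D2 = |a2| + |b2| + |e2|)
    (hN1 : N1 = |c1| + L1 + (Q1 + D1)) (hN2 : N2 = |c2| + L2 + (Q2 + D2)) :
    |V * W / M - (sc + st * T + su * U + stt * T ^ 2 + stu * (T * U) + suu * U ^ 2 + sa * E0 +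
      sb * E1 + se * E2)| ≤
      (L1 * Q2 + Q1 * (L2 + Q2) + (D1 * (L2 + Q2 + D2) + (L1 + Q1) * D2 +
        (r1 * (N2 + r2) + r2 * N1))) / M + 9 := by
  set A1 := t1 * T + u1 * U with hA1
  set B1 := tt1 * T ^ 2 + tu1 * (T * U) + uu1 * U ^ 2 with hB1
  set C1 := a1 * E0 + b1 * E1 + e1 * E2 with hC1
  set A2 := t2 * T + u2 * U with hA2
  set B2 := tt2 * T ^ 2 + tu2 * (T * U) + uu2 * U ^ 2 with hB2
  set C2 := a2 * E0 + b2 * E1 + e2 * E2 with hC2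
  have hTU : |T * U| ≤ 1 := TMc_one hT hU
  have iA1 : |A1| ≤ L1 := by rw [hL1]; exact TMc_A hT hU
  have iA2 : |A2| ≤ L2 := by rw [hL2]; exact TMc_A hT hU
  have iB1 : |B1| ≤ Q1 := by rw [hQ1]; exact TMc_B (TMc_sq hT) hTU (TMc_sq hU)
  have iB2 : |B2| ≤ Q2 := by rw [hQ2]; exact TMc_B (TMc_sq hT) hTU (TMc_sq hU)
  have iC1 : |C1| ≤ D1 := by rw [hD1]; exact TMc_B h0 h1 h2
  have iC2 : |C2| ≤ D2 := by rw [hD2]; exact TMc_B h0 h1 h2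
  set P1 := c1 + A1 + (B1 + C1) with hP1
  set P2 := c2 + A2 + (B2 + C2) with hP2
  have hV' : |V - P1| ≤ r1 := by
    refine le_trans (le_of_eq ?_) hV
    congr 1
    rw [hP1, hA1, hB1, hC1]
    ring
  have hW' : |W - P2| ≤ r2 := by
    refine le_trans (le_of_eq ?_) hW
    congr 1
    rw [hP2, hA2, hB2, hC2]
    ring
  have iP1 : |P1| ≤ N1 := by
    rw [hN1]
    exact (abs_add_le _ _).trans (add_le_add ((abs_add_le _ _).trans (add_le_add le_rfl iA1))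
      ((abs_add_le _ _).trans (add_le_add iB1 iC1)))
  have iP2 : |P2| ≤ N2 := by
    rw [hN2]
    exact (abs_add_le _ _).trans (add_le_add ((abs_add_le _ _).trans (add_le_add le_rfl iA2))
      ((abs_add_le _ _).trans (add_le_add iB2 iC2)))
  have iW : |W| ≤ N2 + r2 := by
    have : W = P2 + (W - P2) := by ring
    rw [this]
    exact (abs_add_le _ _).trans (add_le_add iP2 hW')
  have j1 : |(V - P1) * W| ≤ r1 * (N2 + r2) := by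
    rw [abs_mul]
    exact mul_le_mul hV' iW (abs_nonneg _) ((abs_nonneg _).trans hV')
  have j2 : |(W - P2) * P1| ≤ r2 * N1 := by
    rw [abs_mul]
    exact mul_le_mul hW' iP1 (abs_nonneg _) ((abs_nonneg _).trans hW')
  have j3 := TMc_rest iA1 iB1 iC1 iA2 iB2 iC2
  set R := A1 * B2 + B1 * (A2 + B2) + C1 * (A2 + B2 + C2) + (A1 + B1) * C2 with hR
  have m1 := TMc_one k1 (show |(1 : ℝ)| ≤ 1 by simp)
  have m2 := TMc_one k2 hT
  have m3 := TMc_one k3 hU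
  have m4 := TMc_one k4 (TMc_sq hT)
  have m5 := TMc_one k5 hTU
  have m6 := TMc_one k6 (TMc_sq hU)
  have m7 := TMc_one k7 h0
  have m8 := TMc_one k8 h1
  have m9 := TMc_one k9 h2
  have key : V * W / M - (sc + st * T + su * U + stt * T ^ 2 + stu * (T * U) + suu * U ^ 2 +
      sa * E0 + sb * E1 + se * E2) =
      ((V - P1) * W + (W - P2) * P1 + R) / M -
      ((sc - (c1 * c2) / M) * 1 + (st - (c1 * t2 + t1 * c2) / M) * T +
        (su - (c1 * u2 + u1 * c2) / M) * U +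
        (stt - (c1 * tt2 + tt1 * c2 + t1 * t2) / M) * T ^ 2 +
        (stu - (c1 * tu2 + tu1 * c2 + (t1 * u2 + u1 * t2)) / M) * (T * U) +
        (suu - (c1 * uu2 + uu1 * c2 + u1 * u2) / M) * U ^ 2 +
        (sa - (c1 * a2 + a1 * c2) / M) * E0 + (sb - (c1 * b2 + b1 * c2) / M) * E1 +
        (se - (c1 * e2 + e1 * c2) / M) * E2) := by
    rw [hR, hP1, hP2, hA1, hA2, hB1, hB2, hC1, hC2]
    field_simp
    ring
  rw [key]
  have j4 : |((V - P1) * W + (W - P2) * P1 + R) / M| ≤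
      (L1 * Q2 + Q1 * (L2 + Q2) + (D1 * (L2 + Q2 + D2) + (L1 + Q1) * D2 +
        (r1 * (N2 + r2) + r2 * N1))) / M := by
    rw [abs_div, abs_of_pos hM]
    refine div_le_div_of_nonneg_right ?_ hM.le
    refine ((abs_add_le _ _).trans (add_le_add ((abs_add_le _ _).trans (add_le_add j1 j2)) j3)).trans ?_
    linarith
  rw [abs_le] at m1 m2 m3 m4 m5 m6 m7 m8 m9 j4 ⊢
  constructor <;> linarith [m1.1, m1.2, m2.1, m2.2, m3.1, m3.2, m4.1, m4.2, m5.1, m5.2, m6.1, m6.2,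
    m7.1, m7.2, m8.1, m8.2, m9.1, m9.2, j4.1, j4.2]

/-- the sum of the nine products -/
lemma TMc_nrm {c1 t1 u1 tt1 tu1 uu1 a1 b1 e1 c2 t2 u2 tt2 tu2 uu2 a2 b2 e2 : ℤ}
    {L1 Q1 D1 L2 Q2 D2 N1 N2 : ℤ}
    (hL1 : L1 = |t1| + |u1|) (hQ1 : Q1 = |tt1| + |tu1| + |uu1|) (hD1 : D1 = |a1| + |b1| + |e1|)
    (hL2 : L2 = |t2| + |u2|) (hQ2 : Q2 = |tt2| + |tu2| + |uu2|) (hD2 : D2 = |a2| + |b2| + |e2|)
    (hN1 : N1 = |c1| + L1 + (Q1 + D1)) (hN2 : N2 = |c2| + L2 + (Q2 + D2)) :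
    |c1 * c2| + |c1 * t2 + t1 * c2| + |c1 * u2 + u1 * c2| + |c1 * tt2 + tt1 * c2 + t1 * t2| +
      |c1 * tu2 + tu1 * c2 + (t1 * u2 + u1 * t2)| + |c1 * uu2 + uu1 * c2 + u1 * u2| +
      |c1 * a2 + a1 * c2| + |c1 * b2 + b1 * c2| + |c1 * e2 + e1 * c2| ≤ N1 * N2 := by
  have g : ∀ a b c d : ℤ, |a * b + c * d| ≤ |a| * |b| + |c| * |d| := fun a b c d => by
    rw [← abs_mul, ← abs_mul]
    exact abs_add_le _ _
  have h1 : |c1 * c2| ≤ |c1| * |c2| := (abs_mul _ _).le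
  have h2 := g c1 t2 t1 c2
  have h3 := g c1 u2 u1 c2
  have h4 : |c1 * tt2 + tt1 * c2 + t1 * t2| ≤ |c1| * |tt2| + |tt1| * |c2| + |t1| * |t2| :=
    (abs_add_le _ _).trans (add_le_add (g _ _ _ _) (abs_mul _ _).le)
  have h5 : |c1 * tu2 + tu1 * c2 + (t1 * u2 + u1 * t2)| ≤
      |c1| * |tu2| + |tu1| * |c2| + (|t1| * |u2| + |u1| * |t2|) :=
    (abs_add_le _ _).trans (add_le_add (g _ _ _ _) (g _ _ _ _))
  have h6 : |c1 * uu2 + uu1 * c2 + u1 * u2| ≤ |c1| * |uu2| + |uu1| * |c2| + |u1| * |u2| :=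
    (abs_add_le _ _).trans (add_le_add (g _ _ _ _) (abs_mul _ _).le)
  have h7 := g c1 a2 a1 c2
  have h8 := g c1 b2 b1 c2
  have h9 := g c1 e2 e1 c2
  have e1' : 0 ≤ L1 := by rw [hL1]; positivity
  have e2' : 0 ≤ Q1 := by rw [hQ1]; positivity
  have e3' : 0 ≤ D1 := by rw [hD1]; positivity
  have e4' : 0 ≤ L2 := by rw [hL2]; positivity
  have e5' : 0 ≤ Q2 := by rw [hQ2]; positivity
  have e6' : 0 ≤ D2 := by rw [hD2]; positivity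
  have hR : 0 ≤ L1 * Q2 + Q1 * (L2 + Q2) + D1 * (L2 + Q2 + D2) + (L1 + Q1) * D2 := by positivity
  have key : N1 * N2 = |c1| * |c2| + |c1| * (L2 + Q2 + D2) + |c2| * (L1 + Q1 + D1) + L1 * L2 +
      (L1 * Q2 + Q1 * (L2 + Q2) + D1 * (L2 + Q2 + D2) + (L1 + Q1) * D2) := by
    rw [hN1, hN2]
    ring
  have key2 : |c1| * |c2| + |c1| * (L2 + Q2 + D2) + |c2| * (L1 + Q1 + D1) + L1 * L2 =
      |c1| * |c2| + (|c1| * |t2| + |t1| * |c2|) + (|c1| * |u2| + |u1| * |c2|) +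
      (|c1| * |tt2| + |tt1| * |c2| + |t1| * |t2|) +
      (|c1| * |tu2| + |tu1| * |c2| + (|t1| * |u2| + |u1| * |t2|)) +
      (|c1| * |uu2| + |uu1| * |c2| + |u1| * |u2|) + (|c1| * |a2| + |a1| * |c2|) +
      (|c1| * |b2| + |b1| * |c2|) + (|c1| * |e2| + |e1| * |c2|) := by
    rw [hL1, hQ1, hD1, hL2, hQ2, hD2]
    ring
  linarith

lemma TMc_shift (x : ℕ) : (x : ℝ) / 2 ^ 40 ≤ ((x >>> 40 : ℕ) : ℝ) + 1 := by
  rw [Nat.shiftRight_eq_div_pow]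
  have h := Nat.lt_div_mul_add (a := x) (b := 2 ^ 40) (by norm_num)
  have h2 : (x : ℝ) < ((x / 2 ^ 40 : ℕ) : ℝ) * 2 ^ 40 + 2 ^ 40 := by exact_mod_cast h
  rw [div_le_iff₀ (by positivity)]
  nlinarith

theorem TMc_red (c1 t1 u1 tt1 tu1 uu1 a1 b1 e1 n1 r1 c2 t2 u2 tt2 tu2 uu2 a2 b2 e2 n2 r2 : ℕ)
    (L1 Q1 D1 N1 L2 Q2 D2 N2 : ℕ) :
    (mulAux c1 t1 u1 tt1 tu1 uu1 a1 b1 e1 n1 r1 c2 t2 u2 tt2 tu2 uu2 a2 b2 e2 n2 r2
      L1 Q1 D1 N1 L2 Q2 D2 N2).red := by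
  simp only [red, mulAux]
  exact ⟨sh_lt _, sh_lt _, sh_lt _, sh_lt _, sh_lt _, sh_lt _, sh_lt _, sh_lt _, sh_lt _⟩

theorem TMc_aux {c1 t1 u1 tt1 tu1 uu1 a1 b1 e1 n1 r1 c2 t2 u2 tt2 tu2 uu2 a2 b2 e2 n2 r2 : ℕ}
    {L1 Q1 D1 N1 L2 Q2 D2 N2 : ℕ}
    (hL1 : L1 = ab t1 + ab u1) (hQ1 : Q1 = ab tt1 + ab tu1 + ab uu1)
    (hD1 : D1 = ab a1 + ab b1 + ab e1)
    (hN1 : N1 = ab c1 + L1 + (Q1 + D1))
    (hL2 : L2 = ab t2 + ab u2) (hQ2 : Q2 = ab tt2 + ab tu2 + ab uu2)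
    (hD2 : D2 = ab a2 + ab b2 + ab e2)
    (hN2 : N2 = ab c2 + L2 + (Q2 + D2)) {v w : ℝ}
    (hx : Rep ρ ⟨c1, t1, u1, tt1, tu1, uu1, a1, b1, e1, n1, r1⟩ v)
    (hy : Rep ρ ⟨c2, t2, u2, tt2, tu2, uu2, a2, b2, e2, n2, r2⟩ w) :
    Rep ρ (mulAux c1 t1 u1 tt1 tu1 uu1 a1 b1 e1 n1 r1 c2 t2 u2 tt2 tu2 uu2 a2 b2 e2 n2 r2
      L1 Q1 D1 N1 L2 Q2 D2 N2) (v * w) := by
  intro hn hr
  set S : ℕ := L1 * Q2 + Q1 * (L2 + Q2) + (D1 * (L2 + Q2 + D2) + (L1 + Q1) * D2 +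
    (r1 * (N2 + r2) + r2 * N1)) with hS
  have hn' : (N1 * N2) >>> 40 + 10 < 2 ^ 110 := hn
  have hr' : S >>> 40 + 10 + flag (N1 + r1) (N2 + r2) +
    ((n1 + n2) >>> 110) * 1298074214633706907132624082305024 < 2 ^ 110 := hr
  have f1 : (n1 + n2) >>> 110 = 0 := by
    by_contra hne
    have h1 : 1 ≤ (n1 + n2) >>> 110 := Nat.one_le_iff_ne_zero.2 hne
    have h2 := Nat.mul_le_mul_right 1298074214633706907132624082305024 h1
    have h3 := (Nat.le_add_left _ _).trans_lt hr'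
    exact absurd (h2.trans_lt h3) (by norm_num)
  have f2 : flag (N1 + r1) (N2 + r2) < 2 ^ 110 :=
    lt_of_le_of_lt ((Nat.le_add_left _ _).trans (Nat.le_add_right _ _)) hr'
  obtain ⟨f3, f4⟩ := flag_lt f2
  have hnn : n1 + n2 < 2 ^ 110 := by
    rw [Nat.shiftRight_eq_div_pow] at f1
    rcases Nat.div_eq_zero_iff.1 f1 with h | h
    · exact absurd h (by norm_num)
    · exact h
  have hr1 : r1 < 2 ^ 110 := by
    have : (r1 + 1) * 1 ≤ (N1 + r1 + 1) * (N2 + r2 + 1) := Nat.mul_le_mul (by omega) (by omega)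
    omega
  have hr2 : r2 < 2 ^ 110 := by
    have : 1 * (r2 + 1) ≤ (N1 + r1 + 1) * (N2 + r2 + 1) := Nat.mul_le_mul (by omega) (by omega)
    omega
  obtain ⟨hred1, -, hv⟩ := hx (show n1 < 2 ^ 110 by omega) hr1
  obtain ⟨hred2, -, hw⟩ := hy (show n2 < 2 ^ 110 by omega) hr2
  obtain ⟨p1, p2, p3, p4, p5, p6, p7, p8, p9⟩ := hred1
  obtain ⟨q1, q2, q3, q4, q5, q6, q7, q8, q9⟩ := hred2
  simp only at p1 p2 p3 p4 p5 p6 p7 p8 p9 q1 q2 q3 q4 q5 q6 q7 q8 q9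
  -- the norms as integers
  have zL1 : (L1 : ℤ) = |dec t1| + |dec u1| := by
    rw [hL1]; push_cast; rw [ab_eq p2, ab_eq p3]
  have zQ1 : (Q1 : ℤ) = |dec tt1| + |dec tu1| + |dec uu1| := by
    rw [hQ1]; push_cast; rw [ab_eq p4, ab_eq p5, ab_eq p6]
  have zD1 : (D1 : ℤ) = |dec a1| + |dec b1| + |dec e1| := by
    rw [hD1]; push_cast; rw [ab_eq p7, ab_eq p8, ab_eq p9]
  have zN1 : (N1 : ℤ) = |dec c1| + L1 + (Q1 + D1) := by
    rw [hN1]; push_cast; rw [ab_eq p1]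
  have zL2 : (L2 : ℤ) = |dec t2| + |dec u2| := by
    rw [hL2]; push_cast; rw [ab_eq q2, ab_eq q3]
  have zQ2 : (Q2 : ℤ) = |dec tt2| + |dec tu2| + |dec uu2| := by
    rw [hQ2]; push_cast; rw [ab_eq q4, ab_eq q5, ab_eq q6]
  have zD2 : (D2 : ℤ) = |dec a2| + |dec b2| + |dec e2| := by
    rw [hD2]; push_cast; rw [ab_eq q7, ab_eq q8, ab_eq q9]
  have zN2 : (N2 : ℤ) = |dec c2| + L2 + (Q2 + D2) := by
    rw [hN2]; push_cast; rw [ab_eq q1]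
  have hsum := TMc_nrm zL1 zQ1 zD1 zL2 zQ2 zD2 zN1 zN2
  have hNN : ((N1 : ℤ) * N2) < 2 ^ 111 := by
    have : N1 * N2 ≤ (N1 + r1 + 1) * (N2 + r2 + 1) := Nat.mul_le_mul (by omega) (by omega)
    have h2 : N1 * N2 < 2 ^ 111 := by omega
    exact_mod_cast h2
  -- the nine congruences
  have g1 : Cong (Nat.mul c1 c2) (dec c1 * dec c2) := (cong_dec c1).mul (cong_dec c2)
  have g2 : Cong (Nat.add (Nat.mul c1 t2) (Nat.mul t1 c2)) (dec c1 * dec t2 + dec t1 * dec c2) :=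
    ((cong_dec c1).mul (cong_dec t2)).add ((cong_dec t1).mul (cong_dec c2))
  have g3 : Cong (Nat.add (Nat.mul c1 u2) (Nat.mul u1 c2)) (dec c1 * dec u2 + dec u1 * dec c2) :=
    ((cong_dec c1).mul (cong_dec u2)).add ((cong_dec u1).mul (cong_dec c2))
  have g4 : Cong (Nat.add (Nat.add (Nat.mul c1 tt2) (Nat.mul tt1 c2)) (Nat.mul t1 t2))
      (dec c1 * dec tt2 + dec tt1 * dec c2 + dec t1 * dec t2) :=
    (((cong_dec c1).mul (cong_dec tt2)).add ((cong_dec tt1).mul (cong_dec c2))).add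
      ((cong_dec t1).mul (cong_dec t2))
  have g5 : Cong (Nat.add (Nat.add (Nat.mul c1 tu2) (Nat.mul tu1 c2))
      (Nat.add (Nat.mul t1 u2) (Nat.mul u1 t2)))
      (dec c1 * dec tu2 + dec tu1 * dec c2 + (dec t1 * dec u2 + dec u1 * dec t2)) :=
    (((cong_dec c1).mul (cong_dec tu2)).add ((cong_dec tu1).mul (cong_dec c2))).add
      (((cong_dec t1).mul (cong_dec u2)).add ((cong_dec u1).mul (cong_dec t2)))
  have g6 : Cong (Nat.add (Nat.add (Nat.mul c1 uu2) (Nat.mul uu1 c2)) (Nat.mul u1 u2))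
      (dec c1 * dec uu2 + dec uu1 * dec c2 + dec u1 * dec u2) :=
    (((cong_dec c1).mul (cong_dec uu2)).add ((cong_dec uu1).mul (cong_dec c2))).add
      ((cong_dec u1).mul (cong_dec u2))
  have g7 : Cong (Nat.add (Nat.mul c1 a2) (Nat.mul a1 c2)) (dec c1 * dec a2 + dec a1 * dec c2) :=
    ((cong_dec c1).mul (cong_dec a2)).add ((cong_dec a1).mul (cong_dec c2))
  have g8 : Cong (Nat.add (Nat.mul c1 b2) (Nat.mul b1 c2)) (dec c1 * dec b2 + dec b1 * dec c2) :=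
    ((cong_dec c1).mul (cong_dec b2)).add ((cong_dec b1).mul (cong_dec c2))
  have g9 : Cong (Nat.add (Nat.mul c1 e2) (Nat.mul e1 c2)) (dec c1 * dec e2 + dec e1 * dec c2) :=
    ((cong_dec c1).mul (cong_dec e2)).add ((cong_dec e1).mul (cong_dec c2))
  have y1 := abs_nonneg (dec c1 * dec c2)
  have y2 := abs_nonneg (dec c1 * dec t2 + dec t1 * dec c2)
  have y3 := abs_nonneg (dec c1 * dec u2 + dec u1 * dec c2)
  have y4 := abs_nonneg (dec c1 * dec tt2 + dec tt1 * dec c2 + dec t1 * dec t2)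
  have y5 := abs_nonneg (dec c1 * dec tu2 + dec tu1 * dec c2 + (dec t1 * dec u2 + dec u1 * dec t2))
  have y6 := abs_nonneg (dec c1 * dec uu2 + dec uu1 * dec c2 + dec u1 * dec u2)
  have y7 := abs_nonneg (dec c1 * dec a2 + dec a1 * dec c2)
  have y8 := abs_nonneg (dec c1 * dec b2 + dec b1 * dec c2)
  have y9 := abs_nonneg (dec c1 * dec e2 + dec e1 * dec c2)
  have l1 : |dec c1 * dec c2| < 2 ^ 111 := by linarith
  have l2 : |dec c1 * dec t2 + dec t1 * dec c2| < 2 ^ 111 := by linarith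
  have l3 : |dec c1 * dec u2 + dec u1 * dec c2| < 2 ^ 111 := by linarith
  have l4 : |dec c1 * dec tt2 + dec tt1 * dec c2 + dec t1 * dec t2| < 2 ^ 111 := by linarith
  have l5 : |dec c1 * dec tu2 + dec tu1 * dec c2 + (dec t1 * dec u2 + dec u1 * dec t2)| < 2 ^ 111 := by
    linarith
  have l6 : |dec c1 * dec uu2 + dec uu1 * dec c2 + dec u1 * dec u2| < 2 ^ 111 := by linarith
  have l7 : |dec c1 * dec a2 + dec a1 * dec c2| < 2 ^ 111 := by linarith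
  have l8 : |dec c1 * dec b2 + dec b1 * dec c2| < 2 ^ 111 := by linarith
  have l9 : |dec c1 * dec e2 + dec e1 * dec c2| < 2 ^ 111 := by linarith
  refine ⟨TMc_red _ _ _ _ _ _ _ _ _ _ _ _ _ _ _ _ _ _ _ _ _ _ _ _ _ _ _ _ _ _, ?_, ?_⟩
  · have o1 := abs_dec_sh g1 l1
    have o2 := abs_dec_sh g2 l2
    have o3 := abs_dec_sh g3 l3
    have o4 := abs_dec_sh g4 l4
    have o5 := abs_dec_sh g5 l5
    have o6 := abs_dec_sh g6 l6
    have o7 := abs_dec_sh g7 l7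
    have o8 := abs_dec_sh g8 l8
    have o9 := abs_dec_sh g9 l9
    have hsumR : (((|dec c1 * dec c2| + |dec c1 * dec t2 + dec t1 * dec c2| +
        |dec c1 * dec u2 + dec u1 * dec c2| + |dec c1 * dec tt2 + dec tt1 * dec c2 + dec t1 * dec t2| +
        |dec c1 * dec tu2 + dec tu1 * dec c2 + (dec t1 * dec u2 + dec u1 * dec t2)| +
        |dec c1 * dec uu2 + dec uu1 * dec c2 + dec u1 * dec u2| +
        |dec c1 * dec a2 + dec a1 * dec c2| + |dec c1 * dec b2 + dec b1 * dec c2| +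
        |dec c1 * dec e2 + dec e1 * dec c2| : ℤ) : ℝ)) ≤ (((N1 * N2 : ℕ) : ℤ) : ℝ) := by
      have : (((N1 * N2 : ℕ) : ℤ)) = (N1 : ℤ) * N2 := by push_cast; ring
      rw [this]
      exact_mod_cast hsum
    rw [Int.cast_natCast] at hsumR
    have hsh := TMc_shift (N1 * N2)
    have goal : ((nrm (mulAux c1 t1 u1 tt1 tu1 uu1 a1 b1 e1 n1 r1 c2 t2 u2 tt2 tu2 uu2 a2 b2 e2 n2 r2
      L1 Q1 D1 N1 L2 Q2 D2 N2) : ℤ) : ℝ) ≤ (((N1 * N2) >>> 40 + 10 : ℕ) : ℝ) := by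
      simp only [nrm, mulAux]
      push_cast at hsumR ⊢
      push_cast at o1 o2 o3 o4 o5 o6 o7 o8 o9 hsh
      rw [div_le_iff₀ (by positivity)] at hsh
      simp only [div_eq_mul_inv] at o1 o2 o3 o4 o5 o6 o7 o8 o9
      linarith
    have goal2 : ((nrm (mulAux c1 t1 u1 tt1 tu1 uu1 a1 b1 e1 n1 r1 c2 t2 u2 tt2 tu2 uu2 a2 b2 e2 n2 r2
      L1 Q1 D1 N1 L2 Q2 D2 N2) : ℤ) : ℝ) ≤ ((((N1 * N2) >>> 40 + 10 : ℕ) : ℤ) : ℝ) := by
      rw [Int.cast_natCast]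
      exact goal
    have goal3 := Int.cast_le.1 goal2
    exact goal3
  · have o1 := dec_sh_real g1 l1
    have o2 := dec_sh_real g2 l2
    have o3 := dec_sh_real g3 l3
    have o4 := dec_sh_real g4 l4
    have o5 := dec_sh_real g5 l5
    have o6 := dec_sh_real g6 l6
    have o7 := dec_sh_real g7 l7
    have o8 := dec_sh_real g8 l8
    have o9 := dec_sh_real g9 l9
    push_cast at o1 o2 o3 o4 o5 o6 o7 o8 o9
    have rL1 : (L1 : ℝ) = |(dec t1 : ℝ)| + |(dec u1 : ℝ)| := by exact_mod_cast zL1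
    have rQ1 : (Q1 : ℝ) = |(dec tt1 : ℝ)| + |(dec tu1 : ℝ)| + |(dec uu1 : ℝ)| := by exact_mod_cast zQ1
    have rD1 : (D1 : ℝ) = |(dec a1 : ℝ)| + |(dec b1 : ℝ)| + |(dec e1 : ℝ)| := by exact_mod_cast zD1
    have rN1 : (N1 : ℝ) = |(dec c1 : ℝ)| + L1 + (Q1 + D1) := by exact_mod_cast zN1
    have rL2 : (L2 : ℝ) = |(dec t2 : ℝ)| + |(dec u2 : ℝ)| := by exact_mod_cast zL2
    have rQ2 : (Q2 : ℝ) = |(dec tt2 : ℝ)| + |(dec tu2 : ℝ)| + |(dec uu2 : ℝ)| := by exact_mod_cast zQ2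
    have rD2 : (D2 : ℝ) = |(dec a2 : ℝ)| + |(dec b2 : ℝ)| + |(dec e2 : ℝ)| := by exact_mod_cast zD2
    have rN2 : (N2 : ℝ) = |(dec c2 : ℝ)| + L2 + (Q2 + D2) := by exact_mod_cast zN2
    have h := TMc_err ρ.ht ρ.hu ρ.h0 ρ.h1 ρ.h2 hv hw (M := 2 ^ 40) (by positivity) o1 o2 o3 o4 o5 o6
      o7 o8 o9 rL1 rQ1 rD1 rL2 rQ2 rD2 rN1 rN2
    have hSS : (L1 * Q2 + Q1 * (L2 + Q2) + (D1 * (L2 + Q2 + D2) + (L1 + Q1) * D2 +
        (r1 * (N2 + r2) + r2 * N1)) : ℝ) = (S : ℝ) := by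
      rw [hS]; push_cast; ring
    rw [hSS] at h
    have hsh := TMc_shift S
    have hre : ((mulAux c1 t1 u1 tt1 tu1 uu1 a1 b1 e1 n1 r1 c2 t2 u2 tt2 tu2 uu2 a2 b2 e2 n2 r2
      L1 Q1 D1 N1 L2 Q2 D2 N2).r : ℝ) = ((S >>> 40 : ℕ) : ℝ) + 10 := by
      have : (mulAux c1 t1 u1 tt1 tu1 uu1 a1 b1 e1 n1 r1 c2 t2 u2 tt2 tu2 uu2 a2 b2 e2 n2 r2
        L1 Q1 D1 N1 L2 Q2 D2 N2).r = S >>> 40 + 10 := by
        show S >>> 40 + 10 + flag (N1 + r1) (N2 + r2) +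
          ((n1 + n2) >>> 110) * 1298074214633706907132624082305024 = _
        rw [f1, f3]
      rw [this]
      push_cast
      ring
    rw [hre]
    have e : v * w * 2 ^ 40 = (v * 2 ^ 40) * (w * 2 ^ 40) / 2 ^ 40 := by
      field_simp
    rw [e]
    have hval : val (mulAux c1 t1 u1 tt1 tu1 uu1 a1 b1 e1 n1 r1 c2 t2 u2 tt2 tu2 uu2 a2 b2 e2 n2 r2
      L1 Q1 D1 N1 L2 Q2 D2 N2) ρ =
      dec (sh (Nat.mul c1 c2)) +
      dec (sh (Nat.add (Nat.mul c1 t2) (Nat.mul t1 c2))) * ρ.t +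
      dec (sh (Nat.add (Nat.mul c1 u2) (Nat.mul u1 c2))) * ρ.u +
      dec (sh (Nat.add (Nat.add (Nat.mul c1 tt2) (Nat.mul tt1 c2)) (Nat.mul t1 t2))) * ρ.t ^ 2 +
      dec (sh (Nat.add (Nat.add (Nat.mul c1 tu2) (Nat.mul tu1 c2))
        (Nat.add (Nat.mul t1 u2) (Nat.mul u1 t2)))) * (ρ.t * ρ.u) +
      dec (sh (Nat.add (Nat.add (Nat.mul c1 uu2) (Nat.mul uu1 c2)) (Nat.mul u1 u2))) * ρ.u ^ 2 +
      dec (sh (Nat.add (Nat.mul c1 a2) (Nat.mul a1 c2))) * ρ.e0 +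
      dec (sh (Nat.add (Nat.mul c1 b2) (Nat.mul b1 c2))) * ρ.e1 +
      dec (sh (Nat.add (Nat.mul c1 e2) (Nat.mul e1 c2))) * ρ.e2 := by
      simp only [val, mulAux]
    rw [hval]
    refine h.trans ?_
    linarith

theorem rep_mul {x y : TM} {v w : ℝ} (hx : Rep ρ x v) (hy : Rep ρ y w) :
    Rep ρ (mul x y) (v * w) := by
  obtain ⟨c1, t1, u1, tt1, tu1, uu1, a1, b1, e1, n1, r1⟩ := x
  obtain ⟨c2, t2, u2, tt2, tu2, uu2, a2, b2, e2, n2, r2⟩ := y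
  exact TMc_aux rfl rfl rfl rfl rfl rfl rfl rfl hx hy

end Pool.Agent.H20.Fib.TM
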