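import Pool.Agent.H20.Fib.TMb
import Pool.Agent.H20.Fib.TMc

/-!
# FB-4. Taylor models: bounds, inverse, square root

PROOFS.  `abs_val_sub_le`: `|val - dec c| <= |t| + ... + |d2|` as the symbols are bounded by one,
and the `ab ..` are the absolute values (`ab_eq`).
`lowN`: if `x.c < 2^111` then `dec x.c = x.c`, and the truncated difference `x.c - rad x`, if it is
positive, is the true one.
`rep_inv2`: if the condition is true then `v >= lowN/2^40 > 0` and
`|1/v - w| = |v w - 1| / v <= (mag e / 2^40) / (lowN / 2^40)`, and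
`mag e * 2^40 / lowN <= floor + 1`.  If the condition is false: `rep_poison`.
`rep_sqrt2`: `w >= lowN / 2^40 > 0` and for `v >= 0`
`|sqrt v - w| = |v - w^2| / (sqrt v + w) <= |w^2 - v| / w`; for `v < 0` `sqrt v = 0` and
`w <= (w^2 - v) / w`.
`rep_inv`, `rep_sqrt`: `rep_inv2` with `y = fresh ..` (`rep_fresh`).
-/

namespace Pool.Agent.H20.Fib.TM

variable {ρ : Env}

theorem TMd_ab {y : ℕ} (hy : y < 2 ^ 112) : ((ab y : ℕ) : ℝ) = |(dec y : ℝ)| := by
  have h := ab_eq hy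
  have h2 : (((ab y : ℕ) : ℤ) : ℝ) = ((|dec y| : ℤ) : ℝ) := by rw [h]
  rw [Int.cast_natCast, Int.cast_abs] at h2
  exact h2

theorem TMd_term (a s : ℝ) (hs : |s| ≤ 1) : |a * s| ≤ |a| := by
  rw [abs_mul]
  exact mul_le_of_le_one_right (abs_nonneg a) hs

theorem TMd_one {s t : ℝ} (hs : |s| ≤ 1) (ht : |t| ≤ 1) : |s * t| ≤ 1 := by
  rw [abs_mul]
  exact mul_le_one₀ hs (abs_nonneg t) ht

theorem good_iff (x : TM) : good x = true ↔ x.n < 2 ^ 110 ∧ x.r < 2 ^ 110 := by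
  unfold good
  rw [Bool.and_eq_true, Nat.ble_eq, Nat.ble_eq]
  omega

theorem abs_val_sub_le {x : TM} (hx : x.red) :
    |x.val ρ - dec x.c| + x.r ≤ (rad x : ℝ) := by
  obtain ⟨h0, h1, h2, h3, h4, h5, h6, h7, h8⟩ := hx
  have hr : (rad x : ℝ) = ((|(dec x.t : ℝ)| + |(dec x.u : ℝ)|) + ((|(dec x.tt : ℝ)| +
      |(dec x.tu : ℝ)|) + |(dec x.uu : ℝ)|)) + ((|(dec x.d0 : ℝ)| + |(dec x.d1 : ℝ)|) +
        |(dec x.d2 : ℝ)|) + x.r := by
    rw [← TMd_ab h1, ← TMd_ab h2, ← TMd_ab h3, ← TMd_ab h4, ← TMd_ab h5, ← TMd_ab h6, ← TMd_ab h7,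
      ← TMd_ab h8]
    have : rad x = ((ab x.t + ab x.u) + ((ab x.tt + ab x.tu) + ab x.uu)) +
      ((ab x.d0 + ab x.d1) + ab x.d2) + x.r := rfl
    rw [this]
    push_cast
    ring
  rw [hr]
  have ht2 : |ρ.t ^ 2| ≤ 1 := by rw [sq]; exact TMd_one ρ.ht ρ.ht
  have hu2 : |ρ.u ^ 2| ≤ 1 := by rw [sq]; exact TMd_one ρ.hu ρ.hu
  have e1 := abs_le.1 (TMd_term (dec x.t) ρ.t ρ.ht)
  have e2 := abs_le.1 (TMd_term (dec x.u) ρ.u ρ.hu)
  have e3 := abs_le.1 (TMd_term (dec x.tt) _ ht2)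
  have e4 := abs_le.1 (TMd_term (dec x.tu) _ (TMd_one ρ.ht ρ.hu))
  have e5 := abs_le.1 (TMd_term (dec x.uu) _ hu2)
  have e6 := abs_le.1 (TMd_term (dec x.d0) ρ.e0 ρ.h0)
  have e7 := abs_le.1 (TMd_term (dec x.d1) ρ.e1 ρ.h1)
  have e8 := abs_le.1 (TMd_term (dec x.d2) ρ.e2 ρ.h2)
  have h : |x.val ρ - dec x.c| ≤ ((|(dec x.t : ℝ)| + |(dec x.u : ℝ)|) + ((|(dec x.tt : ℝ)| +
      |(dec x.tu : ℝ)|) + |(dec x.uu : ℝ)|)) + ((|(dec x.d0 : ℝ)| + |(dec x.d1 : ℝ)|) +
        |(dec x.d2 : ℝ)|) := by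
    unfold val
    rw [abs_le]
    constructor <;> linarith [e1.1, e1.2, e2.1, e2.2, e3.1, e3.2, e4.1, e4.2, e5.1, e5.2, e6.1,
      e6.2, e7.1, e7.2, e8.1, e8.2]
  linarith

theorem rep_abs_sub {x : TM} {v : ℝ} (hx : Rep ρ x v) (hg : good x = true) :
    |v * 2 ^ 40 - dec x.c| ≤ (rad x : ℝ) := by
  obtain ⟨h1, h2⟩ := (good_iff x).1 hg
  obtain ⟨h3, h4, h5⟩ := hx h1 h2
  have h6 := abs_val_sub_le (ρ := ρ) h3
  have h7 : |v * 2 ^ 40 - dec x.c| ≤ |v * 2 ^ 40 - x.val ρ| + |x.val ρ - dec x.c| :=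
    abs_sub_le _ _ _
  linarith

theorem rep_mag {x : TM} {v : ℝ} (hx : Rep ρ x v) (hg : good x = true) :
    |v| * 2 ^ 40 ≤ (mag x : ℝ) := by
  obtain ⟨h1, h2⟩ := (good_iff x).1 hg
  obtain ⟨h3, h4, h5⟩ := hx h1 h2
  have h6 := rep_abs_sub hx hg
  have h7 : (mag x : ℝ) = |(dec x.c : ℝ)| + (rad x : ℝ) := by
    rw [← TMd_ab h3.1]
    have : mag x = ab x.c + rad x := rfl
    rw [this]
    push_cast
    ring
  have h8 : |v| * 2 ^ 40 = |v * 2 ^ 40| := by
    rw [abs_mul, abs_of_pos (by positivity : (0 : ℝ) < 2 ^ 40)]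
  rw [h7, h8]
  have h9 : |v * 2 ^ 40| ≤ |v * 2 ^ 40 - dec x.c| + |(dec x.c : ℝ)| := by
    have := abs_add_le (v * 2 ^ 40 - dec x.c) (dec x.c : ℝ)
    rwa [sub_add_cancel] at this
  linarith

theorem rep_magLe {x : TM} {v : ℝ} {b : ℕ} (hx : Rep ρ x v) (h : magLe x b = true) :
    |v| * 2 ^ 40 ≤ b := by
  unfold magLe at h
  rw [Bool.and_eq_true, Nat.ble_eq] at h
  exact (rep_mag hx h.1).trans (by exact_mod_cast h.2)

theorem rep_le {x : TM} {v : ℝ} {b : ℤ} (hx : Rep ρ x v) (h : le x b = true) :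
    v * 2 ^ 40 ≤ b := by
  unfold le at h
  rw [Bool.and_eq_true, decide_eq_true_eq] at h
  have h1 := (abs_le.1 (rep_abs_sub hx h.1)).2
  have h2 : ((dec x.c + (rad x : ℤ) : ℤ) : ℝ) ≤ (b : ℝ) := by exact_mod_cast h.2
  push_cast at h2
  linarith

theorem rep_ge {x : TM} {v : ℝ} {b : ℤ} (hx : Rep ρ x v) (h : ge x b = true) :
    (b : ℝ) ≤ v * 2 ^ 40 := by
  unfold ge at h
  rw [Bool.and_eq_true, decide_eq_true_eq] at h
  have h1 := (abs_le.1 (rep_abs_sub hx h.1)).1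
  have h2 : (b : ℝ) ≤ ((dec x.c - (rad x : ℤ) : ℤ) : ℝ) := by exact_mod_cast h.2
  push_cast at h2
  linarith

theorem rep_lowN {x : TM} {v : ℝ} (hx : Rep ρ x v) (hg : good x = true) (hl : 1 ≤ lowN x) :
    (lowN x : ℝ) ≤ v * 2 ^ 40 := by
  have h1 := (abs_le.1 (rep_abs_sub hx hg)).1
  unfold lowN at hl ⊢
  cases hb : Nat.ble 2596148429267413814265248164610048 x.c with
  | true =>
    rw [hb, cond_true] at hl
    exact absurd hl (by omega)
  | false =>
    rw [hb, cond_false] at hl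
    rw [cond_false]
    have h2 : x.c < 2 ^ 111 := by
      by_contra h3
      have h4 : Nat.ble 2596148429267413814265248164610048 x.c = true := by
        rw [Nat.ble_eq]
        omega
      rw [h4] at hb
      exact absurd hb (by decide)
    have h5 := dec_natCast h2
    have h6 : Nat.sub x.c (rad x) = x.c - rad x := rfl
    rw [h6] at hl ⊢
    have h7 : rad x ≤ x.c := by omega
    rw [Nat.cast_sub h7]
    rw [h5, Int.cast_natCast] at h1
    linarith

theorem TMd_div {m l : ℕ} {z : ℝ} (hl : 1 ≤ l) (h : z * l ≤ (m : ℝ) * 2 ^ 40) :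
    z ≤ ((Nat.add (Nat.div (Nat.mul m 1099511627776) l) 1 : ℕ) : ℝ) := by
  have h0 : 0 < l := hl
  have h1 : Nat.add (Nat.div (Nat.mul m 1099511627776) l) 1 = (m * 1099511627776) / l + 1 := rfl
  rw [h1]
  have h2 : m * 1099511627776 < l * ((m * 1099511627776) / l + 1) := Nat.lt_mul_div_succ _ h0
  have h3 : ((m * 1099511627776 : ℕ) : ℝ) < ((l * ((m * 1099511627776) / l + 1) : ℕ) : ℝ) := by
    exact_mod_cast h2
  rw [Nat.cast_mul, Nat.cast_mul] at h3
  have h4 : (0 : ℝ) < l := by exact_mod_cast h0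
  have h5 : (m : ℝ) * ((1099511627776 : ℕ) : ℝ) = (m : ℝ) * 2 ^ 40 := by norm_num
  rw [h5] at h3
  have h6 : z * l < (((m * 1099511627776) / l + 1 : ℕ) : ℝ) * l := by
    rw [mul_comm ((((m * 1099511627776) / l + 1 : ℕ)) : ℝ)]
    linarith
  exact (lt_of_mul_lt_mul_right h6 h4.le).le

theorem rep_inv2 {x y : TM} {v w : ℝ} (hx : Rep ρ x v) (hy : Rep ρ y w) :
    Rep ρ (inv2 x y) v⁻¹ := by
  have he : Rep ρ (sub (mul x y) one) (v * w - 1) := rep_sub (rep_mul hx hy) rep_one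
  unfold inv2 invV
  cases hb : (good x && good (sub (mul x y) one) && Nat.ble 1 (lowN x)) with
  | false =>
    rw [cond_false]
    exact rep_poison
  | true =>
    rw [cond_true]
    rw [Bool.and_eq_true, Bool.and_eq_true, Nat.ble_eq] at hb
    obtain ⟨⟨hgx, hge⟩, hl⟩ := hb
    have h1 := rep_lowN hx hgx hl
    have h2 := rep_mag he hge
    have h3 : (1 : ℝ) ≤ lowN x := by exact_mod_cast hl
    have hv : 0 < v := by
      by_contra h
      push Not at h
      have : v * 2 ^ 40 ≤ 0 := mul_nonpos_of_nonpos_of_nonneg h (by positivity)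
      linarith
    refine rep_blow hy (TMd_div hl ?_)
    have h4 : |v⁻¹ - w| * v = |v * w - 1| := by
      have : |v⁻¹ - w| * v = |(v⁻¹ - w) * v| := by rw [abs_mul, abs_of_pos hv]
      rw [this, sub_mul, inv_mul_cancel₀ hv.ne', abs_sub_comm, mul_comm w v]
    have h5 : |v⁻¹ - w| * 2 ^ 40 * lowN x ≤ |v⁻¹ - w| * 2 ^ 40 * (v * 2 ^ 40) :=
      mul_le_mul_of_nonneg_left h1 (by positivity)
    have h6 : |v⁻¹ - w| * 2 ^ 40 * (v * 2 ^ 40) = |v * w - 1| * 2 ^ 40 * 2 ^ 40 := by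
      rw [← h4]; ring
    rw [h6] at h5
    exact h5.trans (mul_le_mul_of_nonneg_right h2 (by positivity))

theorem rep_inv {x : TM} {v : ℝ} (hx : Rep ρ x v) : Rep ρ (inv x) v⁻¹ := by
  unfold inv inv1
  exact rep_inv2 hx (rep_fresh _)

theorem TMd_blow_n (y : TM) (m : ℕ) : (blow y m).n = y.n := rfl

theorem TMd_blow_r (y : TM) (m : ℕ) : (blow y m).r = y.r + m := rfl

theorem rep_sqrt2 {x y : TM} {v w : ℝ} (hx : Rep ρ x v) (hy : Rep ρ y w) :
    Rep ρ (sqrt2 x y) (Real.sqrt v) := by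
  have he : Rep ρ (sub (mul y y) x) (w * w - v) := rep_sub (rep_mul hy hy) hx
  unfold sqrt2 sqrtV
  cases hb : (good (sub (mul y y) x) && Nat.ble 1 (lowN y)) with
  | false =>
    rw [cond_false]
    exact rep_poison
  | true =>
    rw [cond_true]
    rw [Bool.and_eq_true, Nat.ble_eq] at hb
    obtain ⟨hge, hl⟩ := hb
    intro hn hr
    have hgy : good y = true := by
      rw [good_iff]
      rw [TMd_blow_n] at hn
      rw [TMd_blow_r] at hr
      exact ⟨hn, by omega⟩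
    have h1 := rep_lowN hy hgy hl
    have h2 := rep_mag he hge
    have h3 : (1 : ℝ) ≤ lowN y := by exact_mod_cast hl
    have hw : 0 < w := by
      by_contra h
      push Not at h
      have : w * 2 ^ 40 ≤ 0 := mul_nonpos_of_nonpos_of_nonneg h (by positivity)
      linarith
    refine rep_blow hy (TMd_div hl ?_) hn hr
    have h4 : |Real.sqrt v - w| * w ≤ |w * w - v| := by
      rcases le_or_gt 0 v with hv | hv
      · have hs := Real.mul_self_sqrt hv
        have hs0 := Real.sqrt_nonneg v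
        have e : w * w - v = -((Real.sqrt v - w) * (Real.sqrt v + w)) := by
          linear_combination hs
        rw [e, abs_neg, abs_mul, abs_of_nonneg (by positivity : 0 ≤ Real.sqrt v + w)]
        exact mul_le_mul_of_nonneg_left (by linarith) (abs_nonneg _)
      · rw [Real.sqrt_eq_zero_of_nonpos hv.le, zero_sub, abs_neg, abs_of_pos hw,
          abs_of_pos (by nlinarith)]
        linarith
    have h5 : |Real.sqrt v - w| * 2 ^ 40 * lowN y ≤ |Real.sqrt v - w| * 2 ^ 40 * (w * 2 ^ 40) :=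
      mul_le_mul_of_nonneg_left h1 (by positivity)
    have h6 : |Real.sqrt v - w| * 2 ^ 40 * (w * 2 ^ 40) =
        (|Real.sqrt v - w| * w) * 2 ^ 40 * 2 ^ 40 := by ring
    rw [h6] at h5
    refine h5.trans (mul_le_mul_of_nonneg_right ?_ (by positivity))
    exact (mul_le_mul_of_nonneg_right h4 (by positivity)).trans h2

theorem rep_sqrt {x : TM} {v : ℝ} (s : ℕ) (hx : Rep ρ x v) : Rep ρ (sqrt s x) (Real.sqrt v) := by
  unfold sqrt sqrt1
  exact rep_sqrt2 hx (rep_fresh _)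

end Pool.Agent.H20.Fib.TM
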