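import Pool.Agent.H20.Fib.Cell
import Pool.Agent.H20.Fib.Jet
import Pool.Agent.H20.Fib.TMd

/-!
# FB-7. Soundness of `image` and `ev6`

PROOF.  `image` is a straight line program; apply `rep_add`, `rep_sub`, `rep_neg`, `rep_dbl`, `rep_mul`,
`rep_inv`, `rep_sqrt`, `rep_one` line by line.  The formulas of `imgR` are literally the same
expressions (products in the same order where possible; else `ring_nf` / `congr` on the value).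
`Pre` and `image` use `match`: case on `i` (`0`, `1`, `n + 2`) and `show`.
-/

namespace Pool.Agent.H20.Fib

open TM

variable {ρ : Env}

/-- change the value -/
theorem ImgRep_cast {x : TM} {v w : ℝ} (h : Rep ρ x v) (e : v = w) : Rep ρ x w := e ▸ h

/-- value of a quadratic polynomial -/
noncomputable def ev6R (q : Q6) (τ u : ℝ) : ℝ :=
  (q.q0 + q.q1 * τ + q.q2 * u + q.q3 * τ ^ 2 + q.q4 * (τ * u) + q.q5 * u ^ 2) / 2 ^ 40

theorem rep_ev6 {q : Q6} {x1 x2 x3 x4 x5 : TM} {τ u : ℝ} (h1 : Rep ρ x1 τ) (h2 : Rep ρ x2 u)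
    (h3 : Rep ρ x3 (τ ^ 2)) (h4 : Rep ρ x4 (τ * u)) (h5 : Rep ρ x5 (u ^ 2)) :
    Rep ρ (ev6 q x1 x2 x3 x4 x5) (ev6R q τ u) := by
  obtain ⟨q0, q1, q2, q3, q4, q5⟩ := q
  exact rep_lc5 h1 h2 h3 h4 h5

/-- a model with nine given coefficients, each with its integer -/
theorem ImgRep_mk {c t u tt tu uu a0 a1 a2 n : ℕ} {c' t' u' tt' tu' uu' a0' a1' a2' : ℤ} {v : ℝ}
    (H : n < 2 ^ 110 → (c < 2 ^ 112 ∧ dec c = c') ∧ (t < 2 ^ 112 ∧ dec t = t') ∧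
      (u < 2 ^ 112 ∧ dec u = u') ∧ (tt < 2 ^ 112 ∧ dec tt = tt') ∧ (tu < 2 ^ 112 ∧ dec tu = tu') ∧
      (uu < 2 ^ 112 ∧ dec uu = uu') ∧ (a0 < 2 ^ 112 ∧ dec a0 = a0') ∧
      (a1 < 2 ^ 112 ∧ dec a1 = a1') ∧ (a2 < 2 ^ 112 ∧ dec a2 = a2'))
    (hn : |c'| + |t'| + |u'| + |tt'| + |tu'| + |uu'| + |a0'| + |a1'| + |a2'| ≤ (n : ℤ))
    (hv : v * 2 ^ 40 = c' + t' * ρ.t + u' * ρ.u + tt' * ρ.t ^ 2 + tu' * (ρ.t * ρ.u)
      + uu' * ρ.u ^ 2 + a0' * ρ.e0 + a1' * ρ.e1 + a2' * ρ.e2) :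
    Rep ρ ⟨c, t, u, tt, tu, uu, a0, a1, a2, n, 0⟩ v := by
  intro hn' _
  obtain ⟨⟨p1, q1⟩, ⟨p2, q2⟩, ⟨p3, q3⟩, ⟨p4, q4⟩, ⟨p5, q5⟩, ⟨p6, q6⟩, ⟨p7, q7⟩, ⟨p8, q8⟩, ⟨p9, q9⟩⟩ :=
    H hn'
  refine ⟨⟨p1, p2, p3, p4, p5, p6, p7, p8, p9⟩, ?_, ?_⟩
  · simp only [nrm]
    rw [q1, q2, q3, q4, q5, q6, q7, q8, q9]
    exact hn
  · simp only [val]
    rw [q1, q2, q3, q4, q5, q6, q7, q8, q9, hv, sub_self, abs_zero]
    simp

theorem ImgRep_zero : (0 : ℕ) < 2 ^ 112 ∧ dec 0 = 0 := ⟨by norm_num, dec_zero⟩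

theorem ImgRep_nat {m : ℕ} (h : m < 2 ^ 110) : m < 2 ^ 112 ∧ dec m = (m : ℤ) :=
  ⟨by omega, dec_natCast (by omega)⟩

theorem ImgRep_enc {a : ℤ} (h : a.natAbs < 2 ^ 110) : enc a < 2 ^ 112 ∧ dec (enc a) = a :=
  ⟨enc_lt (tmb_lt h), dec_enc (tmb_lt h)⟩

theorem rep_sym0 (m : ℕ) : Rep ρ (sym0 m) ((m : ℝ) / 2 ^ 40 * ρ.e0) := by
  refine ImgRep_mk (fun h => ⟨ImgRep_zero, ImgRep_zero, ImgRep_zero, ImgRep_zero, ImgRep_zero,
    ImgRep_zero, ImgRep_nat h, ImgRep_zero, ImgRep_zero⟩) ?_ ?_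
  · simp
  · push_cast; ring

theorem rep_sym1 (m : ℕ) : Rep ρ (sym1 m) ((m : ℝ) / 2 ^ 40 * ρ.e1) := by
  refine ImgRep_mk (fun h => ⟨ImgRep_zero, ImgRep_zero, ImgRep_zero, ImgRep_zero, ImgRep_zero,
    ImgRep_zero, ImgRep_zero, ImgRep_nat h, ImgRep_zero⟩) ?_ ?_
  · simp
  · push_cast; ring

theorem rep_sym2 (m : ℕ) : Rep ρ (sym2 m) ((m : ℝ) / 2 ^ 40 * ρ.e2) := by
  refine ImgRep_mk (fun h => ⟨ImgRep_zero, ImgRep_zero, ImgRep_zero, ImgRep_zero, ImgRep_zero,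
    ImgRep_zero, ImgRep_zero, ImgRep_zero, ImgRep_nat h⟩) ?_ ?_
  · simp
  · push_cast; ring

theorem rep_symU : Rep ρ symU ρ.u := by
  refine ImgRep_mk (fun h => ⟨ImgRep_zero, ImgRep_zero, ImgRep_nat h, ImgRep_zero, ImgRep_zero,
    ImgRep_zero, ImgRep_zero, ImgRep_zero, ImgRep_zero⟩) ?_ ?_
  · simp
  · push_cast; ring

theorem rep_symUU : Rep ρ symUU (ρ.u ^ 2) := by
  refine ImgRep_mk (fun h => ⟨ImgRep_zero, ImgRep_zero, ImgRep_zero, ImgRep_zero, ImgRep_zero,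
    ImgRep_nat h, ImgRep_zero, ImgRep_zero, ImgRep_zero⟩) ?_ ?_
  · simp
  · push_cast; ring

/-- quadratic polynomial in `U` -/
theorem rep_quadU (a b g : ℤ) :
    Rep ρ ⟨enc a, 0, enc b, 0, 0, enc g, 0, 0, 0, Nat.add a.natAbs (Nat.add b.natAbs g.natAbs), 0⟩
      ((a + b * ρ.u + g * ρ.u ^ 2) / 2 ^ 40) := by
  refine ImgRep_mk (c' := a) (t' := 0) (u' := b) (tt' := 0) (tu' := 0) (uu' := g) (a0' := 0)
    (a1' := 0) (a2' := 0) (fun h => ?_) ?_ ?_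
  · simp only [Nat.add_eq] at h
    exact ⟨ImgRep_enc (by omega), ImgRep_zero, ImgRep_enc (by omega), ImgRep_zero, ImgRep_zero,
      ImgRep_enc (by omega), ImgRep_zero, ImgRep_zero, ImgRep_zero⟩
  · simp only [Nat.add_eq]
    push_cast
    simp only [abs_zero, Int.abs_eq_natAbs]
    omega
  · push_cast; ring

theorem rep_tauOf {Z : TM} {z : ℝ} {mid : ℤ} (h : Rep ρ Z z) :
    Rep ρ (tauOf Z mid) ((z * 2 ^ 40 - mid) / 2 ^ 34) := by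
  unfold tauOf
  refine ImgRep_cast (rep_nsm (k := 64) (by norm_num) (rep_sub h rep_const)) ?_
  push_cast
  ring

attribute [local irreducible] TM.Rep TM.mul TM.add TM.sub TM.neg TM.inv TM.sqrt TM.one TM.nsm

theorem rep_preImg {kap Zt Xt St Tt : TM} {k1 Z X S T : ℝ} (s : ℕ) (hk : Rep ρ kap k1)
    (hZ : Rep ρ Zt Z) (hX : Rep ρ Xt X) (hS : Rep ρ St S) (hT : Rep ρ Tt T) :
    let a := preImg kap s Zt Xt St Tt
    Rep ρ a.Y (yR k1 Z X) ∧ Rep ρ a.Y1 (y1R k1 Z X S) ∧ Rep ρ a.W (wR k1 Z X) ∧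
      Rep ρ a.W1 (w1R k1 Z X S) ∧ Rep ρ a.W2 (w2R k1 Z X S T) ∧ Rep ρ a.V (vR k1 Z X) ∧
      Rep ρ a.V1 (v1R k1 Z X S) ∧ Rep ρ a.V2 (v2R k1 Z X S T) := by
  intro a
  have hXX := rep_mul hX hX
  have hZZ := rep_mul hZ hZ
  have hD : Rep ρ (sqrt s (sub (add (mul (mul Xt Xt) (mul Zt Zt)) kap)
      (add (mul Xt Xt) (mul Zt Zt)))) (rootR k1 Z X) :=
    rep_sqrt s (rep_sub (rep_add (rep_mul hXX hZZ) hk) (rep_add hXX hZZ))
  have hiD := rep_inv hD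
  have hY : Rep ρ a.Y (yR k1 Z X) := rep_add (rep_mul hX hZ) hD
  have hYZ := rep_mul hY hZ
  have hY1 : Rep ρ a.Y1 (y1R k1 Z X S) :=
    rep_mul (rep_add (rep_mul (rep_sub hYZ hX) hS) (rep_sub (rep_mul hX hY) hZ)) hiD
  have hY2 : Rep ρ (neg (mul (sub (add (add (mul a.Y1 a.Y1) (mul St St)) (add (mul Xt Tt) one))
    (add (mul Tt (mul a.Y Zt)) (dbl (add (mul (mul St a.Y1) Zt) (add (mul St a.Y) (mul Xt a.Y1))))))
    (inv (sqrt s (sub (add (mul (mul Xt Xt) (mul Zt Zt)) kap)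
      (add (mul Xt Xt) (mul Zt Zt))))))) (y2R k1 Z X S T) := by
    refine ImgRep_cast (rep_neg (rep_mul (rep_sub (rep_add (rep_add (rep_mul hY1 hY1)
      (rep_mul hS hS)) (rep_add (rep_mul hX hT) rep_one)) (rep_add (rep_mul hT hYZ)
      (rep_dbl (rep_add (rep_mul (rep_mul hS hY1) hZ) (rep_add (rep_mul hS hY)
        (rep_mul hX hY1)))))) hiD)) ?_
    unfold y2R
    ring
  have hW : Rep ρ a.W (wR k1 Z X) := rep_sub (rep_dbl hYZ) hX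
  have hW1 : Rep ρ a.W1 (w1R k1 Z X S) := rep_sub (rep_dbl (rep_add hY (rep_mul hZ hY1))) hS
  have hW2 : Rep ρ a.W2 (w2R k1 Z X S T) :=
    rep_sub (rep_dbl (rep_add (rep_dbl hY1) (rep_mul hZ hY2))) hT
  have hV : Rep ρ a.V (vR k1 Z X) := rep_sub (rep_dbl (rep_mul hW hZ)) hY
  have hV1 : Rep ρ a.V1 (v1R k1 Z X S) := rep_sub (rep_dbl (rep_add (rep_mul hW1 hZ) hW)) hY1
  have hV2 : Rep ρ a.V2 (v2R k1 Z X S T) :=
    rep_sub (rep_dbl (rep_add (rep_mul hW2 hZ) (rep_dbl hW1))) hY2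
  exact ⟨hY, hY1, hW, hW1, hW2, hV, hV1, hV2⟩

theorem rep_image {kap Zt Xt St Tt : TM} {k1 Z X S T : ℝ} (i s : ℕ) (hk : Rep ρ kap k1)
    (hZ : Rep ρ Zt Z) (hX : Rep ρ Xt X) (hS : Rep ρ St S) (hT : Rep ρ Tt T) :
    let a := image i kap s Zt Xt St Tt
    let b := imgR i k1 Z X S T
    Rep ρ a.X b.X ∧ Rep ρ a.Z b.Z ∧ Rep ρ a.S b.S ∧ Rep ρ a.T b.T ∧ Rep ρ a.q b.q ∧
      Rep ρ a.be b.be ∧ Rep ρ a.Y b.Y ∧ Rep ρ a.g b.g := by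
  obtain ⟨hY, hY1, hW, hW1, hW2, hV, hV1, hV2⟩ := rep_preImg s hk hZ hX hS hT
  unfold image
  generalize preImg kap s Zt Xt St Tt = P at *
  obtain ⟨Y, Y1, W, W1, W2, V, V1, V2⟩ := P
  simp only at hY hY1 hW hW1 hW2 hV hV1 hV2
  unfold imgR preR
  generalize rootR k1 Z X = d at *
  generalize yR k1 Z X = y at *
  generalize y1R k1 Z X S = y1 at *
  generalize wR k1 Z X = w at *
  generalize w1R k1 Z X S = w1 at *
  generalize w2R k1 Z X S T = w2 at *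
  generalize vR k1 Z X = v at *
  generalize v1R k1 Z X S = v1 at *
  generalize v2R k1 Z X S T = v2 at *
  match i with
  | 0 =>
    have hig := rep_inv (rep_neg hV1)
    have hbe := rep_mul (rep_neg hV2) (rep_mul hig hig)
    exact ⟨hZ, rep_neg hV, hig, rep_neg (rep_mul hig hbe), hig, hbe, rep_neg hW, rep_neg hV1⟩
  | 1 =>
    have hB1 := rep_sub (rep_one (ρ := ρ)) (rep_dbl (rep_add (rep_mul hV1 hW) (rep_mul hV hW1)))
    have hB2 := rep_neg (rep_dbl (rep_add (rep_add (rep_mul hV2 hW) (rep_dbl (rep_mul hV1 hW1)))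
      (rep_mul hV hW2)))
    have hig := rep_inv hB1
    have hbe := rep_mul hB2 (rep_mul hig hig)
    have hSc := rep_mul hW1 hig
    exact ⟨hW, rep_sub hZ (rep_dbl (rep_mul hV hW)), hSc,
      rep_sub (rep_mul hW2 (rep_mul hig hig)) (rep_mul hSc hbe), hig, hbe, rep_neg hV, hB1⟩
  | (n + 2) =>
    have hig := rep_inv hV1
    have hbe := rep_mul hV2 (rep_mul hig hig)
    exact ⟨hZ, hV, hig, rep_neg (rep_mul hig hbe), hig, hbe, hW, hV1⟩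

end Pool.Agent.H20.Fib
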