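import Pool.Agent.H20.Fib.Blk
import Pool.Agent.H20.Fib.D.Tab

/-!
# The model of `1 + lam^2 / 4` for `|lam - 1.394| ≤ 10^-9`
-/

namespace Pool.Agent.H20.Fib.D

open TM

theorem kapOK {lam : ℝ} (h : |lam - 1.394| ≤ 1 / 10 ^ 9) : KapOK lam kap := by
  intro ρ _ _
  rw [abs_le] at h
  obtain ⟨h1, h2⟩ := h
  refine ⟨?_, ?_, ?_⟩
  · unfold TM.red kap
    norm_num
  · unfold TM.nrm kap dec
    norm_num
  · unfold TM.val kap dec
    norm_num
    rw [abs_le]
    constructor <;> nlinarith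

end Pool.Agent.H20.Fib.D
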