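import Pool.Agent.H20.Fib.Blk

/-!
# FB-12. Soundness of `posPre`, `posZ`, `zLine`, `zGE`, `zLE` and of the escape check

PROOFS.
* `rep_posPre`: line by line as `rep_preImg` (values `rootR, yR, wR, vR`; note `W = 2 (Y Z) - X`).
* `rep_posZ`: `imgR i k1 Z X S T`'s `Z` does not depend on `S, T`; cases `i = 0, 1, n + 2`.
* `rep_line`: for a frame in the tube, `Z 2^40 = l.ev u`, environment `ρ` with `ρ.u = u`, and
  `ρ.e0 = (X - ev6R fX τ u) 2^40 / rX` (`τ = (Z 2^40 - mid)/2^34`, `|τ| ≤ 13/8` by `lineOK`;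
  `0` if `rX = 0`): `Rep ρ (zLine ...) (Z of the child)`, by `rep_quadU`, `rep_tauOf`, `rep_ev6`, `rep_posZ`, and for the
  value: for `i = 0, 1`, `n+2`: `Z` of `f.ch i` is `-V, 2 V W..`: use `Fr.next_eq` (`W = e1 xs (m+3)`,
  `V = e2 xs (m+4)`), and for `i = 1` `Z - 2 V W = -(e3 xs (m+5))` by the recursion of `xs` and `e1 e2 = e3`.
* `zGE_sound`, `zLE_sound`: `rep_sub`, `rep_ge` / `rep_le`.
* `gt1_spec`: `rep_ge`, `rep_le`.
* `esc_sound`: `escSeq_spec` by induction on `j`: if `a, b, c` represent `s1 x_n, s2 x_{n+1}, s3 x_{n+2}` with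
  signs `s1 s2 s3 = 1` then `2 (b c) - a` represents `s1 x_{n+3}` (`s2 s3 = s1`) and the new signs are
  `(s2, s3, s1)`.  Two consecutive half traces of absolute value `> 1` contradict `Sig`.
-/

namespace Pool.Agent.H20.Fib

open TM
open Pool.Agent.H98.Fib (xs Sig)

variable {ρ : Env}

section

attribute [local irreducible] TM.Rep TM.mul TM.add TM.sub TM.neg TM.inv TM.sqrt TM.one TM.nsm

theorem rep_posPre {kap Zt Xt : TM} {k1 Z X : ℝ} (s : ℕ) (hk : Rep ρ kap k1) (hZ : Rep ρ Zt Z)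
    (hX : Rep ρ Xt X) :
    Rep ρ (posPre kap s Zt Xt).1 (rootR k1 Z X) ∧ Rep ρ (posPre kap s Zt Xt).2.1 (yR k1 Z X) ∧
      Rep ρ (posPre kap s Zt Xt).2.2.1 (wR k1 Z X) ∧ Rep ρ (posPre kap s Zt Xt).2.2.2 (vR k1 Z X) := by
  have hXX := rep_mul hX hX
  have hZZ := rep_mul hZ hZ
  have hD : Rep ρ (posPre kap s Zt Xt).1 (rootR k1 Z X) :=
    rep_sqrt s (rep_sub (rep_add (rep_mul hXX hZZ) hk) (rep_add hXX hZZ))
  have hY : Rep ρ (posPre kap s Zt Xt).2.1 (yR k1 Z X) := rep_add (rep_mul hX hZ) hD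
  have hW : Rep ρ (posPre kap s Zt Xt).2.2.1 (wR k1 Z X) := rep_sub (rep_dbl (rep_mul hY hZ)) hX
  have hV : Rep ρ (posPre kap s Zt Xt).2.2.2 (vR k1 Z X) := rep_sub (rep_dbl (rep_mul hW hZ)) hY
  exact ⟨hD, hY, hW, hV⟩

theorem rep_posZ {kap Zt Xt : TM} {k1 Z X : ℝ} (i s : ℕ) (hk : Rep ρ kap k1) (hZ : Rep ρ Zt Z)
    (hX : Rep ρ Xt X) (S T : ℝ) : Rep ρ (posZ i kap s Zt Xt) (imgR i k1 Z X S T).Z := by
  obtain ⟨hD, hY, hW, hV⟩ := rep_posPre s hk hZ hX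
  unfold posZ
  generalize posPre kap s Zt Xt = P at *
  obtain ⟨D, Y, W, V⟩ := P
  simp only at hD hY hW hV
  unfold imgR preR
  match i with
  | 0 => exact rep_neg hV
  | 1 => exact rep_sub hZ (rep_dbl (rep_mul hV hW))
  | (n + 2) => exact hV

theorem LineS_tubeX {c : CellD} {mid : ℤ} {Zt : TM} {Z X : ℝ} (hZ : Rep ρ Zt Z)
    (hX : ev6R c.fX ((Z * 2 ^ 40 - mid) / 2 ^ 34) ρ.u + (c.rX : ℝ) / 2 ^ 40 * ρ.e0 = X) :
    Rep ρ (tubeX c mid Zt) X := by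
  have h1 := rep_tauOf (mid := mid) hZ
  have h3 := ImgRep_cast (rep_mul h1 h1) (sq _).symm
  exact ImgRep_cast (rep_add (rep_ev6 h1 rep_symU h3 (rep_mul h1 rep_symU) rep_symUU)
    (rep_sym0 c.rX)) hX

end

/-- The `Z` of the child from `posZ`. -/
theorem posZ_eq {lam E : ℝ} {f : Fr} (hf : f.ok) (hD : 0 < f.Y lam E - f.X lam E * f.Z lam E)
    (i : ℕ) (S T : ℝ) :
    (imgR i (1 + lam ^ 2 / 4) (f.Z lam E) (f.X lam E) S T).Z = (f.ch i).Z lam E := by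
  obtain ⟨hW, hV⟩ := Fr.next_eq hf hD
  obtain ⟨h1, h2, h3, h23, h13, h12⟩ := Fr.Step_ok hf
  match i with
  | 0 =>
    show -(vR (1 + lam ^ 2 / 4) (f.Z lam E) (f.X lam E)) = -f.e2 * xs lam E (f.m + 4)
    rw [hV]
    ring
  | 1 =>
    show f.Z lam E - 2 * (vR (1 + lam ^ 2 / 4) (f.Z lam E) (f.X lam E)
      * wR (1 + lam ^ 2 / 4) (f.Z lam E) (f.X lam E)) = -f.e3 * xs lam E (f.m + 5)
    rw [hW, hV]
    unfold Fr.Z
    have e5 : xs lam E (f.m + 5) = 2 * xs lam E (f.m + 4) * xs lam E (f.m + 3)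
      - xs lam E (f.m + 2) := rfl
    rw [e5]
    linear_combination (-(2 * (xs lam E (f.m + 4) * xs lam E (f.m + 3)))) * h12
  | (n + 2) =>
    show vR (1 + lam ^ 2 / 4) (f.Z lam E) (f.X lam E) = f.e2 * xs lam E (f.m + 4)
    exact hV

/-- an environment with given `t`, `u` and value of the first error symbol -/
theorem LineS_env {t u X A : ℝ} {r : ℕ} (ht : |t| ≤ 1) (hu : |u| ≤ 1)
    (h : |X - A| * 2 ^ 40 ≤ r) :
    ∃ ρ : Env, ρ.t = t ∧ ρ.u = u ∧ A + (r : ℝ) / 2 ^ 40 * ρ.e0 = X := by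
  rcases Nat.eq_zero_or_pos r with hr | hr
  · subst hr
    refine ⟨⟨t, u, 0, 0, 0, ht, hu, by simp, by simp, by simp⟩, rfl, rfl, ?_⟩
    have h1 : |X - A| ≤ 0 := by
      rw [Nat.cast_zero] at h
      nlinarith [abs_nonneg (X - A)]
    have h2 : X - A = 0 := abs_eq_zero.1 (le_antisymm h1 (abs_nonneg _))
    show A + ((0 : ℕ) : ℝ) / 2 ^ 40 * 0 = X
    rw [mul_zero]
    linarith
  · have hr' : (0 : ℝ) < r := by exact_mod_cast hr
    have he : |(X - A) * 2 ^ 40 / r| ≤ 1 := by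
      rw [abs_div, abs_mul, abs_of_pos hr', abs_of_pos (by positivity : (0 : ℝ) < 2 ^ 40),
        div_le_one hr']
      exact h
    refine ⟨⟨t, u, (X - A) * 2 ^ 40 / r, 0, 0, ht, hu, he, by simp, by simp⟩, rfl, rfl, ?_⟩
    show A + (r : ℝ) / 2 ^ 40 * ((X - A) * 2 ^ 40 / r) = X
    have hr'' : (r : ℝ) ≠ 0 := hr'.ne'
    have e : (r : ℝ) / 2 ^ 40 * ((X - A) * 2 ^ 40 / r) = X - A := by
      field_simp
    rw [e]
    ring

/-- the number in the checks -/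
theorem LineS_tau {Zt : TM} {mid : ℤ} {Z : ℝ} (hZ : Rep ρ Zt Z)
    (h : magLe (tauOf Zt mid) 1786706395136 = true) : |(Z * 2 ^ 40 - mid) / 2 ^ 34| ≤ 13 / 8 := by
  have h1 := rep_magLe (rep_tauOf (mid := mid) hZ) h
  have h2 : ((1786706395136 : ℕ) : ℝ) = 13 / 8 * 2 ^ 40 := by norm_num
  rw [h2] at h1
  exact le_of_mul_le_mul_right h1 (by positivity)

/-- Environment and `X` for a point of the tube, given a model of `Z`. -/
theorem LineS_point {lam : ℝ} {c : Cls} {u eta : ℝ} {f : Fr} {E : ℝ} {t : ℝ} (ht : |t| ≤ 1)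
    (hu : |u| ≤ 1) (hT : PT lam c u eta f E) {k : ℕ} (hk : k < c.len) {Zt : TM}
    (hZ : ∀ ρ : Env, ρ.t = t → ρ.u = u → Rep ρ Zt (f.Z lam E))
    (hm : magLe (tauOf Zt (c.mid k)) 1786706395136 = true) :
    ∃ ρ : Env, ρ.t = t ∧ ρ.u = u ∧ Rep ρ Zt (f.Z lam E) ∧
      Rep ρ (tubeX (c.cell k) (c.mid k) Zt) (f.X lam E) := by
  have hτ := LineS_tau (hZ ⟨t, u, 0, 0, 0, ht, hu, by simp, by simp, by simp⟩ rfl rfl) hm
  have hI := hT k hk _ hτ (by ring)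
  obtain ⟨ρ, h1, h2, h3⟩ := LineS_env ht hu hI.X
  refine ⟨ρ, h1, h2, hZ ρ h1 h2, LineS_tubeX (hZ ρ h1 h2) ?_⟩
  rw [h2]
  exact h3

/-- Environment for a point of the tube with given `u`. -/
theorem rep_line {lam : ℝ} {kap : TM} (hk : KapOK lam kap) {i : ℕ} {fl : Bool} {c : Cls}
    {l : LineD} (hl : lineOK c l = true) {u eta : ℝ} {f : Fr} {E : ℝ} (hf : f.ok)
    (hu : |u| ≤ 1) (hT : PT lam c u eta f E) (hD : 0 < f.Y lam E - f.X lam E * f.Z lam E)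
    (hz : f.Z lam E * 2 ^ 40 = l.ev u) :
    ∃ ρ : Env, ρ.u = u ∧ Rep ρ (zLine kap i fl c l) ((f.chF i fl).Z lam E) := by
  unfold lineOK at hl
  rw [Bool.and_eq_true] at hl
  obtain ⟨hl1, hl2⟩ := hl
  have hk' : l.k < c.len := by
    simpa [Nat.blt_eq] using hl1
  have hZ : ∀ ρ : Env, ρ.t = 0 → ρ.u = u → Rep ρ (quadU l.b0 l.b1 l.b2) (f.Z lam E) := by
    intro ρ _ h2
    refine ImgRep_cast (rep_quadU l.b0 l.b1 l.b2) ?_
    rw [h2]
    have : (l.b0 : ℝ) + l.b1 * u + l.b2 * u ^ 2 = f.Z lam E * 2 ^ 40 := hz.symm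
    rw [this]
    field_simp
  obtain ⟨ρ, -, h2, h3, h4⟩ := LineS_point (t := 0) (by simp) hu hT hk' hZ hl2
  refine ⟨ρ, h2, ?_⟩
  have h5 := ImgRep_cast (rep_posZ i l.s (hk ρ) h3 h4 0 0) (posZ_eq hf hD i 0 0)
  rw [Fr.chF_Z]
  unfold zLine
  cases fl with
  | false =>
    refine ImgRep_cast h5 ?_
    show _ = 1 * (f.ch i).Z lam E
    rw [one_mul]
  | true =>
    refine ImgRep_cast (rep_neg h5) ?_
    show _ = -1 * (f.ch i).Z lam E
    rw [neg_one_mul]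

theorem zGE_sound {lam : ℝ} {kap : TM} (hk : KapOK lam kap) {i : ℕ} {fl : Bool} {c : Cls}
    {l : LineD} {T : TM} {m : ℤ} (h : zGE kap i fl c l T m = true) {u eta : ℝ} {f : Fr} {E : ℝ}
    (hf : f.ok) (hu : |u| ≤ 1) (hT : PT lam c u eta f E)
    (hD : 0 < f.Y lam E - f.X lam E * f.Z lam E) (hz : f.Z lam E * 2 ^ 40 = l.ev u) {v : ℝ}
    (hv : ∀ ρ : Env, ρ.u = u → Rep ρ T v) :
    v * 2 ^ 40 + m ≤ (f.chF i fl).Z lam E * 2 ^ 40 := by
  unfold zGE at h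
  rw [Bool.and_eq_true] at h
  obtain ⟨ρ, h1, h2⟩ := rep_line (i := i) (fl := fl) hk h.1 hf hu hT hD hz
  have h3 := rep_ge (rep_sub h2 (hv ρ h1)) h.2
  linarith

theorem zLE_sound {lam : ℝ} {kap : TM} (hk : KapOK lam kap) {i : ℕ} {fl : Bool} {c : Cls}
    {l : LineD} {T : TM} {m : ℤ} (h : zLE kap i fl c l T m = true) {u eta : ℝ} {f : Fr} {E : ℝ}
    (hf : f.ok) (hu : |u| ≤ 1) (hT : PT lam c u eta f E)
    (hD : 0 < f.Y lam E - f.X lam E * f.Z lam E) (hz : f.Z lam E * 2 ^ 40 = l.ev u) {v : ℝ}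
    (hv : ∀ ρ : Env, ρ.u = u → Rep ρ T v) :
    (f.chF i fl).Z lam E * 2 ^ 40 ≤ v * 2 ^ 40 + m := by
  unfold zLE at h
  rw [Bool.and_eq_true] at h
  obtain ⟨ρ, h1, h2⟩ := rep_line (i := i) (fl := fl) hk h.1 hf hu hT hD hz
  have h3 := rep_le (rep_sub h2 (hv ρ h1)) h.2
  linarith

theorem gt1_spec {x : TM} {v : ℝ} (hx : Rep ρ x v) (h : gt1 x = true) : 1 < |v| := by
  unfold gt1 at h
  rw [Bool.or_eq_true] at h
  rcases h with h | h
  · have h1 := rep_ge hx h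
    have h2 : ((1099511627777 : ℤ) : ℝ) = 2 ^ 40 + 1 := by norm_num
    rw [h2] at h1
    rw [lt_abs]
    left
    nlinarith
  · have h1 := rep_le hx h
    have h2 : ((-1099511627777 : ℤ) : ℝ) = -(2 ^ 40 + 1) := by norm_num
    rw [h2] at h1
    rw [lt_abs]
    right
    nlinarith

theorem LineS_abs {s x : ℝ} (hs : s = 1 ∨ s = -1) (h : 1 < |s * x|) : 1 < |x| := by
  rcases hs with hs | hs
  · rw [hs, one_mul] at h
    exact h
  · rw [hs, neg_one_mul, abs_neg] at h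
    exact h

theorem LineS_seq {lam E : ℝ} (j : ℕ) : ∀ (a b c : TM) (s1 s2 s3 : ℝ) (n : ℕ),
    (s1 = 1 ∨ s1 = -1) → (s2 = 1 ∨ s2 = -1) → (s3 = 1 ∨ s3 = -1) → s1 * s2 * s3 = 1 →
    Rep ρ a (s1 * xs lam E n) → Rep ρ b (s2 * xs lam E (n + 1)) →
    Rep ρ c (s3 * xs lam E (n + 2)) → escSeq j a b c = true →
    ∃ m : ℕ, 1 < |xs lam E m| ∧ 1 < |xs lam E (m + 1)| := by
  induction j with
  | zero =>
    intro a b c s1 s2 s3 n h1 h2 h3 hp ha hb hc h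
    unfold escSeq at h
    rw [Bool.and_eq_true] at h
    exact ⟨n + 1, LineS_abs h2 (gt1_spec hb h.1), LineS_abs h3 (gt1_spec hc h.2)⟩
  | succ j ih =>
    intro a b c s1 s2 s3 n h1 h2 h3 hp ha hb hc h
    unfold escSeq at h
    refine ih b c _ s2 s3 s1 (n + 1) h2 h3 h1 (by linear_combination hp) hb hc ?_ h
    refine ImgRep_cast (rep_sub (rep_dbl (rep_mul hb hc)) ha) ?_
    have e : xs lam E (n + 1 + 2) = 2 * xs lam E (n + 2) * xs lam E (n + 1) - xs lam E n := rfl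
    have hs : s2 * s3 = s1 := by
      have : s1 ^ 2 = 1 := by rcases h1 with h | h <;> rw [h] <;> norm_num
      linear_combination s1 * hp - s2 * s3 * this
    rw [e]
    linear_combination (2 * xs lam E (n + 1) * xs lam E (n + 2)) * hs

theorem esc_sound {lam : ℝ} {kap : TM} (hk : KapOK lam kap) {c : Cls} {e : EscD}
    (hc : escCell kap c e = true) {u eta : ℝ} {f : Fr} {E : ℝ} (hf : f.ok) (hu : |u| ≤ 1)
    (hT : PT lam c u eta f E) (hD : 0 < f.Y lam E - f.X lam E * f.Z lam E)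
    (hz : |f.Z lam E * 2 ^ 40 - (e.z0 + e.z1 * u)| ≤ (e.h : ℝ)) : E ∉ Sig lam := by
  unfold escCell at hc
  simp only at hc
  rw [Bool.and_eq_true, Bool.and_eq_true, Bool.and_eq_true, decide_eq_true_eq] at hc
  obtain ⟨⟨⟨h1, h2⟩, h3⟩, h4⟩ := hc
  have hk' : e.k < c.len := by
    simpa [Nat.blt_eq] using h1
  have hh : (0 : ℝ) < e.h := by exact_mod_cast h2
  have ht : |(f.Z lam E * 2 ^ 40 - (e.z0 + e.z1 * u)) / e.h| ≤ 1 := by
    rw [abs_div, abs_of_pos hh, div_le_one hh]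
    exact hz
  have hZ : ∀ ρ : Env, ρ.t = (f.Z lam E * 2 ^ 40 - (e.z0 + e.z1 * u)) / e.h → ρ.u = u →
      Rep ρ (lin e.z0 e.h e.z1) (f.Z lam E) := by
    intro ρ g1 g2
    refine ImgRep_cast rep_lin ?_
    rw [g1, g2]
    have hh' : (e.h : ℝ) ≠ 0 := hh.ne'
    rw [mul_div_cancel₀ _ hh']
    field_simp
    ring
  obtain ⟨ρ, -, g2, g3, g4⟩ := LineS_point ht hu hT hk' hZ h3
  obtain ⟨-, hY, -, -⟩ := rep_posPre e.s (hk ρ) g3 g4
  rw [(Fr.rootR_eq hf hD).2] at hY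
  intro hS
  obtain ⟨m, m1, m2⟩ := LineS_seq (ρ := ρ) (lam := lam) (E := E) e.j _ _ _ f.e1 f.e2 f.e3 f.m
    hf.h1 hf.h2 hf.h3 hf.hp g4 hY g3 h4
  rcases hS m with h | h
  · exact absurd m1 (not_lt.2 h)
  · exact absurd m2 (not_lt.2 h)

end Pool.Agent.H20.Fib
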