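import Pool.Agent.H20.Fib.CellS
import Pool.Agent.H20.Fib.LineS
import Pool.Agent.H98.Fib.Blocks

/-!
# FB-13. The class table: states of words

A class table: `N` classes `cls n`, with arcs and escape pieces `dat n`.  The state of a word: class,
parameters, frame, orientation `o` (`o = true`: `Z` of the frame is decreasing in the energy).  The
canonical letter of the energy letter `j` is `j` or `2 - j`.

Planned instance `mkTube` of `Blocks.Tube` (file SysT.lean): `Z w = s f.Z`, `dZ w = s f.Z1`
(`s = sgF o`), `P w E`: tube, `0 < Y - X Z`, `0 < dZ`.  The strip of the energy letter `j` is (in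
`Z w`) `[lo, hi] / 2^40` of the canonical arc if `o = false` and `[-hi, -lo] / 2^40` if `o = true`; the
same for the inner lines `A`, `B` and for the ends `zl, zr` (from `[p, hi]` of the class).

PROOFS of the fields:
* `hd`: `Fr.hasDerivAt_Z`.  `hzl`, `hzr`: `TabOK.lo`, `hi`.
* `hp, hq, hpq, hord1, hord2`: `gapCheck` (`below_spec` for `|u| ≤ 1`) and `arcCheck` (`lo < A < B < hi`).
* `grow`, `step`: `cover_spec` + `cells_spec` + `cell_sound` (for a point of the strip some piece contains it).
  The child's orientation is `o xor fl`: `sgF (o xor fl) * f'.Z1 = sgF o * f.Z1 * g`, `g ≥ 2`, so `γ = 2`.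
* `atp`, `atq`, `atA`, `atB`: `endsCheck` with `zLE_sound`, `zGE_sound`, `rep_const` (cases `o`, `fl`).
* `exh` (`E ∈ Sig` gives some `i` with `A ≤ Z ≤ B`): the lines `A0 < B0 < A1 < B1 < A2 < B2` cut the range
  `[p, hi]` (canonical `Z`) in seven regions; the regions `[p, A0]`, `[B0, A1]`, `[B1, A2]`, `[B2, hi]` are
  covered by escape pieces (`coverE_spec`), `esc_sound`.
* `hm`: `f.m` grows by at least one each step.  `hZ`: signs, `m w = f.m + 2`.
-/

namespace Pool.Agent.H20.Fib

open TM
open Pool.Agent.H98.Fib (xs Sig)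

theorem Sys_ev (a b : ℤ) (u : ℝ) : LineD.ev ⟨a, b, 0, 0, 0⟩ u = a + b * u := by
  simp [LineD.ev]

theorem cover_spec {lo hi : LineD} {t : List Sub} (h : cover lo t hi = true) {u z : ℝ}
    (hu : |u| ≤ 1) (h1 : lo.ev u < z) (h2 : z ≤ hi.ev u) :
    ∃ e ∈ t, |z - (e.z0 + e.z1 * u)| ≤ (e.h : ℝ) := by
  induction t generalizing lo with
  | nil =>
    have h3 := below_spec h hu
    push_cast at h3
    linarith
  | cons e t ih =>
    rw [cover, Bool.and_eq_true] at h
    have h3 := below_spec h.1 hu
    rw [Sys_ev] at h3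
    push_cast at h3
    rcases le_or_gt z (e.z0 + e.h + e.z1 * u) with h4 | h4
    · refine ⟨e, List.mem_cons_self, ?_⟩
      rw [abs_le]
      constructor <;> linarith
    · obtain ⟨e', he', h5⟩ := ih h.2 (by rw [Sys_ev]; push_cast; linarith)
      exact ⟨e', List.mem_cons_of_mem _ he', h5⟩

/-- with equality on the left (a nonempty list) -/
theorem cover_spec' {lo hi : LineD} {t : List Sub} (h : cover lo t hi = true) {u z : ℝ}
    (hu : |u| ≤ 1) (h0 : lo.ev u < hi.ev u) (h1 : lo.ev u ≤ z) (h2 : z ≤ hi.ev u) :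
    ∃ e ∈ t, |z - (e.z0 + e.z1 * u)| ≤ (e.h : ℝ) := by
  rcases lt_or_eq_of_le h1 with h3 | h3
  · exact cover_spec h hu h3 h2
  · cases t with
    | nil =>
      have h4 := below_spec h hu
      push_cast at h4
      linarith
    | cons e t =>
      rw [cover, Bool.and_eq_true] at h
      have h5 := below_spec h.1 hu
      rw [Sys_ev] at h5
      push_cast at h5
      rcases le_or_gt z (e.z0 + e.h + e.z1 * u) with h4 | h4
      · refine ⟨e, List.mem_cons_self, ?_⟩
        rw [abs_le]
        constructor <;> linarith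
      · obtain ⟨e', he', h6⟩ := cover_spec h.2 hu (z := z) (by rw [Sys_ev]; push_cast; linarith) h2
        exact ⟨e', List.mem_cons_of_mem _ he', h6⟩

theorem cells_spec {kap : TM} {i : ℕ} {A : ArcD} {c d : Cls} {t : List Sub}
    (h : cellsCheck kap i A c d t = true) : ∀ e ∈ t, subOK kap i A c d e = true := by
  induction t with
  | nil => intro e he; exact absurd he List.not_mem_nil
  | cons a t ih =>
    rw [cellsCheck, Bool.and_eq_true] at h
    intro e he
    rcases List.mem_cons.1 he with rfl | he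
    · exact h.1
    · exact ih h.2 e he

theorem coverE_spec {lo hi : LineD} {t : List EscD} (h : coverE lo t hi = true) {u z : ℝ}
    (hu : |u| ≤ 1) (h1 : lo.ev u < z) (h2 : z ≤ hi.ev u) :
    ∃ e ∈ t, |z - (e.z0 + e.z1 * u)| ≤ (e.h : ℝ) := by
  induction t generalizing lo with
  | nil =>
    have h3 := below_spec h hu
    push_cast at h3
    linarith
  | cons e t ih =>
    rw [coverE, Bool.and_eq_true] at h
    have h3 := below_spec h.1 hu
    rw [Sys_ev] at h3
    push_cast at h3
    rcases le_or_gt z (e.z0 + e.h + e.z1 * u) with h4 | h4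
    · refine ⟨e, List.mem_cons_self, ?_⟩
      rw [abs_le]
      constructor <;> linarith
    · obtain ⟨e', he', h5⟩ := ih h.2 (by rw [Sys_ev]; push_cast; linarith)
      exact ⟨e', List.mem_cons_of_mem _ he', h5⟩

/-- with equality on the left -/
theorem coverE_spec' {lo hi : LineD} {t : List EscD} (h : coverE lo t hi = true) {u z : ℝ}
    (hu : |u| ≤ 1) (h0 : lo.ev u < hi.ev u) (h1 : lo.ev u ≤ z) (h2 : z ≤ hi.ev u) :
    ∃ e ∈ t, |z - (e.z0 + e.z1 * u)| ≤ (e.h : ℝ) := by
  rcases lt_or_eq_of_le h1 with h3 | h3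
  · exact coverE_spec h hu h3 h2
  · cases t with
    | nil =>
      have h4 := below_spec h hu
      push_cast at h4
      linarith
    | cons e t =>
      rw [coverE, Bool.and_eq_true] at h
      have h5 := below_spec h.1 hu
      rw [Sys_ev] at h5
      push_cast at h5
      rcases le_or_gt z (e.z0 + e.h + e.z1 * u) with h4 | h4
      · refine ⟨e, List.mem_cons_self, ?_⟩
        rw [abs_le]
        constructor <;> linarith
      · obtain ⟨e', he', h6⟩ := coverE_spec h.2 hu (z := z) (by rw [Sys_ev]; push_cast; linarith) h2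
        exact ⟨e', List.mem_cons_of_mem _ he', h6⟩

theorem esc_spec {kap : TM} {c : Cls} {t : List EscD} (h : escList kap c t = true) :
    ∀ e ∈ t, escCell kap c e = true := by
  induction t with
  | nil => intro e he; exact absurd he List.not_mem_nil
  | cons a t ih =>
    rw [escList, Bool.and_eq_true] at h
    intro e he
    rcases List.mem_cons.1 he with rfl | he
    · exact h.1
    · exact ih h.2 e he

/-- All checks of a class table. -/
structure TabOK (kap : TM) (N : ℕ) (cls : ℕ → Cls) (dat : ℕ → ClsD) : Prop where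
  gap : ∀ n, n < N → gapCheck kap (cls n) (dat n) = true
  nx : ∀ n, n < N → ∀ i, i < 3 → ((dat n).arc i).nx < N
  arc : ∀ n, n < N → ∀ i, i < 3 →
    arcCheck kap i ((dat n).arc i) (cls n) (cls ((dat n).arc i).nx) = true
  lo : ∀ n, n < N → -1099511627776 ≤ (cls n).p
  hi : ∀ n, n < N → (cls n).hi ≤ 1099511627776
  fl0 : ∀ n, n < N → (dat n).a0.fl = false
  fl2 : ∀ n, n < N → (dat n).a2.fl = true

/-- The state of a word. -/
structure WSt where
  ci : ℕ
  u : ℝ
  eta : ℝ
  f : Fr
  o : Bool

namespace WSt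

/-- canonical letter of an energy letter -/
def cl (o : Bool) (j : Fin 3) : ℕ :=
  match o with
  | false => j.val
  | true => 2 - j.val

theorem cl_lt (o : Bool) (j : Fin 3) : cl o j < 3 := by
  cases o with
  | false => exact j.isLt
  | true =>
    show 2 - j.val < 3
    omega

/-- the state of a child -/
noncomputable def ch (dat : ℕ → ClsD) (s : WSt) (j : Fin 3) : WSt :=
  ⟨((dat s.ci).arc (cl s.o j)).nx, ((dat s.ci).arc (cl s.o j)).up.uR s.u,
    ((dat s.ci).arc (cl s.o j)).up.etaR s.u s.eta, s.f.chF (cl s.o j) ((dat s.ci).arc (cl s.o j)).fl,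
    s.o ^^ ((dat s.ci).arc (cl s.o j)).fl⟩

/-- general facts -/
structure Good (N : ℕ) (s : WSt) : Prop where
  ci : s.ci < N
  u : |s.u| ≤ 1
  eta : |s.eta| ≤ 1
  f : s.f.ok

end WSt

/-- the state of a word (last letter first) below the state `s0` -/
noncomputable def wst (dat : ℕ → ClsD) (s0 : WSt) : List (Fin 3) → WSt
  | [] => s0
  | i :: w => (wst dat s0 w).ch dat i

theorem wst_good {kap : TM} {N : ℕ} {cls : ℕ → Cls} {dat : ℕ → ClsD} (hT : TabOK kap N cls dat)
    {s0 : WSt} (h0 : s0.Good N) (w : List (Fin 3)) : (wst dat s0 w).Good N := by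
  induction w with
  | nil => exact h0
  | cons j w ih =>
    obtain ⟨h1, h2, h3, h4⟩ := ih
    have hc := WSt.cl_lt (wst dat s0 w).o j
    have ha := hT.arc _ h1 _ hc
    have hup : updOK ((dat (wst dat s0 w).ci).arc (WSt.cl (wst dat s0 w).o j)).up = true := by
      unfold arcCheck at ha
      simp only [Bool.and_eq_true] at ha
      exact ha.1.1.1.1.1.1
    exact ⟨hT.nx _ h1 _ hc, Upd.uR_le hup h2, Upd.etaR_le hup h2 h3, Fr.chF_ok h4 _ _⟩

/-- the point `E` is in the tube of the state -/
structure WSt.Pt (lam : ℝ) (cls : ℕ → Cls) (s : WSt) (E : ℝ) : Prop where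
  tube : PT lam (cls s.ci) s.u s.eta s.f E
  pos : 0 < s.f.Y lam E - s.f.X lam E * s.f.Z lam E
  mono : 0 < sgF s.o * s.f.Z1 lam E

end Pool.Agent.H20.Fib
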