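import Mathlib

/-!
# Taylor models of degree two with integer coefficients, for evaluation in the kernel

A signed integer `x`, `|x| < 2^111`, is stored as the natural number `x mod 2^112`
(`enc`, `dec`), reals are scaled by `2^40`.  A Taylor model

  `c + t * T + u * U + tt * T^2 + tu * T * U + uu * U^2 + d0 * E0 + d1 * E1 + d2 * E2  (+- r)`

has nine signed coefficients, a bound `n` of the sum of their absolute values, and a radius `r`.
The symbols `T, U, E0, E1, E2` run through `[-1, 1]` (`Env`).  If `n` or `r` is at least `2^110`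
then the model says nothing (poison): this makes all operations total.
-/

namespace Pool.Agent.H20.Fib

/-- The integer stored in the natural number `x` (two's complement, 112 bits). -/
def dec (x : ℕ) : ℤ :=
  if x < 2596148429267413814265248164610048 then (x : ℤ)
  else (x : ℤ) - 5192296858534827628530496329220096

/-- Two's complement, 112 bits. -/
def enc : ℤ → ℕ
  | Int.ofNat n => n
  | Int.negSucc n => Nat.sub 5192296858534827628530496329220095 n

/-- Reduction modulo `2^112`. -/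
def rd (x : ℕ) : ℕ := Nat.mod x 5192296858534827628530496329220096

/-- Reduce modulo `2^112` and divide the stored integer by `2^40` (rounding down). -/
def sh (x : ℕ) : ℕ :=
  Nat.mod (Nat.add (Nat.shiftRight (Nat.mod (Nat.add x 2596148429267413814265248164610048)
    5192296858534827628530496329220096) 40) 5192296858532466445289061506613248)
    5192296858534827628530496329220096

/-- The absolute value of the stored integer. -/
def ab (x : ℕ) : ℕ :=
  Nat.add (Nat.xor x (Nat.mul (Nat.shiftRight x 111) 5192296858534827628530496329220095))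
    (Nat.shiftRight x 111)

/-- The negative of the stored integer. -/
def ng (x : ℕ) : ℕ :=
  Nat.mod (Nat.sub 5192296858534827628530496329220096 x) 5192296858534827628530496329220096

structure TM where
  c : ℕ
  t : ℕ
  u : ℕ
  tt : ℕ
  tu : ℕ
  uu : ℕ
  d0 : ℕ
  d1 : ℕ
  d2 : ℕ
  n : ℕ
  r : ℕ

/-- Values of the symbols. -/
structure Env where
  t : ℝ
  u : ℝ
  e0 : ℝ
  e1 : ℝ
  e2 : ℝ
  ht : |t| ≤ 1
  hu : |u| ≤ 1
  h0 : |e0| ≤ 1
  h1 : |e1| ≤ 1
  h2 : |e2| ≤ 1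

namespace TM

/-- The value of the polynomial part. -/
noncomputable def val (x : TM) (ρ : Env) : ℝ :=
  dec x.c + dec x.t * ρ.t + dec x.u * ρ.u + dec x.tt * ρ.t ^ 2 + dec x.tu * (ρ.t * ρ.u)
    + dec x.uu * ρ.u ^ 2 + dec x.d0 * ρ.e0 + dec x.d1 * ρ.e1 + dec x.d2 * ρ.e2

/-- The sum of the absolute values of the coefficients. -/
def nrm (x : TM) : ℤ :=
  |dec x.c| + |dec x.t| + |dec x.u| + |dec x.tt| + |dec x.tu| + |dec x.uu|
    + |dec x.d0| + |dec x.d1| + |dec x.d2|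

/-- All coefficients are reduced. -/
def red (x : TM) : Prop :=
  x.c < 2 ^ 112 ∧ x.t < 2 ^ 112 ∧ x.u < 2 ^ 112 ∧ x.tt < 2 ^ 112 ∧ x.tu < 2 ^ 112 ∧
    x.uu < 2 ^ 112 ∧ x.d0 < 2 ^ 112 ∧ x.d1 < 2 ^ 112 ∧ x.d2 < 2 ^ 112

/-- The Taylor model `x` represents the real number `v` at the point `ρ`. -/
def Rep (ρ : Env) (x : TM) (v : ℝ) : Prop :=
  x.n < 2 ^ 110 → x.r < 2 ^ 110 → x.red ∧ x.nrm ≤ (x.n : ℤ) ∧ |v * 2 ^ 40 - x.val ρ| ≤ (x.r : ℝ)

/-- poison flag: `0` if `a * b < 2^110`. -/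
def flag (a b : ℕ) : ℕ :=
  Nat.mul (Nat.shiftRight (Nat.mul (Nat.add a 1) (Nat.add b 1)) 110)
    1298074214633706907132624082305024

/-- constant `a / 2^40` (`a` an integer) -/
def const (a : ℤ) : TM := ⟨enc a, 0, 0, 0, 0, 0, 0, 0, 0, a.natAbs, 0⟩

/-- affine function `(a + b T + g U) / 2^40` -/
def lin (a b g : ℤ) : TM :=
  ⟨enc a, enc b, enc g, 0, 0, 0, 0, 0, 0, Nat.add a.natAbs (Nat.add b.natAbs g.natAbs), 0⟩

def add (x y : TM) : TM :=
  match x with
  | ⟨c1, t1, u1, tt1, tu1, uu1, a1, b1, e1, n1, r1⟩ =>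
    match y with
    | ⟨c2, t2, u2, tt2, tu2, uu2, a2, b2, e2, n2, r2⟩ =>
      ⟨rd (Nat.add c1 c2), rd (Nat.add t1 t2), rd (Nat.add u1 u2), rd (Nat.add tt1 tt2),
       rd (Nat.add tu1 tu2), rd (Nat.add uu1 uu2), rd (Nat.add a1 a2), rd (Nat.add b1 b2),
       rd (Nat.add e1 e2), Nat.add n1 n2, Nat.add r1 r2⟩

def neg (x : TM) : TM :=
  match x with
  | ⟨c1, t1, u1, tt1, tu1, uu1, a1, b1, e1, n1, r1⟩ =>
    ⟨ng c1, ng t1, ng u1, ng tt1, ng tu1, ng uu1, ng a1, ng b1, ng e1, n1, r1⟩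

def sub (x y : TM) : TM := add x (neg y)

/-- multiplication by a natural number -/
def nsm (k : ℕ) (x : TM) : TM :=
  match x with
  | ⟨c1, t1, u1, tt1, tu1, uu1, a1, b1, e1, n1, r1⟩ =>
    ⟨rd (Nat.mul k c1), rd (Nat.mul k t1), rd (Nat.mul k u1), rd (Nat.mul k tt1),
     rd (Nat.mul k tu1), rd (Nat.mul k uu1), rd (Nat.mul k a1), rd (Nat.mul k b1),
     rd (Nat.mul k e1), Nat.mul k n1, Nat.mul k r1⟩

/-- multiplication by `a / 2^40`, `a` an integer -/
def scE (k m : ℕ) (x : TM) : TM :=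
  match x with
  | ⟨c1, t1, u1, tt1, tu1, uu1, a1, b1, e1, n1, r1⟩ =>
    ⟨sh (Nat.mul k c1), sh (Nat.mul k t1), sh (Nat.mul k u1), sh (Nat.mul k tt1),
     sh (Nat.mul k tu1), sh (Nat.mul k uu1), sh (Nat.mul k a1), sh (Nat.mul k b1),
     sh (Nat.mul k e1), Nat.add (Nat.shiftRight (Nat.mul m n1) 40) 10,
     Nat.add (Nat.add (Nat.shiftRight (Nat.mul m r1) 40) 10) (flag m (Nat.add n1 r1))⟩

def sc (a : ℤ) (x : TM) : TM := scE (enc a) a.natAbs x

def mulAux (c1 t1 u1 tt1 tu1 uu1 a1 b1 e1 n1 r1 c2 t2 u2 tt2 tu2 uu2 a2 b2 e2 n2 r2 : ℕ)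
    (L1 Q1 D1 N1 L2 Q2 D2 N2 : ℕ) : TM :=
  ⟨sh (Nat.mul c1 c2),
   sh (Nat.add (Nat.mul c1 t2) (Nat.mul t1 c2)),
   sh (Nat.add (Nat.mul c1 u2) (Nat.mul u1 c2)),
   sh (Nat.add (Nat.add (Nat.mul c1 tt2) (Nat.mul tt1 c2)) (Nat.mul t1 t2)),
   sh (Nat.add (Nat.add (Nat.mul c1 tu2) (Nat.mul tu1 c2))
     (Nat.add (Nat.mul t1 u2) (Nat.mul u1 t2))),
   sh (Nat.add (Nat.add (Nat.mul c1 uu2) (Nat.mul uu1 c2)) (Nat.mul u1 u2)),
   sh (Nat.add (Nat.mul c1 a2) (Nat.mul a1 c2)),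
   sh (Nat.add (Nat.mul c1 b2) (Nat.mul b1 c2)),
   sh (Nat.add (Nat.mul c1 e2) (Nat.mul e1 c2)),
   Nat.add (Nat.shiftRight (Nat.mul N1 N2) 40) 10,
   Nat.add (Nat.add (Nat.add (Nat.shiftRight
     (Nat.add (Nat.add (Nat.mul L1 Q2) (Nat.mul Q1 (Nat.add L2 Q2)))
       (Nat.add (Nat.add (Nat.mul D1 (Nat.add (Nat.add L2 Q2) D2)) (Nat.mul (Nat.add L1 Q1) D2))
         (Nat.add (Nat.mul r1 (Nat.add N2 r2)) (Nat.mul r2 N1)))) 40) 10)
     (flag (Nat.add N1 r1) (Nat.add N2 r2)))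
     (Nat.mul (Nat.shiftRight (Nat.add n1 n2) 110) 1298074214633706907132624082305024)⟩

def mulAux2 (c1 t1 u1 tt1 tu1 uu1 a1 b1 e1 n1 r1 c2 t2 u2 tt2 tu2 uu2 a2 b2 e2 n2 r2 : ℕ)
    (L1 Q1 D1 L2 Q2 D2 : ℕ) : TM :=
  mulAux c1 t1 u1 tt1 tu1 uu1 a1 b1 e1 n1 r1 c2 t2 u2 tt2 tu2 uu2 a2 b2 e2 n2 r2
    L1 Q1 D1 (Nat.add (Nat.add (ab c1) L1) (Nat.add Q1 D1))
    L2 Q2 D2 (Nat.add (Nat.add (ab c2) L2) (Nat.add Q2 D2))

/-- product; the radius collects the dropped terms -/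
def mul (x y : TM) : TM :=
  match x with
  | ⟨c1, t1, u1, tt1, tu1, uu1, a1, b1, e1, n1, r1⟩ =>
    match y with
    | ⟨c2, t2, u2, tt2, tu2, uu2, a2, b2, e2, n2, r2⟩ =>
      mulAux2 c1 t1 u1 tt1 tu1 uu1 a1 b1 e1 n1 r1 c2 t2 u2 tt2 tu2 uu2 a2 b2 e2 n2 r2
        (Nat.add (ab t1) (ab u1)) (Nat.add (Nat.add (ab tt1) (ab tu1)) (ab uu1))
        (Nat.add (Nat.add (ab a1) (ab b1)) (ab e1))
        (Nat.add (ab t2) (ab u2)) (Nat.add (Nat.add (ab tt2) (ab tu2)) (ab uu2))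
        (Nat.add (Nat.add (ab a2) (ab b2)) (ab e2))

/-- sum of the absolute values of all coefficients except `c`, plus the radius -/
def rad (x : TM) : ℕ :=
  match x with
  | ⟨_, t1, u1, tt1, tu1, uu1, a1, b1, e1, _, r1⟩ =>
    Nat.add (Nat.add (Nat.add (Nat.add (ab t1) (ab u1)) (Nat.add (Nat.add (ab tt1) (ab tu1)) (ab uu1)))
      (Nat.add (Nat.add (ab a1) (ab b1)) (ab e1))) r1

/-- the model is not poisoned -/
def good (x : TM) : Bool :=
  (Nat.ble x.n 1298074214633706907132624082305023) && (Nat.ble x.r 1298074214633706907132624082305023)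

/-- bound of `|v| 2^40` -/
def mag (x : TM) : ℕ := Nat.add (ab x.c) (rad x)

/-- `v * 2^40 ≤ b` for all represented `v` (`b` an integer) -/
def le (x : TM) (b : ℤ) : Bool :=
  good x && decide ((dec x.c + (rad x : ℤ)) ≤ b)

/-- `b ≤ v * 2^40` for all represented `v` (`b` an integer) -/
def ge (x : TM) (b : ℤ) : Bool :=
  good x && decide (b ≤ (dec x.c - (rad x : ℤ)))

/-- `|v| * 2^40 ≤ b` for all represented `v` (`b` a natural number) -/
def magLe (x : TM) (b : ℕ) : Bool := good x && Nat.ble (mag x) b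

/-- enlarge the radius by `m` -/
def blow (x : TM) (m : ℕ) : TM :=
  match x with
  | ⟨c1, t1, u1, tt1, tu1, uu1, a1, b1, e1, n1, r1⟩ =>
    ⟨c1, t1, u1, tt1, tu1, uu1, a1, b1, e1, n1, Nat.add r1 m⟩

def one : TM := const 1099511627776

/-- lower bound of `v * 2^40` as a natural number (`0` if there is none) -/
def lowN (x : TM) : ℕ :=
  cond (Nat.ble 2596148429267413814265248164610048 x.c) 0 (Nat.sub x.c (rad x))

/-- Forget the radius: the model represents its own value. -/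
def fresh (x : TM) : TM :=
  match x with
  | ⟨c1, t1, u1, tt1, tu1, uu1, a1, b1, e1, _, _⟩ =>
    ⟨rd c1, rd t1, rd u1, rd tt1, rd tu1, rd uu1, rd a1, rd b1, rd e1,
     mag ⟨rd c1, rd t1, rd u1, rd tt1, rd tu1, rd uu1, rd a1, rd b1, rd e1, 0, 0⟩, 0⟩

/-- verified inverse: `y` is an approximate inverse of `x > 0`;
the error is at most `|x y - 1| / x`. -/
def invV (x y e : TM) : TM :=
  cond (good x && good e && Nat.ble 1 (lowN x))
    (blow y (Nat.add (Nat.div (Nat.mul (mag e) 1099511627776) (lowN x)) 1))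
    (blow y 1298074214633706907132624082305024)

/-- approximate inverse (Newton) -/
def invN (a : ℕ) (x e : TM) : TM := scE a a (add (add one e) (mul e e))

def inv2 (x y : TM) : TM := invV x y (sub (mul x y) one)


def inv1 (a : ℕ) (x : TM) : TM := inv2 x (fresh (invN a x (sub one (scE a a x))))

/-- inverse of a positive number -/
def inv (x : TM) : TM := inv1 (Nat.div 1208925819614629174706176 x.c) x

/-- verified square root: `y > 0` is an approximate root of `x`; error `|y^2 - x| / y`. -/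
def sqrtV (y e : TM) : TM :=
  cond (good e && Nat.ble 1 (lowN y))
    (blow y (Nat.add (Nat.div (Nat.mul (mag e) 1099511627776) (lowN y)) 1))
    (blow y 1298074214633706907132624082305024)

def sqrt2 (x y : TM) : TM := sqrtV y (sub (mul y y) x)

/-- approximate root, `s / 2^40` is an approximation of the root of the constant term,
`k` is about `2^79 / s` -/
def sqrtN (k : ℕ) (sT x : TM) : TM :=
  (fun h => sub (add sT h) (scE k k (mul h h))) (scE k k (sub x (mul sT sT)))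

def sqrt1 (k : ℕ) (sT x : TM) : TM := sqrt2 x (fresh (sqrtN k sT x))

/-- square root, `s` a hint -/
def sqrt (s : ℕ) (x : TM) : TM :=
  sqrt1 (Nat.div 604462909807314587353088 s) ⟨s, 0, 0, 0, 0, 0, 0, 0, 0, s, 0⟩ x

/-- the model at `T = 1` -/
def atP (x : TM) : TM :=
  match x with
  | ⟨c1, t1, u1, tt1, tu1, uu1, a1, b1, e1, n1, r1⟩ =>
    ⟨rd (Nat.add (Nat.add c1 t1) tt1), 0, rd (Nat.add u1 tu1), 0, 0, rd uu1, rd a1, rd b1, rd e1,
     n1, r1⟩

/-- `∫` over `T` from `-1` to `1` -/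
def integ (x : TM) : TM :=
  match x with
  | ⟨c1, _, u1, tt1, _, uu1, a1, b1, e1, n1, r1⟩ =>
    ⟨rd (Nat.add (Nat.mul 2 c1) (sh (Nat.mul 733007751850 tt1))), 0, rd (Nat.mul 2 u1), 0, 0,
     rd (Nat.mul 2 uu1), rd (Nat.mul 2 a1), rd (Nat.mul 2 b1), rd (Nat.mul 2 e1),
     Nat.add (Nat.mul 2 n1) 4,
     Nat.add (Nat.add (Nat.add (Nat.mul 2 r1) (Nat.shiftRight n1 40)) 4)
       (Nat.mul (Nat.shiftRight n1 70) 1298074214633706907132624082305024)⟩

/-- `∫` over `T` from `-1` to `T` -/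
def ai (x : TM) : TM :=
  match x with
  | ⟨c1, t1, u1, tt1, tu1, uu1, a1, b1, e1, n1, r1⟩ =>
    ⟨rd (Nat.add (Nat.add c1 (ng (sh (Nat.mul 549755813888 t1)))) (sh (Nat.mul 366503875925 tt1))),
     rd (Nat.add c1 (sh (Nat.mul 274877906944 tt1))),
     rd (Nat.add u1 (ng (sh (Nat.mul 274877906944 tu1)))),
     sh (Nat.mul 549755813888 t1), rd u1, rd uu1, rd a1, rd b1, rd e1,
     Nat.add (Nat.mul 2 n1) 8,
     Nat.add (Nat.add (Nat.add (Nat.add (Nat.mul 2 r1) (Nat.shiftRight (Nat.mul (ab tt1) 92) 10))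
       (Nat.add (Nat.shiftRight (ab tu1) 2) (Nat.add (ab uu1) (Nat.add (ab a1) (Nat.add (ab b1) (ab e1))))))
       (Nat.add (Nat.shiftRight n1 40) 10))
       (Nat.mul (Nat.shiftRight n1 70) 1298074214633706907132624082305024)⟩

/-- `exp` of a small model: the radius gets `m^5 / 100`, `m = mag x` -/
def expV (x z : TM) (m : ℕ) : TM :=
  cond (good x && Nat.ble m 274877906944)
    (blow z (Nat.add (Nat.div (Nat.shiftRight (Nat.mul (Nat.mul (Nat.mul m m) (Nat.mul m m)) m) 160) 100) 9))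
    (blow z 1298074214633706907132624082305024)

def expS (x y2 y3 y4 : TM) : TM :=
  add (add (add one x) (add (scE 549755813888 549755813888 y2) (scE 183251937962 183251937962 y3)))
    (scE 45812984490 45812984490 y4)

def exp2 (x y2 : TM) : TM := expV x (expS x y2 (mul x y2) (mul y2 y2)) (mag x)

def exp (x : TM) : TM := exp2 x (mul x x)

/-- `∑ q_i x_i` for five models, `q_i / 2^40` integers scaled, plus a constant -/
def lc5 (q0 q1 q2 q3 q4 q5 : ℤ) (x1 x2 x3 x4 x5 : TM) : TM :=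
  add (add (add (const q0) (sc q1 x1)) (add (sc q2 x2) (sc q3 x3))) (add (sc q4 x4) (sc q5 x5))

end TM

end Pool.Agent.H20.Fib
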