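import Pool.Agent.H20.Fib.TM

/-!
# FB-1. Two's complement: the lemmas about `dec`, `enc`, `rd`, `sh`, `ab`, `ng`

`dec x` is the integer `z` with `z = x mod 2^112`, `-2^111 <= z < 2^111` (for `x < 2^112`).
All statements are elementary; `2^112 = 5192296858534827628530496329220096`,
`2^111 = 2596148429267413814265248164610048`,
`5192296858532466445289061506613248 = 2^112 - 2^71`.

* `Cong x z`: the natural number `x` is congruent to the integer `z` modulo `2^112`.
* `dec_sh`: `x + 2^111 = z + 2^111 + k 2^112` with `0 <= z + 2^111 < 2^112`, so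
  `(x + 2^111) mod 2^112 = z + 2^111`, its quotient by `2^40` is `z / 2^40 + 2^71`.
* `ab_eq`: for `x < 2^111` the shift is `0`; else it is `1` and
  `x xor (2^112 - 1) = 2^112 - 1 - x` (compare bits: `Nat.testBit_xor`,
  `Nat.testBit_two_pow_sub_one`, `Nat.testBit_two_pow_sub_succ`).
-/

namespace Pool.Agent.H20.Fib

/-- `x` is congruent to `z` modulo `2^112`. -/
def Cong (x : ℕ) (z : ℤ) : Prop := ∃ k : ℤ, (x : ℤ) = z + k * 2 ^ 112

theorem Cong.add {x y : ℕ} {a b : ℤ} (hx : Cong x a) (hy : Cong y b) :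
    Cong (Nat.add x y) (a + b) := by
  obtain ⟨k, hk⟩ := hx
  obtain ⟨l, hl⟩ := hy
  refine ⟨k + l, ?_⟩
  rw [Nat.add_eq, Nat.cast_add, hk, hl]
  ring

theorem Cong.mul {x y : ℕ} {a b : ℤ} (hx : Cong x a) (hy : Cong y b) :
    Cong (Nat.mul x y) (a * b) := by
  obtain ⟨k, hk⟩ := hx
  obtain ⟨l, hl⟩ := hy
  refine ⟨a * l + k * b + k * l * 2 ^ 112, ?_⟩
  rw [Nat.mul_eq, Nat.cast_mul, hk, hl]
  ring

theorem cong_cast (x : ℕ) : Cong x (x : ℤ) := ⟨0, by ring⟩

theorem TMa_pow112 : (2 : ℤ) ^ 112 = 5192296858534827628530496329220096 := by norm_num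

theorem TMa_pow111 : (2 : ℤ) ^ 111 = 2596148429267413814265248164610048 := by norm_num

theorem TMa_npow112 : (2 : ℕ) ^ 112 = 5192296858534827628530496329220096 := by norm_num

theorem TMa_npow111 : (2 : ℕ) ^ 111 = 2596148429267413814265248164610048 := by norm_num

theorem TMa_npow110 : (2 : ℕ) ^ 110 = 1298074214633706907132624082305024 := by norm_num

theorem TMa_rd (x : ℕ) : rd x = x % 5192296858534827628530496329220096 := rfl

theorem TMa_sh (x : ℕ) : sh x =
    (((x + 2596148429267413814265248164610048) % 5192296858534827628530496329220096) / 2 ^ 40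
      + 5192296858532466445289061506613248) % 5192296858534827628530496329220096 := by
  rw [← Nat.shiftRight_eq_div_pow]
  rfl

theorem TMa_ng (x : ℕ) : ng x =
    (5192296858534827628530496329220096 - x) % 5192296858534827628530496329220096 := rfl

theorem TMa_ab (x : ℕ) : ab x =
    (x ^^^ (x / 2 ^ 111 * 5192296858534827628530496329220095)) + x / 2 ^ 111 := by
  rw [← Nat.shiftRight_eq_div_pow]
  rfl

theorem TMa_flag (a b : ℕ) : TM.flag a b =
    ((a + 1) * (b + 1)) / 2 ^ 110 * 1298074214633706907132624082305024 := by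
  rw [← Nat.shiftRight_eq_div_pow]
  rfl

theorem cong_dec (x : ℕ) : Cong x (dec x) := by
  unfold dec
  split_ifs with h
  · exact ⟨0, by ring⟩
  · exact ⟨1, by rw [TMa_pow112]; ring⟩

/-- a reduced residue determines the integer -/
theorem dec_of_cong {x : ℕ} {z : ℤ} (h : Cong x z) (hx : x < 2 ^ 112) (h1 : -(2 ^ 111) ≤ z)
    (h2 : z < 2 ^ 111) : dec x = z := by
  obtain ⟨k, hk⟩ := h
  rw [TMa_pow112] at hk
  rw [TMa_pow111] at h1 h2
  rw [TMa_npow112] at hx
  unfold dec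
  split_ifs with h <;> omega

theorem dec_bounds {x : ℕ} (hx : x < 2 ^ 112) : -(2 ^ 111) ≤ dec x ∧ dec x < 2 ^ 111 := by
  rw [TMa_npow112] at hx
  rw [TMa_pow111]
  unfold dec
  split_ifs with h <;> constructor <;> omega

theorem rd_lt (x : ℕ) : rd x < 2 ^ 112 := by
  rw [TMa_rd, TMa_npow112]
  exact Nat.mod_lt _ (by norm_num)

theorem cong_rd {x : ℕ} {z : ℤ} (h : Cong x z) : Cong (rd x) z := by
  obtain ⟨k, hk⟩ := h
  rw [TMa_pow112] at hk
  refine ⟨k - (x / 5192296858534827628530496329220096 : ℕ), ?_⟩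
  rw [TMa_rd, TMa_pow112]
  omega

theorem dec_rd {x : ℕ} {z : ℤ} (h : Cong x z) (h1 : |z| < 2 ^ 111) : dec (rd x) = z := by
  have h2 := abs_lt.1 h1
  exact dec_of_cong (cong_rd h) (rd_lt x) h2.1.le h2.2

theorem rd_of_lt {x : ℕ} (hx : x < 2 ^ 112) : rd x = x := by
  rw [TMa_npow112] at hx
  rw [TMa_rd]
  exact Nat.mod_eq_of_lt hx

theorem sh_lt (x : ℕ) : sh x < 2 ^ 112 := by
  rw [TMa_sh, TMa_npow112]
  exact Nat.mod_lt _ (by norm_num)

theorem dec_sh {x : ℕ} {z : ℤ} (h : Cong x z) (h1 : |z| < 2 ^ 111) : dec (sh x) = z / 2 ^ 40 := by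
  have h2 := abs_lt.1 h1
  obtain ⟨h3, h4⟩ := h2
  obtain ⟨k, hk⟩ := h
  rw [TMa_pow112] at hk
  rw [TMa_pow111] at h3 h4
  have e1 : (((x + 2596148429267413814265248164610048) %
      5192296858534827628530496329220096 : ℕ) : ℤ)
      = z + 2596148429267413814265248164610048 := by omega
  generalize hy : (x + 2596148429267413814265248164610048) %
      5192296858534827628530496329220096 = y at e1
  have e2 : (y : ℤ) / 2 ^ 40 = z / 2 ^ 40 + 2361183241434822606848 := by omega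
  have e3 : ((y / 2 ^ 40 : ℕ) : ℤ) = z / 2 ^ 40 + 2361183241434822606848 := by
    rw [← e2]; push_cast; rfl
  refine dec_of_cong ?_ (sh_lt x) ?_ ?_
  · rw [TMa_sh, hy]
    generalize y / 2 ^ 40 = w at e3 ⊢
    refine ⟨1 - ((w + 5192296858532466445289061506613248) /
      5192296858534827628530496329220096 : ℕ), ?_⟩
    rw [TMa_pow112]
    omega
  · rw [TMa_pow111]; omega
  · rw [TMa_pow111]; omega

/-- rounding error of `sh` -/
theorem dec_sh_real {x : ℕ} {z : ℤ} (h : Cong x z) (h1 : |z| < 2 ^ 111) :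
    |(dec (sh x) : ℝ) - (z : ℝ) / 2 ^ 40| ≤ 1 := by
  rw [dec_sh h h1]
  have e1 : z / 2 ^ 40 * 2 ^ 40 ≤ z := by omega
  have e2 : z < (z / 2 ^ 40 + 1) * 2 ^ 40 := by omega
  generalize z / 2 ^ 40 = w at e1 e2 ⊢
  have e3 : (w : ℝ) * 2 ^ 40 ≤ (z : ℝ) := by exact_mod_cast e1
  have e4 : (z : ℝ) < ((w : ℝ) + 1) * 2 ^ 40 := by exact_mod_cast e2
  have e5 : (w : ℝ) ≤ (z : ℝ) / 2 ^ 40 := by
    rw [le_div_iff₀ (by positivity)]; exact e3
  have e6 : (z : ℝ) / 2 ^ 40 < (w : ℝ) + 1 := by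
    rw [div_lt_iff₀ (by positivity)]; exact e4
  rw [abs_le]
  constructor <;> linarith

/-- size of the rounded integer -/
theorem abs_dec_sh {x : ℕ} {z : ℤ} (h : Cong x z) (h1 : |z| < 2 ^ 111) :
    (|dec (sh x)| : ℝ) ≤ (|z| : ℝ) / 2 ^ 40 + 1 := by
  have h2 := dec_sh_real h h1
  have h3 : |(z : ℝ) / 2 ^ 40| = |(z : ℝ)| / 2 ^ 40 := by
    rw [abs_div, abs_of_pos (show (0 : ℝ) < 2 ^ 40 by positivity)]
  have h4 := abs_sub_abs_le_abs_sub ((dec (sh x) : ℝ)) ((z : ℝ) / 2 ^ 40)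
  rw [h3] at h4
  linarith

theorem ng_lt (x : ℕ) : ng x < 2 ^ 112 := by
  rw [TMa_ng, TMa_npow112]
  exact Nat.mod_lt _ (by norm_num)

theorem cong_ng {x : ℕ} (hx : x < 2 ^ 112) : Cong (ng x) (-dec x) := by
  obtain ⟨k, hk⟩ := cong_dec x
  rw [TMa_pow112] at hk
  rw [TMa_npow112] at hx
  refine ⟨1 - k - ((5192296858534827628530496329220096 - x) /
      5192296858534827628530496329220096 : ℕ), ?_⟩
  rw [TMa_ng, TMa_pow112]
  omega

theorem dec_ng {x : ℕ} (hx : x < 2 ^ 112) (h : |dec x| < 2 ^ 111) : dec (ng x) = -dec x := by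
  have h2 := abs_lt.1 h
  exact dec_of_cong (cong_ng hx) (ng_lt x) (by linarith [h2.2]) (by linarith [h2.1])

theorem TMa_xor {x : ℕ} (hx : x < 2 ^ 112) : x ^^^ (2 ^ 112 - 1) = 2 ^ 112 - (x + 1) := by
  apply Nat.eq_of_testBit_eq
  intro i
  rw [Nat.testBit_xor, Nat.testBit_two_pow_sub_one, Nat.testBit_two_pow_sub_succ hx]
  by_cases hi : i < 112
  · simp [hi]
  · have h3 : x.testBit i = false := by
      apply Nat.testBit_lt_two_pow
      exact lt_of_lt_of_le hx (Nat.pow_le_pow_right (by norm_num) (by omega))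
    simp [hi, h3]

theorem ab_eq {x : ℕ} (hx : x < 2 ^ 112) : ((ab x : ℕ) : ℤ) = |dec x| := by
  rw [TMa_ab]
  have hx' := hx
  rw [TMa_npow112] at hx'
  unfold dec
  split_ifs with h
  · have e : x / 2 ^ 111 = 0 := by
      rw [TMa_npow111]
      exact Nat.div_eq_of_lt h
    rw [e, zero_mul, Nat.xor_zero, add_zero]
    rw [abs_of_nonneg (Int.natCast_nonneg x)]
  · have e : x / 2 ^ 111 = 1 := by
      rw [TMa_npow111]
      omega
    have e2 := TMa_xor hx
    rw [TMa_npow112] at e2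
    have e3 : (5192296858534827628530496329220096 : ℕ) - 1
      = 5192296858534827628530496329220095 := by norm_num
    rw [e3] at e2
    rw [e, one_mul, e2, abs_of_neg (by omega)]
    omega

theorem cong_enc {a : ℤ} (h : |a| < 2 ^ 111) : Cong (enc a) a := by
  have h2 := abs_lt.1 h
  rw [TMa_pow111] at h2
  cases a with
  | ofNat n => exact ⟨0, by simp [enc]⟩
  | negSucc n =>
    refine ⟨1, ?_⟩
    have e : enc (Int.negSucc n) = 5192296858534827628530496329220095 - n := rfl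
    rw [e, TMa_pow112]
    omega

theorem enc_lt {a : ℤ} (h : |a| < 2 ^ 111) : enc a < 2 ^ 112 := by
  have h2 := abs_lt.1 h
  rw [TMa_pow111] at h2
  rw [TMa_npow112]
  cases a with
  | ofNat n =>
    have e : enc (Int.ofNat n) = n := rfl
    rw [e]
    have h3 := h2.2
    simp only [Int.ofNat_eq_natCast] at h3
    omega
  | negSucc n =>
    have e : enc (Int.negSucc n) = 5192296858534827628530496329220095 - n := rfl
    rw [e]
    omega

theorem dec_enc {a : ℤ} (h : |a| < 2 ^ 111) : dec (enc a) = a := by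
  have h2 := abs_lt.1 h
  exact dec_of_cong (cong_enc h) (enc_lt h) h2.1.le h2.2

theorem dec_zero : dec 0 = 0 := by
  unfold dec
  rw [if_pos (by norm_num)]
  rfl

theorem dec_natCast {a : ℕ} (h : a < 2 ^ 111) : dec a = (a : ℤ) := by
  rw [TMa_npow111] at h
  unfold dec
  rw [if_pos h]

/-- the poison flag -/
theorem flag_lt {a b : ℕ} (h : TM.flag a b < 2 ^ 110) :
    TM.flag a b = 0 ∧ (a + 1) * (b + 1) < 2 ^ 110 := by
  rw [TMa_flag] at h ⊢
  have h2 : ((a + 1) * (b + 1)) / 2 ^ 110 = 0 := by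
    by_contra h3
    have h4 : 1 ≤ ((a + 1) * (b + 1)) / 2 ^ 110 := Nat.one_le_iff_ne_zero.2 h3
    have h5 : 1 * 1298074214633706907132624082305024 ≤
      ((a + 1) * (b + 1)) / 2 ^ 110 * 1298074214633706907132624082305024 :=
      Nat.mul_le_mul_right _ h4
    rw [TMa_npow110] at h
    rw [TMa_npow110] at h5
    omega
  refine ⟨by rw [h2, zero_mul], ?_⟩
  exact (Nat.div_eq_zero_iff_lt (by positivity)).1 h2

end Pool.Agent.H20.Fib
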