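import Pool.Agent.H20.Fib.TMa

/-!
# FB-2. Taylor models: the linear operations

`Rep ρ x v` (see TM.lean): if the norm bound `x.n` and the radius `x.r` are below `2^110` then all
coefficients are reduced, the sum of their absolute values is at most `x.n`, and
`|v 2^40 - val| <= x.r`.

PROOFS.  `const`, `lin`: `dec_enc`; the hypothesis `x.n < 2^110` gives `|a| < 2^110`.
`add`: from `n1 + n2 < 2^110` and `r1 + r2 < 2^110` both models are good, every sum of coefficients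
has absolute value `<= n1 + n2 < 2^110`, so `dec (rd (c1 + c2)) = dec c1 + dec c2` (`dec_rd`,
`Cong.add`, `cong_dec`).  `neg`: `dec_ng`.  `nsm`: the same with `Cong.mul`, `k >= 1`.
`scE`: `a = dec k` resp. `|a| = m`; the flag gives `m n < 2^110`; nine roundings of `dec_sh_real`, so the
error is at most `m r / 2^40 + 9 <= (m r) >> 40 + 10`, the norm at most `m n / 2^40 + 9`.
-/

namespace Pool.Agent.H20.Fib.TM

variable {ρ : Env}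

/-- every coefficient is bounded by the norm -/
theorem tmb_bd {x : TM} {B : ℤ} (h : x.nrm ≤ B) :
    |dec x.c| ≤ B ∧ |dec x.t| ≤ B ∧ |dec x.u| ≤ B ∧ |dec x.tt| ≤ B ∧ |dec x.tu| ≤ B ∧
      |dec x.uu| ≤ B ∧ |dec x.d0| ≤ B ∧ |dec x.d1| ≤ B ∧ |dec x.d2| ≤ B := by
  unfold nrm at h
  have h1 := abs_nonneg (dec x.c)
  have h2 := abs_nonneg (dec x.t)
  have h3 := abs_nonneg (dec x.u)
  have h4 := abs_nonneg (dec x.tt)
  have h5 := abs_nonneg (dec x.tu)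
  have h6 := abs_nonneg (dec x.uu)
  have h7 := abs_nonneg (dec x.d0)
  have h8 := abs_nonneg (dec x.d1)
  have h9 := abs_nonneg (dec x.d2)
  refine ⟨?_, ?_, ?_, ?_, ?_, ?_, ?_, ?_, ?_⟩ <;> linarith

theorem tmb_natAbs (a : ℤ) : |a| = (a.natAbs : ℤ) := Int.abs_eq_natAbs a

theorem tmb_lt {a : ℤ} (h : a.natAbs < 2 ^ 110) : |a| < 2 ^ 111 := by
  rw [tmb_natAbs]
  omega

theorem rep_const {a : ℤ} : Rep ρ (const a) ((a : ℝ) / 2 ^ 40) := by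
  intro hn hr
  have ha : |a| < 2 ^ 111 := tmb_lt hn
  refine ⟨⟨enc_lt ha, ?_⟩, ?_, ?_⟩
  · norm_num [const]
  · change |dec (enc a)| + |dec 0| + |dec 0| + |dec 0| + |dec 0| + |dec 0| + |dec 0| + |dec 0| +
      |dec 0| ≤ (a.natAbs : ℤ)
    rw [dec_enc ha, dec_zero, tmb_natAbs a]
    simp
  · change |(a : ℝ) / 2 ^ 40 * 2 ^ 40 - ((dec (enc a) : ℝ) + dec 0 * ρ.t + dec 0 * ρ.u +
      dec 0 * ρ.t ^ 2 + dec 0 * (ρ.t * ρ.u) + dec 0 * ρ.u ^ 2 + dec 0 * ρ.e0 + dec 0 * ρ.e1 +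
      dec 0 * ρ.e2)| ≤ ((0 : ℕ) : ℝ)
    rw [dec_enc ha, dec_zero, div_mul_cancel₀ _ (by positivity)]
    simp

theorem rep_one : Rep ρ one 1 := by
  have h := rep_const (ρ := ρ) (a := 1099511627776)
  have e : (((1099511627776 : ℤ) : ℝ)) / 2 ^ 40 = 1 := by norm_num
  rw [e] at h
  exact h

theorem rep_lin {a b g : ℤ} : Rep ρ (lin a b g) (((a : ℝ) + b * ρ.t + g * ρ.u) / 2 ^ 40) := by
  intro hn hr
  change Nat.add a.natAbs (Nat.add b.natAbs g.natAbs) < 2 ^ 110 at hn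
  simp only [Nat.add_eq] at hn
  have ha : |a| < 2 ^ 111 := tmb_lt (by omega)
  have hb : |b| < 2 ^ 111 := tmb_lt (by omega)
  have hg : |g| < 2 ^ 111 := tmb_lt (by omega)
  refine ⟨⟨enc_lt ha, enc_lt hb, enc_lt hg, ?_⟩, ?_, ?_⟩
  · norm_num [lin]
  · change |dec (enc a)| + |dec (enc b)| + |dec (enc g)| + |dec 0| + |dec 0| + |dec 0| + |dec 0| +
      |dec 0| + |dec 0| ≤ ((Nat.add a.natAbs (Nat.add b.natAbs g.natAbs) : ℕ) : ℤ)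
    rw [dec_enc ha, dec_enc hb, dec_enc hg, dec_zero, tmb_natAbs a, tmb_natAbs b, tmb_natAbs g]
    simp only [Nat.add_eq]
    push_cast
    simp only [abs_zero, add_zero]
    linarith
  · change |((a : ℝ) + b * ρ.t + g * ρ.u) / 2 ^ 40 * 2 ^ 40 - ((dec (enc a) : ℝ) +
      dec (enc b) * ρ.t + dec (enc g) * ρ.u +
      dec 0 * ρ.t ^ 2 + dec 0 * (ρ.t * ρ.u) + dec 0 * ρ.u ^ 2 + dec 0 * ρ.e0 + dec 0 * ρ.e1 +
      dec 0 * ρ.e2)| ≤ ((0 : ℕ) : ℝ)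
    rw [dec_enc ha, dec_enc hb, dec_enc hg, dec_zero, div_mul_cancel₀ _ (by positivity)]
    simp

theorem tmb_add {a b : ℕ} {A B : ℤ} (ha : |dec a| ≤ A) (hb : |dec b| ≤ B) (h : A + B < 2 ^ 110) :
    dec (rd (Nat.add a b)) = dec a + dec b := by
  refine dec_rd (Cong.add (cong_dec a) (cong_dec b)) ?_
  have := abs_add_le (dec a) (dec b)
  linarith

theorem rep_add {x y : TM} {v w : ℝ} (hx : Rep ρ x v) (hy : Rep ρ y w) :
    Rep ρ (add x y) (v + w) := by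
  obtain ⟨c1, t1, u1, tt1, tu1, uu1, a1, b1, e1, n1, r1⟩ := x
  obtain ⟨c2, t2, u2, tt2, tu2, uu2, a2, b2, e2, n2, r2⟩ := y
  intro hn hr
  change Nat.add n1 n2 < 2 ^ 110 at hn
  change Nat.add r1 r2 < 2 ^ 110 at hr
  simp only [Nat.add_eq] at hn hr
  obtain ⟨-, x2, x3⟩ := hx (by change n1 < _; omega) (by change r1 < _; omega)
  obtain ⟨-, y2, y3⟩ := hy (by change n2 < _; omega) (by change r2 < _; omega)
  obtain ⟨f1, f2, f3, f4, f5, f6, f7, f8, f9⟩ := tmb_bd x2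
  obtain ⟨g1, g2, g3, g4, g5, g6, g7, g8, g9⟩ := tmb_bd y2
  have hAB : (n1 : ℤ) + (n2 : ℤ) < 2 ^ 110 := by omega
  simp only at f1 f2 f3 f4 f5 f6 f7 f8 f9 g1 g2 g3 g4 g5 g6 g7 g8 g9
  refine ⟨⟨rd_lt _, rd_lt _, rd_lt _, rd_lt _, rd_lt _, rd_lt _, rd_lt _, rd_lt _, rd_lt _⟩,
    ?_, ?_⟩
  · change |dec (rd (Nat.add c1 c2))| + |dec (rd (Nat.add t1 t2))| + |dec (rd (Nat.add u1 u2))| +
      |dec (rd (Nat.add tt1 tt2))| + |dec (rd (Nat.add tu1 tu2))| + |dec (rd (Nat.add uu1 uu2))| +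
      |dec (rd (Nat.add a1 a2))| + |dec (rd (Nat.add b1 b2))| + |dec (rd (Nat.add e1 e2))| ≤
      ((Nat.add n1 n2 : ℕ) : ℤ)
    rw [tmb_add f1 g1 hAB, tmb_add f2 g2 hAB, tmb_add f3 g3 hAB, tmb_add f4 g4 hAB,
      tmb_add f5 g5 hAB, tmb_add f6 g6 hAB, tmb_add f7 g7 hAB, tmb_add f8 g8 hAB,
      tmb_add f9 g9 hAB]
    simp only [nrm] at x2 y2
    have k1 := abs_add_le (dec c1) (dec c2)
    have k2 := abs_add_le (dec t1) (dec t2)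
    have k3 := abs_add_le (dec u1) (dec u2)
    have k4 := abs_add_le (dec tt1) (dec tt2)
    have k5 := abs_add_le (dec tu1) (dec tu2)
    have k6 := abs_add_le (dec uu1) (dec uu2)
    have k7 := abs_add_le (dec a1) (dec a2)
    have k8 := abs_add_le (dec b1) (dec b2)
    have k9 := abs_add_le (dec e1) (dec e2)
    have k0 : ((Nat.add n1 n2 : ℕ) : ℤ) = n1 + n2 := by simp
    rw [k0]
    linarith
  · have hv : (add ⟨c1, t1, u1, tt1, tu1, uu1, a1, b1, e1, n1, r1⟩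
        ⟨c2, t2, u2, tt2, tu2, uu2, a2, b2, e2, n2, r2⟩).val ρ =
        val ⟨c1, t1, u1, tt1, tu1, uu1, a1, b1, e1, n1, r1⟩ ρ +
        val ⟨c2, t2, u2, tt2, tu2, uu2, a2, b2, e2, n2, r2⟩ ρ := by
      simp only [add, val]
      rw [tmb_add f1 g1 hAB, tmb_add f2 g2 hAB, tmb_add f3 g3 hAB, tmb_add f4 g4 hAB,
        tmb_add f5 g5 hAB, tmb_add f6 g6 hAB, tmb_add f7 g7 hAB, tmb_add f8 g8 hAB,
        tmb_add f9 g9 hAB]
      push_cast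
      ring
    rw [hv]
    have k0 : ((add ⟨c1, t1, u1, tt1, tu1, uu1, a1, b1, e1, n1, r1⟩
        ⟨c2, t2, u2, tt2, tu2, uu2, a2, b2, e2, n2, r2⟩).r : ℝ) = r1 + r2 := by
      simp [add]
    rw [k0]
    simp only at x3 y3
    have e3 : (v + w) * 2 ^ 40 - (val ⟨c1, t1, u1, tt1, tu1, uu1, a1, b1, e1, n1, r1⟩ ρ +
        val ⟨c2, t2, u2, tt2, tu2, uu2, a2, b2, e2, n2, r2⟩ ρ) =
        (v * 2 ^ 40 - val ⟨c1, t1, u1, tt1, tu1, uu1, a1, b1, e1, n1, r1⟩ ρ) +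
        (w * 2 ^ 40 - val ⟨c2, t2, u2, tt2, tu2, uu2, a2, b2, e2, n2, r2⟩ ρ) := by ring
    rw [e3]
    exact (abs_add_le _ _).trans (add_le_add x3 y3)

theorem tmb_neg {a : ℕ} {A : ℤ} (h0 : a < 2 ^ 112) (ha : |dec a| ≤ A) (h : A < 2 ^ 110) :
    dec (ng a) = - dec a := by
  refine dec_ng h0 ?_
  linarith

theorem rep_neg {x : TM} {v : ℝ} (hx : Rep ρ x v) : Rep ρ (neg x) (-v) := by
  obtain ⟨c1, t1, u1, tt1, tu1, uu1, a1, b1, e1, n1, r1⟩ := x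
  intro hn hr
  change n1 < 2 ^ 110 at hn
  change r1 < 2 ^ 110 at hr
  obtain ⟨⟨z1, z2, z3, z4, z5, z6, z7, z8, z9⟩, x2, x3⟩ := hx hn hr
  obtain ⟨f1, f2, f3, f4, f5, f6, f7, f8, f9⟩ := tmb_bd x2
  have hA : (n1 : ℤ) < 2 ^ 110 := by omega
  simp only at f1 f2 f3 f4 f5 f6 f7 f8 f9 z1 z2 z3 z4 z5 z6 z7 z8 z9
  refine ⟨⟨ng_lt _, ng_lt _, ng_lt _, ng_lt _, ng_lt _, ng_lt _, ng_lt _, ng_lt _, ng_lt _⟩,
    ?_, ?_⟩
  · change |dec (ng c1)| + |dec (ng t1)| + |dec (ng u1)| + |dec (ng tt1)| + |dec (ng tu1)| +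
      |dec (ng uu1)| + |dec (ng a1)| + |dec (ng b1)| + |dec (ng e1)| ≤ (n1 : ℤ)
    rw [tmb_neg z1 f1 hA, tmb_neg z2 f2 hA, tmb_neg z3 f3 hA, tmb_neg z4 f4 hA, tmb_neg z5 f5 hA,
      tmb_neg z6 f6 hA, tmb_neg z7 f7 hA, tmb_neg z8 f8 hA, tmb_neg z9 f9 hA]
    simp only [abs_neg]
    exact x2
  · have hv : (neg ⟨c1, t1, u1, tt1, tu1, uu1, a1, b1, e1, n1, r1⟩).val ρ =
        - val ⟨c1, t1, u1, tt1, tu1, uu1, a1, b1, e1, n1, r1⟩ ρ := by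
      simp only [neg, val]
      rw [tmb_neg z1 f1 hA, tmb_neg z2 f2 hA, tmb_neg z3 f3 hA, tmb_neg z4 f4 hA,
        tmb_neg z5 f5 hA, tmb_neg z6 f6 hA, tmb_neg z7 f7 hA, tmb_neg z8 f8 hA, tmb_neg z9 f9 hA]
      push_cast
      ring
    rw [hv]
    have e3 : (-v) * 2 ^ 40 - (- val ⟨c1, t1, u1, tt1, tu1, uu1, a1, b1, e1, n1, r1⟩ ρ) =
        - (v * 2 ^ 40 - val ⟨c1, t1, u1, tt1, tu1, uu1, a1, b1, e1, n1, r1⟩ ρ) := by ring
    rw [e3, abs_neg]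
    exact x3

theorem rep_sub {x y : TM} {v w : ℝ} (hx : Rep ρ x v) (hy : Rep ρ y w) :
    Rep ρ (sub x y) (v - w) := by
  rw [sub_eq_add_neg]
  exact rep_add hx (rep_neg hy)

theorem tmb_nsm {a k n : ℕ} (ha : |dec a| ≤ (n : ℤ)) (h : k * n < 2 ^ 110) :
    dec (rd (Nat.mul k a)) = k * dec a := by
  refine dec_rd (Cong.mul (cong_cast k) (cong_dec a)) ?_
  rw [abs_mul, Nat.abs_cast]
  have h1 : (k : ℤ) * |dec a| ≤ k * n := mul_le_mul_of_nonneg_left ha (by positivity)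
  have h2 : (k : ℤ) * n < 2 ^ 110 := by exact_mod_cast h
  linarith

theorem rep_nsm {x : TM} {v : ℝ} {k : ℕ} (hk : 1 ≤ k) (hx : Rep ρ x v) :
    Rep ρ (nsm k x) (k * v) := by
  obtain ⟨c1, t1, u1, tt1, tu1, uu1, a1, b1, e1, n1, r1⟩ := x
  intro hn hr
  change Nat.mul k n1 < 2 ^ 110 at hn
  change Nat.mul k r1 < 2 ^ 110 at hr
  simp only [Nat.mul_eq] at hn hr
  have hn1 : n1 ≤ k * n1 := Nat.le_mul_of_pos_left _ hk
  have hr1 : r1 ≤ k * r1 := Nat.le_mul_of_pos_left _ hk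
  obtain ⟨-, x2, x3⟩ := hx (hn1.trans_lt hn) (hr1.trans_lt hr)
  obtain ⟨f1, f2, f3, f4, f5, f6, f7, f8, f9⟩ := tmb_bd x2
  simp only at f1 f2 f3 f4 f5 f6 f7 f8 f9
  refine ⟨⟨rd_lt _, rd_lt _, rd_lt _, rd_lt _, rd_lt _, rd_lt _, rd_lt _, rd_lt _, rd_lt _⟩,
    ?_, ?_⟩
  · change |dec (rd (Nat.mul k c1))| + |dec (rd (Nat.mul k t1))| + |dec (rd (Nat.mul k u1))| +
      |dec (rd (Nat.mul k tt1))| + |dec (rd (Nat.mul k tu1))| + |dec (rd (Nat.mul k uu1))| +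
      |dec (rd (Nat.mul k a1))| + |dec (rd (Nat.mul k b1))| + |dec (rd (Nat.mul k e1))| ≤
      ((Nat.mul k n1 : ℕ) : ℤ)
    rw [tmb_nsm f1 hn, tmb_nsm f2 hn, tmb_nsm f3 hn, tmb_nsm f4 hn, tmb_nsm f5 hn, tmb_nsm f6 hn,
      tmb_nsm f7 hn, tmb_nsm f8 hn, tmb_nsm f9 hn]
    simp only [abs_mul, Nat.abs_cast]
    have k0 : ((Nat.mul k n1 : ℕ) : ℤ) = k * n1 := by simp
    rw [k0]
    simp only [nrm] at x2
    have := mul_le_mul_of_nonneg_left x2 (show (0 : ℤ) ≤ k by positivity)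
    linarith
  · have hv : (nsm k ⟨c1, t1, u1, tt1, tu1, uu1, a1, b1, e1, n1, r1⟩).val ρ =
        k * val ⟨c1, t1, u1, tt1, tu1, uu1, a1, b1, e1, n1, r1⟩ ρ := by
      simp only [nsm, val]
      rw [tmb_nsm f1 hn, tmb_nsm f2 hn, tmb_nsm f3 hn, tmb_nsm f4 hn, tmb_nsm f5 hn,
        tmb_nsm f6 hn, tmb_nsm f7 hn, tmb_nsm f8 hn, tmb_nsm f9 hn]
      push_cast
      ring
    rw [hv]
    have k0 : ((nsm k ⟨c1, t1, u1, tt1, tu1, uu1, a1, b1, e1, n1, r1⟩).r : ℝ) = k * r1 := by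
      simp [nsm]
    rw [k0]
    have e3 : (k : ℝ) * v * 2 ^ 40 - (k * val ⟨c1, t1, u1, tt1, tu1, uu1, a1, b1, e1, n1, r1⟩ ρ) =
        k * (v * 2 ^ 40 - val ⟨c1, t1, u1, tt1, tu1, uu1, a1, b1, e1, n1, r1⟩ ρ) := by ring
    rw [e3, abs_mul, Nat.abs_cast]
    exact mul_le_mul_of_nonneg_left x3 (by positivity)

theorem rep_dbl {x : TM} {v : ℝ} (hx : Rep ρ x v) : Rep ρ (nsm 2 x) (2 * v) := by
  have := rep_nsm (k := 2) (by norm_num) hx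
  simpa using this

theorem tmb_shift (a : ℕ) : (a : ℝ) / 2 ^ 40 ≤ (Nat.shiftRight a 40 : ℕ) + 1 := by
  have h1 : Nat.shiftRight a 40 = a / 2 ^ 40 := Nat.shiftRight_eq_div_pow a 40
  rw [h1, div_le_iff₀ (by positivity)]
  have h2 : a < (a / 2 ^ 40 + 1) * 2 ^ 40 := by omega
  exact_mod_cast h2.le

/-- the rounded coefficients -/
theorem tmb_sc {a k m n : ℕ} (hm : |dec k| ≤ (m : ℤ)) (ha : |dec a| ≤ (n : ℤ))
    (h : m * n < 2 ^ 110) :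
    |(dec (sh (Nat.mul k a)) : ℝ) - (dec k : ℝ) / 2 ^ 40 * dec a| ≤ 1 ∧
      (|dec (sh (Nat.mul k a))| : ℝ) ≤ (m : ℝ) / 2 ^ 40 * |(dec a : ℝ)| + 1 := by
  have hz : |dec k * dec a| < 2 ^ 111 := by
    rw [abs_mul]
    have h1 : |dec k| * |dec a| ≤ m * n := mul_le_mul hm ha (abs_nonneg _) (by positivity)
    have h2 : (m : ℤ) * n < 2 ^ 110 := by exact_mod_cast h
    linarith
  have hc := Cong.mul (cong_dec k) (cong_dec a)
  constructor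
  · have h3 := dec_sh_real hc hz
    have e : ((dec k * dec a : ℤ) : ℝ) / 2 ^ 40 = (dec k : ℝ) / 2 ^ 40 * dec a := by
      push_cast
      ring
    rwa [e] at h3
  · have h3 := abs_dec_sh hc hz
    refine h3.trans ?_
    have h4 : |(dec k : ℝ)| ≤ m := by exact_mod_cast hm
    have e : |(((dec k * dec a : ℤ)) : ℝ)| / 2 ^ 40 = |(dec k : ℝ)| / 2 ^ 40 * |(dec a : ℝ)| := by
      push_cast
      rw [abs_mul]
      ring
    rw [e]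
    have h5 : |(dec k : ℝ)| / 2 ^ 40 ≤ m / 2 ^ 40 := by gcongr
    have := mul_le_mul_of_nonneg_right h5 (abs_nonneg (dec a : ℝ))
    linarith

theorem tmb_mul_le {d s : ℝ} (hd : |d| ≤ 1) (hs : |s| ≤ 1) : |d * s| ≤ 1 := by
  rw [abs_mul]
  exact mul_le_one₀ hd (abs_nonneg _) hs

theorem tmb_sum9 {x1 x2 x3 x4 x5 x6 x7 x8 x9 : ℝ} (h1 : |x1| ≤ 1) (h2 : |x2| ≤ 1) (h3 : |x3| ≤ 1)
    (h4 : |x4| ≤ 1) (h5 : |x5| ≤ 1) (h6 : |x6| ≤ 1) (h7 : |x7| ≤ 1) (h8 : |x8| ≤ 1)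
    (h9 : |x9| ≤ 1) : |x1 + x2 + x3 + x4 + x5 + x6 + x7 + x8 + x9| ≤ 9 := by
  rw [abs_le] at *
  constructor <;> linarith [h1.1, h1.2, h2.1, h2.2, h3.1, h3.2, h4.1, h4.2, h5.1, h5.2, h6.1,
    h6.2, h7.1, h7.2, h8.1, h8.2, h9.1, h9.2]

theorem tmb_flag {m n r f : ℕ} (hr : Nat.add f (flag m (Nat.add n r)) < 2 ^ 110) :
    flag m (Nat.add n r) = 0 ∧ (m + 1) * (n + r + 1) < 2 ^ 110 := by
  simp only [Nat.add_eq] at hr
  exact flag_lt (lt_of_le_of_lt (Nat.le_add_left _ _) hr)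

/-- multiplication by `dec k / 2^40`, `m` a bound of `|dec k|` -/
theorem rep_scE {x : TM} {v : ℝ} {k m : ℕ} (hk : k < 2 ^ 112) (hm : |dec k| ≤ (m : ℤ))
    (hx : Rep ρ x v) : Rep ρ (scE k m x) ((dec k : ℝ) / 2 ^ 40 * v) := by
  obtain ⟨c1, t1, u1, tt1, tu1, uu1, a1, b1, e1, n1, r1⟩ := x
  intro hn hr
  change Nat.add (Nat.add (Nat.shiftRight (Nat.mul m r1) 40) 10) (flag m (Nat.add n1 r1)) <
    2 ^ 110 at hr
  obtain ⟨hfl, hprod⟩ := tmb_flag hr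
  have hmn : m * n1 < 2 ^ 110 := by
    refine lt_of_le_of_lt ?_ hprod
    exact Nat.mul_le_mul (by omega) (by omega)
  have hle : n1 + r1 + 1 < 2 ^ 110 :=
    lt_of_le_of_lt (Nat.le_mul_of_pos_left _ (by omega)) hprod
  obtain ⟨-, x2, x3⟩ := hx (by change n1 < _; omega) (by change r1 < _; omega)
  obtain ⟨f1, f2, f3, f4, f5, f6, f7, f8, f9⟩ := tmb_bd x2
  simp only at f1 f2 f3 f4 f5 f6 f7 f8 f9
  obtain ⟨p1, q1⟩ := tmb_sc hm f1 hmn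
  obtain ⟨p2, q2⟩ := tmb_sc hm f2 hmn
  obtain ⟨p3, q3⟩ := tmb_sc hm f3 hmn
  obtain ⟨p4, q4⟩ := tmb_sc hm f4 hmn
  obtain ⟨p5, q5⟩ := tmb_sc hm f5 hmn
  obtain ⟨p6, q6⟩ := tmb_sc hm f6 hmn
  obtain ⟨p7, q7⟩ := tmb_sc hm f7 hmn
  obtain ⟨p8, q8⟩ := tmb_sc hm f8 hmn
  obtain ⟨p9, q9⟩ := tmb_sc hm f9 hmn
  refine ⟨?_, ?_, ?_⟩
  · simp only [red, scE]
    exact ⟨sh_lt _, sh_lt _, sh_lt _, sh_lt _, sh_lt _, sh_lt _, sh_lt _, sh_lt _, sh_lt _⟩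
  · have h1 : ((scE k m ⟨c1, t1, u1, tt1, tu1, uu1, a1, b1, e1, n1, r1⟩).nrm : ℝ) ≤
        ((scE k m ⟨c1, t1, u1, tt1, tu1, uu1, a1, b1, e1, n1, r1⟩).n : ℝ) := by
      have hn' : ((scE k m ⟨c1, t1, u1, tt1, tu1, uu1, a1, b1, e1, n1, r1⟩).n : ℝ) =
          (Nat.shiftRight (Nat.mul m n1) 40 : ℕ) + 10 := by
        simp only [scE, Nat.add_eq, Nat.cast_add, Nat.cast_ofNat]
      rw [hn']
      have hs := tmb_shift (Nat.mul m n1)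
      have hx2 : (nrm ⟨c1, t1, u1, tt1, tu1, uu1, a1, b1, e1, n1, r1⟩ : ℝ) ≤ n1 := by
        exact_mod_cast x2
      simp only [nrm] at hx2
      simp only [scE, nrm]
      push_cast at hx2 ⊢
      have h2 : (m : ℝ) / 2 ^ 40 * (|(dec c1 : ℝ)| + |(dec t1 : ℝ)| + |(dec u1 : ℝ)| +
          |(dec tt1 : ℝ)| + |(dec tu1 : ℝ)| + |(dec uu1 : ℝ)| + |(dec a1 : ℝ)| +
          |(dec b1 : ℝ)| + |(dec e1 : ℝ)|) ≤ m / 2 ^ 40 * n1 :=
        mul_le_mul_of_nonneg_left hx2 (by positivity)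
      have h3 : ((Nat.mul m n1 : ℕ) : ℝ) / 2 ^ 40 = m / 2 ^ 40 * n1 := by
        simp only [Nat.mul_eq, Nat.cast_mul]
        ring
      rw [h3] at hs
      linarith
    exact_mod_cast h1
  · have hr' : ((scE k m ⟨c1, t1, u1, tt1, tu1, uu1, a1, b1, e1, n1, r1⟩).r : ℝ) =
        (Nat.shiftRight (Nat.mul m r1) 40 : ℕ) + 10 := by
      change ((Nat.add (Nat.add (Nat.shiftRight (Nat.mul m r1) 40) 10)
        (flag m (Nat.add n1 r1)) : ℕ) : ℝ) = _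
      rw [hfl, Nat.add_eq, Nat.add_eq, Nat.add_zero, Nat.cast_add, Nat.cast_ofNat]
    rw [hr']
    have hs := tmb_shift (Nat.mul m r1)
    have h3 : ((Nat.mul m r1 : ℕ) : ℝ) / 2 ^ 40 = m / 2 ^ 40 * r1 := by
      simp only [Nat.mul_eq, Nat.cast_mul]
      ring
    rw [h3] at hs
    have h4 : |(dec k : ℝ)| ≤ m := by exact_mod_cast hm
    set V := val ⟨c1, t1, u1, tt1, tu1, uu1, a1, b1, e1, n1, r1⟩ ρ with hV
    have h5 : |(dec k : ℝ) / 2 ^ 40 * (v * 2 ^ 40 - V)| ≤ (m : ℝ) / 2 ^ 40 * r1 := by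
      rw [abs_mul, abs_div, abs_of_pos (show (0 : ℝ) < 2 ^ 40 by positivity)]
      refine mul_le_mul ?_ x3 (abs_nonneg _) (by positivity)
      gcongr
    have ht2 : |ρ.t ^ 2| ≤ 1 := by rw [sq]; exact tmb_mul_le ρ.ht ρ.ht
    have hu2 : |ρ.u ^ 2| ≤ 1 := by rw [sq]; exact tmb_mul_le ρ.hu ρ.hu
    have h6 : |(scE k m ⟨c1, t1, u1, tt1, tu1, uu1, a1, b1, e1, n1, r1⟩).val ρ -
        (dec k : ℝ) / 2 ^ 40 * V| ≤ 9 := by
      have e6 : (scE k m ⟨c1, t1, u1, tt1, tu1, uu1, a1, b1, e1, n1, r1⟩).val ρ -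
          (dec k : ℝ) / 2 ^ 40 * V =
          ((dec (sh (Nat.mul k c1)) : ℝ) - (dec k : ℝ) / 2 ^ 40 * dec c1) +
          ((dec (sh (Nat.mul k t1)) : ℝ) - (dec k : ℝ) / 2 ^ 40 * dec t1) * ρ.t +
          ((dec (sh (Nat.mul k u1)) : ℝ) - (dec k : ℝ) / 2 ^ 40 * dec u1) * ρ.u +
          ((dec (sh (Nat.mul k tt1)) : ℝ) - (dec k : ℝ) / 2 ^ 40 * dec tt1) * ρ.t ^ 2 +
          ((dec (sh (Nat.mul k tu1)) : ℝ) - (dec k : ℝ) / 2 ^ 40 * dec tu1) * (ρ.t * ρ.u) +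
          ((dec (sh (Nat.mul k uu1)) : ℝ) - (dec k : ℝ) / 2 ^ 40 * dec uu1) * ρ.u ^ 2 +
          ((dec (sh (Nat.mul k a1)) : ℝ) - (dec k : ℝ) / 2 ^ 40 * dec a1) * ρ.e0 +
          ((dec (sh (Nat.mul k b1)) : ℝ) - (dec k : ℝ) / 2 ^ 40 * dec b1) * ρ.e1 +
          ((dec (sh (Nat.mul k e1)) : ℝ) - (dec k : ℝ) / 2 ^ 40 * dec e1) * ρ.e2 := by
        rw [hV]
        simp only [scE, val]
        ring
      rw [e6]
      exact tmb_sum9 p1 (tmb_mul_le p2 ρ.ht) (tmb_mul_le p3 ρ.hu) (tmb_mul_le p4 ht2)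
        (tmb_mul_le p5 (tmb_mul_le ρ.ht ρ.hu)) (tmb_mul_le p6 hu2) (tmb_mul_le p7 ρ.h0)
        (tmb_mul_le p8 ρ.h1) (tmb_mul_le p9 ρ.h2)
    have e7 : (dec k : ℝ) / 2 ^ 40 * v * 2 ^ 40 -
        (scE k m ⟨c1, t1, u1, tt1, tu1, uu1, a1, b1, e1, n1, r1⟩).val ρ =
        (dec k : ℝ) / 2 ^ 40 * (v * 2 ^ 40 - V) -
          ((scE k m ⟨c1, t1, u1, tt1, tu1, uu1, a1, b1, e1, n1, r1⟩).val ρ -
        (dec k : ℝ) / 2 ^ 40 * V) := by ring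
    rw [e7]
    refine (abs_sub _ _).trans ?_
    linarith

/-- multiplication by `a / 2^40` -/
theorem rep_sc {x : TM} {v : ℝ} {a : ℤ} (hx : Rep ρ x v) :
    Rep ρ (sc a x) ((a : ℝ) / 2 ^ 40 * v) := by
  intro hn hr
  have ha : a.natAbs < 2 ^ 110 := by
    obtain ⟨c1, t1, u1, tt1, tu1, uu1, a1, b1, e1, n1, r1⟩ := x
    change Nat.add (Nat.add (Nat.shiftRight (Nat.mul a.natAbs r1) 40) 10)
      (flag a.natAbs (Nat.add n1 r1)) < 2 ^ 110 at hr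
    obtain ⟨-, hprod⟩ := tmb_flag hr
    have : a.natAbs + 1 ≤ (a.natAbs + 1) * (n1 + r1 + 1) := Nat.le_mul_of_pos_right _ (by omega)
    omega
  have h1 := rep_scE (ρ := ρ) (k := enc a) (m := a.natAbs) (enc_lt (tmb_lt ha))
    (by rw [dec_enc (tmb_lt ha), tmb_natAbs]) hx
  rw [dec_enc (tmb_lt ha)] at h1
  exact h1 hn hr

/-- larger radius: the model represents nearby numbers too -/
theorem rep_blow {x : TM} {v w : ℝ} {m : ℕ} (hx : Rep ρ x v) (h : |w - v| * 2 ^ 40 ≤ m) :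
    Rep ρ (blow x m) w := by
  obtain ⟨c1, t1, u1, tt1, tu1, uu1, a1, b1, e1, n1, r1⟩ := x
  intro hn hr
  change n1 < 2 ^ 110 at hn
  change Nat.add r1 m < 2 ^ 110 at hr
  simp only [Nat.add_eq] at hr
  obtain ⟨x1, x2, x3⟩ := hx hn (by change r1 < _; omega)
  refine ⟨x1, x2, ?_⟩
  change |w * 2 ^ 40 - val ⟨c1, t1, u1, tt1, tu1, uu1, a1, b1, e1, n1, r1⟩ ρ| ≤
    ((Nat.add r1 m : ℕ) : ℝ)
  have k0 : ((Nat.add r1 m : ℕ) : ℝ) = r1 + m := by simp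
  rw [k0]
  have e3 : w * 2 ^ 40 - val ⟨c1, t1, u1, tt1, tu1, uu1, a1, b1, e1, n1, r1⟩ ρ =
      (v * 2 ^ 40 - val ⟨c1, t1, u1, tt1, tu1, uu1, a1, b1, e1, n1, r1⟩ ρ) +
        (w - v) * 2 ^ 40 := by ring
  rw [e3]
  refine (abs_add_le _ _).trans (add_le_add x3 ?_)
  rw [abs_mul, abs_of_pos (show (0 : ℝ) < 2 ^ 40 by positivity)]
  exact h

/-- poison represents everything -/
theorem rep_poison {x : TM} {w : ℝ} : Rep ρ (blow x 1298074214633706907132624082305024) w := by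
  obtain ⟨c1, t1, u1, tt1, tu1, uu1, a1, b1, e1, n1, r1⟩ := x
  intro hn hr
  exfalso
  change Nat.add r1 1298074214633706907132624082305024 < 2 ^ 110 at hr
  simp only [Nat.add_eq] at hr
  omega

/-- a model without radius represents its own value -/
theorem rep_fresh (x : TM) : Rep ρ (fresh x) ((fresh x).val ρ / 2 ^ 40) := by
  obtain ⟨c1, t1, u1, tt1, tu1, uu1, a1, b1, e1, n1, r1⟩ := x
  intro hn hr
  refine ⟨⟨rd_lt _, rd_lt _, rd_lt _, rd_lt _, rd_lt _, rd_lt _, rd_lt _, rd_lt _, rd_lt _⟩,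
    ?_, ?_⟩
  · simp only [fresh, nrm, mag, rad, Nat.add_eq, Nat.cast_add, Nat.cast_zero]
    rw [ab_eq (rd_lt c1), ab_eq (rd_lt t1), ab_eq (rd_lt u1), ab_eq (rd_lt tt1),
      ab_eq (rd_lt tu1), ab_eq (rd_lt uu1), ab_eq (rd_lt a1), ab_eq (rd_lt b1), ab_eq (rd_lt e1)]
    linarith
  · rw [div_mul_cancel₀ _ (by positivity), sub_self, abs_zero]
    positivity

/-- a model whose coefficients are the reduced nonnegative numbers `s, 0, ..., 0` -/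
theorem rep_nat (s : ℕ) : Rep ρ ⟨s, 0, 0, 0, 0, 0, 0, 0, 0, s, 0⟩ ((s : ℝ) / 2 ^ 40) := by
  intro hn hr
  change s < 2 ^ 110 at hn
  have hs : dec s = (s : ℤ) := dec_natCast (by omega)
  refine ⟨⟨by change s < _; omega, ?_⟩, ?_, ?_⟩
  · norm_num
  · simp only [nrm]
    rw [hs, dec_zero]
    simp
  · simp only [val]
    rw [hs, dec_zero, div_mul_cancel₀ _ (by positivity)]
    simp

/-- `∑ q_i x_i` -/
theorem rep_lc5 {q0 q1 q2 q3 q4 q5 : ℤ} {x1 x2 x3 x4 x5 : TM} {v1 v2 v3 v4 v5 : ℝ}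
    (h1 : Rep ρ x1 v1) (h2 : Rep ρ x2 v2) (h3 : Rep ρ x3 v3) (h4 : Rep ρ x4 v4)
    (h5 : Rep ρ x5 v5) :
    Rep ρ (lc5 q0 q1 q2 q3 q4 q5 x1 x2 x3 x4 x5)
      ((q0 + q1 * v1 + q2 * v2 + q3 * v3 + q4 * v4 + q5 * v5) / 2 ^ 40) := by
  have h := rep_add (rep_add (rep_add (rep_const (ρ := ρ) (a := q0)) (rep_sc (a := q1) h1))
    (rep_add (rep_sc (a := q2) h2) (rep_sc (a := q3) h3)))
    (rep_add (rep_sc (a := q4) h4) (rep_sc (a := q5) h5))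
  have e : (q0 : ℝ) / 2 ^ 40 + (q1 : ℝ) / 2 ^ 40 * v1 + ((q2 : ℝ) / 2 ^ 40 * v2 +
      (q3 : ℝ) / 2 ^ 40 * v3) + ((q4 : ℝ) / 2 ^ 40 * v4 + (q5 : ℝ) / 2 ^ 40 * v5) =
      (q0 + q1 * v1 + q2 * v2 + q3 * v3 + q4 * v4 + q5 * v5) / 2 ^ 40 := by ring
  rw [e] at h
  exact h

end Pool.Agent.H20.Fib.TM
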