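import Pool.Agent.H20.Fib.TMd

/-!
# FB-5. Taylor models: value at `T = 1`, integrals, exponential

`Env.setT ρ t` is the environment with the value `t` for the symbol `T`.

PROOFS.
`rep_atP`: the coefficients `c + t + tt`, `u + tu`, `uu`, `d_i`; norm `<= n`.
`rep_integ`: `∫_{-1}^1 (c + t s + (u + tu s) U + tt s^2 + uu U^2 + Σ d_i e_i) ds
= 2c + 2 u U + (2/3) tt + 2 uu U^2 + 2 Σ d_i e_i`, and the difference of `f` and the polynomial is at
most `r` (in units `2^-40`), so its integral is at most `2 r`; `733007751850 = floor(2^41/3)`.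
`rep_ai`: `∫_{-1}^T = c (T+1) + t (T^2-1)/2 + tt (T^3+1)/3 + U u (T+1) + U tu (T^2-1)/2
+ uu U^2 (T+1) + Σ d_i e_i (T+1)`.  Kept: constant `c - t/2 + tt/3`, `T : c + tt/4`,
`U : u - tu/4`, `T^2 : t/2`, `TU : u`, `U^2 : uu`, `e_i : d_i`.  Dropped: `tt/3 (T^3 - 3T/4)`,
`|T^3 - 3T/4| <= 1/4` on `[-1,1]` (so `<= |tt|/12 <= 92/1024 |tt|`); `tu U ((T^2-1)/2 + 1/4)`,
`<= |tu|/4`; `uu U^2 T`, `d_i e_i T`.  Rounding: five `sh` (error `1` each), `366503875925 =
floor(2^40/3)`, the radius of the integral of the difference is `<= 2 r`.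
`rep_exp`: `Real.exp_bound` with `n = 5`: `|exp v - Σ_{k<5} v^k/k!| <= |v|^5 / 100` for
`|v| <= 1`; `183251937962 = floor(2^40/6)`, `45812984490 = floor(2^40/24)`.
-/

namespace Pool.Agent.H20.Fib

/-- the environment with the value `t` for the symbol `T` -/
def Env.setT (ρ : Env) (t : ℝ) (ht : |t| ≤ 1) : Env :=
  ⟨t, ρ.u, ρ.e0, ρ.e1, ρ.e2, ht, ρ.hu, ρ.h0, ρ.h1, ρ.h2⟩

namespace TM

variable {ρ : Env}

theorem tmf_abs2 (a b : ℤ) : |a + b| ≤ |a| + |b| := abs_add_le a b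

theorem tmf_abs3 (a b c : ℤ) : |a + b + c| ≤ |a| + |b| + |c| := abs_add_three a b c

/-- the integral of a quadratic polynomial -/
theorem tmf_int (A B C x : ℝ) : ∫ s in (-1 : ℝ)..x, (A + B * s + C * s ^ 2) =
    A * (x + 1) + B * (x ^ 2 - 1) / 2 + C * (x ^ 3 + 1) / 3 := by
  have h1 : ∀ s ∈ Set.uIcc (-1 : ℝ) x, HasDerivAt
      (fun s : ℝ => A * s + B * s ^ 2 / 2 + C * s ^ 3 / 3) (A + B * s + C * s ^ 2) s := by
    intro s _
    have h2 : HasDerivAt (fun s : ℝ => A * s) A s := by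
      simpa using (hasDerivAt_id s).const_mul A
    have h3 : HasDerivAt (fun s : ℝ => B * s ^ 2 / 2) (B * s) s := by
      exact (((hasDerivAt_pow 2 s).const_mul B).div_const 2).congr_deriv (by push_cast; ring)
    have h4 : HasDerivAt (fun s : ℝ => C * s ^ 3 / 3) (C * s ^ 2) s := by
      exact (((hasDerivAt_pow 3 s).const_mul C).div_const 3).congr_deriv (by push_cast; ring)
    exact (h2.add h3).add h4
  rw [intervalIntegral.integral_eq_sub_of_hasDerivAt h1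
    ((by fun_prop : Continuous fun s : ℝ => A + B * s + C * s ^ 2).intervalIntegrable _ _)]
  ring

theorem rep_atP {x : TM} {v : ℝ} (hx : Rep (ρ.setT 1 (by norm_num)) x v) : Rep ρ (atP x) v := by
  obtain ⟨c, t, u, tt, tu, uu, a, b, e, n, r⟩ := x
  intro hn hr
  have hn' : n < 2 ^ 110 := hn
  have hr' : r < 2 ^ 110 := hr
  obtain ⟨hred, hnrm, hv⟩ := hx hn' hr'
  obtain ⟨hc, ht, hu, htt, htu, huu, ha, hb, he⟩ := hred
  simp only [nrm] at hnrm
  have hnz : (n : ℤ) < 2 ^ 110 := by exact_mod_cast hn'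
  have p1 := abs_nonneg (dec c)
  have p2 := abs_nonneg (dec t)
  have p3 := abs_nonneg (dec u)
  have p4 := abs_nonneg (dec tt)
  have p5 := abs_nonneg (dec tu)
  have p6 := abs_nonneg (dec uu)
  have p7 := abs_nonneg (dec a)
  have p8 := abs_nonneg (dec b)
  have p9 := abs_nonneg (dec e)
  have q1 := tmf_abs3 (dec c) (dec t) (dec tt)
  have q2 := tmf_abs2 (dec u) (dec tu)
  have e1 : dec (rd (Nat.add (Nat.add c t) tt)) = dec c + dec t + dec tt :=
    dec_rd (((cong_dec c).add (cong_dec t)).add (cong_dec tt)) (by linarith)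
  have e2 : dec (rd (Nat.add u tu)) = dec u + dec tu :=
    dec_rd ((cong_dec u).add (cong_dec tu)) (by linarith)
  refine ⟨⟨rd_lt _, by norm_num [atP], rd_lt _, by norm_num [atP], by norm_num [atP], rd_lt _,
    rd_lt _, rd_lt _, rd_lt _⟩, ?_, ?_⟩
  · simp only [nrm, atP]
    rw [e1, e2, rd_of_lt huu, rd_of_lt ha, rd_of_lt hb, rd_of_lt he, dec_zero, abs_zero]
    linarith
  · have e3 : (atP ⟨c, t, u, tt, tu, uu, a, b, e, n, r⟩).val ρ =
        TM.val ⟨c, t, u, tt, tu, uu, a, b, e, n, r⟩ (ρ.setT 1 (by norm_num)) := by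
      simp only [val, atP, Env.setT]
      rw [e1, e2, rd_of_lt huu, rd_of_lt ha, rd_of_lt hb, rd_of_lt he, dec_zero]
      push_cast
      ring
    rw [e3]
    exact hv

/-- `∫ f` and the integral of the model -/
theorem tmf_core {x : TM} {f : ℝ → ℝ} (hf : IntervalIntegrable f MeasureTheory.volume (-1) 1)
    (hx : ∀ t (ht : |t| ≤ 1), |f t * 2 ^ 40 - x.val (ρ.setT t ht)| ≤ (x.r : ℝ)) {t : ℝ}
    (ht : |t| ≤ 1) :
    |(∫ s in (-1 : ℝ)..t, f s) * 2 ^ 40 -
      ((dec x.c + dec x.u * ρ.u + dec x.uu * ρ.u ^ 2 + dec x.d0 * ρ.e0 + dec x.d1 * ρ.e1 +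
        dec x.d2 * ρ.e2) * (t + 1) + (dec x.t + dec x.tu * ρ.u) * (t ^ 2 - 1) / 2 +
        dec x.tt * (t ^ 3 + 1) / 3)| ≤ (x.r : ℝ) * (t + 1) := by
  have ht1 := (abs_le.1 ht).1
  have ht2 := (abs_le.1 ht).2
  have hf' : IntervalIntegrable f MeasureTheory.volume (-1) t := by
    refine hf.mono_set ?_
    rw [Set.uIcc_of_le ht1, Set.uIcc_of_le (by norm_num : (-1 : ℝ) ≤ 1)]
    exact Set.Icc_subset_Icc le_rfl ht2
  have hP : IntervalIntegrable (fun s : ℝ => (dec x.c + dec x.u * ρ.u + dec x.uu * ρ.u ^ 2 +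
      dec x.d0 * ρ.e0 + dec x.d1 * ρ.e1 + dec x.d2 * ρ.e2) + (dec x.t + dec x.tu * ρ.u) * s +
      dec x.tt * s ^ 2) MeasureTheory.volume (-1) t :=
    (by fun_prop : Continuous fun s : ℝ => (dec x.c + dec x.u * ρ.u + dec x.uu * ρ.u ^ 2 +
      dec x.d0 * ρ.e0 + dec x.d1 * ρ.e1 + dec x.d2 * ρ.e2 : ℝ) + (dec x.t + dec x.tu * ρ.u) * s +
      dec x.tt * s ^ 2).intervalIntegrable _ _
  rw [← tmf_int, ← intervalIntegral.integral_mul_const,
    ← intervalIntegral.integral_sub (hf'.mul_const _) hP]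
  have h1 := intervalIntegral.norm_integral_le_of_norm_le_const (a := (-1 : ℝ)) (b := t)
    (C := (x.r : ℝ)) (f := fun s => f s * 2 ^ 40 - ((dec x.c + dec x.u * ρ.u +
      dec x.uu * ρ.u ^ 2 + dec x.d0 * ρ.e0 + dec x.d1 * ρ.e1 + dec x.d2 * ρ.e2) +
      (dec x.t + dec x.tu * ρ.u) * s + dec x.tt * s ^ 2)) (by
      intro s hs
      rw [Set.uIoc_of_le ht1] at hs
      have hs' : |s| ≤ 1 := abs_le.2 ⟨hs.1.le, hs.2.trans ht2⟩
      have h2 := hx s hs'
      rw [Real.norm_eq_abs]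
      convert h2 using 3
      simp only [val, Env.setT]
      ring)
  rw [Real.norm_eq_abs] at h1
  refine h1.trans (le_of_eq ?_)
  rw [abs_of_nonneg (by linarith)]
  ring

/-- the right shift -/
theorem tmf_shr (m k : ℕ) : (m : ℝ) / 2 ^ k - 1 ≤ ((Nat.shiftRight m k : ℕ) : ℝ) ∧
    ((Nat.shiftRight m k : ℕ) : ℝ) ≤ (m : ℝ) / 2 ^ k := by
  have h0 : Nat.shiftRight m k = m / 2 ^ k := Nat.shiftRight_eq_div_pow m k
  have h1 : m / 2 ^ k * 2 ^ k ≤ m := Nat.div_mul_le_self m (2 ^ k)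
  have h2 : m < (m / 2 ^ k + 1) * 2 ^ k := by
    have := Nat.lt_mul_div_succ m (show 0 < 2 ^ k by positivity)
    rw [mul_comm]
    exact this
  have h1' : ((m / 2 ^ k : ℕ) : ℝ) * 2 ^ k ≤ m := by exact_mod_cast h1
  have h2' : (m : ℝ) < (((m / 2 ^ k : ℕ) : ℝ) + 1) * 2 ^ k := by exact_mod_cast h2
  have hp : (0 : ℝ) < 2 ^ k := by positivity
  rw [h0]
  constructor
  · rw [sub_le_iff_le_add, div_le_iff₀ hp]
    exact h2'.le
  · rw [le_div_iff₀ hp]
    exact h1'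

theorem tmf_flag {m q : ℕ} (h : q + (Nat.shiftRight m 70) * 1298074214633706907132624082305024 <
    2 ^ 110) : m < 2 ^ 70 := by
  by_contra hm
  have h1 : 1 ≤ Nat.shiftRight m 70 := by
    have h0 : Nat.shiftRight m 70 = m / 2 ^ 70 := Nat.shiftRight_eq_div_pow m 70
    rw [h0, Nat.one_le_div_iff (by positivity)]
    exact Nat.not_lt.1 hm
  have h2 : 1 * 1298074214633706907132624082305024 ≤
      (Nat.shiftRight m 70) * 1298074214633706907132624082305024 := Nat.mul_le_mul_right _ h1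
  have h3 : (2 : ℕ) ^ 110 = 1298074214633706907132624082305024 := by norm_num
  omega

/-- `sh (k m)` -/
theorem tmf_sh {k m : ℕ} (hk : k ≤ 2 ^ 40) (hm : |dec m| < 2 ^ 70) :
    |(dec (sh (Nat.mul k m)) : ℝ) - (k : ℝ) * dec m / 2 ^ 40| ≤ 1 ∧
      |(dec (sh (Nat.mul k m)) : ℝ)| ≤ (k : ℝ) * |(dec m : ℝ)| / 2 ^ 40 + 1 := by
  have h1 : |((k : ℤ) * dec m)| < 2 ^ 111 := by
    rw [abs_mul]
    have h2 : |(k : ℤ)| ≤ 2 ^ 40 := by
      rw [abs_of_nonneg (by positivity)]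
      exact_mod_cast hk
    calc |(k : ℤ)| * |dec m| ≤ 2 ^ 40 * |dec m| :=
          mul_le_mul_of_nonneg_right h2 (abs_nonneg _)
      _ < 2 ^ 40 * 2 ^ 70 := by
          exact mul_lt_mul_of_pos_left hm (by norm_num)
      _ < 2 ^ 111 := by norm_num
  have h3 := dec_sh_real ((cong_cast k).mul (cong_dec m)) h1
  push_cast at h3
  refine ⟨h3, ?_⟩
  have h4 : |(k : ℝ) * dec m / 2 ^ 40| = (k : ℝ) * |(dec m : ℝ)| / 2 ^ 40 := by
    rw [abs_div, abs_mul, abs_of_nonneg (by positivity : (0 : ℝ) ≤ k),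
      abs_of_pos (by positivity : (0 : ℝ) < 2 ^ 40)]
  rw [← h4]
  have h5 := abs_sub_abs_le_abs_sub (dec (sh (Nat.mul k m)) : ℝ) ((k : ℝ) * dec m / 2 ^ 40)
  linarith

theorem tmf_sh_int {k m : ℕ} (hk : k ≤ 2 ^ 40) (hm : |dec m| < 2 ^ 70) :
    |dec (sh (Nat.mul k m))| ≤ |dec m| + 1 := by
  have h1 := (tmf_sh hk hm).2
  have h2 : (k : ℝ) * |(dec m : ℝ)| / 2 ^ 40 ≤ |(dec m : ℝ)| := by
    rw [div_le_iff₀ (by positivity), mul_comm]
    exact mul_le_mul_of_nonneg_left (by exact_mod_cast hk) (abs_nonneg _)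
  have h3 : |(dec (sh (Nat.mul k m)) : ℝ)| ≤ |(dec m : ℝ)| + 1 := by linarith
  exact_mod_cast h3

theorem tmf_mulb {x y p q : ℝ} (hx : |x| ≤ p) (hy : |y| ≤ q) : |x * y| ≤ p * q := by
  rw [abs_mul]
  exact mul_le_mul hx hy (abs_nonneg _) ((abs_nonneg _).trans hx)

theorem rep_integ {x : TM} {f : ℝ → ℝ} (hf : IntervalIntegrable f MeasureTheory.volume (-1) 1)
    (hx : ∀ t (ht : |t| ≤ 1), Rep (ρ.setT t ht) x (f t)) :
    Rep ρ (integ x) (∫ t in (-1 : ℝ)..1, f t) := by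
  obtain ⟨c, t, u, tt, tu, uu, a, b, e, n, r⟩ := x
  intro hn hr
  have hn1 : 2 * n + 4 < 2 ^ 110 := hn
  have hr1 : (2 * r + Nat.shiftRight n 40 + 4) +
      (Nat.shiftRight n 70) * 1298074214633706907132624082305024 < 2 ^ 110 := hr
  have hn70 : n < 2 ^ 70 := tmf_flag hr1
  have hn' : n < 2 ^ 110 := by omega
  have hr' : r < 2 ^ 110 := by
    generalize (Nat.shiftRight n 70) * 1298074214633706907132624082305024 = q at hr1
    omega
  obtain ⟨hred, hnrm, -⟩ := hx 0 (by norm_num) hn' hr'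
  have hcore := tmf_core (x := ⟨c, t, u, tt, tu, uu, a, b, e, n, r⟩) hf
    (fun t ht => (hx t ht hn' hr').2.2) (t := 1) (by norm_num)
  obtain ⟨hc, ht, hu, htt, htu, huu, ha, hb, he⟩ := hred
  simp only [nrm] at hnrm hcore
  have hnz : (n : ℤ) < 2 ^ 70 := by exact_mod_cast hn70
  have p1 := abs_nonneg (dec c)
  have p2 := abs_nonneg (dec t)
  have p3 := abs_nonneg (dec u)
  have p4 := abs_nonneg (dec tt)
  have p5 := abs_nonneg (dec tu)
  have p6 := abs_nonneg (dec uu)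
  have p7 := abs_nonneg (dec a)
  have p8 := abs_nonneg (dec b)
  have p9 := abs_nonneg (dec e)
  have s1 := (tmf_sh (k := 733007751850) (m := tt) (by norm_num) (by linarith)).1
  have s2 := tmf_sh_int (k := 733007751850) (m := tt) (by norm_num) (by linarith)
  have hd : ∀ m : ℕ, |((2 : ℕ) : ℤ) * dec m| = 2 * |dec m| := by
    intro m
    rw [abs_mul]
    norm_num
  have q1 := tmf_abs2 (((2 : ℕ) : ℤ) * dec c) (dec (sh (Nat.mul 733007751850 tt)))
  rw [hd] at q1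
  have e1 : dec (rd (Nat.add (Nat.mul 2 c) (sh (Nat.mul 733007751850 tt)))) =
      ((2 : ℕ) : ℤ) * dec c + dec (sh (Nat.mul 733007751850 tt)) :=
    dec_rd (((cong_cast 2).mul (cong_dec c)).add (cong_dec _)) (by linarith)
  have hdd : ∀ m : ℕ, |dec m| < 2 ^ 70 → dec (rd (Nat.mul 2 m)) = ((2 : ℕ) : ℤ) * dec m := by
    intro m hm
    exact dec_rd ((cong_cast 2).mul (cong_dec m)) (by rw [hd]; linarith)
  have e2 := hdd u (by linarith)
  have e3 := hdd uu (by linarith)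
  have e4 := hdd a (by linarith)
  have e5 := hdd b (by linarith)
  have e6 := hdd e (by linarith)
  refine ⟨?_, ?_, ?_⟩
  · simp only [red, integ]
    exact ⟨rd_lt _, by norm_num, rd_lt _, by norm_num, by norm_num, rd_lt _, rd_lt _, rd_lt _,
      rd_lt _⟩
  · simp only [nrm, integ]
    rw [e1, e2, e3, e4, e5, e6, dec_zero, abs_zero, hd, hd, hd, hd, hd]
    change _ ≤ ((2 * n + 4 : ℕ) : ℤ)
    push_cast
    push_cast at q1
    linarith
  · have e7 : (integ ⟨c, t, u, tt, tu, uu, a, b, e, n, r⟩).val ρ =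
        2 * dec c + dec (sh (Nat.mul 733007751850 tt)) + 2 * dec u * ρ.u +
          2 * dec uu * ρ.u ^ 2 + 2 * dec a * ρ.e0 + 2 * dec b * ρ.e1 + 2 * dec e * ρ.e2 := by
      simp only [val, integ]
      rw [e1, e2, e3, e4, e5, e6, dec_zero]
      push_cast
      ring
    have e8 : (((integ ⟨c, t, u, tt, tu, uu, a, b, e, n, r⟩).r : ℕ) : ℝ) =
        2 * r + ((Nat.shiftRight n 40 : ℕ) : ℝ) + 4 +
          ((Nat.shiftRight n 70 : ℕ) : ℝ) * 1298074214633706907132624082305024 := by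
      change ((((2 * r + Nat.shiftRight n 40 + 4) +
        (Nat.shiftRight n 70) * 1298074214633706907132624082305024 : ℕ)) : ℝ) = _
      push_cast
      ring
    rw [e7, e8]
    have hs := (tmf_shr n 40).1
    have hfl : (0 : ℝ) ≤ ((Nat.shiftRight n 70 : ℕ) : ℝ) * 1298074214633706907132624082305024 := by
      positivity
    have htt' : |(dec tt : ℝ)| ≤ n := by
      have h1 : |dec tt| ≤ (n : ℤ) := by linarith
      exact_mod_cast h1
    have h5 : |(2 / 3 : ℝ) * dec tt - 733007751850 * dec tt / 2 ^ 40| ≤ (n : ℝ) / 2 ^ 40 := by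
      have h6 : (2 / 3 : ℝ) * dec tt - 733007751850 * dec tt / 2 ^ 40 =
          dec tt * (2 / (3 * 2 ^ 40)) := by ring
      rw [h6, abs_mul, abs_of_pos (by positivity : (0 : ℝ) < 2 / (3 * 2 ^ 40))]
      have h7 : |(dec tt : ℝ)| * (2 / (3 * 2 ^ 40)) ≤ |(dec tt : ℝ)| / 2 ^ 40 := by
        rw [div_eq_mul_inv]
        refine mul_le_mul_of_nonneg_left ?_ (abs_nonneg _)
        norm_num
      refine h7.trans ?_
      gcongr
    push_cast at s1
    rw [abs_le] at hcore s1 h5 ⊢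
    constructor <;> linarith [hcore.1, hcore.2, s1.1, s1.2, h5.1, h5.2]

theorem tmf_t {t : ℝ} (ht : |t| ≤ 1) : |t ^ 2 / 2 - 1 / 4| ≤ 1 / 4 ∧
    |t ^ 3 / 3 - t / 4| ≤ 1 / 12 ∧ |1 - t ^ 2| ≤ 1 := by
  have ht1 := (abs_le.1 ht).1
  have ht2 := (abs_le.1 ht).2
  refine ⟨abs_le.2 ⟨by nlinarith, by nlinarith⟩, abs_le.2 ⟨?_, ?_⟩,
    abs_le.2 ⟨by nlinarith, by nlinarith⟩⟩
  · nlinarith [mul_nonneg (by linarith : (0 : ℝ) ≤ 1 + t) (sq_nonneg (2 * t - 1))]
  · nlinarith [mul_nonneg (by linarith : (0 : ℝ) ≤ 1 - t) (sq_nonneg (2 * t + 1))]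

theorem rep_ai {x : TM} {f : ℝ → ℝ} (hf : IntervalIntegrable f MeasureTheory.volume (-1) 1)
    (hx : ∀ t (ht : |t| ≤ 1), Rep (ρ.setT t ht) x (f t)) {t : ℝ} (ht : |t| ≤ 1) :
    Rep (ρ.setT t ht) (ai x) (∫ s in (-1 : ℝ)..t, f s) := by
  obtain ⟨c, t', u, tt, tu, uu, a, b, e, n, r⟩ := x
  intro hn hr
  have hn1 : 2 * n + 8 < 2 ^ 110 := hn
  have hr1 : (2 * r + Nat.shiftRight (ab tt * 92) 10 +
      (Nat.shiftRight (ab tu) 2 + (ab uu + (ab a + (ab b + ab e)))) +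
      (Nat.shiftRight n 40 + 10)) +
      (Nat.shiftRight n 70) * 1298074214633706907132624082305024 < 2 ^ 110 := hr
  have hn70 : n < 2 ^ 70 := tmf_flag hr1
  have hn' : n < 2 ^ 110 := by omega
  have hr' : r < 2 ^ 110 := by
    generalize (Nat.shiftRight n 70) * 1298074214633706907132624082305024 = q at hr1
    omega
  obtain ⟨hred, hnrm, -⟩ := hx 0 (by norm_num) hn' hr'
  have hcore := tmf_core (x := ⟨c, t', u, tt, tu, uu, a, b, e, n, r⟩) hf
    (fun t ht => (hx t ht hn' hr').2.2) ht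
  obtain ⟨hc, ht', hu, htt, htu, huu, ha, hb, he⟩ := hred
  simp only [nrm] at hnrm hcore
  have hnz : (n : ℤ) < 2 ^ 70 := by exact_mod_cast hn70
  have p1 := abs_nonneg (dec c)
  have p2 := abs_nonneg (dec t')
  have p3 := abs_nonneg (dec u)
  have p4 := abs_nonneg (dec tt)
  have p5 := abs_nonneg (dec tu)
  have p6 := abs_nonneg (dec uu)
  have p7 := abs_nonneg (dec a)
  have p8 := abs_nonneg (dec b)
  have p9 := abs_nonneg (dec e)
  have s1 := (tmf_sh (k := 549755813888) (m := t') (by norm_num) (by linarith)).1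
  have s1' := tmf_sh_int (k := 549755813888) (m := t') (by norm_num) (by linarith)
  have s2 := (tmf_sh (k := 366503875925) (m := tt) (by norm_num) (by linarith)).1
  have s2' := tmf_sh_int (k := 366503875925) (m := tt) (by norm_num) (by linarith)
  have s3 := (tmf_sh (k := 274877906944) (m := tt) (by norm_num) (by linarith)).1
  have s3' := tmf_sh_int (k := 274877906944) (m := tt) (by norm_num) (by linarith)
  have s4 := (tmf_sh (k := 274877906944) (m := tu) (by norm_num) (by linarith)).1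
  have s4' := tmf_sh_int (k := 274877906944) (m := tu) (by norm_num) (by linarith)
  have q1 := tmf_abs3 (dec c) (-dec (sh (Nat.mul 549755813888 t')))
    (dec (sh (Nat.mul 366503875925 tt)))
  have q2 := tmf_abs2 (dec c) (dec (sh (Nat.mul 274877906944 tt)))
  have q3 := tmf_abs2 (dec u) (-dec (sh (Nat.mul 274877906944 tu)))
  rw [abs_neg] at q1 q3
  have e1 : dec (rd (Nat.add (Nat.add c (ng (sh (Nat.mul 549755813888 t'))))
      (sh (Nat.mul 366503875925 tt)))) =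
      dec c + -dec (sh (Nat.mul 549755813888 t')) + dec (sh (Nat.mul 366503875925 tt)) :=
    dec_rd (((cong_dec c).add (cong_ng (sh_lt _))).add (cong_dec _)) (by linarith)
  have e2 : dec (rd (Nat.add c (sh (Nat.mul 274877906944 tt)))) =
      dec c + dec (sh (Nat.mul 274877906944 tt)) :=
    dec_rd ((cong_dec c).add (cong_dec _)) (by linarith)
  have e3 : dec (rd (Nat.add u (ng (sh (Nat.mul 274877906944 tu))))) =
      dec u + -dec (sh (Nat.mul 274877906944 tu)) :=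
    dec_rd ((cong_dec u).add (cong_ng (sh_lt _))) (by linarith)
  refine ⟨?_, ?_, ?_⟩
  · simp only [red, ai]
    exact ⟨rd_lt _, rd_lt _, rd_lt _, sh_lt _, rd_lt _, rd_lt _, rd_lt _, rd_lt _, rd_lt _⟩
  · simp only [nrm, ai]
    rw [e1, e2, e3, rd_of_lt hu, rd_of_lt huu, rd_of_lt ha, rd_of_lt hb, rd_of_lt he]
    change _ ≤ ((2 * n + 8 : ℕ) : ℤ)
    push_cast
    linarith
  · have e7 : (ai ⟨c, t', u, tt, tu, uu, a, b, e, n, r⟩).val (ρ.setT t ht) =
        dec c - dec (sh (Nat.mul 549755813888 t')) + dec (sh (Nat.mul 366503875925 tt)) +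
          (dec c + dec (sh (Nat.mul 274877906944 tt))) * t +
          (dec u - dec (sh (Nat.mul 274877906944 tu))) * ρ.u +
          dec (sh (Nat.mul 549755813888 t')) * t ^ 2 + dec u * (t * ρ.u) +
          dec uu * ρ.u ^ 2 + dec a * ρ.e0 + dec b * ρ.e1 + dec e * ρ.e2 := by
      simp only [val, ai, Env.setT]
      rw [e1, e2, e3, rd_of_lt hu, rd_of_lt huu, rd_of_lt ha, rd_of_lt hb, rd_of_lt he]
      push_cast
      ring
    have e8 : (((ai ⟨c, t', u, tt, tu, uu, a, b, e, n, r⟩).r : ℕ) : ℝ) =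
        2 * r + ((Nat.shiftRight (ab tt * 92) 10 : ℕ) : ℝ) +
          (((Nat.shiftRight (ab tu) 2 : ℕ) : ℝ) + (ab uu + (ab a + (ab b + ab e)))) +
          (((Nat.shiftRight n 40 : ℕ) : ℝ) + 10) +
          ((Nat.shiftRight n 70 : ℕ) : ℝ) * 1298074214633706907132624082305024 := by
      change ((((2 * r + Nat.shiftRight (ab tt * 92) 10 +
        (Nat.shiftRight (ab tu) 2 + (ab uu + (ab a + (ab b + ab e)))) +
        (Nat.shiftRight n 40 + 10)) +
        (Nat.shiftRight n 70) * 1298074214633706907132624082305024 : ℕ)) : ℝ) = _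
      push_cast
      ring
    rw [e7, e8]
    have hfl : (0 : ℝ) ≤ ((Nat.shiftRight n 70 : ℕ) : ℝ) * 1298074214633706907132624082305024 := by
      positivity
    have hs := (tmf_shr n 40).1
    have hs1 := (tmf_shr (ab tt * 92) 10).1
    have hs2 := (tmf_shr (ab tu) 2).1
    have hab : ∀ m : ℕ, m < 2 ^ 112 → ((ab m : ℕ) : ℝ) = |(dec m : ℝ)| := by
      intro m hm
      have h1 := ab_eq hm
      exact_mod_cast congrArg (fun z : ℤ => (z : ℝ)) h1
    push_cast at hs1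
    rw [hab tt htt] at hs1
    rw [hab tu htu] at hs2
    rw [hab uu huu, hab a ha, hab b hb, hab e he]
    have htt' : |(dec tt : ℝ)| ≤ n := by
      have h1 : |dec tt| ≤ (n : ℤ) := by linarith
      exact_mod_cast h1
    have ht1 := (abs_le.1 ht).1
    have ht2 := (abs_le.1 ht).2
    have hu1 : |ρ.u| ≤ 1 := ρ.hu
    have hu2 : |ρ.u ^ 2| ≤ 1 := by
      rw [abs_pow]
      exact pow_le_one₀ (abs_nonneg _) hu1
    -- dropped terms
    have x1 : |(dec uu : ℝ) * (ρ.u ^ 2 * t)| ≤ |(dec uu : ℝ)| * 1 :=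
      tmf_mulb le_rfl (by simpa using tmf_mulb hu2 ht)
    have x2 : |(dec a : ℝ) * (ρ.e0 * t)| ≤ |(dec a : ℝ)| * 1 :=
      tmf_mulb le_rfl (by simpa using tmf_mulb ρ.h0 ht)
    have x3 : |(dec b : ℝ) * (ρ.e1 * t)| ≤ |(dec b : ℝ)| * 1 :=
      tmf_mulb le_rfl (by simpa using tmf_mulb ρ.h1 ht)
    have x4 : |(dec e : ℝ) * (ρ.e2 * t)| ≤ |(dec e : ℝ)| * 1 :=
      tmf_mulb le_rfl (by simpa using tmf_mulb ρ.h2 ht)
    obtain ⟨y1, y2, y3⟩ := tmf_t ht
    have x5 : |(dec tu : ℝ) * (ρ.u * (t ^ 2 / 2 - 1 / 4))| ≤ |(dec tu : ℝ)| * (1 / 4) :=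
      tmf_mulb le_rfl (by simpa using tmf_mulb hu1 y1)
    have x6 : |(dec tt : ℝ) * (t ^ 3 / 3 - t / 4)| ≤ |(dec tt : ℝ)| * (1 / 12) :=
      tmf_mulb le_rfl y2
    -- rounding
    push_cast at s1 s2 s3 s4
    have z1 := tmf_mulb s1 y3
    have z3 := tmf_mulb s3 ht
    have z4 := tmf_mulb s4 hu1
    have h5 : |(1 / 3 : ℝ) * dec tt - 366503875925 * dec tt / 2 ^ 40| ≤ (n : ℝ) / 2 ^ 40 := by
      have h6 : (1 / 3 : ℝ) * dec tt - 366503875925 * dec tt / 2 ^ 40 =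
          dec tt * (1 / (3 * 2 ^ 40)) := by ring
      rw [h6, abs_mul, abs_of_pos (by positivity : (0 : ℝ) < 1 / (3 * 2 ^ 40))]
      have h7 : |(dec tt : ℝ)| * (1 / (3 * 2 ^ 40)) ≤ |(dec tt : ℝ)| / 2 ^ 40 := by
        rw [div_eq_mul_inv]
        refine mul_le_mul_of_nonneg_left ?_ (abs_nonneg _)
        norm_num
      refine h7.trans ?_
      gcongr
    have hr0 : (0 : ℝ) ≤ r := Nat.cast_nonneg r
    have hrt : (r : ℝ) * (t + 1) ≤ r * 2 := mul_le_mul_of_nonneg_left (by linarith) hr0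
    have m1 := abs_nonneg (dec tt : ℝ)
    have m2 := abs_nonneg (dec tu : ℝ)
    rw [abs_le] at hcore s2 h5 x1 x2 x3 x4 x5 x6 z1 z3 z4 ⊢
    constructor
    · linarith [hcore.1, s2.2, h5.1, x1.1, x2.1, x3.1, x4.1, x5.1, x6.1, z1.1, z3.2, z4.1]
    · linarith [hcore.2, s2.1, h5.2, x1.2, x2.2, x3.2, x4.2, x5.2, x6.2, z1.2, z3.1, z4.2]

theorem tmf_div (X : ℕ) : X + 1 ≤ (Nat.div X 100 + 1) * 100 := by
  have h : Nat.div X 100 = X / 100 := rfl
  rw [h]
  omega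

theorem tmf_exp {v : ℝ} {m : ℕ} (hm : m ≤ 274877906944) (hv : |v| * 2 ^ 40 ≤ m) :
    |Real.exp v - (((1 + v) + ((549755813888 : ℝ) / 2 ^ 40 * (v * v) +
      (183251937962 : ℝ) / 2 ^ 40 * (v * (v * v)))) +
      (45812984490 : ℝ) / 2 ^ 40 * ((v * v) * (v * v)))| * 2 ^ 40 ≤
      ((Nat.div (Nat.shiftRight (((m * m) * (m * m)) * m) 160) 100 + 9 : ℕ) : ℝ) := by
  have hmR : (m : ℝ) ≤ 274877906944 := by exact_mod_cast hm
  have hv1 : |v| ≤ 1 / 4 := by
    have h1 : |v| * 2 ^ 40 ≤ 274877906944 := hv.trans hmR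
    norm_num at h1 ⊢
    linarith
  have h1 := Real.exp_bound (x := v) (by linarith : |v| ≤ 1) (n := 5) (by norm_num)
  have h2 : (∑ k ∈ Finset.range 5, v ^ k / (k.factorial : ℝ)) =
      1 + v + v ^ 2 / 2 + v ^ 3 / 6 + v ^ 4 / 24 := by
    simp [Finset.sum_range_succ, Nat.factorial]
  rw [h2] at h1
  have h3 : |v| ^ 5 * ((Nat.succ 5 : ℕ) / ((Nat.factorial 5 : ℕ) * ((5 : ℕ) : ℝ))) =
      |v| ^ 5 / 100 := by
    norm_num [Nat.factorial]
    ring
  rw [h3] at h1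
  -- the main term
  have h4 : |v| ^ 5 / 100 * 2 ^ 40 ≤
      (Nat.div (Nat.shiftRight (((m * m) * (m * m)) * m) 160) 100 : ℕ) + 1 := by
    have h5 : (|v| * 2 ^ 40) ^ 5 ≤ (m : ℝ) ^ 5 := by gcongr
    have h6 := (tmf_shr (((m * m) * (m * m)) * m) 160).1
    push_cast at h6
    have h7' : (Nat.shiftRight (((m * m) * (m * m)) * m) 160 : ℕ) + 1 ≤
        (Nat.div (Nat.shiftRight (((m * m) * (m * m)) * m) 160) 100 + 1) * 100 := tmf_div _
    have h8 : ((Nat.shiftRight (((m * m) * (m * m)) * m) 160 : ℕ) : ℝ) + 1 ≤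
        (((Nat.div (Nat.shiftRight (((m * m) * (m * m)) * m) 160) 100 : ℕ) : ℝ) + 1) * 100 := by
      exact_mod_cast h7'
    have h9 : |v| ^ 5 * 2 ^ 40 ≤ (m : ℝ) ^ 5 / 2 ^ 160 := by
      rw [le_div_iff₀ (by positivity)]
      calc |v| ^ 5 * 2 ^ 40 * 2 ^ 160 = (|v| * 2 ^ 40) ^ 5 := by ring
        _ ≤ _ := h5
    have h10 : (m : ℝ) ^ 5 = (m : ℝ) * m * (m * m) * m := by ring
    rw [h10] at h9
    linarith
  -- the coefficients
  have h5 : |v| ^ 3 ≤ 1 / 64 := by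
    calc |v| ^ 3 ≤ (1 / 4) ^ 3 := by gcongr
      _ = 1 / 64 := by norm_num
  have h6 : |v| ^ 4 ≤ 1 / 256 := by
    calc |v| ^ 4 ≤ (1 / 4) ^ 4 := by gcongr
      _ = 1 / 256 := by norm_num
  have h5' : |v ^ 3| ≤ 1 / 64 := by rw [abs_pow]; exact h5
  have h6' : |v ^ 4| ≤ 1 / 256 := by rw [abs_pow]; exact h6
  have h7 : Real.exp v - (((1 + v) + ((549755813888 : ℝ) / 2 ^ 40 * (v * v) +
      (183251937962 : ℝ) / 2 ^ 40 * (v * (v * v)))) +
      (45812984490 : ℝ) / 2 ^ 40 * ((v * v) * (v * v))) =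
      (Real.exp v - (1 + v + v ^ 2 / 2 + v ^ 3 / 6 + v ^ 4 / 24)) +
        (v ^ 3 * (2 / (3 * 2 ^ 40)) + v ^ 4 * (2 / (3 * 2 ^ 40))) := by ring
  rw [h7]
  have h8 := abs_add_le (Real.exp v - (1 + v + v ^ 2 / 2 + v ^ 3 / 6 + v ^ 4 / 24))
    (v ^ 3 * (2 / (3 * 2 ^ 40)) + v ^ 4 * (2 / (3 * 2 ^ 40)))
  have h9 : |v ^ 3 * (2 / (3 * 2 ^ 40)) + v ^ 4 * (2 / (3 * 2 ^ 40))| ≤ 1 / 2 ^ 40 := by
    rw [abs_le] at h5' h6' ⊢
    constructor
    · norm_num
      linarith [h5'.1, h6'.1]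
    · norm_num
      linarith [h5'.2, h6'.2]
  push_cast
  have h10 : |Real.exp v - (1 + v + v ^ 2 / 2 + v ^ 3 / 6 + v ^ 4 / 24) +
      (v ^ 3 * (2 / (3 * 2 ^ 40)) + v ^ 4 * (2 / (3 * 2 ^ 40)))| * 2 ^ 40 ≤
      (|v| ^ 5 / 100 + 1 / 2 ^ 40) * 2 ^ 40 := by
    refine mul_le_mul_of_nonneg_right ?_ (by positivity)
    linarith
  refine h10.trans ?_
  rw [add_mul]
  norm_num at h4 ⊢
  linarith

theorem rep_exp {x : TM} {v : ℝ} (hx : Rep ρ x v) : Rep ρ (exp x) (Real.exp v) := by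
  have h2 := rep_mul hx hx
  have h3 := rep_mul hx h2
  have h4 := rep_mul h2 h2
  have k2 : dec 549755813888 = 549755813888 := dec_natCast (by norm_num)
  have k3 : dec 183251937962 = 183251937962 := dec_natCast (by norm_num)
  have k4 : dec 45812984490 = 45812984490 := dec_natCast (by norm_num)
  have g2 := rep_scE (k := 549755813888) (m := 549755813888) (by norm_num)
    (by rw [k2]; norm_num) h2
  have g3 := rep_scE (k := 183251937962) (m := 183251937962) (by norm_num)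
    (by rw [k3]; norm_num) h3
  have g4 := rep_scE (k := 45812984490) (m := 45812984490) (by norm_num)
    (by rw [k4]; norm_num) h4
  rw [k2] at g2
  rw [k3] at g3
  rw [k4] at g4
  have hS := rep_add (rep_add (rep_add rep_one hx) (rep_add g2 g3)) g4
  unfold exp exp2 expV
  generalize hcond : (good x && Nat.ble (mag x) 274877906944) = g
  cases g with
  | false =>
    rw [cond_false]
    exact rep_poison
  | true =>
    rw [cond_true]
    rw [Bool.and_eq_true] at hcond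
    have hm : mag x ≤ 274877906944 := Nat.le_of_ble_eq_true hcond.2
    refine rep_blow hS ?_
    refine (le_of_eq ?_).trans (tmf_exp hm (rep_mag hx hcond.1))
    push_cast
    rfl

end TM

end Pool.Agent.H20.Fib
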