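import Pool.Agent.H98.Fib.Tree
import Pool.Agent.H98.Fib.Esc

/-!
# FB-9. From a system of blocks to the hull tree

`BSys lam`: a set `S` of blocks; the block `s` is the interval `[l s, r s]` of energies, with three
child blocks in increasing order; at the energies of the block the half trace with index `m s` is at
most one in absolute value; every point of `Sig lam` in the block lies in a child block.

`st B s0 w` is the block of the word `w` (last letter first), the hull ends are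

  `hl w = sup_n l (0^n w)`,   `hr w = inf_n r (2^n w)`.

PROOF.
* `l_le`, `le_r` (children are inside: `l s ≤ l (ch s j)`, `r (ch s j) ≤ r s`, from `in0, g1, g2, in2, lr`).
* `n ↦ l (st (replicate n 0 ++ w))` is monotone and bounded by `r (st w)`, same for `r`.
  `l_le_hl`, `hr_le_r`, and `hl w ≤ r (0 :: w)`, `l (2 :: w) ≤ hr w`.
* `hl (0 :: w) = hl w`: the sup of the sequence shifted by one (`replicate n 0 ++ (0 :: w) =
  replicate (n+1) 0 ++ w`; monotone, so the same sup).  Same for `hr`.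
* `hlt`: `hl w ≤ r (0::w) < l (1::w) < l (2::w) ≤ hr w`.  `gap1`: `hr (0::w) ≤ r (0::w) < l (1::w) ≤ hl (1::w)`.
* `K_sub`: `x ∈ K w` gives a sequence of words `w_n = wordAt s w n` with `x` in all blocks; the index
  `m` grows by at least one each step, so `|xs lam x (m_n)| ≤ 1` infinitely often, and
  `Sig_iff_frequently` applies.
* `sub_K`: let `E ∈ Sig`, `l s0 ≤ E ≤ r s0` (block of `w`).  By `exh` and choice there is a sequence of letters with
  `E` in all blocks `w_n`.  Claim: `hl w' ≤ E` whenever `E` is in the block of `w'` (and `E ∈ Sig`):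
  otherwise `E < l (0^n w')` for some `n`; prove by induction on `n` that this is impossible
  (for all `w'` with `E` in the block of `w'`): `n = 0` trivial; `n + 1`: `E` is in some child `j` of `w'`;
  if `j ≠ 0` then `E ≥ l (j w') > r (0 w') ≥ l (0^(n+1) w')`, contradiction; if `j = 0` use the induction hypothesis
  for `0 :: w'`.  Same for `hr`.
-/

namespace Pool.Agent.H20.Fib

open Pool.Agent.H98.Fib

structure BSys (lam : ℝ) where
  S : Type
  l : S → ℝ
  r : S → ℝ
  m : S → ℕ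
  ch : S → Fin 3 → S
  lr : ∀ s, l s < r s
  in0 : ∀ s, l s ≤ l (ch s 0)
  g1 : ∀ s, r (ch s 0) < l (ch s 1)
  g2 : ∀ s, r (ch s 1) < l (ch s 2)
  in2 : ∀ s, r (ch s 2) ≤ r s
  mlt : ∀ s j, m s < m (ch s j)
  bd : ∀ s E, l s ≤ E → E ≤ r s → |xs lam E (m s)| ≤ 1
  exh : ∀ s E, E ∈ Sig lam → l s ≤ E → E ≤ r s → ∃ j, l (ch s j) ≤ E ∧ E ≤ r (ch s j)

namespace BSys

variable {lam : ℝ} (B : BSys lam) (s0 : B.S)

/-- the block of a word -/
def st : List (Fin 3) → B.S
  | [] => s0
  | i :: w => B.ch (st w) i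

/-- left end of the hull -/
noncomputable def hl (w : List (Fin 3)) : ℝ :=
  ⨆ n : ℕ, B.l (B.st s0 (List.replicate n 0 ++ w))

/-- right end of the hull -/
noncomputable def hr (w : List (Fin 3)) : ℝ :=
  ⨅ n : ℕ, B.r (B.st s0 (List.replicate n 2 ++ w))

theorem l_le (s : B.S) (j : Fin 3) : B.l s ≤ B.l (B.ch s j) := by
  have h0 := B.in0 s
  have h1 := B.lr (B.ch s 0)
  have h2 := B.g1 s
  have h3 := B.lr (B.ch s 1)
  have h4 := B.g2 s
  match j with
  | 0 => exact h0
  | 1 => linarith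
  | 2 => linarith

theorem le_r (s : B.S) (j : Fin 3) : B.r (B.ch s j) ≤ B.r s := by
  have h0 := B.in2 s
  have h1 := B.lr (B.ch s 2)
  have h2 := B.g1 s
  have h3 := B.lr (B.ch s 1)
  have h4 := B.g2 s
  match j with
  | 0 => linarith
  | 1 => linarith
  | 2 => exact h0

theorem rep_succ (i : Fin 3) (n : ℕ) (w : List (Fin 3)) :
    List.replicate (n + 1) i ++ w = i :: (List.replicate n i ++ w) := rfl

theorem rep_cons (i : Fin 3) (n : ℕ) (w : List (Fin 3)) :
    List.replicate n i ++ i :: w = List.replicate (n + 1) i ++ w := by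
  induction n with
  | zero => rfl
  | succ n ih =>
    rw [rep_succ, ih, rep_succ i (n + 1)]

theorem l_mono (w : List (Fin 3)) (i : Fin 3) :
    Monotone fun n => B.l (B.st s0 (List.replicate n i ++ w)) :=
  monotone_nat_of_le_succ fun _ => B.l_le _ _

theorem r_anti (w : List (Fin 3)) (i : Fin 3) :
    Antitone fun n => B.r (B.st s0 (List.replicate n i ++ w)) :=
  antitone_nat_of_succ_le fun _ => B.le_r _ _

theorem l_le_r' (w : List (Fin 3)) (i : Fin 3) (n k : ℕ) :
    B.l (B.st s0 (List.replicate n i ++ w)) ≤ B.r (B.st s0 (List.replicate k i ++ w)) := by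
  have h1 := B.l_mono s0 w i (le_max_left n k)
  have h2 := B.r_anti s0 w i (le_max_right n k)
  exact h1.trans ((B.lr _).le.trans h2)

theorem l_rep_le_hl (w : List (Fin 3)) (n : ℕ) :
    B.l (B.st s0 (List.replicate n 0 ++ w)) ≤ B.hl s0 w :=
  le_ciSup (f := fun n => B.l (B.st s0 (List.replicate n 0 ++ w)))
    ⟨B.r (B.st s0 w), by rintro _ ⟨n, rfl⟩; exact B.l_le_r' s0 w 0 n 0⟩ n

theorem hl_le_r_rep (w : List (Fin 3)) (n : ℕ) :
    B.hl s0 w ≤ B.r (B.st s0 (List.replicate n 0 ++ w)) :=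
  ciSup_le fun k => B.l_le_r' s0 w 0 k n

theorem hr_le_r_rep (w : List (Fin 3)) (n : ℕ) :
    B.hr s0 w ≤ B.r (B.st s0 (List.replicate n 2 ++ w)) :=
  ciInf_le (f := fun n => B.r (B.st s0 (List.replicate n 2 ++ w)))
    ⟨B.l (B.st s0 w), by rintro _ ⟨n, rfl⟩; exact B.l_le_r' s0 w 2 0 n⟩ n

theorem l_rep_le_hr (w : List (Fin 3)) (n : ℕ) :
    B.l (B.st s0 (List.replicate n 2 ++ w)) ≤ B.hr s0 w :=
  le_ciInf fun k => B.l_le_r' s0 w 2 n k

theorem l_le_hl (w : List (Fin 3)) : B.l (B.st s0 w) ≤ B.hl s0 w :=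
  B.l_rep_le_hl s0 w 0

theorem hl_le_r (w : List (Fin 3)) : B.hl s0 w ≤ B.r (B.st s0 w) :=
  B.hl_le_r_rep s0 w 0

theorem l_le_hr (w : List (Fin 3)) : B.l (B.st s0 w) ≤ B.hr s0 w :=
  B.l_rep_le_hr s0 w 0

theorem hr_le_r (w : List (Fin 3)) : B.hr s0 w ≤ B.r (B.st s0 w) :=
  B.hr_le_r_rep s0 w 0

theorem hl_le_r0 (w : List (Fin 3)) : B.hl s0 w ≤ B.r (B.st s0 (0 :: w)) :=
  B.hl_le_r_rep s0 w 1

theorem l2_le_hr (w : List (Fin 3)) : B.l (B.st s0 (2 :: w)) ≤ B.hr s0 w :=
  B.l_rep_le_hr s0 w 1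

theorem hl0 (w : List (Fin 3)) : B.hl s0 (0 :: w) = B.hl s0 w := by
  apply le_antisymm
  · refine ciSup_le fun n => ?_
    rw [rep_cons]
    exact B.l_rep_le_hl s0 w (n + 1)
  · refine ciSup_le fun n => ?_
    refine ((B.l_mono s0 w 0) (Nat.le_succ n)).trans ?_
    have := B.l_rep_le_hl s0 (0 :: w) n
    rwa [rep_cons] at this

theorem hr2 (w : List (Fin 3)) : B.hr s0 (2 :: w) = B.hr s0 w := by
  apply le_antisymm
  · refine le_ciInf fun n => ?_
    refine le_trans ?_ ((B.r_anti s0 w 2) (Nat.le_succ n))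
    have := B.hr_le_r_rep s0 (2 :: w) n
    rwa [rep_cons] at this
  · refine le_ciInf fun n => ?_
    rw [rep_cons]
    exact B.hr_le_r_rep s0 w (n + 1)

theorem hlt (w : List (Fin 3)) : B.hl s0 w < B.hr s0 w := by
  have h1 := B.hl_le_r0 s0 w
  have h2 : B.r (B.st s0 (0 :: w)) < B.l (B.st s0 (1 :: w)) := B.g1 (B.st s0 w)
  have h3 := B.lr (B.st s0 (1 :: w))
  have h4 : B.r (B.st s0 (1 :: w)) < B.l (B.st s0 (2 :: w)) := B.g2 (B.st s0 w)
  have h5 := B.l2_le_hr s0 w
  linarith

theorem gap1 (w : List (Fin 3)) : B.hr s0 (0 :: w) < B.hl s0 (1 :: w) :=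
  (B.hr_le_r s0 _).trans_lt ((B.g1 (B.st s0 w)).trans_le (B.l_le_hl s0 (1 :: w)))

theorem gap2 (w : List (Fin 3)) : B.hr s0 (1 :: w) < B.hl s0 (2 :: w) :=
  (B.hr_le_r s0 _).trans_lt ((B.g2 (B.st s0 w)).trans_le (B.l_le_hl s0 (2 :: w)))

/-- the hull tree below the block `s0` -/
noncomputable def tree : HTree where
  hl := B.hl s0
  hr := B.hr s0
  hlt := B.hlt s0
  hl0 := B.hl0 s0
  hr2 := B.hr2 s0
  gap1 := B.gap1 s0
  gap2 := B.gap2 s0

theorem m_lt (w : List (Fin 3)) (s : ℕ → Fin 3) (n : ℕ) :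
    n ≤ B.m (B.st s0 (wordAt s w n)) := by
  induction n with
  | zero => exact Nat.zero_le _
  | succ n ih => exact Nat.succ_le_of_lt (lt_of_le_of_lt ih (B.mlt (B.st s0 (wordAt s w n)) (s n)))

theorem K_sub (w : List (Fin 3)) : (B.tree s0).K w ⊆ Sig lam := by
  rintro x ⟨s, hs⟩
  rw [Sig_iff_frequently]
  intro K
  refine ⟨_, B.m_lt s0 w s K, ?_⟩
  have h := hs K
  exact B.bd _ x ((B.l_le_hl s0 _).trans h.1) (h.2.trans (B.hr_le_r s0 _))

/-- The path of a point of the spectrum in the block of `w`. -/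
noncomputable def path (w : List (Fin 3)) (E : ℝ)
    (h : B.l (B.st s0 w) ≤ E ∧ E ≤ B.r (B.st s0 w)) (hE : E ∈ Sig lam) :
    ℕ → {v : List (Fin 3) // B.l (B.st s0 v) ≤ E ∧ E ≤ B.r (B.st s0 v)}
  | 0 => ⟨w, h⟩
  | n + 1 => ⟨Classical.choose
        (B.exh _ E hE (path w E h hE n).2.1 (path w E h hE n).2.2) :: (path w E h hE n).1,
      Classical.choose_spec (B.exh _ E hE (path w E h hE n).2.1 (path w E h hE n).2.2)⟩

theorem exists_path {w : List (Fin 3)} {E : ℝ}
    (h : B.l (B.st s0 w) ≤ E ∧ E ≤ B.r (B.st s0 w)) (hE : E ∈ Sig lam) :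
    ∃ s : ℕ → Fin 3, ∀ n, B.l (B.st s0 (wordAt s w n)) ≤ E ∧
      E ≤ B.r (B.st s0 (wordAt s w n)) := by
  let s : ℕ → Fin 3 := fun n => Classical.choose
    (B.exh _ E hE (B.path s0 w E h hE n).2.1 (B.path s0 w E h hE n).2.2)
  have key : ∀ n, wordAt s w n = (B.path s0 w E h hE n).1 := by
    intro n
    induction n with
    | zero => rfl
    | succ n ih =>
      show s n :: wordAt s w n = _ :: (B.path s0 w E h hE n).1
      rw [ih]
  refine ⟨s, fun n => ?_⟩
  rw [key n]
  exact (B.path s0 w E h hE n).2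

/-- If all blocks along a path contain `E`, so do all hulls. -/
theorem hl_le_of_path {w : List (Fin 3)} {s : ℕ → Fin 3} {E : ℝ}
    (h : ∀ n, B.l (B.st s0 (wordAt s w n)) ≤ E ∧ E ≤ B.r (B.st s0 (wordAt s w n))) (n : ℕ) :
    B.hl s0 (wordAt s w n) ≤ E := by
  refine ciSup_le fun k => ?_
  by_contra hc
  push Not at hc
  have key : ∀ j, (B.l (B.st s0 (List.replicate j 0 ++ wordAt s w n)) ≤ E ∧
      wordAt s w (n + j) = List.replicate j 0 ++ wordAt s w n) ∨
      B.r (B.st s0 (List.replicate j 0 ++ wordAt s w n)) < E := by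
    intro j
    induction j with
    | zero => exact Or.inl ⟨(h n).1, rfl⟩
    | succ j ih =>
      rcases ih with ⟨h1, h2⟩ | h1
      · have hw : wordAt s w (n + (j + 1)) =
            s (n + j) :: (List.replicate j 0 ++ wordAt s w n) := by
          show s (n + j) :: wordAt s w (n + j) = _
          rw [h2]
        have hE := h (n + (j + 1))
        rw [hw] at hE
        have hg1 := B.g1 (B.st s0 (List.replicate j 0 ++ wordAt s w n))
        have hg2 := B.g2 (B.st s0 (List.replicate j 0 ++ wordAt s w n))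
        have hlr1 := B.lr (B.ch (B.st s0 (List.replicate j 0 ++ wordAt s w n)) 1)
        have cases3 : s (n + j) = 0 ∨ s (n + j) = 1 ∨ s (n + j) = 2 := by
          generalize s (n + j) = i
          fin_cases i <;> simp
        rcases cases3 with e | e | e
        · rw [e] at hE hw
          exact Or.inl ⟨hE.1, hw⟩
        · rw [e] at hE
          exact Or.inr (hg1.trans_le hE.1)
        · rw [e] at hE
          exact Or.inr (hg1.trans (hlr1.trans (hg2.trans_le hE.1)))
      · exact Or.inr ((B.le_r _ 0).trans_lt h1)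
  rcases key k with ⟨h1, _⟩ | h1
  · linarith
  · linarith [B.lr (B.st s0 (List.replicate k 0 ++ wordAt s w n))]

theorem le_hr_of_path {w : List (Fin 3)} {s : ℕ → Fin 3} {E : ℝ}
    (h : ∀ n, B.l (B.st s0 (wordAt s w n)) ≤ E ∧ E ≤ B.r (B.st s0 (wordAt s w n))) (n : ℕ) :
    E ≤ B.hr s0 (wordAt s w n) := by
  refine le_ciInf fun k => ?_
  by_contra hc
  push Not at hc
  have key : ∀ j, (E ≤ B.r (B.st s0 (List.replicate j 2 ++ wordAt s w n)) ∧
      wordAt s w (n + j) = List.replicate j 2 ++ wordAt s w n) ∨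
      E < B.l (B.st s0 (List.replicate j 2 ++ wordAt s w n)) := by
    intro j
    induction j with
    | zero => exact Or.inl ⟨(h n).2, rfl⟩
    | succ j ih =>
      rcases ih with ⟨h1, h2⟩ | h1
      · have hw : wordAt s w (n + (j + 1)) =
            s (n + j) :: (List.replicate j 2 ++ wordAt s w n) := by
          show s (n + j) :: wordAt s w (n + j) = _
          rw [h2]
        have hE := h (n + (j + 1))
        rw [hw] at hE
        have hg1 := B.g1 (B.st s0 (List.replicate j 2 ++ wordAt s w n))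
        have hg2 := B.g2 (B.st s0 (List.replicate j 2 ++ wordAt s w n))
        have hlr1 := B.lr (B.ch (B.st s0 (List.replicate j 2 ++ wordAt s w n)) 1)
        have cases3 : s (n + j) = 0 ∨ s (n + j) = 1 ∨ s (n + j) = 2 := by
          generalize s (n + j) = i
          fin_cases i <;> simp
        rcases cases3 with e | e | e
        · rw [e] at hE
          exact Or.inr (hE.2.trans_lt (hg1.trans (hlr1.trans hg2)))
        · rw [e] at hE
          exact Or.inr (hE.2.trans_lt hg2)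
        · rw [e] at hE hw
          exact Or.inl ⟨hE.2, hw⟩
      · exact Or.inr (h1.trans_le (B.l_le _ 2))
  rcases key k with ⟨h1, _⟩ | h1
  · linarith
  · linarith [B.lr (B.st s0 (List.replicate k 2 ++ wordAt s w n))]

theorem sub_K (w : List (Fin 3)) {E : ℝ} (hE : E ∈ Sig lam) (h1 : B.l (B.st s0 w) ≤ E)
    (h2 : E ≤ B.r (B.st s0 w)) : E ∈ (B.tree s0).K w := by
  obtain ⟨s, hs⟩ := B.exists_path s0 ⟨h1, h2⟩ hE
  exact ⟨s, fun n => ⟨B.hl_le_of_path s0 hs n, B.le_hr_of_path s0 hs n⟩⟩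

end BSys

end Pool.Agent.H20.Fib
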